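import Mathlib

/-!
Basic definitions on the lattice `ℤ^d`.
-/

namespace BIDLA

/-- Sites of the lattice `ℤ^d`. -/
abbrev Site (d : ℕ) := Fin d → ℤ

/-- The `2d` nearest-neighbour directions. -/
abbrev Dir (d : ℕ) := Fin d × Bool

/-- The unit vector of a direction. -/
def vec {d : ℕ} (e : Dir d) : Site d := Pi.single e.1 (if e.2 then 1 else -1)

/-- A site as a point of Euclidean space. -/
noncomputable def toE {d : ℕ} (x : Site d) : EuclideanSpace ℝ (Fin d) :=
  WithLp.toLp 2 (fun i => (x i : ℝ))

end BIDLA
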