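import Mathlib
import Pool.Agent.Work.MP_1354f0_pr.Basic

/-!
# Branching internal DLA on `ℤ^d`: definitions used in the statements
-/

namespace BIDLA

open MeasureTheory Filter

/-- Hypothesis (H) on the offspring law `ν`: mean one, positive variance, exponential moment. -/
structure HypH (ν : PMF ℕ) : Prop where
  mean_one : ∑' k : ℕ, (k : ℝ) * (ν k).toReal = 1
  var_pos : 0 < ∑' k : ℕ, ((k : ℝ) - 1) ^ 2 * (ν k).toReal
  exp_moment : ∃ l : ℝ, 0 < l ∧ Summable fun k : ℕ => Real.exp (l * k) * (ν k).toReal

/-- State of the particle system: the aggregate and the (multiset of positions of the)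
particles that have not stopped yet. -/
structure State (d : ℕ) where
  agg : Finset (Site d)
  act : Multiset (Site d)

/-- A particle arrives at `x`: outside the aggregate it stops there and `x` joins the aggregate,
inside the aggregate it stays active. -/
def arrive {d : ℕ} (s : State d) (x : Site d) : State d :=
  if x ∈ s.agg then ⟨s.agg, x ::ₘ s.act⟩ else ⟨insert x s.agg, s.act⟩

/-- The clock of an active particle at `v` rings: it is removed and replaced by one child for each
entry of `w`; the child with entry `e` steps from `v` to the neighbour `v + vec e`. -/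
def ring {d : ℕ} (s : State d) (v : Site d) (w : List (Dir d)) : State d :=
  w.foldl (fun s' e => arrive s' (v + vec e)) ⟨s.agg, s.act.erase v⟩

/-- If there is no active particle, a new branching random walk is launched: one particle at the
origin. -/
def launch {d : ℕ} (s : State d) : State d :=
  if s.act = 0 then ⟨s.agg, {0}⟩ else s

/-- Branching internal DLA, watched at the successive ringing times of the clocks (over all
successive branching random walks). `site n` is the position of the particle whose clock is the
`n`-th to ring, `offs n` the list of the steps of its children. `ℱ n` is the information available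
before the children of the `n`-th ring are revealed; it contains the whole past and the choice of
the ringing particle, and may contain anything else (for instance all clocks). The children of the
`n`-th ring are independent of `ℱ n`: their number has law `ν` and their steps are independent and
uniform among the `2d` directions. -/
structure Process (d : ℕ) (ν : PMF ℕ) {Ω : Type*} [mΩ : MeasurableSpace Ω] (P : Measure Ω) where
  ℱ : ℕ → MeasurableSpace Ω
  mono : Monotone ℱ
  le : ∀ n, ℱ n ≤ mΩ
  state : ℕ → Ω → State d
  site : ℕ → Ω → Site d
  offs : ℕ → Ω → List (Dir d)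
  meas_state : ∀ n s, MeasurableSet[ℱ n] {ω | state n ω = s}
  meas_site : ∀ n x, MeasurableSet[ℱ n] {ω | site n ω = x}
  meas_offs : ∀ n w, MeasurableSet {ω | offs n ω = w}
  start : ∀ ω, state 0 ω = ⟨{0}, 0⟩
  site_mem : ∀ n ω, site n ω ∈ (launch (state n ω)).act
  step : ∀ n ω, state (n + 1) ω = ring (launch (state n ω)) (site n ω) (offs n ω)
  law : ∀ n B, MeasurableSet[ℱ n] B → ∀ w : List (Dir d),
    P (B ∩ {ω | offs n ω = w}) = P B * (ν w.length / (2 * d) ^ w.length)

variable {d : ℕ} {ν : PMF ℕ} {Ω : Type*} [MeasurableSpace Ω] {P : Measure Ω}

/-- No particle is active before the `n`-th ring. -/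
def Process.Idle (X : Process d ν P) (ω : Ω) (n : ℕ) : Prop := (X.state n ω).act = 0

/-- The aggregate `A(t)`, `t ≥ 1`: the aggregate at the `t`-th time without active particles,
i.e. after `t - 1` branching random walks have been launched and have died out. -/
noncomputable def Process.A (X : Process d ν P) (t : ℕ) (ω : Ω) : Finset (Site d) :=
  (X.state (Nat.nth (X.Idle ω) (t - 1)) ω).agg

/-- Everything that has happened before the choice of the particle whose clock is the `n`-th to
ring: the states up to `n`, and the ringing particles and the steps of their children before. -/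
@[instance_reducible] def Process.past (X : Process d ν P) (n : ℕ) : MeasurableSpace Ω :=
  (⨆ m ∈ Set.Iic n, MeasurableSpace.comap (X.state m) ⊤) ⊔
    (⨆ m ∈ Set.Iio n, MeasurableSpace.comap (X.site m) ⊤) ⊔
    (⨆ m ∈ Set.Iio n, MeasurableSpace.comap (X.offs m) ⊤)

/-- Given the past, the particle whose clock is the next to ring is uniform among the active
particles, as it is for independent exponential clocks of equal rate. -/
def Process.Uniform (X : Process d ν P) : Prop :=
  ∀ n B, MeasurableSet[X.past n] B → ∀ x : Site d,
    P (B ∩ {ω | X.site n ω = x}) =
      ∫⁻ ω in B, ((launch (X.state n ω)).act.count x : ENNReal) /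
        Multiset.card (launch (X.state n ω)).act ∂P

/-- volume of the unit ball of `ℝ^d` -/
noncomputable def unitVol (d : ℕ) : ℝ :=
  (volume (Metric.ball (0 : EuclideanSpace ℝ (Fin d)) 1)).toReal

/-- `r(t)`: the radius of the Euclidean ball of volume `t` -/
noncomputable def radius (d : ℕ) (t : ℝ) : ℝ := (t / unitVol d) ^ (1 / (d : ℝ))

/-- inner deviation of a finite set of sites from the ball of radius `r` -/
noncomputable def devIn {d : ℕ} (r : ℝ) (A : Finset (Site d)) : ℝ :=
  sInf {δ : ℝ | 0 ≤ δ ∧ ∀ z : Site d, ‖toE z‖ < r - δ → z ∈ A}

/-- outer deviation of a finite set of sites from the ball of radius `r` -/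
noncomputable def devOut {d : ℕ} (r : ℝ) (A : Finset (Site d)) : ℝ :=
  sInf {δ : ℝ | 0 ≤ δ ∧ ∀ z ∈ A, ‖toE z‖ < r + δ}

end BIDLA
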