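import Mathlib
import Pool.Agent.Work.MP_1354f0_pr.Defs

/-!
Deterministic evolution of the particle system.
-/

namespace BIDLA

open MeasureTheory

variable {d : ℕ}

section mass

variable {M : Type*} [AddCommGroup M]

/-- total of `f` over the aggregate and the active particles -/
def mass (f : Site d → M) (s : State d) : M := ∑ x ∈ s.agg, f x + (s.act.map f).sum

lemma mass_arrive (f : Site d → M) (s : State d) (x : Site d) :
    mass f (arrive s x) = mass f s + f x := by
  unfold arrive mass
  split_ifs with h
  · simp only [Multiset.map_cons, Multiset.sum_cons]; abel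
  · simp only [Finset.sum_insert h]; abel

lemma mass_foldl (f : Site d → M) (v : Site d) (w : List (Dir d)) (s : State d) :
    mass f (w.foldl (fun s' e => arrive s' (v + vec e)) s)
      = mass f s + (w.map fun e => f (v + vec e)).sum := by
  induction w generalizing s with
  | nil => simp
  | cons a w ih =>
    rw [List.foldl_cons, ih, mass_arrive, List.map_cons, List.sum_cons]; abel

lemma mass_ring (f : Site d → M) {s : State d} {v : Site d} (hv : v ∈ s.act) (w : List (Dir d)) :
    mass f (ring s v w) = mass f s - f v + (w.map fun e => f (v + vec e)).sum := by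
  unfold ring
  rw [mass_foldl]
  congr 1
  unfold mass
  simp only
  have : (s.act.map f).sum = f v + ((s.act.erase v).map f).sum := by
    rw [← Multiset.sum_cons, ← Multiset.map_cons, Multiset.cons_erase hv]
  rw [this]; abel

lemma mass_launch (f : Site d → M) (s : State d) [Decidable (s.act = 0)] :
    mass f (launch s) = mass f s + if s.act = 0 then f 0 else 0 := by
  unfold launch
  split_ifs with h
  · unfold mass
    simp [h]
  · simp

end mass

/-- basic invariant -/
def Inv (s : State d) : Prop := (0 : Site d) ∈ s.agg ∧ ∀ x ∈ s.act, x ∈ s.agg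

lemma agg_subset_arrive (s : State d) (x : Site d) : s.agg ⊆ (arrive s x).agg := by
  unfold arrive
  split_ifs
  · exact Finset.Subset.refl _
  · exact Finset.subset_insert _ _

lemma inv_arrive {s : State d} (h : Inv s) (x : Site d) : Inv (arrive s x) := by
  refine ⟨agg_subset_arrive s x h.1, ?_⟩
  unfold arrive
  split_ifs with hx
  · intro y hy
    rw [Multiset.mem_cons] at hy
    rcases hy with rfl | hy
    · exact hx
    · exact h.2 y hy
  · intro y hy
    exact Finset.mem_insert_of_mem (h.2 y hy)

lemma agg_subset_foldl (v : Site d) (w : List (Dir d)) (s : State d) :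
    s.agg ⊆ (w.foldl (fun s' e => arrive s' (v + vec e)) s).agg := by
  induction w generalizing s with
  | nil => simp
  | cons a w ih =>
    rw [List.foldl_cons]
    exact (agg_subset_arrive s _).trans (ih _)

lemma inv_foldl (v : Site d) (w : List (Dir d)) {s : State d} (h : Inv s) :
    Inv (w.foldl (fun s' e => arrive s' (v + vec e)) s) := by
  induction w generalizing s with
  | nil => simpa
  | cons a w ih =>
    rw [List.foldl_cons]
    exact ih (inv_arrive h _)

lemma inv_ring {s : State d} (h : Inv s) (v : Site d) (w : List (Dir d)) : Inv (ring s v w) := by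
  unfold ring
  exact inv_foldl v w ⟨h.1, fun x hx => h.2 x (Multiset.mem_of_mem_erase hx)⟩

lemma agg_subset_ring (s : State d) (v : Site d) (w : List (Dir d)) : s.agg ⊆ (ring s v w).agg :=
  agg_subset_foldl v w ⟨s.agg, s.act.erase v⟩

lemma inv_launch {s : State d} (h : Inv s) : Inv (launch s) := by
  unfold launch
  split_ifs
  · refine ⟨h.1, ?_⟩
    intro x hx
    rw [Multiset.mem_singleton] at hx
    rw [hx]; exact h.1
  · exact h

lemma agg_launch (s : State d) : (launch s).agg = s.agg := by
  unfold launch; split_ifs <;> rfl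

/-- sites added by a ring are neighbours of `v` -/
lemma mem_foldl_agg {v : Site d} {w : List (Dir d)} {s : State d} {x : Site d}
    (hx : x ∈ (w.foldl (fun s' e => arrive s' (v + vec e)) s).agg) :
    x ∈ s.agg ∨ ∃ e, x = v + vec e := by
  induction w generalizing s with
  | nil => exact Or.inl (by simpa using hx)
  | cons a w ih =>
    rw [List.foldl_cons] at hx
    rcases ih hx with h | h
    · unfold arrive at h
      split_ifs at h with h2
      · exact Or.inl h
      · rw [Finset.mem_insert] at h
        rcases h with h | h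
        · exact Or.inr ⟨a, h⟩
        · exact Or.inl h
    · exact Or.inr h

lemma mem_ring_agg {v : Site d} {w : List (Dir d)} {s : State d} {x : Site d}
    (hx : x ∈ (ring s v w).agg) : x ∈ s.agg ∨ ∃ e, x = v + vec e :=
  mem_foldl_agg (s := ⟨s.agg, s.act.erase v⟩) hx

variable {ν : PMF ℕ} {Ω : Type*} [MeasurableSpace Ω] {P : Measure Ω} (X : Process d ν P)

namespace Process

lemma inv (n : ℕ) (ω : Ω) : Inv (X.state n ω) := by
  induction n with
  | zero => rw [X.start]; exact ⟨by simp, by simp⟩
  | succ n ih => rw [X.step]; exact inv_ring (inv_launch ih) _ _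

lemma site_mem_agg (n : ℕ) (ω : Ω) : X.site n ω ∈ (X.state n ω).agg := by
  have h := (inv_launch (X.inv n ω)).2 _ (X.site_mem n ω)
  rwa [agg_launch] at h

lemma agg_mono_succ (n : ℕ) (ω : Ω) : (X.state n ω).agg ⊆ (X.state (n + 1) ω).agg := by
  rw [X.step]
  have := agg_subset_ring (launch (X.state n ω)) (X.site n ω) (X.offs n ω)
  rwa [agg_launch] at this

lemma agg_mono {m n : ℕ} (h : m ≤ n) (ω : Ω) : (X.state m ω).agg ⊆ (X.state n ω).agg := by
  induction n, h using Nat.le_induction with
  | base => exact Finset.Subset.refl _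
  | succ n _ ih => exact ih.trans (X.agg_mono_succ n ω)

open Classical in
/-- number of launches before the `n`-th ring -/
noncomputable def L (n : ℕ) (ω : Ω) : ℕ := Nat.count (X.Idle ω) n

open Classical in
lemma L_succ (n : ℕ) (ω : Ω) : X.L (n + 1) ω = X.L n ω + if X.Idle ω n then 1 else 0 := by
  unfold L
  rw [Nat.count_succ]

open Classical in
lemma L_zero (ω : Ω) : X.L 0 ω = 0 := by unfold L; exact Nat.count_zero _

open Classical in
lemma L_mono {m n : ℕ} (h : m ≤ n) (ω : Ω) : X.L m ω ≤ X.L n ω := by
  unfold L; exact Nat.count_monotone _ h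

lemma idle_zero (ω : Ω) : X.Idle ω 0 := by
  unfold Idle; rw [X.start]

open Classical in
/-- mass identity for one ring -/
lemma mass_succ {M : Type*} [AddCommGroup M] (f : Site d → M) (n : ℕ) (ω : Ω) :
    mass f (X.state (n + 1) ω) = mass f (X.state n ω) + (if X.Idle ω n then f 0 else 0)
      - f (X.site n ω) + ((X.offs n ω).map fun e => f (X.site n ω + vec e)).sum := by
  rw [X.step, mass_ring f (X.site_mem n ω), mass_launch]
  by_cases h : (X.state n ω).act = 0
  · have h' : X.Idle ω n := h
    simp [h, h']
  · have h' : ¬ X.Idle ω n := h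
    simp [h, h']

/-! ### measurability -/

instance : MeasurableSpace (State d) := ⊤

instance : DiscreteMeasurableSpace (State d) := ⟨fun _ => trivial⟩

end Process

instance : Countable (State d) := by
  have : Function.Injective fun s : State d => (s.agg, s.act) := by
    rintro ⟨a, b⟩ ⟨c, e⟩ h
    simp only [Prod.mk.injEq] at h
    rw [h.1, h.2]
  exact this.countable

namespace Process

lemma measurable_state {m n : ℕ} (h : m ≤ n) : Measurable[X.ℱ n] (X.state m) := by
  refine Measurable.mono (@measurable_to_countable' _ _ _ _ (X.ℱ m) _ ?_) (X.mono h) le_rfl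
  intro s
  exact X.meas_state m s

lemma measurable_site {m n : ℕ} (h : m ≤ n) : Measurable[X.ℱ n] (X.site m) := by
  refine Measurable.mono (@measurable_to_countable' _ _ _ _ (X.ℱ m) _ ?_) (X.mono h) le_rfl
  intro s
  exact X.meas_site m s

instance : MeasurableSpace (List (Dir d)) := ⊤

lemma measurable_offs (n : ℕ) : Measurable (X.offs n) := by
  refine measurable_to_countable' fun w => X.meas_offs n w

lemma measurableSet_idle {m n : ℕ} (h : m ≤ n) : MeasurableSet[X.ℱ n] {ω | X.Idle ω m} := by
  have : {ω | X.Idle ω m} = X.state m ⁻¹' {s | s.act = 0} := rfl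
  rw [this]
  exact X.measurable_state h trivial

omit [MeasurableSpace Ω] in
lemma measurable_add_ite (m : MeasurableSpace Ω) {f : Ω → ℕ} (hf : Measurable f) {p : Ω → Prop}
    [DecidablePred p] (h : MeasurableSet {ω | p ω}) :
    Measurable (fun ω => f ω + if p ω then (1 : ℕ) else 0) :=
  hf.add (Measurable.ite h measurable_const measurable_const)

lemma measurable_L {m n : ℕ} (h : m ≤ n) : Measurable[X.ℱ n] (X.L m) := by
  induction m with
  | zero =>
    have : X.L 0 = fun _ => 0 := by funext ω; exact X.L_zero ω
    rw [this]; exact @measurable_const _ _ _ (X.ℱ n) _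
  | succ m ih =>
    classical
    have e : X.L (m + 1) = fun ω => X.L m ω + if X.Idle ω m then 1 else 0 := by
      funext ω; rw [X.L_succ]
    rw [e]
    exact measurable_add_ite (X.ℱ n) (ih (by omega)) (X.measurableSet_idle (by omega))

/-- one-step integration on a fixed list of steps -/
lemma lintegral_offs (n : ℕ) (w : List (Dir d)) (F : Ω → ENNReal) (hF : Measurable[X.ℱ n] F) :
    ∫⁻ ω in {ω | X.offs n ω = w}, F ω ∂P = (ν w.length / (2 * d) ^ w.length) * ∫⁻ ω, F ω ∂P := by
  have h1 : (P.restrict {ω | X.offs n ω = w}).trim (X.le n)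
      = (ν w.length / (2 * d) ^ w.length) • P.trim (X.le n) := by
    refine @Measure.ext _ (X.ℱ n) _ _ fun B hB => ?_
    rw [trim_measurableSet_eq _ hB, Measure.restrict_apply (X.le n _ hB), X.law n B hB w,
      Measure.smul_apply, trim_measurableSet_eq _ hB, smul_eq_mul, mul_comm]
  rw [← lintegral_trim (X.le n) hF, h1, lintegral_smul_measure, lintegral_trim (X.le n) hF,
    smul_eq_mul]

/-- one-step integration -/
lemma lintegral_step (n : ℕ) (G : Ω → List (Dir d) → ENNReal)
    (hG : ∀ w, Measurable[X.ℱ n] (fun ω => G ω w)) :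
    ∫⁻ ω, G ω (X.offs n ω) ∂P = ∫⁻ ω, ∑' w, (ν w.length / (2 * d) ^ w.length) * G ω w ∂P := by
  have e1 : ∀ ω, G ω (X.offs n ω) = ∑' w, ({ω | X.offs n ω = w}).indicator (fun ω => G ω w) ω := by
    intro ω
    rw [tsum_eq_single (X.offs n ω)]
    · rw [Set.indicator_of_mem]; rfl
    · intro w hw
      rw [Set.indicator_of_notMem]
      exact fun h => hw h.symm
  simp_rw [e1]
  rw [lintegral_tsum, lintegral_tsum]
  · refine tsum_congr fun w => ?_
    rw [lintegral_indicator (X.meas_offs n w), X.lintegral_offs n w _ (hG w),
      lintegral_const_mul _ ((hG w).mono (X.le n) le_rfl)]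
  · intro w
    exact (((hG w).mono (X.le n) le_rfl).const_mul _).aemeasurable
  · intro w
    exact (((hG w).mono (X.le n) le_rfl).indicator (X.meas_offs n w)).aemeasurable

end Process

end BIDLA
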