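import Mathlib

/-!
Taylor expansion of `(1+z)^q` to third order, with a quartic remainder, and the
second difference of `(a + 2 β τ + τ^2)^q`.
-/

namespace BIDLA

open Real Set

/-- If `f 0 = 0` and `|f' x| ≤ C |x|^n` on `[-1/2,1/2]` then `|f z| ≤ C |z|^(n+1)` there. -/
lemma bound_of_deriv {f f' : ℝ → ℝ} {C : ℝ} {n : ℕ} (hC : 0 ≤ C) (h0 : f 0 = 0)
    (hd : ∀ x, |x| ≤ 1 / 2 → HasDerivAt f (f' x) x)
    (hb : ∀ x, |x| ≤ 1 / 2 → |f' x| ≤ C * |x| ^ n) :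
    ∀ z, |z| ≤ 1 / 2 → |f z| ≤ C * |z| ^ (n + 1) := by
  intro z hz
  have hconv : Convex ℝ (Icc (-|z|) |z|) := convex_Icc _ _
  have h1 : ∀ x ∈ Icc (-|z|) |z|, HasDerivWithinAt f (f' x) (Icc (-|z|) |z|) x := by
    intro x hx
    have : |x| ≤ |z| := abs_le.2 ⟨hx.1, hx.2⟩
    exact (hd x (this.trans hz)).hasDerivWithinAt
  have h2 : ∀ x ∈ Icc (-|z|) |z|, ‖f' x‖ ≤ C * |z| ^ n := by
    intro x hx
    have : |x| ≤ |z| := abs_le.2 ⟨hx.1, hx.2⟩
    rw [Real.norm_eq_abs]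
    refine (hb x (this.trans hz)).trans ?_
    exact mul_le_mul_of_nonneg_left (pow_le_pow_left₀ (abs_nonneg _) this n) hC
  have h3 := hconv.norm_image_sub_le_of_norm_hasDerivWithin_le h1 h2
    (x := 0) (y := z) ⟨by simp, abs_nonneg _⟩ ⟨neg_abs_le z, le_abs_self z⟩
  rw [h0, sub_zero, sub_zero, Real.norm_eq_abs, Real.norm_eq_abs] at h3
  rw [pow_succ, ← mul_assoc]
  exact h3

/-- zeroth order remainder -/
lemma rem0 (q : ℝ) : ∃ C, 0 ≤ C ∧ ∀ z : ℝ, |z| ≤ 1 / 2 → |(1 + z) ^ q| ≤ C * |z| ^ 0 := by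
  refine ⟨max ((1 / 2 : ℝ) ^ q) ((3 / 2 : ℝ) ^ q), le_max_of_le_left (by positivity), ?_⟩
  intro z hz
  rw [abs_le] at hz
  have h1 : 0 < 1 + z := by linarith [hz.1]
  rw [abs_of_pos (rpow_pos_of_pos h1 _), pow_zero, mul_one]
  rcases le_total 0 q with hq | hq
  · exact le_max_of_le_right (rpow_le_rpow h1.le (by linarith [hz.2]) hq)
  · exact le_max_of_le_left (rpow_le_rpow_of_nonpos (by norm_num) (by linarith [hz.1]) hq)

lemma hasDeriv (q : ℝ) (x : ℝ) (hx : |x| ≤ 1 / 2) :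
    HasDerivAt (fun z : ℝ => (1 + z) ^ q) (q * (1 + x) ^ (q - 1)) x := by
  rw [abs_le] at hx
  have h1 : (1 + x) ≠ 0 := by linarith [hx.1]
  have := (((hasDerivAt_id x).const_add 1).rpow_const (p := q) (Or.inl h1))
  simpa using this

lemma rem1 (q : ℝ) : ∃ C, 0 ≤ C ∧ ∀ z : ℝ, |z| ≤ 1 / 2 → |(1 + z) ^ q - 1| ≤ C * |z| ^ 1 := by
  obtain ⟨C, hC, h⟩ := rem0 (q - 1)
  refine ⟨|q| * C, by positivity, ?_⟩
  apply bound_of_deriv (f' := fun x => q * (1 + x) ^ (q - 1)) (by positivity) (by simp)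
  · intro x hx
    exact (hasDeriv q x hx).sub_const 1
  · intro x hx
    rw [abs_mul, mul_assoc]
    exact mul_le_mul_of_nonneg_left (h x hx) (abs_nonneg _)

lemma rem2 (q : ℝ) : ∃ C, 0 ≤ C ∧ ∀ z : ℝ, |z| ≤ 1 / 2 →
    |(1 + z) ^ q - (1 + q * z)| ≤ C * |z| ^ 2 := by
  obtain ⟨C, hC, h⟩ := rem1 (q - 1)
  refine ⟨|q| * C, by positivity, ?_⟩
  apply bound_of_deriv (f' := fun x => q * ((1 + x) ^ (q - 1) - 1)) (by positivity) (by simp)
  · intro x hx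
    have h1 : HasDerivAt (fun z : ℝ => 1 + q * z) q x := by
      simpa using ((hasDerivAt_id x).const_mul q).const_add 1
    have := (hasDeriv q x hx).sub h1
    refine this.congr_deriv ?_
    ring
  · intro x hx
    rw [abs_mul, mul_assoc]
    exact mul_le_mul_of_nonneg_left (h x hx) (abs_nonneg _)

lemma rem3 (q : ℝ) : ∃ C, 0 ≤ C ∧ ∀ z : ℝ, |z| ≤ 1 / 2 →
    |(1 + z) ^ q - (1 + q * z + q * (q - 1) / 2 * z ^ 2)| ≤ C * |z| ^ 3 := by
  obtain ⟨C, hC, h⟩ := rem2 (q - 1)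
  refine ⟨|q| * C, by positivity, ?_⟩
  apply bound_of_deriv (f' := fun x => q * ((1 + x) ^ (q - 1) - (1 + (q - 1) * x)))
    (by positivity) (by simp)
  · intro x hx
    have h1 : HasDerivAt (fun z : ℝ => 1 + q * z + q * (q - 1) / 2 * z ^ 2)
        (q + q * (q - 1) * x) x := by
      have h2 := ((hasDerivAt_id x).const_mul q).const_add 1
      have h3 := (hasDerivAt_pow 2 x).const_mul (q * (q - 1) / 2)
      refine (h2.add h3).congr_deriv ?_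
      simp; ring
    have := (hasDeriv q x hx).sub h1
    refine this.congr_deriv ?_
    ring
  · intro x hx
    rw [abs_mul, mul_assoc]
    exact mul_le_mul_of_nonneg_left (h x hx) (abs_nonneg _)

lemma rem4 (q : ℝ) : ∃ C, 0 ≤ C ∧ ∀ z : ℝ, |z| ≤ 1 / 2 →
    |(1 + z) ^ q - (1 + q * z + q * (q - 1) / 2 * z ^ 2 + q * (q - 1) * (q - 2) / 6 * z ^ 3)|
      ≤ C * |z| ^ 4 := by
  obtain ⟨C, hC, h⟩ := rem3 (q - 1)
  refine ⟨|q| * C, by positivity, ?_⟩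
  apply bound_of_deriv (f' := fun x => q * ((1 + x) ^ (q - 1) -
      (1 + (q - 1) * x + (q - 1) * ((q - 1) - 1) / 2 * x ^ 2)))
    (by positivity) (by simp)
  · intro x hx
    have h1 : HasDerivAt (fun z : ℝ => 1 + q * z + q * (q - 1) / 2 * z ^ 2
          + q * (q - 1) * (q - 2) / 6 * z ^ 3)
        (q + q * (q - 1) * x + q * (q - 1) * (q - 2) / 2 * x ^ 2) x := by
      have h2 := ((hasDerivAt_id x).const_mul q).const_add 1
      have h3 := (hasDerivAt_pow 2 x).const_mul (q * (q - 1) / 2)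
      have h4 := (hasDerivAt_pow 3 x).const_mul (q * (q - 1) * (q - 2) / 6)
      refine ((h2.add h3).add h4).congr_deriv ?_
      simp; ring
    have := (hasDeriv q x hx).sub h1
    refine this.congr_deriv ?_
    ring
  · intro x hx
    rw [abs_mul, mul_assoc]
    exact mul_le_mul_of_nonneg_left (h x hx) (abs_nonneg _)

/-- Second difference of `(a + 2βτ + τ²)^q` at `τ = 0, ±1`. -/
lemma second_diff (q : ℝ) : ∃ C, 0 ≤ C ∧ ∀ a β : ℝ, 64 ≤ a → β ^ 2 ≤ a →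
    |(a + 2 * β + 1) ^ q + (a - 2 * β + 1) ^ q - 2 * a ^ q
      - (2 * q * a ^ (q - 1) + 4 * q * (q - 1) * β ^ 2 * a ^ (q - 2))| ≤ C * a ^ (q - 2) := by
  obtain ⟨C, hC, h⟩ := rem4 q
  refine ⟨|q * (q - 1)| + |q * (q - 1) * (q - 2) / 6| * 26 + 2 * C * 81, by positivity, ?_⟩
  intro a β ha hβ
  have ha0 : 0 < a := by linarith
  set s : ℝ := √a with hs
  have hs2 : s ^ 2 = a := Real.sq_sqrt ha0.le
  have hs8 : 8 ≤ s := by
    rw [hs]; apply Real.le_sqrt_of_sq_le; linarith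
  have hs0 : 0 < s := by linarith
  have hβs : |β| ≤ s := by
    rw [hs]; exact Real.abs_le_sqrt hβ
  have hz : ∀ b : ℝ, |b| ≤ s → |(1 + 2 * b) / a| ≤ 3 / s := by
    intro b hb
    rw [abs_div, abs_of_pos ha0, div_le_div_iff₀ ha0 hs0]
    have h1 : |1 + 2 * b| ≤ 1 + 2 * s := by
      calc |1 + 2 * b| ≤ |1| + |2 * b| := abs_add_le _ _
        _ = 1 + 2 * |b| := by rw [abs_one, abs_mul]; norm_num
        _ ≤ 1 + 2 * s := by linarith
    calc |1 + 2 * b| * s ≤ (1 + 2 * s) * s := by gcongr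
      _ ≤ (3 * s) * s := by gcongr; linarith
      _ = 3 * a := by rw [← hs2]; ring
  have h3s : 3 / s ≤ 1 / 2 := by
    rw [div_le_div_iff₀ hs0 (by norm_num)]; linarith
  have hzp := hz β hβs
  have hzm := hz (-β) (by rwa [abs_neg])
  have Rp := h _ (hzp.trans h3s)
  have Rm := h _ (hzm.trans h3s)
  have hp4 : |(1 + 2 * β) / a| ^ 4 ≤ 81 / a ^ 2 := by
    calc |(1 + 2 * β) / a| ^ 4 ≤ (3 / s) ^ 4 := by gcongr
      _ = 81 / a ^ 2 := by rw [← hs2]; field_simp; norm_num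
  have hm4 : |(1 + 2 * -β) / a| ^ 4 ≤ 81 / a ^ 2 := by
    calc |(1 + 2 * -β) / a| ^ 4 ≤ (3 / s) ^ 4 := by gcongr
      _ = 81 / a ^ 2 := by rw [← hs2]; field_simp; norm_num
  have e1 : (a + 2 * β + 1) ^ q = a ^ q * (1 + (1 + 2 * β) / a) ^ q := by
    have : a + 2 * β + 1 = a * (1 + (1 + 2 * β) / a) := by field_simp; ring
    rw [this, Real.mul_rpow ha0.le]
    have := (abs_le.1 (hzp.trans h3s)).1
    linarith
  have e2 : (a - 2 * β + 1) ^ q = a ^ q * (1 + (1 + 2 * -β) / a) ^ q := by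
    have : a - 2 * β + 1 = a * (1 + (1 + 2 * -β) / a) := by field_simp; ring
    rw [this, Real.mul_rpow ha0.le]
    have := (abs_le.1 (hzm.trans h3s)).1
    linarith
  have e3 : a ^ (q - 1) = a ^ q / a := by rw [Real.rpow_sub ha0, Real.rpow_one]
  have e4 : a ^ (q - 2) = a ^ q / a ^ 2 := by
    rw [Real.rpow_sub ha0]; norm_num
  rw [e1, e2, e3, e4]
  set P := (1 + (1 + 2 * β) / a) ^ q with hP
  set M := (1 + (1 + 2 * -β) / a) ^ q with hM
  set rp := P - (1 + q * ((1 + 2 * β) / a) + q * (q - 1) / 2 * ((1 + 2 * β) / a) ^ 2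
    + q * (q - 1) * (q - 2) / 6 * ((1 + 2 * β) / a) ^ 3) with hrp
  set rm := M - (1 + q * ((1 + 2 * -β) / a) + q * (q - 1) / 2 * ((1 + 2 * -β) / a) ^ 2
    + q * (q - 1) * (q - 2) / 6 * ((1 + 2 * -β) / a) ^ 3) with hrm
  have haq : 0 < a ^ q := rpow_pos_of_pos ha0 _
  have key : a ^ q * P + a ^ q * M - 2 * a ^ q
      - (2 * q * (a ^ q / a) + 4 * q * (q - 1) * β ^ 2 * (a ^ q / a ^ 2))
      = a ^ q * (q * (q - 1) / a ^ 2 + (q * (q - 1) * (q - 2) / 6) * ((2 + 24 * β ^ 2) / a ^ 3)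
        + rp + rm) := by
    rw [hrp, hrm]
    field_simp
    ring
  rw [key, abs_mul, abs_of_pos haq]
  have b1 : |q * (q - 1) / a ^ 2| ≤ |q * (q - 1)| / a ^ 2 := by
    rw [abs_div, abs_of_pos (by positivity : (0:ℝ) < a ^ 2)]
  have b2 : |(q * (q - 1) * (q - 2) / 6) * ((2 + 24 * β ^ 2) / a ^ 3)|
      ≤ |q * (q - 1) * (q - 2) / 6| * 26 / a ^ 2 := by
    rw [abs_mul, mul_div_assoc |q * (q - 1) * (q - 2) / 6|]
    refine mul_le_mul_of_nonneg_left ?_ (abs_nonneg (q * (q - 1) * (q - 2) / 6))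
    rw [abs_of_nonneg (by positivity), div_le_div_iff₀ (by positivity) (by positivity)]
    have : 2 + 24 * β ^ 2 ≤ 26 * a := by nlinarith
    calc (2 + 24 * β ^ 2) * a ^ 2 ≤ (26 * a) * a ^ 2 := by gcongr
      _ = 26 * a ^ 3 := by ring
  have b3 : |rp| ≤ C * 81 / a ^ 2 := by
    calc |rp| ≤ C * |(1 + 2 * β) / a| ^ 4 := Rp
      _ ≤ C * (81 / a ^ 2) := by gcongr
      _ = C * 81 / a ^ 2 := by ring
  have b4 : |rm| ≤ C * 81 / a ^ 2 := by
    calc |rm| ≤ C * |(1 + 2 * -β) / a| ^ 4 := Rm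
      _ ≤ C * (81 / a ^ 2) := by gcongr
      _ = C * 81 / a ^ 2 := by ring
  calc a ^ q * |q * (q - 1) / a ^ 2 + (q * (q - 1) * (q - 2) / 6) * ((2 + 24 * β ^ 2) / a ^ 3)
        + rp + rm|
      ≤ a ^ q * (|q * (q - 1)| / a ^ 2 + |q * (q - 1) * (q - 2) / 6| * 26 / a ^ 2
        + C * 81 / a ^ 2 + C * 81 / a ^ 2) := by
        refine mul_le_mul_of_nonneg_left ?_ haq.le
        have t1 := abs_add_le (q * (q - 1) / a ^ 2 + (q * (q - 1) * (q - 2) / 6)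
          * ((2 + 24 * β ^ 2) / a ^ 3) + rp) rm
        have t2 := abs_add_le (q * (q - 1) / a ^ 2 + (q * (q - 1) * (q - 2) / 6)
          * ((2 + 24 * β ^ 2) / a ^ 3)) rp
        have t3 := abs_add_le (q * (q - 1) / a ^ 2) ((q * (q - 1) * (q - 2) / 6)
          * ((2 + 24 * β ^ 2) / a ^ 3))
        linarith
    _ = (|q * (q - 1)| + |q * (q - 1) * (q - 2) / 6| * 26 + 2 * C * 81) * (a ^ q / a ^ 2) := by
        ring

end BIDLA
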