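import Mathlib
import Pool.Agent.Work.MP_1354f0_pr.Basic
import Pool.Agent.Work.MP_1354f0_pr.Binom

namespace BIDLA

open Real Finset

variable {d : ℕ}

/-- sign of a Boolean as a real number -/
def sgn (b : Bool) : ℝ := if b then 1 else -1

lemma sgn_sq (b : Bool) : sgn b ^ 2 = 1 := by cases b <;> simp [sgn]

lemma toE_apply (x : Site d) (i : Fin d) : toE x i = (x i : ℝ) := rfl

lemma toE_add (x y : Site d) : toE (x + y) = toE x + toE y := by
  ext i; simp [toE]

lemma toE_neg (x : Site d) : toE (-x) = -toE x := by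
  ext i; simp [toE]

lemma toE_zero : toE (0 : Site d) = 0 := by
  ext i; simp [toE]

lemma toE_vec (e : Dir d) : toE (vec e) = EuclideanSpace.single e.1 (sgn e.2) := by
  ext i
  rw [toE_apply]
  by_cases h : i = e.1
  · subst h; rcases e with ⟨j, b⟩; cases b <;> simp [vec, sgn]
  · simp [vec, h]

lemma norm_toE_vec (e : Dir d) : ‖toE (vec e)‖ = 1 := by
  rw [toE_vec, PiLp.norm_single]
  rcases e with ⟨j, b⟩; cases b <;> simp [sgn]

/-- squared distance after a step -/
lemma normsq_step (x : Site d) (e : Dir d) (v : EuclideanSpace ℝ (Fin d)) :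
    ‖toE (x + vec e) - v‖ ^ 2 = ‖toE x - v‖ ^ 2 + 2 * sgn e.2 * (toE x - v) e.1 + 1 := by
  have h : toE (x + vec e) - v = (toE x - v) + toE (vec e) := by
    rw [toE_add]; abel
  rw [h, @norm_add_sq_real, norm_toE_vec, toE_vec, EuclideanSpace.inner_single_right]
  simp
  ring

lemma norm_step_le (x : Site d) (e : Dir d) (v : EuclideanSpace ℝ (Fin d)) :
    ‖toE (x + vec e) - v‖ ≤ ‖toE x - v‖ + 1 := by
  have h : toE (x + vec e) - v = (toE x - v) + toE (vec e) := by
    rw [toE_add]; abel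
  rw [h]
  exact (norm_add_le _ _).trans (by rw [norm_toE_vec])

lemma norm_step_ge (x : Site d) (e : Dir d) (v : EuclideanSpace ℝ (Fin d)) :
    ‖toE x - v‖ - 1 ≤ ‖toE (x + vec e) - v‖ := by
  have h : toE x - v = (toE (x + vec e) - v) - toE (vec e) := by
    rw [toE_add]; abel
  have := norm_sub_le (toE (x + vec e) - v) (toE (vec e))
  rw [← h, norm_toE_vec] at this
  linarith

lemma coord_sq_le (y : EuclideanSpace ℝ (Fin d)) (i : Fin d) : y i ^ 2 ≤ ‖y‖ ^ 2 := by
  rw [EuclideanSpace.real_norm_sq_eq]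
  exact Finset.single_le_sum (f := fun j => y j ^ 2) (fun j _ => sq_nonneg _) (mem_univ i)

/-- Discrete Laplacian (average over neighbours minus value). -/
noncomputable def lap (f : Site d → ℝ) (x : Site d) : ℝ :=
  (∑ e : Dir d, f (x + vec e)) / (2 * d) - f x

/-- sum over directions as a sum of pairs -/
lemma sum_dir (g : Dir d → ℝ) : ∑ e : Dir d, g e = ∑ i : Fin d, (g (i, true) + g (i, false)) := by
  rw [Fintype.sum_prod_type]
  refine Finset.sum_congr rfl fun i _ => ?_
  simp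

lemma card_dir : Fintype.card (Dir d) = 2 * d := by
  simp [Dir, Fintype.card_prod, mul_comm]

/-- power kernel -/
noncomputable def ker (b q : ℝ) (v : EuclideanSpace ℝ (Fin d)) (x : Site d) : ℝ :=
  (‖toE x - v‖ ^ 2 + b) ^ q

lemma lap_ker (q : ℝ) : ∃ C, 0 ≤ C ∧ ∀ (d : ℕ) (b : ℝ) (v : EuclideanSpace ℝ (Fin d)) (x : Site d),
    64 ≤ b →
    |2 * d * lap (ker b q v) x - 2 * q * (‖toE x - v‖ ^ 2 + b) ^ (q - 2) *
      ((d - 2 + 2 * q) * ‖toE x - v‖ ^ 2 + d * b)| ≤ d * C * (‖toE x - v‖ ^ 2 + b) ^ (q - 2) := by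
  obtain ⟨C, hC, h⟩ := second_diff q
  refine ⟨C, hC, ?_⟩
  intro d b v x hb
  rcases Nat.eq_zero_or_pos d with hd | hd
  · subst hd
    have : ‖toE x - v‖ = 0 := by
      rw [norm_eq_zero]; exact Subsingleton.elim _ _
    simp [this]
  have hd0 : (d : ℝ) ≠ 0 := by positivity
  set y := toE x - v with hy
  set a := ‖y‖ ^ 2 + b with ha
  have ha64 : 64 ≤ a := by nlinarith [sq_nonneg ‖y‖]
  have ha0 : 0 < a := by linarith
  have hkv : ker b q v x = a ^ q := rfl
  have e1 : 2 * d * lap (ker b q v) x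
      = ∑ i : Fin d, ((a + 2 * y i + 1) ^ q + (a - 2 * y i + 1) ^ q - 2 * a ^ q) := by
    rw [lap, sum_dir, mul_sub, mul_div_cancel₀ _ (by positivity), hkv]
    rw [Finset.sum_sub_distrib]
    congr 1
    · refine Finset.sum_congr rfl fun i _ => ?_
      unfold ker
      rw [normsq_step, normsq_step]
      simp only [sgn, if_true, Bool.false_eq_true, if_false]
      congr 2
      · rw [ha]; ring
      · rw [ha]; ring
    · simp; ring
  have e2 : 2 * q * a ^ (q - 2) * ((d - 2 + 2 * q) * ‖y‖ ^ 2 + d * b)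
      = ∑ i : Fin d, (2 * q * a ^ (q - 1) + 4 * q * (q - 1) * (y i) ^ 2 * a ^ (q - 2)) := by
    have hs : ∑ i : Fin d, 4 * q * (q - 1) * (y i) ^ 2 * a ^ (q - 2)
        = 4 * q * (q - 1) * ‖y‖ ^ 2 * a ^ (q - 2) := by
      rw [← Finset.sum_mul, ← Finset.mul_sum, ← EuclideanSpace.real_norm_sq_eq]
    rw [Finset.sum_add_distrib, hs, Finset.sum_const,
      Finset.card_univ, Fintype.card_fin, nsmul_eq_mul]
    have : a ^ (q - 1) = a ^ (q - 2) * a := by
      rw [← Real.rpow_add_one ha0.ne']; congr 1; ring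
    rw [this, ha]
    ring
  rw [e1, e2, ← Finset.sum_sub_distrib]
  refine (Finset.abs_sum_le_sum_abs _ _).trans ?_
  have : ∀ i ∈ (univ : Finset (Fin d)), |(a + 2 * y i + 1) ^ q + (a - 2 * y i + 1) ^ q - 2 * a ^ q
      - (2 * q * a ^ (q - 1) + 4 * q * (q - 1) * (y i) ^ 2 * a ^ (q - 2))| ≤ C * a ^ (q - 2) := by
    intro i _
    apply h a (y i) ha64
    have := coord_sq_le y i
    linarith
  refine (Finset.sum_le_sum this).trans ?_
  rw [Finset.sum_const, Finset.card_univ, Fintype.card_fin, nsmul_eq_mul]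
  exact le_of_eq (by ring)

end BIDLA
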