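import Mathlib
import Pool.Agent.Work.MP_1354f0_pr.Kernel

/-!
Counting lattice points and summing powers of the distance.
-/

namespace BIDLA

open Real Finset

variable {d : ℕ}

/-- integer box around `v` -/
noncomputable def boxF (v : EuclideanSpace ℝ (Fin d)) (s : ℝ) : Finset (Site d) :=
  Fintype.piFinset (fun i => Finset.Icc ⌈v i - s⌉ ⌊v i + s⌋)

open Classical in
/-- lattice points at distance `< s` from `v` -/
noncomputable def ballF (v : EuclideanSpace ℝ (Fin d)) (s : ℝ) : Finset (Site d) :=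
  (boxF v s).filter (fun x => ‖toE x - v‖ < s)

lemma abs_coord_le (y : EuclideanSpace ℝ (Fin d)) (i : Fin d) : |y i| ≤ ‖y‖ := by
  have := coord_sq_le y i
  exact abs_le_of_sq_le_sq' (by simpa using this) (norm_nonneg _) |> fun h => abs_le.2 h

lemma mem_ballF {v : EuclideanSpace ℝ (Fin d)} {s : ℝ} {x : Site d} :
    x ∈ ballF v s ↔ ‖toE x - v‖ < s := by
  unfold ballF
  rw [Finset.mem_filter]
  refine ⟨fun h => h.2, fun h => ⟨?_, h⟩⟩
  unfold boxF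
  rw [Fintype.mem_piFinset]
  intro i
  have h1 : |(toE x - v) i| < s := (abs_coord_le _ i).trans_lt h
  have h2 : (toE x - v) i = (x i : ℝ) - v i := by simp [toE]
  rw [h2, abs_lt] at h1
  rw [Finset.mem_Icc, Int.ceil_le, Int.le_floor]
  constructor <;> linarith [h1.1, h1.2]

lemma card_Icc_le (a s : ℝ) (hs : 0 ≤ s) :
    ((Finset.Icc ⌈a - s⌉ ⌊a + s⌋).card : ℝ) ≤ 2 * s + 1 := by
  rw [Int.card_Icc]
  have h1 : (⌊a + s⌋ : ℝ) ≤ a + s := Int.floor_le _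
  have h2 : a - s ≤ (⌈a - s⌉ : ℝ) := Int.le_ceil _
  have h3 : ((⌊a + s⌋ + 1 - ⌈a - s⌉ : ℤ) : ℝ) ≤ 2 * s + 1 := by
    push_cast; linarith
  have h4 : (((⌊a + s⌋ + 1 - ⌈a - s⌉).toNat : ℤ) : ℝ) ≤ 2 * s + 1 := by
    rw [Int.toNat_eq_max]
    push_cast
    rw [max_le_iff]
    constructor
    · push_cast at h3; exact h3
    · linarith
  exact_mod_cast h4

lemma card_ballF_le (v : EuclideanSpace ℝ (Fin d)) {s : ℝ} (hs : 1 ≤ s) :
    ((ballF v s).card : ℝ) ≤ 3 ^ d * s ^ d := by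
  have h1 : ((ballF v s).card : ℝ) ≤ (boxF v s).card := by
    exact_mod_cast Finset.card_filter_le _ _
  refine h1.trans ?_
  unfold boxF
  rw [Fintype.card_piFinset]
  push_cast
  calc ∏ i : Fin d, ((Finset.Icc ⌈v i - s⌉ ⌊v i + s⌋).card : ℝ)
      ≤ ∏ _i : Fin d, (3 * s) := by
        apply Finset.prod_le_prod
        · intro i _; positivity
        · intro i _
          exact (card_Icc_le _ _ (by linarith)).trans (by linarith)
    _ = 3 ^ d * s ^ d := by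
        rw [Finset.prod_const, Finset.card_univ, Fintype.card_fin, mul_pow]

/-- bracket weights are at most `s^{-a}` outside the ball of radius `s` -/
lemma weight_le {n s a : ℝ} (ha : 0 ≤ a) (hs : 0 < s) (hn : s ≤ n) :
    (n ^ 2 + 1) ^ (-a / 2) ≤ s ^ (-a) := by
  have h1 : s ^ 2 ≤ n ^ 2 + 1 := by nlinarith
  calc (n ^ 2 + 1) ^ (-a / 2) ≤ (s ^ 2) ^ (-a / 2) :=
        rpow_le_rpow_of_nonpos (by positivity) h1 (by linarith)
    _ = s ^ (-a) := by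
        rw [← Real.rpow_natCast, ← Real.rpow_mul hs.le]; congr 1; push_cast; ring

lemma weight_le_one {n a : ℝ} (ha : 0 ≤ a) : (n ^ 2 + 1) ^ (-a / 2) ≤ 1 := by
  apply rpow_le_one_of_one_le_of_nonpos <;> nlinarith [sq_nonneg n]

open Classical in
lemma sum_dyadic {D : ℕ} {C0 a : ℝ} (ha : 0 ≤ a)
    (v : EuclideanSpace ℝ (Fin d)) (S : Finset (Site d))
    (hS : ∀ s : ℝ, 1 ≤ s → ((S.filter (fun x => ‖toE x - v‖ < s)).card : ℝ) ≤ C0 * s ^ D) (J : ℕ) :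
    ∑ x ∈ S.filter (fun x => ‖toE x - v‖ < 2 ^ J), (‖toE x - v‖ ^ 2 + 1) ^ (-a / 2)
      ≤ C0 * (1 + 2 ^ D * ∑ j ∈ range J, ((2 : ℝ) ^ ((D : ℝ) - a)) ^ j) := by
  induction J with
  | zero =>
    simp only [pow_zero, range_zero, Finset.sum_empty, mul_zero, add_zero, mul_one]
    calc ∑ x ∈ S.filter (fun x => ‖toE x - v‖ < 1), (‖toE x - v‖ ^ 2 + 1) ^ (-a / 2)
        ≤ ∑ x ∈ S.filter (fun x => ‖toE x - v‖ < 1), (1 : ℝ) :=
          Finset.sum_le_sum fun x _ => weight_le_one ha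
      _ = ((S.filter (fun x => ‖toE x - v‖ < 1)).card : ℝ) := by simp
      _ ≤ C0 * 1 ^ D := hS 1 le_rfl
      _ = C0 := by simp
  | succ J ih =>
    have h2J : (0 : ℝ) < 2 ^ J := by positivity
    have hsplit : S.filter (fun x => ‖toE x - v‖ < 2 ^ (J + 1))
        = S.filter (fun x => ‖toE x - v‖ < 2 ^ J) ∪
          S.filter (fun x => 2 ^ J ≤ ‖toE x - v‖ ∧ ‖toE x - v‖ < 2 ^ (J + 1)) := by
      ext x
      simp only [Finset.mem_filter, Finset.mem_union]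
      constructor
      · rintro ⟨h1, h2⟩
        rcases lt_or_ge ‖toE x - v‖ (2 ^ J) with h | h
        · exact Or.inl ⟨h1, h⟩
        · exact Or.inr ⟨h1, h, h2⟩
      · rintro (⟨h1, h2⟩ | ⟨h1, h2, h3⟩)
        · exact ⟨h1, h2.trans (by rw [pow_succ]; linarith)⟩
        · exact ⟨h1, h3⟩
    have hdisj : Disjoint (S.filter (fun x => ‖toE x - v‖ < 2 ^ J))
        (S.filter (fun x => 2 ^ J ≤ ‖toE x - v‖ ∧ ‖toE x - v‖ < 2 ^ (J + 1))) := by
      rw [Finset.disjoint_filter]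
      intro x _ h1 h2
      linarith [h2.1]
    rw [hsplit, Finset.sum_union hdisj, Finset.sum_range_succ]
    have h3 : ∑ x ∈ S.filter (fun x => 2 ^ J ≤ ‖toE x - v‖ ∧ ‖toE x - v‖ < 2 ^ (J + 1)),
        (‖toE x - v‖ ^ 2 + 1) ^ (-a / 2) ≤ C0 * (2 ^ D * ((2 : ℝ) ^ ((D : ℝ) - a)) ^ J) := by
      calc ∑ x ∈ S.filter (fun x => 2 ^ J ≤ ‖toE x - v‖ ∧ ‖toE x - v‖ < 2 ^ (J + 1)),
          (‖toE x - v‖ ^ 2 + 1) ^ (-a / 2)
          ≤ ∑ x ∈ S.filter (fun x => 2 ^ J ≤ ‖toE x - v‖ ∧ ‖toE x - v‖ < 2 ^ (J + 1)),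
            ((2 : ℝ) ^ J) ^ (-a) := by
            refine Finset.sum_le_sum fun x hx => ?_
            exact weight_le ha h2J (Finset.mem_filter.1 hx).2.1
        _ = ((S.filter (fun x => 2 ^ J ≤ ‖toE x - v‖ ∧ ‖toE x - v‖ < 2 ^ (J + 1))).card : ℝ) *
            ((2 : ℝ) ^ J) ^ (-a) := by
            rw [Finset.sum_const, nsmul_eq_mul]
        _ ≤ ((S.filter (fun x => ‖toE x - v‖ < 2 ^ (J + 1))).card : ℝ) *
            ((2 : ℝ) ^ J) ^ (-a) := by
            refine mul_le_mul_of_nonneg_right ?_ (by positivity)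
            have hsub : S.filter (fun x => 2 ^ J ≤ ‖toE x - v‖ ∧ ‖toE x - v‖ < 2 ^ (J + 1)) ⊆
                S.filter (fun x => ‖toE x - v‖ < 2 ^ (J + 1)) := by
              intro x hx
              rw [Finset.mem_filter] at hx ⊢
              exact ⟨hx.1, hx.2.2⟩
            exact_mod_cast Finset.card_le_card hsub
        _ ≤ (C0 * ((2 : ℝ) ^ (J + 1)) ^ D) * ((2 : ℝ) ^ J) ^ (-a) := by
            refine mul_le_mul_of_nonneg_right (hS _ ?_) (by positivity)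
            exact one_le_pow₀ (by norm_num)
        _ = C0 * (2 ^ D * ((2 : ℝ) ^ ((D : ℝ) - a)) ^ J) := by
            have e1 : ((2 : ℝ) ^ J) ^ (-a) = ((2 : ℝ) ^ (-a)) ^ J := by
              rw [← Real.rpow_natCast, ← Real.rpow_mul (by norm_num), mul_comm,
                Real.rpow_mul (by norm_num), Real.rpow_natCast]
            have e2 : (2 : ℝ) ^ ((D : ℝ) - a) = 2 ^ D * (2 : ℝ) ^ (-a) := by
              rw [sub_eq_add_neg, Real.rpow_add (by norm_num), Real.rpow_natCast]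
            rw [e1, e2, mul_pow, pow_succ, mul_pow, ← pow_mul, ← pow_mul, mul_comm J D]
            ring
    calc _ ≤ C0 * (1 + 2 ^ D * ∑ j ∈ range J, ((2 : ℝ) ^ ((D : ℝ) - a)) ^ j)
        + C0 * (2 ^ D * ((2 : ℝ) ^ ((D : ℝ) - a)) ^ J) := add_le_add ih h3
      _ = _ := by ring

lemma exists_pow_two {R : ℝ} (hR : 1 ≤ R) : ∃ J : ℕ, R < 2 ^ J ∧ (2 : ℝ) ^ J ≤ 2 * R := by
  obtain ⟨n, h1, h2⟩ := exists_nat_pow_near hR (by norm_num : (1 : ℝ) < 2)
  refine ⟨n + 1, h2, ?_⟩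
  rw [pow_succ]; linarith

open Classical in
lemma filter_eq_self_of_bound {v : EuclideanSpace ℝ (Fin d)} {S : Finset (Site d)} {R : ℝ} {J : ℕ}
    (hR : ∀ x ∈ S, ‖toE x - v‖ < R) (hJ : R < 2 ^ J) :
    S.filter (fun x => ‖toE x - v‖ < 2 ^ J) = S := by
  rw [Finset.filter_eq_self]
  intro x hx
  exact (hR x hx).trans hJ

open Classical in
/-- `a > D`: bounded sums -/
lemma sum_gt (D : ℕ) (a : ℝ) (ha : (D : ℝ) < a) : ∃ C, 0 ≤ C ∧
    ∀ (d : ℕ) (C0 : ℝ) (v : EuclideanSpace ℝ (Fin d)) (S : Finset (Site d)), 0 ≤ C0 →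
    (∀ s : ℝ, 1 ≤ s → ((S.filter (fun x => ‖toE x - v‖ < s)).card : ℝ) ≤ C0 * s ^ D) →
    ∑ x ∈ S, (‖toE x - v‖ ^ 2 + 1) ^ (-a / 2) ≤ C0 * C := by
  have ha0 : 0 ≤ a := by linarith [(Nat.cast_nonneg D : (0:ℝ) ≤ D)]
  set r : ℝ := 2 ^ ((D : ℝ) - a) with hr
  have hr0 : 0 < r := by positivity
  have hr1 : r < 1 := by
    rw [hr]; exact Real.rpow_lt_one_of_one_lt_of_neg (by norm_num) (by linarith)
  refine ⟨1 + 2 ^ D * (1 - r)⁻¹, by
    have : 0 ≤ (1 - r)⁻¹ := inv_nonneg.2 (by linarith)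
    positivity, ?_⟩
  intro d C0 v S hC0 hS
  obtain ⟨R, hR⟩ : ∃ R : ℝ, ∀ x ∈ S, ‖toE x - v‖ < R := by
    refine ⟨(∑ x ∈ S, ‖toE x - v‖) + 1, fun x hx => ?_⟩
    have := Finset.single_le_sum (f := fun x => ‖toE x - v‖) (fun y _ => norm_nonneg _) hx
    linarith
  obtain ⟨J, hJ, -⟩ := exists_pow_two (le_max_right R 1)
  have h := sum_dyadic ha0 v S hS J
  rw [filter_eq_self_of_bound hR ((le_max_left _ _).trans_lt hJ)] at h
  refine h.trans (mul_le_mul_of_nonneg_left ?_ hC0)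
  have hg : ∑ j ∈ range J, r ^ j ≤ (1 - r)⁻¹ := by
    rw [← tsum_geometric_of_lt_one hr0.le hr1]
    exact (summable_geometric_of_lt_one hr0.le hr1).sum_le_tsum _ (fun _ _ => by positivity)
  have : (0 : ℝ) ≤ 2 ^ D := by positivity
  nlinarith

open Classical in
/-- `a = D`: logarithmic sums -/
lemma sum_eq (D : ℕ) : ∃ C, 0 ≤ C ∧
    ∀ (d : ℕ) (C0 R : ℝ) (v : EuclideanSpace ℝ (Fin d)) (S : Finset (Site d)), 0 ≤ C0 → 1 ≤ R →
    (∀ s : ℝ, 1 ≤ s → ((S.filter (fun x => ‖toE x - v‖ < s)).card : ℝ) ≤ C0 * s ^ D) →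
    (∀ x ∈ S, ‖toE x - v‖ < R) →
    ∑ x ∈ S, (‖toE x - v‖ ^ 2 + 1) ^ (-(D : ℝ) / 2) ≤ C0 * (C * (1 + Real.log R)) := by
  refine ⟨1 + 2 ^ D * (1 / Real.log 2 + 1), by positivity, ?_⟩
  intro d C0 R v S hC0 hR1 hS hR
  obtain ⟨J, hJ, hJ2⟩ := exists_pow_two hR1
  have h := sum_dyadic (a := D) (Nat.cast_nonneg D) v S hS J
  rw [filter_eq_self_of_bound hR hJ] at h
  refine h.trans (mul_le_mul_of_nonneg_left ?_ hC0)
  simp only [sub_self, Real.rpow_zero, one_pow, Finset.sum_const, Finset.card_range, nsmul_eq_mul,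
    mul_one]
  have hlog2 : 0 < Real.log 2 := Real.log_pos (by norm_num)
  have hJb : (J : ℝ) ≤ 1 + Real.log R / Real.log 2 := by
    have h1 := Real.log_le_log (by positivity) hJ2
    rw [Real.log_pow, Real.log_mul (by norm_num) (by linarith)] at h1
    have : (J : ℝ) * Real.log 2 ≤ (1 + Real.log R / Real.log 2) * Real.log 2 := by
      rw [add_mul, div_mul_cancel₀ _ hlog2.ne']; linarith
    exact le_of_mul_le_mul_right this hlog2
  have hlogR : 0 ≤ Real.log R := Real.log_nonneg hR1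
  have h2D : (0 : ℝ) < 2 ^ D := by positivity
  have h3 : (J : ℝ) ≤ (1 / Real.log 2 + 1) * (1 + Real.log R) := by
    refine hJb.trans ?_
    have : 0 ≤ 1 / Real.log 2 := by positivity
    have e : Real.log R / Real.log 2 = 1 / Real.log 2 * Real.log R := by ring
    rw [e]
    nlinarith
  nlinarith [mul_le_mul_of_nonneg_left h3 h2D.le]

open Classical in
/-- `a < D`: polynomial sums -/
lemma sum_lt (D : ℕ) (a : ℝ) (ha0 : 0 ≤ a) (ha : a < (D : ℝ)) : ∃ C, 0 ≤ C ∧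
    ∀ (d : ℕ) (C0 R : ℝ) (v : EuclideanSpace ℝ (Fin d)) (S : Finset (Site d)), 0 ≤ C0 → 1 ≤ R →
    (∀ s : ℝ, 1 ≤ s → ((S.filter (fun x => ‖toE x - v‖ < s)).card : ℝ) ≤ C0 * s ^ D) →
    (∀ x ∈ S, ‖toE x - v‖ < R) →
    ∑ x ∈ S, (‖toE x - v‖ ^ 2 + 1) ^ (-a / 2) ≤ C0 * (C * R ^ ((D : ℝ) - a)) := by
  set r : ℝ := 2 ^ ((D : ℝ) - a) with hr
  have hr1 : 1 < r := by
    rw [hr]; exact Real.one_lt_rpow (by norm_num) (by linarith)
  refine ⟨1 + 2 ^ D * (r / (r - 1)), by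
    have : 0 ≤ r / (r - 1) := div_nonneg (by linarith) (by linarith)
    positivity, ?_⟩
  intro d C0 R v S hC0 hR1 hS hR
  obtain ⟨J, hJ, hJ2⟩ := exists_pow_two hR1
  have h := sum_dyadic ha0 v S hS J
  rw [filter_eq_self_of_bound hR hJ] at h
  refine h.trans (mul_le_mul_of_nonneg_left ?_ hC0)
  have hRa : 1 ≤ R ^ ((D : ℝ) - a) := Real.one_le_rpow hR1 (by linarith)
  have hg : ∑ j ∈ range J, r ^ j ≤ r / (r - 1) * R ^ ((D : ℝ) - a) := by
    rw [geom_sum_eq hr1.ne', div_mul_eq_mul_div]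
    apply div_le_div_of_nonneg_right _ (by linarith : (0:ℝ) ≤ r - 1)
    have : r ^ J ≤ r * R ^ ((D : ℝ) - a) := by
      have e1 : r ^ J = ((2 : ℝ) ^ J) ^ ((D : ℝ) - a) := by
        rw [hr, ← Real.rpow_natCast, ← Real.rpow_mul (by norm_num), mul_comm,
          Real.rpow_mul (by norm_num), Real.rpow_natCast]
      rw [e1, hr, ← Real.mul_rpow (by norm_num) (by linarith)]
      exact Real.rpow_le_rpow (by positivity) hJ2 (by linarith)
    linarith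
  have h2D : (0 : ℝ) < 2 ^ D := by positivity
  have := mul_le_mul_of_nonneg_left hg h2D.le
  rw [add_mul, one_mul]
  nlinarith

end BIDLA
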