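import Mathlib
import Pool.Agent.Work.MP_1354f0_pr.Lattice

/-!
Counting lattice points near a sphere.
-/

namespace BIDLA

open Real Finset

variable {d : ℕ}

lemma card_le_of_diam (T : Finset ℤ) (L : ℕ) (h : ∀ a ∈ T, ∀ b ∈ T, b - a ≤ (L : ℤ)) :
    T.card ≤ L + 1 := by
  rcases T.eq_empty_or_nonempty with rfl | hT
  · simp
  · have hsub : T ⊆ Finset.Icc (T.min' hT) (T.min' hT + L) := by
      intro x hx
      rw [Finset.mem_Icc]
      refine ⟨T.min'_le x hx, ?_⟩
      have := h _ (T.min'_mem hT) x hx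
      linarith
    refine (Finset.card_le_card hsub).trans ?_
    rw [Int.card_Icc]
    omega

open Classical in
/-- lattice points in a shell of thickness 4 around the sphere of radius `ρ` -/
noncomputable def layer (d : ℕ) (ρ : ℝ) : Finset (Site d) :=
  (ballF 0 (ρ + 2)).filter (fun x => ρ - 2 ≤ ‖toE x‖)

lemma mem_layer {ρ : ℝ} {x : Site d} : x ∈ layer d ρ ↔ ρ - 2 ≤ ‖toE x‖ ∧ ‖toE x‖ < ρ + 2 := by
  unfold layer
  rw [Finset.mem_filter, mem_ballF, sub_zero, and_comm]

/-- positive candidates on a line -/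
lemma fiber_diam {ρ S : ℝ} {n : ℕ} (hρ : 4 ≤ ρ) (hn : 1 ≤ n) {a b : ℤ} (ha : 0 ≤ a) (hb : 0 ≤ b)
    (ha1 : (ρ - 2) ^ 2 ≤ n * (a : ℝ) ^ 2) (hb1 : (ρ - 2) ^ 2 ≤ n * (b : ℝ) ^ 2)
    (ha2 : (ρ - 2) ^ 2 ≤ S + (a : ℝ) ^ 2) (hb2 : S + (b : ℝ) ^ 2 ≤ (ρ + 2) ^ 2) :
    b - a ≤ ((8 * n : ℕ) : ℤ) := by
  have hn' : (1 : ℝ) ≤ n := by exact_mod_cast hn
  have ha' : (0 : ℝ) ≤ a := by exact_mod_cast ha
  have hb' : (0 : ℝ) ≤ b := by exact_mod_cast hb
  have key : ∀ k : ℝ, 0 ≤ k → (ρ - 2) ^ 2 ≤ n * k ^ 2 → ρ / 2 ≤ n * k := by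
    intro k hk h
    have h1 : (ρ - 2) ^ 2 ≤ (n * k) ^ 2 := by
      calc (ρ - 2) ^ 2 ≤ n * k ^ 2 := h
        _ ≤ n * (n * k ^ 2) := by
            have : 0 ≤ n * k ^ 2 := by positivity
            nlinarith
        _ = (n * k) ^ 2 := by ring
    have h2 := abs_le_of_sq_le_sq' h1 (by positivity)
    linarith [h2.2]
  have hka := key a ha' ha1
  have hkb := key b hb' hb1
  by_contra hcon
  push Not at hcon
  have hcon' : ((8 * n : ℕ) : ℝ) < (b : ℝ) - a := by exact_mod_cast hcon
  push_cast at hcon'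
  have h1 : ((b : ℝ) - a) * (b + a) ≤ 8 * ρ := by nlinarith
  have h2 : ρ ≤ n * ((b : ℝ) + a) := by linarith
  have h3 : 0 < (b : ℝ) + a := by
    by_contra h
    push Not at h
    have : n * ((b : ℝ) + a) ≤ 0 := by nlinarith
    linarith
  have h4 : 8 * n * ((b : ℝ) + a) < ((b : ℝ) - a) * (b + a) := by
    exact mul_lt_mul_of_pos_right hcon' h3
  nlinarith

lemma normsq_toE (x : Site d) : ‖toE x‖ ^ 2 = ∑ i, (x i : ℝ) ^ 2 := by
  rw [EuclideanSpace.real_norm_sq_eq]; rfl

lemma exists_big_coord (hd : 1 ≤ d) (x : Site d) : ∃ i, ‖toE x‖ ^ 2 ≤ d * (x i : ℝ) ^ 2 := by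
  haveI : Nonempty (Fin d) := ⟨⟨0, hd⟩⟩
  obtain ⟨i, -, hi⟩ := Finset.exists_max_image (Finset.univ : Finset (Fin d))
    (fun i => (x i : ℝ) ^ 2) Finset.univ_nonempty
  refine ⟨i, ?_⟩
  rw [normsq_toE]
  calc ∑ j, (x j : ℝ) ^ 2 ≤ ∑ _j : Fin d, (x i : ℝ) ^ 2 := Finset.sum_le_sum fun j _ => hi j (mem_univ j)
    _ = d * (x i : ℝ) ^ 2 := by
        rw [Finset.sum_const, Finset.card_univ, Fintype.card_fin, nsmul_eq_mul]

open Classical in
lemma layer_count (d : ℕ) (hd : 1 ≤ d) : ∃ C0 : ℝ, 0 ≤ C0 ∧ ∀ (ρ : ℝ) (v : EuclideanSpace ℝ (Fin d)) (s : ℝ),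
    1 ≤ s → (((layer d ρ).filter (fun x => ‖toE x - v‖ < s)).card : ℝ) ≤ C0 * s ^ (d - 1) := by
  refine ⟨3 ^ d * 6 ^ d + d * (2 * (8 * d + 1)) * 3 ^ (d - 1), by positivity, ?_⟩
  intro ρ v s hs
  have hs0 : 0 < s := by linarith
  have hsp : 1 ≤ s ^ (d - 1) := one_le_pow₀ hs
  rcases lt_or_ge ρ 4 with hρ | hρ
  · have h1 : (((layer d ρ).filter (fun x => ‖toE x - v‖ < s)).card : ℝ)
        ≤ ((ballF (0 : EuclideanSpace ℝ (Fin d)) 6).card : ℝ) := by
      have : (layer d ρ).filter (fun x => ‖toE x - v‖ < s) ⊆ ballF 0 6 := by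
        intro x hx
        rw [Finset.mem_filter, mem_layer] at hx
        rw [mem_ballF, sub_zero]
        linarith [hx.1.2]
      exact_mod_cast Finset.card_le_card this
    have h2 := card_ballF_le (0 : EuclideanSpace ℝ (Fin d)) (s := 6) (by norm_num)
    have h3 : (0 : ℝ) ≤ 3 ^ d * 6 ^ d := by positivity
    have h4 : (0 : ℝ) ≤ d * (2 * (8 * d + 1)) * 3 ^ (d - 1) := by positivity
    nlinarith
  · -- main case
    set T := (layer d ρ).filter (fun x => ‖toE x - v‖ < s) with hT
    set Ti : Fin d → Finset (Site d) := fun i => T.filter (fun x => ‖toE x‖ ^ 2 ≤ d * (x i : ℝ) ^ 2)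
      with hTi
    have hcover : T ⊆ Finset.univ.biUnion Ti := by
      intro x hx
      rw [Finset.mem_biUnion]
      obtain ⟨i, hi⟩ := exists_big_coord hd x
      exact ⟨i, mem_univ i, Finset.mem_filter.2 ⟨hx, hi⟩⟩
    have hcardi : ∀ i, ((Ti i).card : ℝ) ≤ (2 * (8 * d + 1)) * (3 ^ (d - 1) * s ^ (d - 1)) := by
      intro i
      set proj : Site d → Site d := fun x => Function.update x i 0 with hproj
      have hfib : ∀ y ∈ (Ti i).image proj, ((Ti i).filter (fun x => proj x = y)).card
          ≤ 2 * (8 * d + 1) := by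
        intro y _
        -- the fiber, split by sign
        set F := (Ti i).filter (fun x => proj x = y) with hF
        have hinj : Set.InjOn (fun x : Site d => x i) F := by
          intro x hx x' hx' hxx
          have h1 := (Finset.mem_filter.1 hx).2
          have h2 := (Finset.mem_filter.1 hx').2
          have h3 : proj x = proj x' := h1.trans h2.symm
          funext j
          by_cases hj : j = i
          · subst hj; exact hxx
          · have := congrFun h3 j
            simpa [hproj, Function.update_of_ne hj] using this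
        have hval : ∀ x ∈ F, (ρ - 2) ^ 2 ≤ d * (x i : ℝ) ^ 2 ∧
            (ρ - 2) ^ 2 ≤ (∑ j, (y j : ℝ) ^ 2) + (x i : ℝ) ^ 2 ∧
            (∑ j, (y j : ℝ) ^ 2) + (x i : ℝ) ^ 2 ≤ (ρ + 2) ^ 2 := by
          intro x hx
          obtain ⟨hx1, hx2⟩ := Finset.mem_filter.1 hx
          obtain ⟨hx3, hx4⟩ := Finset.mem_filter.1 hx1
          obtain ⟨hx5, -⟩ := Finset.mem_filter.1 hx3
          rw [mem_layer] at hx5
          have hnn := norm_nonneg (toE x)
          have e : ‖toE x‖ ^ 2 = (∑ j, (y j : ℝ) ^ 2) + (x i : ℝ) ^ 2 := by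
            rw [normsq_toE, ← hx2, ← Finset.add_sum_erase _ _ (mem_univ i),
              ← Finset.add_sum_erase (a := i) _ (fun j => ((proj x) j : ℝ) ^ 2) (mem_univ i)]
            have e1 : ((proj x) i : ℝ) = 0 := by simp [hproj]
            have e2 : ∑ j ∈ univ.erase i, (x j : ℝ) ^ 2 = ∑ j ∈ univ.erase i, ((proj x) j : ℝ) ^ 2 := by
              refine Finset.sum_congr rfl fun j hj => ?_
              have : j ≠ i := Finset.ne_of_mem_erase hj
              simp [hproj, Function.update_of_ne this]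
            rw [e1, e2]; ring
          refine ⟨?_, ?_, ?_⟩
          · refine le_trans ?_ hx4
            exact pow_le_pow_left₀ (by linarith) hx5.1 2
          · rw [← e]; exact pow_le_pow_left₀ (by linarith) hx5.1 2
          · rw [← e]; exact pow_le_pow_left₀ hnn hx5.2.le 2
        set Fp := F.filter (fun x => 0 ≤ x i) with hFp
        set Fm := F.filter (fun x => ¬ 0 ≤ x i) with hFm
        have hsum : F.card = Fp.card + Fm.card := by
          rw [hFp, hFm, Finset.card_filter_add_card_filter_not]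
        have hp : Fp.card ≤ 8 * d + 1 := by
          rw [← Finset.card_image_of_injOn (s := Fp) (f := fun x => x i)
            (hinj.mono (by intro x hx; exact Finset.mem_of_mem_filter x hx))]
          apply card_le_of_diam
          intro a ha b hb
          obtain ⟨x, hx, rfl⟩ := Finset.mem_image.1 ha
          obtain ⟨x', hx', rfl⟩ := Finset.mem_image.1 hb
          obtain ⟨hxF, hx0⟩ := Finset.mem_filter.1 hx
          obtain ⟨hxF', hx0'⟩ := Finset.mem_filter.1 hx'
          exact fiber_diam hρ hd hx0 hx0' (hval x hxF).1 (hval x' hxF').1 (hval x hxF).2.1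
            (hval x' hxF').2.2
        have hm : Fm.card ≤ 8 * d + 1 := by
          rw [← Finset.card_image_of_injOn (s := Fm) (f := fun x => -x i)
            (by
              intro x hx x' hx' hxx
              exact hinj (Finset.mem_of_mem_filter x hx) (Finset.mem_of_mem_filter x' hx')
                (by simpa using hxx))]
          apply card_le_of_diam
          intro a ha b hb
          obtain ⟨x, hx, rfl⟩ := Finset.mem_image.1 ha
          obtain ⟨x', hx', rfl⟩ := Finset.mem_image.1 hb
          obtain ⟨hxF, hx0⟩ := Finset.mem_filter.1 hx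
          obtain ⟨hxF', hx0'⟩ := Finset.mem_filter.1 hx'
          refine fiber_diam (S := ∑ j, (y j : ℝ) ^ 2) hρ hd (by linarith) (by linarith) ?_ ?_ ?_ ?_
          · push_cast; rw [neg_sq]; exact (hval x hxF).1
          · push_cast; rw [neg_sq]; exact (hval x' hxF').1
          · push_cast; rw [neg_sq]; exact (hval x hxF).2.1
          · push_cast; rw [neg_sq]; exact (hval x' hxF').2.2
        omega
      have h1 : (Ti i).card ≤ (2 * (8 * d + 1)) * ((Ti i).image proj).card :=
        Finset.card_le_mul_card_image _ _ hfib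
      have h2 : (((Ti i).image proj).card : ℝ) ≤ 3 ^ (d - 1) * s ^ (d - 1) := by
        set B : Fin d → Finset ℤ := fun j => if j = i then {0} else Finset.Icc ⌈v j - s⌉ ⌊v j + s⌋
          with hB
        have hsub : (Ti i).image proj ⊆ Fintype.piFinset B := by
          intro y hy
          obtain ⟨x, hx, rfl⟩ := Finset.mem_image.1 hy
          rw [Fintype.mem_piFinset]
          intro j
          by_cases hj : j = i
          · subst hj; simp [hB, hproj]
          · have hx3 : x ∈ T := (Finset.mem_filter.1 hx).1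
            have hx4 : ‖toE x - v‖ < s := (Finset.mem_filter.1 hx3).2
            have h1 : |(toE x - v) j| < s := (abs_coord_le _ j).trans_lt hx4
            have h2 : (toE x - v) j = (x j : ℝ) - v j := by simp [toE]
            rw [h2, abs_lt] at h1
            simp only [hB, hj, if_false, hproj, Function.update_of_ne hj]
            rw [Finset.mem_Icc, Int.ceil_le, Int.le_floor]
            constructor <;> linarith [h1.1, h1.2]
        have h3 : (((Ti i).image proj).card : ℝ) ≤ ((Fintype.piFinset B).card : ℝ) := by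
          exact_mod_cast Finset.card_le_card hsub
        refine h3.trans ?_
        rw [Fintype.card_piFinset]
        push_cast
        rw [← Finset.mul_prod_erase _ _ (mem_univ i)]
        have e1 : ((B i).card : ℝ) = 1 := by simp [hB]
        rw [e1, one_mul]
        calc ∏ j ∈ univ.erase i, ((B j).card : ℝ) ≤ ∏ _j ∈ univ.erase i, (3 * s) := by
              apply Finset.prod_le_prod
              · intro j _; positivity
              · intro j hj
                have : j ≠ i := Finset.ne_of_mem_erase hj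
                simp only [hB, this, if_false]
                exact (card_Icc_le _ _ hs0.le).trans (by linarith)
          _ = 3 ^ (d - 1) * s ^ (d - 1) := by
              rw [Finset.prod_const, Finset.card_erase_of_mem (mem_univ i), Finset.card_univ,
                Fintype.card_fin, mul_pow]
      have h1' : ((Ti i).card : ℝ) ≤ (2 * (8 * d + 1)) * (((Ti i).image proj).card : ℝ) := by
        exact_mod_cast h1
      exact h1'.trans (mul_le_mul_of_nonneg_left h2 (by positivity))
    have h1 : (T.card : ℝ) ≤ ∑ i, ((Ti i).card : ℝ) := by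
      have := (Finset.card_le_card hcover).trans Finset.card_biUnion_le
      exact_mod_cast this
    have h2 : ∑ i, ((Ti i).card : ℝ) ≤ d * ((2 * (8 * d + 1)) * (3 ^ (d - 1) * s ^ (d - 1))) := by
      refine (Finset.sum_le_sum fun i _ => hcardi i).trans ?_
      rw [Finset.sum_const, Finset.card_univ, Fintype.card_fin, nsmul_eq_mul]
    have h3 : (0 : ℝ) ≤ 3 ^ d * 6 ^ d * s ^ (d - 1) := by positivity
    calc (T.card : ℝ) ≤ d * ((2 * (8 * d + 1)) * (3 ^ (d - 1) * s ^ (d - 1))) := h1.trans h2
      _ ≤ _ := by nlinarith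

end BIDLA
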