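import Mathlib
import Pool.Agent.Work.MP_1354f0_pr.Layer

/-!
Sums of `⟨x - v⟩^{-a}` over balls and layers centred at the origin.
-/

namespace BIDLA

open Real Finset

/-- the weight `⟨x-v⟩^{-a}` -/
noncomputable def wt {d : ℕ} (a : ℝ) (v : EuclideanSpace ℝ (Fin d)) (x : Site d) : ℝ :=
  (‖toE x - v‖ ^ 2 + 1) ^ (-a / 2)

lemma wt_nonneg {d : ℕ} (a : ℝ) (v : EuclideanSpace ℝ (Fin d)) (x : Site d) : 0 ≤ wt a v x := by
  unfold wt; positivity

lemma wt_pos {d : ℕ} (a : ℝ) (v : EuclideanSpace ℝ (Fin d)) (x : Site d) : 0 < wt a v x := by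
  unfold wt; positivity

lemma wt_le_one {d : ℕ} {a : ℝ} (ha : 0 ≤ a) (v : EuclideanSpace ℝ (Fin d)) (x : Site d) :
    wt a v x ≤ 1 := weight_le_one ha

lemma wt_le {d : ℕ} {a s : ℝ} (ha : 0 ≤ a) (hs : 0 < s) {v : EuclideanSpace ℝ (Fin d)} {x : Site d}
    (h : s ≤ ‖toE x - v‖) : wt a v x ≤ s ^ (-a) := weight_le ha hs h

lemma wt_anti {d : ℕ} {a a' : ℝ} (ha : a ≤ a') (v : EuclideanSpace ℝ (Fin d)) (x : Site d) :
    wt a' v x ≤ wt a v x := by
  unfold wt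
  exact Real.rpow_le_rpow_of_exponent_le (by nlinarith [sq_nonneg ‖toE x - v‖]) (by linarith)

lemma wt_add {d : ℕ} (a a' : ℝ) (v : EuclideanSpace ℝ (Fin d)) (x : Site d) :
    wt a v x * wt a' v x = wt (a + a') v x := by
  unfold wt
  rw [← Real.rpow_add (by positivity)]; congr 1; ring

lemma wt_neg_two {d : ℕ} (v : EuclideanSpace ℝ (Fin d)) (x : Site d) :
    wt (-2) v x = ‖toE x - v‖ ^ 2 + 1 := by
  unfold wt; norm_num

open Classical in
/-- general summation scheme on a family of sets -/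
lemma sum_scheme_log {d D : ℕ} {C0 Rr : ℝ} {S : Finset (Site d)} (hC0 : 0 ≤ C0) (hR : 1 ≤ Rr)
    (hS0 : ∀ x ∈ S, ‖toE x‖ < 3 * Rr)
    (hS : ∀ (v : EuclideanSpace ℝ (Fin d)) (s : ℝ), 1 ≤ s →
      ((S.filter (fun x => ‖toE x - v‖ < s)).card : ℝ) ≤ C0 * s ^ D)
    {C : ℝ} (hC : 0 ≤ C)
    (hCs : ∀ (d : ℕ) (C0 R : ℝ) (v : EuclideanSpace ℝ (Fin d)) (S : Finset (Site d)), 0 ≤ C0 → 1 ≤ R →
      (∀ s : ℝ, 1 ≤ s → ((S.filter (fun x => ‖toE x - v‖ < s)).card : ℝ) ≤ C0 * s ^ D) →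
      (∀ x ∈ S, ‖toE x - v‖ < R) →
      ∑ x ∈ S, (‖toE x - v‖ ^ 2 + 1) ^ (-(D : ℝ) / 2) ≤ C0 * (C * (1 + Real.log R)))
    (v : EuclideanSpace ℝ (Fin d)) :
    ∑ x ∈ S, wt D v x ≤ C0 * ((C * (1 + Real.log 9) + 3 ^ D) * (1 + Real.log Rr)) := by
  have hlogR : 0 ≤ Real.log Rr := Real.log_nonneg hR
  have hlog9 : 0 ≤ Real.log 9 := Real.log_nonneg (by norm_num)
  rcases lt_or_ge ‖v‖ (6 * Rr) with hv | hv
  · have h := hCs d C0 (9 * Rr) v S hC0 (by linarith) (hS v) (by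
      intro x hx
      have h1 := hS0 x hx
      have h2 := norm_sub_le (toE x) v
      linarith)
    refine h.trans (mul_le_mul_of_nonneg_left ?_ hC0)
    rw [Real.log_mul (by norm_num) (by linarith)]
    have h3 : (0 : ℝ) ≤ 3 ^ D := by positivity
    have h4 : 0 ≤ C * (Real.log 9 * Real.log Rr) := by positivity
    have h5 : 0 ≤ 3 ^ D * (1 + Real.log Rr) := by positivity
    nlinarith
  · have hterm : ∀ x ∈ S, wt D v x ≤ (3 * Rr) ^ (-(D : ℝ)) := by
      intro x hx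
      apply wt_le (Nat.cast_nonneg D) (by linarith)
      have h1 := hS0 x hx
      have h2 : ‖v‖ ≤ ‖toE x - v‖ + ‖toE x‖ := by
        have := norm_sub_le (toE x) (toE x - v)
        rw [sub_sub_cancel] at this
        linarith
      linarith
    have hcard : (S.card : ℝ) ≤ C0 * (3 * Rr) ^ D := by
      have := hS 0 (3 * Rr) (by linarith)
      rwa [Finset.filter_eq_self.2 (by intro x hx; rw [sub_zero]; exact hS0 x hx)] at this
    calc ∑ x ∈ S, wt D v x ≤ ∑ _x ∈ S, (3 * Rr) ^ (-(D : ℝ)) := Finset.sum_le_sum hterm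
      _ = S.card * (3 * Rr) ^ (-(D : ℝ)) := by rw [Finset.sum_const, nsmul_eq_mul]
      _ ≤ (C0 * (3 * Rr) ^ D) * (3 * Rr) ^ (-(D : ℝ)) := by
          gcongr
      _ = C0 * 1 := by
          rw [mul_assoc, ← Real.rpow_natCast, ← Real.rpow_add (by linarith), add_neg_cancel,
            Real.rpow_zero]
      _ ≤ _ := by
          refine mul_le_mul_of_nonneg_left ?_ hC0
          have h3 : (1 : ℝ) ≤ 3 ^ D := one_le_pow₀ (by norm_num)
          have h4 : 0 ≤ C * (1 + Real.log 9) := by positivity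
          nlinarith

open Classical in
lemma filter_ballF_card {d : ℕ} (R : ℝ) (v : EuclideanSpace ℝ (Fin d)) (s : ℝ) (hs : 1 ≤ s) :
    (((ballF (0 : EuclideanSpace ℝ (Fin d)) R).filter (fun x => ‖toE x - v‖ < s)).card : ℝ)
      ≤ 3 ^ d * s ^ d := by
  refine le_trans ?_ (card_ballF_le v hs)
  have : (ballF (0 : EuclideanSpace ℝ (Fin d)) R).filter (fun x => ‖toE x - v‖ < s) ⊆ ballF v s := by
    intro x hx
    rw [mem_ballF]
    exact (Finset.mem_filter.1 hx).2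
  exact_mod_cast Finset.card_le_card this

/-- S1 -/
lemma sum_ball_log (d : ℕ) : ∃ C, 0 ≤ C ∧ ∀ (R : ℝ) (v : EuclideanSpace ℝ (Fin d)), 1 ≤ R →
    ∑ x ∈ ballF (0 : EuclideanSpace ℝ (Fin d)) R, wt d v x ≤ C * (1 + Real.log R) := by
  obtain ⟨C, hC, h⟩ := sum_eq d
  refine ⟨3 ^ d * (C * (1 + Real.log 9) + 3 ^ d), by
    have : 0 ≤ Real.log 9 := Real.log_nonneg (by norm_num)
    positivity, ?_⟩
  intro R v hR
  have := sum_scheme_log (D := d) (C0 := 3 ^ d) (Rr := R) (S := ballF 0 R) (by positivity) hR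
    (by intro x hx; rw [mem_ballF, sub_zero] at hx; linarith)
    (fun v s hs => filter_ballF_card R v s hs) hC h v
  rwa [← mul_assoc] at this

/-- S2 -/
lemma sum_ball_pow (d : ℕ) (a : ℝ) (ha0 : 0 ≤ a) (ha : a < d) : ∃ C, 0 ≤ C ∧
    ∀ (R : ℝ) (v : EuclideanSpace ℝ (Fin d)), 1 ≤ R →
    ∑ x ∈ ballF (0 : EuclideanSpace ℝ (Fin d)) R, wt a v x ≤ C * R ^ ((d : ℝ) - a) := by
  obtain ⟨C, hC, h⟩ := sum_lt d a ha0 ha
  refine ⟨3 ^ d * (C * 3 ^ ((d : ℝ) - a) + 3 ^ d), by positivity, ?_⟩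
  intro R v hR
  have hRp : 0 < R ^ ((d : ℝ) - a) := by positivity
  rcases lt_or_ge ‖v‖ (2 * R) with hv | hv
  · have h := h d (3 ^ d) (3 * R) v (ballF 0 R) (by positivity) (by linarith)
      (fun s hs => by classical exact filter_ballF_card R v s hs) (by
      intro x hx
      rw [mem_ballF, sub_zero] at hx
      have h2 := norm_sub_le (toE x) v
      linarith)
    refine h.trans ?_
    rw [Real.mul_rpow (by norm_num) (by linarith), mul_assoc]
    refine mul_le_mul_of_nonneg_left ?_ (by positivity)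
    have : (0 : ℝ) ≤ 3 ^ d * R ^ ((d : ℝ) - a) := by positivity
    nlinarith
  · have hterm : ∀ x ∈ ballF (0 : EuclideanSpace ℝ (Fin d)) R, wt a v x ≤ R ^ (-a) := by
      intro x hx
      rw [mem_ballF, sub_zero] at hx
      apply wt_le ha0 (by linarith)
      have h2 : ‖v‖ ≤ ‖toE x - v‖ + ‖toE x‖ := by
        have := norm_sub_le (toE x) (toE x - v)
        rw [sub_sub_cancel] at this
        linarith
      linarith
    calc ∑ x ∈ ballF (0 : EuclideanSpace ℝ (Fin d)) R, wt a v x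
        ≤ ∑ _x ∈ ballF (0 : EuclideanSpace ℝ (Fin d)) R, R ^ (-a) := Finset.sum_le_sum hterm
      _ = (ballF (0 : EuclideanSpace ℝ (Fin d)) R).card * R ^ (-a) := by
          rw [Finset.sum_const, nsmul_eq_mul]
      _ ≤ (3 ^ d * R ^ d) * R ^ (-a) := by
          gcongr
          exact card_ballF_le _ hR
      _ = 3 ^ d * R ^ ((d : ℝ) - a) := by
          rw [mul_assoc, ← Real.rpow_natCast R d, ← Real.rpow_add (by linarith)]
          congr 1
      _ ≤ _ := by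
          have h1 : (1 : ℝ) ≤ 3 ^ d := one_le_pow₀ (by norm_num)
          have h2 : (0 : ℝ) ≤ C * 3 ^ ((d : ℝ) - a) := by positivity
          have h3 : (0:ℝ) ≤ 3 ^ d * R ^ ((d : ℝ) - a) := by positivity
          nlinarith

/-- S4 -/
lemma sum_ball_const (d : ℕ) (a : ℝ) (ha : (d : ℝ) < a) : ∃ C, 0 ≤ C ∧
    ∀ (S : Finset (Site d)) (v : EuclideanSpace ℝ (Fin d)),
    ∑ x ∈ S, wt a v x ≤ C := by
  classical
  obtain ⟨C, hC, h⟩ := sum_gt d a ha
  refine ⟨3 ^ d * C, by positivity, ?_⟩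
  intro S v
  refine h d (3 ^ d) v S (by positivity) (fun s hs => ?_)
  refine le_trans ?_ (card_ballF_le v hs)
  have : S.filter (fun x => ‖toE x - v‖ < s) ⊆ ballF v s := by
    intro x hx
    rw [mem_ballF]
    exact (Finset.mem_filter.1 hx).2
  exact_mod_cast Finset.card_le_card this

/-- S3 -/
lemma sum_layer_log (d : ℕ) (hd : 1 ≤ d) : ∃ C, 0 ≤ C ∧
    ∀ (R : ℝ) (v : EuclideanSpace ℝ (Fin d)), 1 ≤ R →
    ∑ x ∈ layer d R, wt ((d - 1 : ℕ) : ℝ) v x ≤ C * (1 + Real.log R) := by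
  obtain ⟨C0, hC0, h0⟩ := layer_count d hd
  obtain ⟨C, hC, h⟩ := sum_eq (d - 1)
  refine ⟨C0 * (C * (1 + Real.log 9) + 3 ^ (d - 1)), by
    have : 0 ≤ Real.log 9 := Real.log_nonneg (by norm_num)
    positivity, ?_⟩
  intro R v hR
  have := sum_scheme_log (D := d - 1) (C0 := C0) (Rr := R) (S := layer d R) hC0 hR
    (by intro x hx; rw [mem_layer] at hx; linarith [hx.2])
    (fun v s hs => h0 R v s hs) hC h v
  rwa [← mul_assoc] at this

lemma card_layer (d : ℕ) (hd : 1 ≤ d) : ∃ C, 0 ≤ C ∧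
    ∀ (R : ℝ), 1 ≤ R → ((layer d R).card : ℝ) ≤ C * R ^ (d - 1) := by
  classical
  obtain ⟨C0, hC0, h0⟩ := layer_count d hd
  refine ⟨C0 * 3 ^ (d - 1), by positivity, ?_⟩
  intro R hR
  have := h0 R 0 (3 * R) (by linarith)
  rw [Finset.filter_eq_self.2 (by
    intro x hx; rw [mem_layer] at hx; rw [sub_zero]; linarith [hx.2])] at this
  rwa [mul_pow, ← mul_assoc] at this

end BIDLA
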