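import Mathlib
import Pool.Agent.Work.MP_1354f0_pr.Sums

/-!
Summation by parts on the lattice and elementary facts on the discrete Laplacian.
-/

namespace BIDLA

open Real Finset

variable {d : ℕ}

lemma vec_flip (i : Fin d) (b : Bool) : vec (i, !b) = -vec (i, b) := by
  unfold vec
  rw [← Pi.single_neg]
  cases b <;> simp

/-- flip of a direction -/
def flip (e : Dir d) : Dir d := (e.1, !e.2)

lemma flip_flip (e : Dir d) : flip (flip e) = e := by
  rcases e with ⟨i, b⟩; simp [flip]

lemma vec_flip' (e : Dir d) : vec (flip e) = -vec e := vec_flip e.1 e.2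

lemma sum_flip (f : Dir d → ℝ) : ∑ e, f (flip e) = ∑ e, f e :=
  Fintype.sum_bijective flip (Function.Involutive.bijective flip_flip) _ _ (fun _ => rfl)

lemma sum_by_parts (w g : Site d → ℝ) (hw : w.support.Finite) :
    ∑' x, g x * lap w x = ∑' x, w x * lap g x := by
  have hfin : ∀ (f : Site d → ℝ) (a : Site d), (Function.support fun x => f x * w (x + a)).Finite := by
    intro f a
    refine (hw.preimage (f := fun x => x + a) (by intro x _ y _ h; simpa using h)).subset ?_
    intro x hx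
    rw [Function.mem_support] at hx
    rw [Set.mem_preimage, Function.mem_support]
    exact right_ne_zero_of_mul hx
  have hfin0 : ∀ (f : Site d → ℝ), (Function.support fun x => f x * w x).Finite := by
    intro f
    simpa using hfin f 0
  have hfin0' : ∀ (f : Site d → ℝ), (Function.support fun x => w x * f x).Finite := by
    intro f
    have := hfin0 f
    simpa [mul_comm] using this
  have e1 : ∀ x, g x * lap w x = (∑ e : Dir d, g x * w (x + vec e)) / (2 * d) - g x * w x := by
    intro x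
    unfold lap
    rw [mul_sub, mul_div_assoc', Finset.mul_sum]
  have e2 : ∀ x, w x * lap g x = (∑ e : Dir d, w x * g (x - vec e)) / (2 * d) - w x * g x := by
    intro x
    unfold lap
    rw [mul_sub, mul_div_assoc', Finset.mul_sum]
    congr 2
    rw [← sum_flip]
    refine Finset.sum_congr rfl fun e _ => ?_
    rw [vec_flip', ← sub_eq_add_neg]
  simp_rw [e1, e2]
  have hs1 : ∀ e : Dir d, Summable fun x => g x * w (x + vec e) :=
    fun e => summable_of_hasFiniteSupport (hfin g _)
  have hs2 : ∀ e : Dir d, Summable fun x => w x * g (x - vec e) :=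
    fun e => summable_of_hasFiniteSupport (hfin0' _)
  rw [Summable.tsum_sub ((summable_sum fun e _ => hs1 e).div_const _)
      (summable_of_hasFiniteSupport (hfin0 g)),
    Summable.tsum_sub ((summable_sum fun e _ => hs2 e).div_const _)
      (summable_of_hasFiniteSupport (hfin0' g))]
  congr 1
  · rw [tsum_div_const, tsum_div_const]
    congr 1
    rw [Summable.tsum_finsetSum fun e _ => hs1 e, Summable.tsum_finsetSum fun e _ => hs2 e]
    refine Finset.sum_congr rfl fun e _ => ?_
    rw [← (Equiv.addRight (vec e)).tsum_eq (fun x => w x * g (x - vec e))]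
    refine tsum_congr fun x => ?_
    simp [mul_comm]
  · refine tsum_congr fun x => mul_comm _ _

lemma lap_const_mul (c : ℝ) (f : Site d → ℝ) (x : Site d) :
    lap (fun y => c * f y) x = c * lap f x := by
  unfold lap
  rw [← Finset.mul_sum]; ring

lemma lap_add (f g : Site d → ℝ) (x : Site d) :
    lap (fun y => f y + g y) x = lap f x + lap g x := by
  unfold lap
  rw [Finset.sum_add_distrib]; ring

lemma lap_sub (f g : Site d → ℝ) (x : Site d) :
    lap (fun y => f y - g y) x = lap f x - lap g x := by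
  unfold lap
  rw [Finset.sum_sub_distrib]; ring

lemma lap_const (hd : 1 ≤ d) (c : ℝ) (x : Site d) : lap (fun _ => c) x = 0 := by
  unfold lap
  rw [Finset.sum_const, Finset.card_univ, card_dir, nsmul_eq_mul]
  have : (d : ℝ) ≠ 0 := by positivity
  push_cast
  field_simp
  ring

lemma lap_normsq (hd : 1 ≤ d) (x : Site d) : lap (fun y => ‖toE y‖ ^ 2) x = 1 := by
  have h := fun e : Dir d => normsq_step x e 0
  simp only [sub_zero] at h
  unfold lap
  simp_rw [h]
  rw [sum_dir]
  have : (d : ℝ) ≠ 0 := by positivity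
  have e : ∑ i : Fin d, (‖toE x‖ ^ 2 + 2 * sgn true * (toE x) i + 1
      + (‖toE x‖ ^ 2 + 2 * sgn false * (toE x) i + 1)) = d * (2 * ‖toE x‖ ^ 2 + 2) := by
    have e0 : ∀ i : Fin d, (‖toE x‖ ^ 2 + 2 * sgn true * (toE x) i + 1
      + (‖toE x‖ ^ 2 + 2 * sgn false * (toE x) i + 1)) = 2 * ‖toE x‖ ^ 2 + 2 := by
      intro i
      simp [sgn]; ring
    rw [Finset.sum_congr rfl fun i _ => e0 i, Finset.sum_const, Finset.card_univ,
      Fintype.card_fin, nsmul_eq_mul]
  rw [e]
  field_simp
  ring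

lemma lap_congr {f g : Site d → ℝ} {x : Site d} (h0 : f x = g x)
    (h : ∀ e : Dir d, f (x + vec e) = g (x + vec e)) : lap f x = lap g x := by
  unfold lap
  rw [h0, Finset.sum_congr rfl fun e _ => h e]

lemma abs_lap_le (hd : 1 ≤ d) {f : Site d → ℝ} {x : Site d} {M : ℝ} (h0 : |f x| ≤ M)
    (h : ∀ e : Dir d, |f (x + vec e)| ≤ M) : |lap f x| ≤ 2 * M := by
  unfold lap
  have hd0 : (0 : ℝ) < d := by positivity
  have h1 : |(∑ e : Dir d, f (x + vec e)) / (2 * d)| ≤ M := by
    rw [abs_div, abs_of_pos (by positivity : (0:ℝ) < 2 * d), div_le_iff₀ (by positivity)]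
    refine (Finset.abs_sum_le_sum_abs _ _).trans ?_
    refine (Finset.sum_le_sum fun e _ => h e).trans ?_
    rw [Finset.sum_const, Finset.card_univ, card_dir, nsmul_eq_mul]
    push_cast
    exact le_of_eq (by ring)
  calc |(∑ e : Dir d, f (x + vec e)) / (2 * d) - f x|
      ≤ |(∑ e : Dir d, f (x + vec e)) / (2 * d)| + |f x| := abs_sub _ _
    _ ≤ 2 * M := by linarith

/-- Laplacian of the regularised Newtonian kernel. -/
lemma lap_newton (d : ℕ) (hd : 3 ≤ d) : ∃ C, 0 ≤ C ∧
    ∀ (b : ℝ) (v : EuclideanSpace ℝ (Fin d)) (x : Site d), 64 ≤ b →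
    |lap (ker b (-((d : ℝ) - 2) / 2) v) x + ((d : ℝ) - 2) / 2 * b *
      (‖toE x - v‖ ^ 2 + b) ^ (-((d : ℝ) + 2) / 2)|
      ≤ C * (‖toE x - v‖ ^ 2 + b) ^ (-((d : ℝ) + 2) / 2) := by
  obtain ⟨C, hC, h⟩ := lap_ker (-((d : ℝ) - 2) / 2)
  refine ⟨C / 2, by positivity, ?_⟩
  intro b v x hb
  have hd0 : (0 : ℝ) < d := by positivity
  have h1 := h d b v x hb
  have e1 : -((d : ℝ) - 2) / 2 - 2 = -((d : ℝ) + 2) / 2 := by ring
  rw [e1] at h1
  set A := (‖toE x - v‖ ^ 2 + b) ^ (-((d : ℝ) + 2) / 2) with hA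
  have e2 : 2 * d * lap (ker b (-((d : ℝ) - 2) / 2) v) x - 2 * (-((d : ℝ) - 2) / 2) * A *
      ((d - 2 + 2 * (-((d : ℝ) - 2) / 2)) * ‖toE x - v‖ ^ 2 + d * b)
      = 2 * d * (lap (ker b (-((d : ℝ) - 2) / 2) v) x + ((d : ℝ) - 2) / 2 * b * A) := by
    ring
  rw [e2, abs_mul, abs_of_pos (by positivity : (0:ℝ) < 2 * d)] at h1
  have h2 : 2 * d * |lap (ker b (-((d : ℝ) - 2) / 2) v) x + ((d : ℝ) - 2) / 2 * b * A|
      ≤ 2 * d * (C / 2 * A) := by linarith
  exact le_of_mul_le_mul_left h2 (by positivity)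

end BIDLA
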