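import Mathlib
import Pool.Agent.Work.MP_1354f0_pr.Parts

/-!
The explicit odometer function `w` of the ball.
-/

namespace BIDLA

open Real Finset

/-- profile of the odometer -/
noncomputable def kappa (γ z : ℝ) : ℝ := z + 1 / γ * z ^ (-γ) - (1 + 1 / γ)

lemma kappa_nonneg {γ z : ℝ} (hγ : 0 < γ) (hz : 0 < z) : 0 ≤ kappa γ z := by
  unfold kappa
  have h1 : z ^ (-γ) = Real.exp (-γ * Real.log z) := by
    rw [Real.rpow_def_of_pos hz, mul_comm]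
  have h2 := Real.add_one_le_exp (-γ * Real.log z)
  have h3 := Real.log_le_sub_one_of_pos hz
  have h4 : 1 - γ * (z - 1) ≤ z ^ (-γ) := by
    rw [h1]; nlinarith
  have h5 : 1 / γ * (1 - γ * (z - 1)) ≤ 1 / γ * z ^ (-γ) :=
    mul_le_mul_of_nonneg_left h4 (by positivity)
  have h6 : 1 / γ * (1 - γ * (z - 1)) = 1 / γ - (z - 1) := by field_simp
  linarith

lemma kappa_le (γ : ℝ) (hγ : 0 < γ) : ∃ C, 0 ≤ C ∧ ∀ z, 1 / 4 ≤ z → z ≤ 65 →
    kappa γ z ≤ C * (z - 1) ^ 2 := by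
  obtain ⟨C, hC, h⟩ := rem2 (-γ)
  refine ⟨1 / γ * C + 4 * (65 + 1 / γ * (1 / 4) ^ (-γ)), by positivity, ?_⟩
  intro z hz1 hz2
  have hz0 : 0 < z := by linarith
  have hsq : 0 ≤ (z - 1) ^ 2 := sq_nonneg _
  have hpos : 0 ≤ 1 / γ * (1 / 4 : ℝ) ^ (-γ) := by positivity
  by_cases hu : |z - 1| ≤ 1 / 2
  · have h1 := h (z - 1) hu
    rw [add_sub_cancel, sq_abs] at h1
    have h2 := (abs_le.1 h1).2
    have h3 : kappa γ z = 1 / γ * (z ^ (-γ) - (1 + -γ * (z - 1))) := by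
      unfold kappa; field_simp; ring
    rw [h3]
    have h4 : 1 / γ * (z ^ (-γ) - (1 + -γ * (z - 1))) ≤ 1 / γ * (C * (z - 1) ^ 2) :=
      mul_le_mul_of_nonneg_left h2 (by positivity)
    have h5 : 0 ≤ 4 * (65 + 1 / γ * (1 / 4 : ℝ) ^ (-γ)) * (z - 1) ^ 2 := by positivity
    nlinarith
  · push Not at hu
    have h1 : 1 / 4 ≤ (z - 1) ^ 2 := by
      rw [← sq_abs]; nlinarith
    have h2 : z ^ (-γ) ≤ (1 / 4 : ℝ) ^ (-γ) :=
      Real.rpow_le_rpow_of_nonpos (by norm_num) hz1 (by linarith)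
    have h3 : kappa γ z ≤ 65 + 1 / γ * (1 / 4 : ℝ) ^ (-γ) := by
      unfold kappa
      have := mul_le_mul_of_nonneg_left h2 (by positivity : 0 ≤ 1 / γ)
      have : 0 < 1 / γ := by positivity
      linarith
    have h4 : 0 ≤ 1 / γ * C * (z - 1) ^ 2 := by positivity
    nlinarith

/-- exponent `(d-2)/2` -/
noncomputable def gam (d : ℕ) : ℝ := ((d : ℝ) - 2) / 2

lemma gam_pos {d : ℕ} (hd : 3 ≤ d) : 0 < gam d := by
  unfold gam
  have : (3 : ℝ) ≤ d := by exact_mod_cast hd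
  linarith

open Classical in
/-- odometer of the ball of radius `ρ` -/
noncomputable def wfun {d : ℕ} (ρ : ℝ) (x : Site d) : ℝ :=
  if ‖toE x‖ < ρ then ρ ^ 2 * kappa (gam d) ((‖toE x‖ ^ 2 + 64) / ρ ^ 2) else 0

variable {d : ℕ}

lemma wfun_nonneg (hd : 3 ≤ d) {ρ : ℝ} (x : Site d) : 0 ≤ wfun ρ x := by
  unfold wfun
  split_ifs with h
  · have hρ : 0 < ρ := (norm_nonneg _).trans_lt h
    exact mul_nonneg (by positivity) (kappa_nonneg (gam_pos hd) (by positivity))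
  · exact le_rfl

lemma wfun_eq_full (hd : 3 ≤ d) {ρ : ℝ} {x : Site d} (h : ‖toE x‖ < ρ) :
    wfun ρ x = ‖toE x‖ ^ 2 + (1 / gam d * ρ ^ d * ker 64 (-((d : ℝ) - 2) / 2) 0 x
      + (64 - (1 + 1 / gam d) * ρ ^ 2)) := by
  have hρ : 0 < ρ := (norm_nonneg _).trans_lt h
  unfold wfun kappa ker
  rw [if_pos h, sub_zero]
  have e1 : ((‖toE x‖ ^ 2 + 64) / ρ ^ 2) ^ (-gam d) = (‖toE x‖ ^ 2 + 64) ^ (-((d : ℝ) - 2) / 2)
      * (ρ ^ 2) ^ (gam d) := by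
    rw [Real.div_rpow (by positivity) (by positivity), Real.rpow_neg (by positivity : (0:ℝ) ≤ ρ ^ 2)]
    unfold gam
    rw [div_inv_eq_mul]
    congr 2
    ring
  have e2 : ρ ^ 2 * (ρ ^ 2) ^ (gam d) = ρ ^ d := by
    rw [← Real.rpow_natCast ρ 2, ← Real.rpow_mul hρ.le, ← Real.rpow_add hρ, ← Real.rpow_natCast]
    congr 1
    unfold gam
    push_cast; ring
  rw [e1]
  have e3 : ρ ^ 2 * ((‖toE x‖ ^ 2 + 64) / ρ ^ 2 + 1 / gam d *
      ((‖toE x‖ ^ 2 + 64) ^ (-((d : ℝ) - 2) / 2) * (ρ ^ 2) ^ (gam d)) - (1 + 1 / gam d))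
      = (‖toE x‖ ^ 2 + 64) + 1 / gam d * (ρ ^ 2 * (ρ ^ 2) ^ (gam d)) *
        (‖toE x‖ ^ 2 + 64) ^ (-((d : ℝ) - 2) / 2) - (1 + 1 / gam d) * ρ ^ 2 := by
    field_simp
  rw [e3, e2]
  ring

/-- quadratic bound near the boundary -/
lemma wfun_le_quad (d : ℕ) (hd : 3 ≤ d) : ∃ C, 0 ≤ C ∧ ∀ (ρ : ℝ) (x : Site d), 1 ≤ ρ →
    ρ / 2 ≤ ‖toE x‖ → ‖toE x‖ < ρ → wfun ρ x ≤ C * ((ρ - ‖toE x‖) ^ 2 + 1) := by
  obtain ⟨C, hC, h⟩ := kappa_le (gam d) (gam_pos hd)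
  refine ⟨C * (8 + 2 * 64 ^ 2), by positivity, ?_⟩
  intro ρ x hρ h1 h2
  have hρ0 : 0 < ρ := by linarith
  set n := ‖toE x‖ with hn
  have hn0 : 0 ≤ n := norm_nonneg _
  unfold wfun
  rw [if_pos h2]
  have hz1 : 1 / 4 ≤ (n ^ 2 + 64) / ρ ^ 2 := by
    rw [div_le_div_iff₀ (by norm_num) (by positivity)]
    nlinarith
  have hz2 : (n ^ 2 + 64) / ρ ^ 2 ≤ 65 := by
    rw [div_le_iff₀ (by positivity)]
    nlinarith
  have h3 := h _ hz1 hz2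
  have h4 : ρ ^ 2 * kappa (gam d) ((n ^ 2 + 64) / ρ ^ 2)
      ≤ ρ ^ 2 * (C * ((n ^ 2 + 64) / ρ ^ 2 - 1) ^ 2) := mul_le_mul_of_nonneg_left h3 (by positivity)
  refine h4.trans ?_
  have e : ρ ^ 2 * (C * ((n ^ 2 + 64) / ρ ^ 2 - 1) ^ 2) = C * ((n ^ 2 + 64 - ρ ^ 2) ^ 2 / ρ ^ 2) := by
    field_simp
  rw [e, mul_assoc]
  refine mul_le_mul_of_nonneg_left ?_ hC
  rw [div_le_iff₀ (by positivity)]
  have h5 : (n ^ 2 - ρ ^ 2) ^ 2 ≤ (2 * ρ * (ρ - n)) ^ 2 := by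
    have : n ^ 2 - ρ ^ 2 = -((ρ + n) * (ρ - n)) := by ring
    rw [this, neg_sq]
    apply pow_le_pow_left₀ (by nlinarith)
    nlinarith
  have h6 : (n ^ 2 + 64 - ρ ^ 2) ^ 2 ≤ 2 * (n ^ 2 - ρ ^ 2) ^ 2 + 2 * 64 ^ 2 := by
    nlinarith [sq_nonneg (n ^ 2 - ρ ^ 2 - 64)]
  have h7 : (1 : ℝ) ≤ ρ ^ 2 := by nlinarith
  nlinarith [sq_nonneg (ρ - n), mul_nonneg (sq_nonneg (ρ - n)) (sq_nonneg ρ)]

/-- global bound -/
lemma wfun_le_newton (d : ℕ) (hd : 3 ≤ d) : ∃ C, 0 ≤ C ∧ ∀ (ρ : ℝ) (x : Site d), 1 ≤ ρ →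
    ‖toE x‖ < ρ → wfun ρ x ≤ C * ρ ^ d * wt ((d : ℝ) - 2) 0 x := by
  refine ⟨65 ^ ((d : ℝ) / 2) + 1 / gam d, by have := gam_pos hd; positivity, ?_⟩
  intro ρ x hρ h2
  have hγ := gam_pos hd
  have hρ0 : 0 < ρ := by linarith
  rw [wfun_eq_full hd h2]
  set n := ‖toE x‖ with hn
  have hn0 : 0 ≤ n := norm_nonneg _
  unfold ker wt
  simp only [sub_zero, ← hn]
  set A := (n ^ 2 + 64) ^ (-((d : ℝ) - 2) / 2) with hA
  have hd3 : (3 : ℝ) ≤ d := by exact_mod_cast hd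
  have hAle : A ≤ (n ^ 2 + 1) ^ (-((d : ℝ) - 2) / 2) := by
    apply Real.rpow_le_rpow_of_nonpos (by positivity) (by linarith) (by linarith)
  have hA0 : 0 < A := by positivity
  have e1 : n ^ 2 + 64 = (n ^ 2 + 64) ^ ((d : ℝ) / 2) * A := by
    rw [hA, ← Real.rpow_add (by positivity)]
    have : (d : ℝ) / 2 + -((d : ℝ) - 2) / 2 = 1 := by ring
    rw [this, Real.rpow_one]
  have e2 : (n ^ 2 + 64) ^ ((d : ℝ) / 2) ≤ 65 ^ ((d : ℝ) / 2) * ρ ^ d := by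
    have h3 : n ^ 2 + 64 ≤ 65 * ρ ^ 2 := by nlinarith
    calc (n ^ 2 + 64) ^ ((d : ℝ) / 2) ≤ (65 * ρ ^ 2) ^ ((d : ℝ) / 2) :=
          Real.rpow_le_rpow (by positivity) h3 (by positivity)
      _ = 65 ^ ((d : ℝ) / 2) * ρ ^ d := by
          rw [Real.mul_rpow (by norm_num) (by positivity)]
          congr 1
          rw [← Real.rpow_natCast ρ 2, ← Real.rpow_mul hρ0.le, ← Real.rpow_natCast ρ d]
          congr 1
          push_cast; ring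
  have h8 : 0 < (1 + 1 / gam d) * ρ ^ 2 := by positivity
  have hB : 0 < (n ^ 2 + 1) ^ (-((d : ℝ) - 2) / 2) := by positivity
  calc n ^ 2 + (1 / gam d * ρ ^ d * A + (64 - (1 + 1 / gam d) * ρ ^ 2))
      ≤ (n ^ 2 + 64) + 1 / gam d * ρ ^ d * A := by linarith
    _ = (n ^ 2 + 64) ^ ((d : ℝ) / 2) * A + 1 / gam d * ρ ^ d * A := by rw [← e1]
    _ ≤ (65 ^ ((d : ℝ) / 2) * ρ ^ d) * A + 1 / gam d * ρ ^ d * A := by
        gcongr
    _ = (65 ^ ((d : ℝ) / 2) + 1 / gam d) * ρ ^ d * A := by ring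
    _ ≤ (65 ^ ((d : ℝ) / 2) + 1 / gam d) * ρ ^ d * (n ^ 2 + 1) ^ (-((d : ℝ) - 2) / 2) := by
        gcongr

/-- Laplacian of `w` well inside the ball -/
lemma lap_wfun_inside (d : ℕ) (hd : 3 ≤ d) : ∃ C, 0 ≤ C ∧ ∀ (ρ : ℝ) (x : Site d), 1 ≤ ρ →
    ‖toE x‖ < ρ - 1 → |lap (wfun ρ) x - 1| ≤ C * ρ ^ d * wt ((d : ℝ) + 2) 0 x := by
  obtain ⟨C, hC, h⟩ := lap_newton d hd
  have hγ := gam_pos hd
  refine ⟨1 / gam d * (C + ((d : ℝ) - 2) / 2 * 64), by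
    have : 0 < ((d : ℝ) - 2) / 2 := gam_pos hd
    positivity, ?_⟩
  intro ρ x hρ hx
  have hγ' : 0 < ((d : ℝ) - 2) / 2 := gam_pos hd
  have hx' : ‖toE x‖ < ρ := by linarith
  have e1 : lap (wfun ρ) x = lap (fun y => ‖toE y‖ ^ 2 +
      (1 / gam d * ρ ^ d * ker 64 (-((d : ℝ) - 2) / 2) 0 y + (64 - (1 + 1 / gam d) * ρ ^ 2))) x := by
    apply lap_congr
    · exact wfun_eq_full hd hx'
    · intro e
      apply wfun_eq_full hd
      have := norm_step_le x e 0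
      simp only [sub_zero] at this
      linarith
  rw [e1, lap_add, lap_normsq (by omega), lap_add, lap_const_mul, lap_const (by omega)]
  have h1 := h 64 0 x le_rfl
  simp only [sub_zero] at h1
  set A := (‖toE x‖ ^ 2 + 64) ^ (-((d : ℝ) + 2) / 2) with hA
  have hA0 : 0 < A := by positivity
  have hAle : A ≤ wt ((d : ℝ) + 2) 0 x := by
    unfold wt
    rw [sub_zero]
    apply Real.rpow_le_rpow_of_nonpos (by positivity) (by linarith)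
    have : (0 : ℝ) ≤ d := by positivity
    linarith
  have h2 : |lap (ker 64 (-((d : ℝ) - 2) / 2) 0) x| ≤ (C + ((d : ℝ) - 2) / 2 * 64) * A := by
    have h3 := abs_sub_abs_le_abs_sub (lap (ker 64 (-((d : ℝ) - 2) / 2) 0) x)
      (-(((d : ℝ) - 2) / 2 * 64 * A))
    rw [sub_neg_eq_add, abs_neg, abs_of_pos (by positivity : 0 < ((d : ℝ) - 2) / 2 * 64 * A)] at h3
    linarith
  have e2 : 1 + (1 / gam d * ρ ^ d * lap (ker 64 (-((d : ℝ) - 2) / 2) 0) x + 0) - 1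
      = 1 / gam d * ρ ^ d * lap (ker 64 (-((d : ℝ) - 2) / 2) 0) x := by ring
  have hρd : 0 < ρ ^ d := by positivity
  rw [e2, abs_mul, abs_of_pos (by positivity : 0 < 1 / gam d * ρ ^ d)]
  calc 1 / gam d * ρ ^ d * |lap (ker 64 (-((d : ℝ) - 2) / 2) 0) x|
      ≤ 1 / gam d * ρ ^ d * ((C + ((d : ℝ) - 2) / 2 * 64) * wt ((d : ℝ) + 2) 0 x) := by
        refine mul_le_mul_of_nonneg_left (h2.trans ?_) (by positivity)
        exact mul_le_mul_of_nonneg_left hAle (by positivity)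
    _ = _ := by ring

/-- Laplacian of `w` in the boundary layer -/
lemma lap_wfun_layer (d : ℕ) (hd : 3 ≤ d) : ∃ C, 0 ≤ C ∧ ∀ (ρ : ℝ) (x : Site d), 4 ≤ ρ →
    ρ - 1 ≤ ‖toE x‖ → |lap (wfun ρ) x| ≤ C := by
  obtain ⟨C, hC, h⟩ := wfun_le_quad d hd
  refine ⟨2 * (5 * C), by positivity, ?_⟩
  intro ρ x hρ hx
  have key : ∀ y : Site d, ρ - 2 ≤ ‖toE y‖ → |wfun ρ y| ≤ 5 * C := by
    intro y hy
    rw [abs_of_nonneg (wfun_nonneg hd y)]
    by_cases h1 : ‖toE y‖ < ρ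
    · refine (h ρ y (by linarith) (by linarith) h1).trans ?_
      have : (ρ - ‖toE y‖) ^ 2 ≤ 4 := by nlinarith
      nlinarith
    · unfold wfun
      rw [if_neg h1]
      positivity
  apply abs_lap_le (by omega)
  · exact key x (by linarith)
  · intro e
    apply key
    have := norm_step_ge x e 0
    simp only [sub_zero] at this
    linarith

lemma lap_wfun_outside {ρ : ℝ} {x : Site d} (hx : ρ + 1 ≤ ‖toE x‖) : lap (wfun ρ) x = 0 := by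
  have key : ∀ y : Site d, ρ ≤ ‖toE y‖ → wfun ρ y = 0 := by
    intro y hy
    unfold wfun
    rw [if_neg (by linarith)]
  unfold lap
  rw [key x (by linarith), Finset.sum_eq_zero]
  · simp
  · intro e _
    apply key
    have := norm_step_ge x e 0
    simp only [sub_zero] at this
    linarith

end BIDLA
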