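import Mathlib
import Pool.Agent.Work.MP_1354f0_pr.WFun

/-!
The discrete mean value inequality on lattice balls.
-/

namespace BIDLA

open Real Finset

variable {d : ℕ}

/-- distance from a far centre -/
lemma norm_sub_ge {ρ : ℝ} {v : EuclideanSpace ℝ (Fin d)} (hv : ρ - 1 ≤ ‖v‖) (x : Site d) :
    ρ - 1 - ‖toE x‖ ≤ ‖toE x - v‖ := by
  have := norm_sub_le (toE x) (toE x - v)
  rw [sub_sub_cancel] at this
  linarith

lemma mv_identity (g : Site d → ℝ) (ρ : ℝ) :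
    ∑ x ∈ ballF (0 : EuclideanSpace ℝ (Fin d)) ρ, g x
      = ∑ x ∈ ballF (0 : EuclideanSpace ℝ (Fin d)) ρ, wfun ρ x * lap g x
        - ∑ x ∈ ballF (0 : EuclideanSpace ℝ (Fin d)) (ρ + 1),
          g x * (lap (wfun ρ) x - if ‖toE x‖ < ρ then 1 else 0) := by
  have hsupp : (wfun (d := d) ρ).support ⊆ ↑(ballF (0 : EuclideanSpace ℝ (Fin d)) ρ) := by
    intro x hx
    rw [Function.mem_support] at hx
    rw [Finset.mem_coe, mem_ballF, sub_zero]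
    by_contra h
    exact hx (by unfold wfun; rw [if_neg h])
  have hfin : (wfun (d := d) ρ).support.Finite := (Finset.finite_toSet _).subset hsupp
  have h1 := sum_by_parts (wfun ρ) g hfin
  rw [tsum_eq_sum (s := ballF (0 : EuclideanSpace ℝ (Fin d)) (ρ + 1)) (by
      intro x hx
      rw [mem_ballF, sub_zero, not_lt] at hx
      rw [lap_wfun_outside hx, mul_zero]),
    tsum_eq_sum (s := ballF (0 : EuclideanSpace ℝ (Fin d)) ρ) (by
      intro x hx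
      have : wfun ρ x = 0 := by
        by_contra h
        exact hx (Finset.mem_coe.1 (hsupp (Function.mem_support.2 h)))
      rw [this, zero_mul])] at h1
  rw [← h1]
  simp_rw [mul_sub]
  rw [Finset.sum_sub_distrib, sub_sub_cancel]
  simp_rw [mul_ite, mul_one, mul_zero]
  rw [← Finset.sum_filter]
  congr 1
  ext x
  rw [Finset.mem_filter, mem_ballF, mem_ballF, sub_zero]
  constructor
  · intro h; exact ⟨by linarith, h⟩
  · intro h; exact h.2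

/-- main term: `∑ w |lap g|` -/
lemma mv_T1 (d : ℕ) (hd : 3 ≤ d) : ∃ C, 0 ≤ C ∧ ∀ (ρ C1 : ℝ) (v : EuclideanSpace ℝ (Fin d)),
    100 ≤ ρ → 0 ≤ C1 → ρ - 1 ≤ ‖v‖ →
    ∑ x ∈ ballF (0 : EuclideanSpace ℝ (Fin d)) ρ, wfun ρ x * (C1 * wt ((d : ℝ) + 2) v x)
      ≤ C * C1 * (1 + Real.log ρ) := by
  obtain ⟨K1, hK1, h1⟩ := wfun_le_quad d hd
  obtain ⟨K2, hK2, h2⟩ := wfun_le_newton d hd
  obtain ⟨K3, hK3, h3⟩ := sum_ball_log d
  have hd3 : (3 : ℝ) ≤ d := by exact_mod_cast hd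
  obtain ⟨K4, hK4, h4⟩ := sum_ball_pow d ((d : ℝ) - 2) (by linarith) (by linarith)
  refine ⟨K1 * 3 * K3 + K2 * 4 ^ ((d : ℝ) + 2) * K4, by positivity, ?_⟩
  intro ρ C1 v hρ hC1 hv
  have hρ0 : 0 < ρ := by linarith
  have hlog : 0 ≤ Real.log ρ := Real.log_nonneg (by linarith)
  have hterm : ∀ x ∈ ballF (0 : EuclideanSpace ℝ (Fin d)) ρ, wfun ρ x * (C1 * wt ((d : ℝ) + 2) v x)
      ≤ K1 * 3 * C1 * wt d v x +
        K2 * ρ ^ d * C1 * (ρ / 4) ^ (-((d : ℝ) + 2)) * wt ((d : ℝ) - 2) 0 x := by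
    intro x hx
    rw [mem_ballF, sub_zero] at hx
    have hge := norm_sub_ge hv x
    by_cases hc : ρ / 2 ≤ ‖toE x‖
    · have hw := h1 ρ x (by linarith) hc hx
      have e1 : (ρ - ‖toE x‖) ^ 2 + 1 ≤ 3 * (‖toE x - v‖ ^ 2 + 1) := by
        have h5 : ρ - ‖toE x‖ ≤ ‖toE x - v‖ + 1 := by linarith
        have h6 : 0 ≤ ρ - ‖toE x‖ := by linarith
        have h7 : (ρ - ‖toE x‖) ^ 2 ≤ (‖toE x - v‖ + 1) ^ 2 := pow_le_pow_left₀ h6 h5 2
        nlinarith [sq_nonneg (‖toE x - v‖ - 1)]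
      have e2 : (‖toE x - v‖ ^ 2 + 1) * wt ((d : ℝ) + 2) v x = wt d v x := by
        rw [← wt_neg_two, wt_add]; congr 1; ring
      have hpos : 0 ≤ K2 * ρ ^ d * C1 * (ρ / 4) ^ (-((d : ℝ) + 2)) * wt ((d : ℝ) - 2) 0 x := by
        have := wt_nonneg ((d : ℝ) - 2) 0 x
        positivity
      have hwt := wt_nonneg ((d : ℝ) + 2) v x
      calc wfun ρ x * (C1 * wt ((d : ℝ) + 2) v x)
          ≤ (K1 * (3 * (‖toE x - v‖ ^ 2 + 1))) * (C1 * wt ((d : ℝ) + 2) v x) := by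
            refine mul_le_mul_of_nonneg_right (hw.trans ?_) (by positivity)
            exact mul_le_mul_of_nonneg_left e1 hK1
        _ = K1 * 3 * C1 * ((‖toE x - v‖ ^ 2 + 1) * wt ((d : ℝ) + 2) v x) := by ring
        _ = K1 * 3 * C1 * wt d v x := by rw [e2]
        _ ≤ _ := by linarith
    · push Not at hc
      have hw := h2 ρ x (by linarith) hx
      have h5 : ρ / 4 ≤ ‖toE x - v‖ := by linarith
      have h6 : wt ((d : ℝ) + 2) v x ≤ (ρ / 4) ^ (-((d : ℝ) + 2)) :=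
        wt_le (by linarith) (by linarith) h5
      have hwt0 := wt_nonneg ((d : ℝ) - 2) 0 x
      have hwt1 := wt_nonneg (d : ℝ) v x
      have hwt2 := wt_nonneg ((d : ℝ) + 2) v x
      calc wfun ρ x * (C1 * wt ((d : ℝ) + 2) v x)
          ≤ (K2 * ρ ^ d * wt ((d : ℝ) - 2) 0 x) * (C1 * (ρ / 4) ^ (-((d : ℝ) + 2))) := by
            refine mul_le_mul hw ?_ (by positivity) (by positivity)
            exact mul_le_mul_of_nonneg_left h6 hC1
        _ = K2 * ρ ^ d * C1 * (ρ / 4) ^ (-((d : ℝ) + 2)) * wt ((d : ℝ) - 2) 0 x := by ring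
        _ ≤ _ := by
            have : 0 ≤ K1 * 3 * C1 * wt d v x := by positivity
            linarith
  refine (Finset.sum_le_sum hterm).trans ?_
  rw [Finset.sum_add_distrib, ← Finset.mul_sum, ← Finset.mul_sum]
  have s1 := h3 ρ v (by linarith)
  have s2 := h4 ρ 0 (by linarith)
  have e3 : ρ ^ d * (ρ / 4) ^ (-((d : ℝ) + 2)) * ρ ^ ((d : ℝ) - ((d : ℝ) - 2)) = 4 ^ ((d : ℝ) + 2) := by
    rw [Real.div_rpow hρ0.le (by norm_num), Real.rpow_neg (by norm_num : (0:ℝ) ≤ 4), div_inv_eq_mul,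
      ← Real.rpow_natCast]
    have : ρ ^ (d : ℝ) * (ρ ^ (-((d : ℝ) + 2)) * 4 ^ ((d : ℝ) + 2)) * ρ ^ ((d : ℝ) - ((d : ℝ) - 2))
        = (ρ ^ (d : ℝ) * ρ ^ (-((d : ℝ) + 2)) * ρ ^ ((d : ℝ) - ((d : ℝ) - 2))) * 4 ^ ((d : ℝ) + 2) := by
      ring
    rw [this, ← Real.rpow_add hρ0, ← Real.rpow_add hρ0]
    have : (d : ℝ) + -((d : ℝ) + 2) + ((d : ℝ) - ((d : ℝ) - 2)) = 0 := by ring
    rw [this, Real.rpow_zero, one_mul]
  have t1 : K1 * 3 * C1 * ∑ x ∈ ballF (0 : EuclideanSpace ℝ (Fin d)) ρ, wt d v x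
      ≤ K1 * 3 * C1 * (K3 * (1 + Real.log ρ)) := mul_le_mul_of_nonneg_left s1 (by positivity)
  have t2 : K2 * ρ ^ d * C1 * (ρ / 4) ^ (-((d : ℝ) + 2)) *
      ∑ x ∈ ballF (0 : EuclideanSpace ℝ (Fin d)) ρ, wt ((d : ℝ) - 2) 0 x
      ≤ K2 * 4 ^ ((d : ℝ) + 2) * K4 * C1 := by
    calc _ ≤ K2 * ρ ^ d * C1 * (ρ / 4) ^ (-((d : ℝ) + 2)) * (K4 * ρ ^ ((d : ℝ) - ((d : ℝ) - 2))) :=
          mul_le_mul_of_nonneg_left s2 (by positivity)
      _ = K2 * K4 * C1 * (ρ ^ d * (ρ / 4) ^ (-((d : ℝ) + 2)) * ρ ^ ((d : ℝ) - ((d : ℝ) - 2))) := by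
          ring
      _ = _ := by rw [e3]; ring
  have h9 : 0 ≤ K2 * 4 ^ ((d : ℝ) + 2) * K4 * C1 * Real.log ρ := by positivity
  nlinarith

/-- error term -/
lemma mv_T2 (d : ℕ) (hd : 3 ≤ d) : ∃ C, 0 ≤ C ∧ ∀ (ρ C1 C2 : ℝ) (v : EuclideanSpace ℝ (Fin d))
    (g : Site d → ℝ), 100 ≤ ρ → 0 ≤ C1 → 0 ≤ C2 →
    (∀ x, ‖toE x‖ ≤ ρ / 8 → |g x| ≤ C1 * ‖toE x‖ ^ 2 * ρ ^ (-(d : ℝ))) →
    (∀ x, ‖toE x‖ < ρ + 1 → |g x| ≤ C2 * (wt ((d - 1 : ℕ) : ℝ) v x + wt ((d - 1 : ℕ) : ℝ) (-v) x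
      + ρ ^ (-((d - 1 : ℕ) : ℝ)))) →
    ∑ x ∈ ballF (0 : EuclideanSpace ℝ (Fin d)) (ρ + 1),
          |g x * (lap (wfun ρ) x - if ‖toE x‖ < ρ then 1 else 0)|
      ≤ C * (C1 + C2) * (1 + Real.log ρ) := by
  obtain ⟨K1, hK1, h1⟩ := lap_wfun_inside d hd
  obtain ⟨K2, hK2, h2⟩ := lap_wfun_layer d hd
  obtain ⟨K3, hK3, h3⟩ := sum_ball_log d
  have hd3 : (3 : ℝ) ≤ d := by exact_mod_cast hd
  have hdm : ((d - 1 : ℕ) : ℝ) = (d : ℝ) - 1 := by
    rw [Nat.cast_sub (by omega)]; simp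
  obtain ⟨K4, hK4, h4⟩ := sum_ball_pow d ((d - 1 : ℕ) : ℝ) (by positivity) (by rw [hdm]; linarith)
  obtain ⟨K5, hK5, h5⟩ := sum_layer_log d (by omega)
  obtain ⟨K6, hK6, h6⟩ := card_layer d (by omega)
  refine ⟨K1 * K3 * 2 + K1 * 8 ^ ((d : ℝ) + 2) * (2 * K4 * 2 + 3 ^ d * 2 ^ d)
    + (K2 + 1) * (2 * K5 + K6), by positivity, ?_⟩
  intro ρ C1 C2 v g hρ hC1 hC2 hg1 hg2
  have hρ0 : 0 < ρ := by linarith
  have hlog : 0 ≤ Real.log ρ := Real.log_nonneg (by linarith)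
  set m : ℝ := ((d - 1 : ℕ) : ℝ) with hm
  set G : Site d → ℝ := fun x => C2 * (wt m v x + wt m (-v) x + ρ ^ (-m)) with hG
  have hG0 : ∀ x, 0 ≤ G x := by
    intro x
    have := wt_nonneg m v x
    have := wt_nonneg m (-v) x
    simp only [hG]
    positivity
  have hterm : ∀ x ∈ ballF (0 : EuclideanSpace ℝ (Fin d)) (ρ + 1),
      |g x * (lap (wfun ρ) x - if ‖toE x‖ < ρ then 1 else 0)|
      ≤ K1 * C1 * wt d 0 x + K1 * ρ ^ d * (ρ / 8) ^ (-((d : ℝ) + 2)) * G x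
        + (if ρ - 2 ≤ ‖toE x‖ then (K2 + 1) * G x else 0) := by
    intro x hx
    rw [mem_ballF, sub_zero] at hx
    have hwt0 := wt_nonneg (d : ℝ) 0 x
    have hGx := hG0 x
    have p1 : 0 ≤ K1 * C1 * wt d 0 x := by positivity
    have p2 : 0 ≤ K1 * ρ ^ d * (ρ / 8) ^ (-((d : ℝ) + 2)) * G x := by positivity
    have p3 : 0 ≤ (if ρ - 2 ≤ ‖toE x‖ then (K2 + 1) * G x else 0) := by
      split_ifs <;> positivity
    rw [abs_mul]
    rcases le_or_gt ‖toE x‖ (ρ / 8) with hc | hc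
    · -- near the origin
      rw [if_pos (by linarith : ‖toE x‖ < ρ)]
      have q1 := hg1 x hc
      have q2 := h1 ρ x (by linarith) (by linarith)
      have q3 : ‖toE x‖ ^ 2 * wt ((d : ℝ) + 2) 0 x ≤ wt d 0 x := by
        have e2 : (‖toE x - (0 : EuclideanSpace ℝ (Fin d))‖ ^ 2 + 1) * wt ((d : ℝ) + 2) 0 x
            = wt d 0 x := by
          rw [← wt_neg_two, wt_add]; congr 1; ring
        rw [sub_zero] at e2
        have := wt_nonneg ((d : ℝ) + 2) 0 x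
        nlinarith
      calc |g x| * |lap (wfun ρ) x - 1|
          ≤ (C1 * ‖toE x‖ ^ 2 * ρ ^ (-(d : ℝ))) * (K1 * ρ ^ d * wt ((d : ℝ) + 2) 0 x) := by
            refine mul_le_mul q1 q2 (abs_nonneg _) ?_
            positivity
        _ = K1 * C1 * (‖toE x‖ ^ 2 * wt ((d : ℝ) + 2) 0 x) * (ρ ^ (-(d : ℝ)) * ρ ^ d) := by ring
        _ = K1 * C1 * (‖toE x‖ ^ 2 * wt ((d : ℝ) + 2) 0 x) := by
            rw [← Real.rpow_natCast ρ d, ← Real.rpow_add hρ0, neg_add_cancel, Real.rpow_zero,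
              mul_one]
        _ ≤ K1 * C1 * wt d 0 x := mul_le_mul_of_nonneg_left q3 (by positivity)
        _ ≤ _ := by linarith
    · rcases lt_or_ge ‖toE x‖ (ρ - 1) with hc2 | hc2
      · rw [if_pos (by linarith : ‖toE x‖ < ρ)]
        have q1 := hg2 x hx
        have q2 := h1 ρ x (by linarith) (by linarith)
        have q3 : wt ((d : ℝ) + 2) 0 x ≤ (ρ / 8) ^ (-((d : ℝ) + 2)) := by
          apply wt_le (by linarith) (by linarith)
          rw [sub_zero]; linarith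
        calc |g x| * |lap (wfun ρ) x - 1|
            ≤ G x * (K1 * ρ ^ d * (ρ / 8) ^ (-((d : ℝ) + 2))) := by
              refine mul_le_mul q1 (q2.trans ?_) (abs_nonneg _) hGx
              exact mul_le_mul_of_nonneg_left q3 (by positivity)
          _ = K1 * ρ ^ d * (ρ / 8) ^ (-((d : ℝ) + 2)) * G x := by ring
          _ ≤ _ := by linarith
      · have q1 := hg2 x hx
        have q2 := h2 ρ x (by linarith) hc2
        have q3 : |lap (wfun ρ) x - if ‖toE x‖ < ρ then 1 else 0| ≤ K2 + 1 := by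
          refine (abs_sub _ _).trans (add_le_add q2 ?_)
          split_ifs <;> simp
        rw [if_pos (by linarith : ρ - 2 ≤ ‖toE x‖)]
        calc |g x| * |lap (wfun ρ) x - if ‖toE x‖ < ρ then 1 else 0|
            ≤ G x * (K2 + 1) := mul_le_mul q1 q3 (abs_nonneg _) hGx
          _ = (K2 + 1) * G x := by ring
          _ ≤ _ := by linarith
  refine (Finset.sum_le_sum hterm).trans ?_
  rw [Finset.sum_add_distrib, Finset.sum_add_distrib, ← Finset.mul_sum, ← Finset.mul_sum]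
  have hρ1 : 1 ≤ ρ + 1 := by linarith
  -- first sum
  have hlog2 : Real.log (ρ + 1) ≤ 1 + Real.log ρ := by
    have : ρ + 1 ≤ Real.exp 1 * ρ := by
      have := Real.add_one_le_exp (1 : ℝ)
      nlinarith
    calc Real.log (ρ + 1) ≤ Real.log (Real.exp 1 * ρ) := Real.log_le_log (by linarith) this
      _ = 1 + Real.log ρ := by rw [Real.log_mul (Real.exp_pos 1).ne' hρ0.ne', Real.log_exp]
  have t1 : K1 * C1 * ∑ x ∈ ballF (0 : EuclideanSpace ℝ (Fin d)) (ρ + 1), wt d 0 x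
      ≤ K1 * K3 * 2 * C1 * (1 + Real.log ρ) := by
    calc _ ≤ K1 * C1 * (K3 * (1 + Real.log (ρ + 1))) :=
          mul_le_mul_of_nonneg_left (h3 _ _ hρ1) (by positivity)
      _ ≤ K1 * C1 * (K3 * (2 * (1 + Real.log ρ))) := by
          gcongr; linarith
      _ = _ := by ring
  -- second sum
  have hmd : (d : ℝ) - m = 1 := by rw [hdm]; ring
  have s2 : ∑ x ∈ ballF (0 : EuclideanSpace ℝ (Fin d)) (ρ + 1), G x
      ≤ C2 * ((2 * K4 * 2 + 3 ^ d * 2 ^ d) * ρ) := by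
    simp only [hG]
    rw [← Finset.mul_sum, Finset.sum_add_distrib, Finset.sum_add_distrib, Finset.sum_const,
      nsmul_eq_mul]
    refine mul_le_mul_of_nonneg_left ?_ hC2
    have a1 := h4 (ρ + 1) v hρ1
    have a2 := h4 (ρ + 1) (-v) hρ1
    rw [hmd, Real.rpow_one] at a1 a2
    have a3 : ((ballF (0 : EuclideanSpace ℝ (Fin d)) (ρ + 1)).card : ℝ) * ρ ^ (-m)
        ≤ 3 ^ d * 2 ^ d * ρ := by
      calc ((ballF (0 : EuclideanSpace ℝ (Fin d)) (ρ + 1)).card : ℝ) * ρ ^ (-m)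
          ≤ (3 ^ d * (ρ + 1) ^ d) * ρ ^ (-m) := by
            gcongr
            exact card_ballF_le _ hρ1
        _ ≤ (3 ^ d * (2 * ρ) ^ d) * ρ ^ (-m) := by
            gcongr; linarith
        _ = 3 ^ d * 2 ^ d * (ρ ^ (d : ℝ) * ρ ^ (-m)) := by
            rw [mul_pow, Real.rpow_natCast]; ring
        _ = 3 ^ d * 2 ^ d * ρ := by
            rw [← Real.rpow_add hρ0, ← sub_eq_add_neg, hmd, Real.rpow_one]
    have : K4 * (ρ + 1) ≤ 2 * K4 * ρ := by nlinarith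
    nlinarith
  have e3 : ρ ^ d * (ρ / 8) ^ (-((d : ℝ) + 2)) * ρ ≤ 8 ^ ((d : ℝ) + 2) := by
    rw [Real.div_rpow hρ0.le (by norm_num), Real.rpow_neg (by norm_num : (0:ℝ) ≤ 8), div_inv_eq_mul,
      ← Real.rpow_natCast]
    have e4 : ρ ^ (d : ℝ) * (ρ ^ (-((d : ℝ) + 2)) * 8 ^ ((d : ℝ) + 2)) * ρ
        = (ρ ^ (d : ℝ) * ρ ^ (-((d : ℝ) + 2)) * ρ ^ (1 : ℝ)) * 8 ^ ((d : ℝ) + 2) := by
      rw [Real.rpow_one]; ring
    rw [e4, ← Real.rpow_add hρ0, ← Real.rpow_add hρ0]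
    have e5 : (d : ℝ) + -((d : ℝ) + 2) + 1 = -1 := by ring
    rw [e5]
    have : ρ ^ (-1 : ℝ) ≤ 1 := Real.rpow_le_one_of_one_le_of_nonpos (by linarith) (by norm_num)
    have h8 : (0 : ℝ) < 8 ^ ((d : ℝ) + 2) := by positivity
    nlinarith
  have t2 : K1 * ρ ^ d * (ρ / 8) ^ (-((d : ℝ) + 2)) *
      ∑ x ∈ ballF (0 : EuclideanSpace ℝ (Fin d)) (ρ + 1), G x
      ≤ K1 * 8 ^ ((d : ℝ) + 2) * (2 * K4 * 2 + 3 ^ d * 2 ^ d) * C2 := by
    calc _ ≤ K1 * ρ ^ d * (ρ / 8) ^ (-((d : ℝ) + 2)) * (C2 * ((2 * K4 * 2 + 3 ^ d * 2 ^ d) * ρ)) :=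
          mul_le_mul_of_nonneg_left s2 (by positivity)
      _ = K1 * C2 * (2 * K4 * 2 + 3 ^ d * 2 ^ d) * (ρ ^ d * (ρ / 8) ^ (-((d : ℝ) + 2)) * ρ) := by
          ring
      _ ≤ K1 * C2 * (2 * K4 * 2 + 3 ^ d * 2 ^ d) * 8 ^ ((d : ℝ) + 2) :=
          mul_le_mul_of_nonneg_left e3 (by positivity)
      _ = _ := by ring
  -- third sum
  have t3 : ∑ x ∈ ballF (0 : EuclideanSpace ℝ (Fin d)) (ρ + 1),
      (if ρ - 2 ≤ ‖toE x‖ then (K2 + 1) * G x else 0)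
      ≤ (K2 + 1) * (2 * K5 + K6) * C2 * (1 + Real.log ρ) := by
    calc ∑ x ∈ ballF (0 : EuclideanSpace ℝ (Fin d)) (ρ + 1),
        (if ρ - 2 ≤ ‖toE x‖ then (K2 + 1) * G x else 0)
        ≤ ∑ x ∈ layer d ρ, (K2 + 1) * G x := by
          rw [← Finset.sum_filter]
          apply Finset.sum_le_sum_of_subset_of_nonneg
          · intro x hx
            rw [Finset.mem_filter, mem_ballF, sub_zero] at hx
            rw [mem_layer]
            exact ⟨hx.2, by linarith [hx.1]⟩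
          · intro x _ _
            have := hG0 x
            positivity
      _ = (K2 + 1) * (C2 * (∑ x ∈ layer d ρ, wt m v x + ∑ x ∈ layer d ρ, wt m (-v) x
          + (layer d ρ).card * ρ ^ (-m))) := by
          simp only [hG]
          rw [← Finset.mul_sum, ← Finset.mul_sum, Finset.sum_add_distrib, Finset.sum_add_distrib,
            Finset.sum_const, nsmul_eq_mul]
      _ ≤ (K2 + 1) * (C2 * (K5 * (1 + Real.log ρ) + K5 * (1 + Real.log ρ) + K6)) := by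
          have a3 : ((layer d ρ).card : ℝ) * ρ ^ (-m) ≤ K6 := by
            calc ((layer d ρ).card : ℝ) * ρ ^ (-m) ≤ (K6 * ρ ^ (d - 1)) * ρ ^ (-m) := by
                  gcongr
                  exact h6 ρ (by linarith)
              _ = K6 * (ρ ^ m * ρ ^ (-m)) := by rw [hm, Real.rpow_natCast]; ring
              _ = K6 := by rw [← Real.rpow_add hρ0, add_neg_cancel, Real.rpow_zero, mul_one]
          gcongr
          · exact h5 ρ v (by linarith)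
          · exact h5 ρ (-v) (by linarith)
      _ ≤ _ := by
          have : 0 ≤ (K2 + 1) * C2 * K6 * Real.log ρ := by positivity
          nlinarith
  have p1 : 0 ≤ K1 * 8 ^ ((d : ℝ) + 2) * (2 * K4 * 2 + 3 ^ d * 2 ^ d) * C2 * Real.log ρ := by
    positivity
  have p2 : 0 ≤ K1 * 8 ^ ((d : ℝ) + 2) * (2 * K4 * 2 + 3 ^ d * 2 ^ d) * C1 * (1 + Real.log ρ) := by
    positivity
  have p3 : 0 ≤ (K2 + 1) * (2 * K5 + K6) * C1 * (1 + Real.log ρ) := by positivity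
  have p4 : 0 ≤ K1 * K3 * 2 * C2 * (1 + Real.log ρ) := by positivity
  nlinarith

/-- Mean value inequality for a function vanishing to second order at the origin. -/
theorem mv_g (d : ℕ) (hd : 3 ≤ d) : ∃ C, 0 ≤ C ∧ ∀ (ρ C1 C2 : ℝ) (v : EuclideanSpace ℝ (Fin d))
    (g : Site d → ℝ), 1 ≤ ρ → 0 ≤ C1 → 0 ≤ C2 → ρ - 1 ≤ ‖v‖ →
    (∀ x, ‖toE x‖ < ρ → |lap g x| ≤ C1 * (wt ((d : ℝ) + 2) v x + wt ((d : ℝ) + 2) (-v) x)) →
    (∀ x, ‖toE x‖ ≤ ρ / 8 → |g x| ≤ C1 * ‖toE x‖ ^ 2 * ρ ^ (-(d : ℝ))) →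
    (∀ x, ‖toE x‖ < ρ + 1 → |g x| ≤ C2 * (wt ((d - 1 : ℕ) : ℝ) v x + wt ((d - 1 : ℕ) : ℝ) (-v) x
      + ρ ^ (-((d - 1 : ℕ) : ℝ)))) →
    |∑ x ∈ ballF (0 : EuclideanSpace ℝ (Fin d)) ρ, g x| ≤ C * (C1 + C2) * (1 + Real.log ρ) := by
  obtain ⟨K1, hK1, h1⟩ := mv_T1 d hd
  obtain ⟨K2, hK2, h2⟩ := mv_T2 d hd
  refine ⟨2 * K1 + K2 + 3 ^ d * 100 ^ d * 3, by positivity, ?_⟩
  intro ρ C1 C2 v g hρ1 hC1 hC2 hv hg0 hg1 hg2
  have hρ0 : 0 < ρ := by linarith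
  have hlog : 0 ≤ Real.log ρ := Real.log_nonneg hρ1
  rcases lt_or_ge ρ 100 with hρ | hρ
  · have hterm : ∀ x ∈ ballF (0 : EuclideanSpace ℝ (Fin d)) ρ, |g x| ≤ C2 * 3 := by
      intro x hx
      rw [mem_ballF, sub_zero] at hx
      refine (hg2 x (by linarith)).trans (mul_le_mul_of_nonneg_left ?_ hC2)
      have a1 := wt_le_one (a := ((d - 1 : ℕ) : ℝ)) (by positivity) v x
      have a2 := wt_le_one (a := ((d - 1 : ℕ) : ℝ)) (by positivity) (-v) x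
      have a3 : ρ ^ (-((d - 1 : ℕ) : ℝ)) ≤ 1 :=
        Real.rpow_le_one_of_one_le_of_nonpos hρ1 (by
          have : (0:ℝ) ≤ ((d - 1 : ℕ) : ℝ) := by positivity
          linarith)
      linarith
    have hcard : ((ballF (0 : EuclideanSpace ℝ (Fin d)) ρ).card : ℝ) ≤ 3 ^ d * 100 ^ d := by
      refine (card_ballF_le _ hρ1).trans ?_
      gcongr
    calc |∑ x ∈ ballF (0 : EuclideanSpace ℝ (Fin d)) ρ, g x|
        ≤ ∑ x ∈ ballF (0 : EuclideanSpace ℝ (Fin d)) ρ, |g x| := Finset.abs_sum_le_sum_abs _ _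
      _ ≤ ∑ _x ∈ ballF (0 : EuclideanSpace ℝ (Fin d)) ρ, C2 * 3 := Finset.sum_le_sum hterm
      _ = (ballF (0 : EuclideanSpace ℝ (Fin d)) ρ).card * (C2 * 3) := by
          rw [Finset.sum_const, nsmul_eq_mul]
      _ ≤ (3 ^ d * 100 ^ d) * (C2 * 3) := mul_le_mul_of_nonneg_right hcard (by positivity)
      _ ≤ _ := by
          have p1 : 0 ≤ (2 * K1 + K2) * (C1 + C2) * (1 + Real.log ρ) := by positivity
          have p2 : (0:ℝ) ≤ 3 ^ d * 100 ^ d * 3 * C1 * (1 + Real.log ρ) := by positivity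
          have p3 : (0:ℝ) ≤ 3 ^ d * 100 ^ d * 3 * C2 * Real.log ρ := by positivity
          nlinarith
  · rw [mv_identity]
    have a1 : |∑ x ∈ ballF (0 : EuclideanSpace ℝ (Fin d)) ρ, wfun ρ x * lap g x|
        ≤ 2 * K1 * C1 * (1 + Real.log ρ) := by
      calc |∑ x ∈ ballF (0 : EuclideanSpace ℝ (Fin d)) ρ, wfun ρ x * lap g x|
          ≤ ∑ x ∈ ballF (0 : EuclideanSpace ℝ (Fin d)) ρ, |wfun ρ x * lap g x| :=
            Finset.abs_sum_le_sum_abs _ _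
        _ ≤ ∑ x ∈ ballF (0 : EuclideanSpace ℝ (Fin d)) ρ,
            (wfun ρ x * (C1 * wt ((d : ℝ) + 2) v x) + wfun ρ x * (C1 * wt ((d : ℝ) + 2) (-v) x)) := by
            refine Finset.sum_le_sum fun x hx => ?_
            rw [mem_ballF, sub_zero] at hx
            rw [abs_mul, abs_of_nonneg (wfun_nonneg hd x), ← mul_add, ← mul_add]
            exact mul_le_mul_of_nonneg_left (hg0 x hx) (wfun_nonneg hd x)
        _ ≤ K1 * C1 * (1 + Real.log ρ) + K1 * C1 * (1 + Real.log ρ) := by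
            rw [Finset.sum_add_distrib]
            exact add_le_add (h1 ρ C1 v hρ hC1 hv) (h1 ρ C1 (-v) hρ hC1 (by rwa [norm_neg]))
        _ = _ := by ring
    have a2 := h2 ρ C1 C2 v g hρ hC1 hC2 hg1 hg2
    have a3 : |∑ x ∈ ballF (0 : EuclideanSpace ℝ (Fin d)) (ρ + 1),
          g x * (lap (wfun ρ) x - if ‖toE x‖ < ρ then 1 else 0)|
          ≤ K2 * (C1 + C2) * (1 + Real.log ρ) := (Finset.abs_sum_le_sum_abs _ _).trans a2
    refine (abs_sub _ _).trans ((add_le_add a1 a3).trans ?_)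
    have p1 : 0 ≤ 2 * K1 * C2 * (1 + Real.log ρ) := by positivity
    have p2 : (0:ℝ) ≤ 3 ^ d * 100 ^ d * 3 * (C1 + C2) * (1 + Real.log ρ) := by positivity
    nlinarith

end BIDLA
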