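import Mathlib
import Pool.Agent.Work.MP_1354f0_pr.MV

/-!
The regularised Green function of a ball (method of images).
-/

namespace BIDLA

open Real Finset

variable {d : ℕ}

/-- squared regularised distance to the pole -/
noncomputable def gX (b : ℝ) (v : EuclideanSpace ℝ (Fin d)) (x : Site d) : ℝ := ‖toE x - v‖ ^ 2 + b

/-- squared regularised (rescaled) distance to the image of the pole in the sphere of radius `R` -/
noncomputable def gY (b R : ℝ) (v : EuclideanSpace ℝ (Fin d)) (x : Site d) : ℝ :=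
  ‖toE x - v‖ ^ 2 + b + (R ^ 2 - ‖v‖ ^ 2) * (R ^ 2 - ‖toE x‖ ^ 2) / R ^ 2

/-- Regularised Green function. -/
noncomputable def green (b R : ℝ) (v : EuclideanSpace ℝ (Fin d)) (x : Site d) : ℝ :=
  ker b (-((d : ℝ) - 2) / 2) v x -
    (R / ‖v‖) ^ ((d : ℝ) - 2) * ker (b * (R / ‖v‖) ^ 2) (-((d : ℝ) - 2) / 2) ((R / ‖v‖) ^ 2 • v) x

lemma image_eq {b R : ℝ} {v : EuclideanSpace ℝ (Fin d)} (hv : 0 < ‖v‖) (hR : 0 < R) (x : Site d) :
    ‖toE x - (R / ‖v‖) ^ 2 • v‖ ^ 2 + b * (R / ‖v‖) ^ 2 = (R / ‖v‖) ^ 2 * gY b R v x := by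
  unfold gY
  rw [@norm_sub_sq_real, @norm_sub_sq_real, norm_smul, inner_smul_right, Real.norm_eq_abs,
    abs_of_nonneg (by positivity)]
  field_simp
  ring

lemma gY_pos {b R : ℝ} {v : EuclideanSpace ℝ (Fin d)} (hb : 0 < b) (hv : 0 < ‖v‖) (hR : 0 < R)
    (x : Site d) : 0 < gY b R v x := by
  have h := image_eq (b := b) hv hR x
  have h1 : 0 < ‖toE x - (R / ‖v‖) ^ 2 • v‖ ^ 2 + b * (R / ‖v‖) ^ 2 := by positivity
  rw [h] at h1
  exact (pos_iff_pos_of_mul_pos h1).1 (by positivity)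

lemma gX_pos {b : ℝ} {v : EuclideanSpace ℝ (Fin d)} (hb : 0 < b) (x : Site d) : 0 < gX b v x := by
  unfold gX; positivity

lemma gX_le_gY {b R : ℝ} {v : EuclideanSpace ℝ (Fin d)} (hR : 0 < R) (hvR : ‖v‖ ≤ R) {x : Site d}
    (hx : ‖toE x‖ ≤ R) : gX b v x ≤ gY b R v x := by
  unfold gX gY
  have h1 : 0 ≤ R ^ 2 - ‖v‖ ^ 2 := by nlinarith [norm_nonneg v]
  have h2 : 0 ≤ R ^ 2 - ‖toE x‖ ^ 2 := by nlinarith [norm_nonneg (toE x)]
  have : 0 ≤ (R ^ 2 - ‖v‖ ^ 2) * (R ^ 2 - ‖toE x‖ ^ 2) / R ^ 2 := by positivity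
  linarith

lemma green_eq {b R : ℝ} {v : EuclideanSpace ℝ (Fin d)} (hb : 0 < b) (hv : 0 < ‖v‖) (hR : 0 < R)
    (x : Site d) : green b R v x = (gX b v x) ^ (-((d : ℝ) - 2) / 2) -
      (gY b R v x) ^ (-((d : ℝ) - 2) / 2) := by
  unfold green ker
  rw [image_eq hv hR]
  have hY := gY_pos hb hv hR x
  have hc : 0 < R / ‖v‖ := by positivity
  congr 1
  rw [Real.mul_rpow (by positivity) hY.le, ← mul_assoc]
  have : (R / ‖v‖) ^ ((d : ℝ) - 2) * ((R / ‖v‖) ^ 2) ^ (-((d : ℝ) - 2) / 2) = 1 := by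
    rw [← Real.rpow_natCast (R / ‖v‖) 2, ← Real.rpow_mul hc.le, ← Real.rpow_add hc]
    have : (d : ℝ) - 2 + ((2 : ℕ) : ℝ) * (-((d : ℝ) - 2) / 2) = 0 := by push_cast; ring
    rw [this, Real.rpow_zero]
  rw [this, one_mul]

/-- Laplacian of the Green function -/
lemma lap_green (d : ℕ) (hd : 3 ≤ d) : ∃ C, 0 ≤ C ∧ ∀ (b R : ℝ) (v : EuclideanSpace ℝ (Fin d))
    (x : Site d), 64 ≤ b → 0 < ‖v‖ → ‖v‖ ≤ R →
    |lap (green b R v) x + gam d * b * (gX b v x) ^ (-((d : ℝ) + 2) / 2)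
      - gam d * b * (‖v‖ / R) ^ 2 * (gY b R v x) ^ (-((d : ℝ) + 2) / 2)|
      ≤ C * ((gX b v x) ^ (-((d : ℝ) + 2) / 2) + (gY b R v x) ^ (-((d : ℝ) + 2) / 2)) := by
  obtain ⟨C, hC, h⟩ := lap_newton d hd
  refine ⟨C, hC, ?_⟩
  intro b R v x hb hv hvR
  have hR : 0 < R := hv.trans_le hvR
  have hb0 : 0 < b := by linarith
  have hc1 : 1 ≤ R / ‖v‖ := by rw [le_div_iff₀ hv]; linarith
  have hc0 : 0 < R / ‖v‖ := by linarith
  have h1 := h b v x hb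
  have hb2 : 64 ≤ b * (R / ‖v‖) ^ 2 := by
    have : 1 ≤ (R / ‖v‖) ^ 2 := one_le_pow₀ hc1
    nlinarith
  have h2 := h (b * (R / ‖v‖) ^ 2) ((R / ‖v‖) ^ 2 • v) x hb2
  rw [image_eq hv hR] at h2
  have hY := gY_pos hb0 hv hR x
  have hX := gX_pos (v := v) hb0 x
  set A := (gX b v x) ^ (-((d : ℝ) + 2) / 2) with hA
  set B := (gY b R v x) ^ (-((d : ℝ) + 2) / 2) with hB
  have hA0 : 0 < A := by positivity
  have hB0 : 0 < B := by positivity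
  have e1 : (‖toE x - v‖ ^ 2 + b) ^ (-((d : ℝ) + 2) / 2) = A := rfl
  rw [e1] at h1
  have e2 : ((R / ‖v‖) ^ 2 * gY b R v x) ^ (-((d : ℝ) + 2) / 2)
      = ((R / ‖v‖) ^ 2) ^ (-((d : ℝ) + 2) / 2) * B := by
    rw [Real.mul_rpow (by positivity) hY.le]
  rw [e2] at h2
  set κ := (R / ‖v‖) ^ ((d : ℝ) - 2) with hκ
  have hκ0 : 0 < κ := by positivity
  have e3 : κ * ((R / ‖v‖) ^ 2) ^ (-((d : ℝ) + 2) / 2) = (‖v‖ / R) ^ 4 := by
    rw [hκ, ← Real.rpow_natCast (R / ‖v‖) 2, ← Real.rpow_mul hc0.le, ← Real.rpow_add hc0]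
    have : (d : ℝ) - 2 + ((2 : ℕ) : ℝ) * (-((d : ℝ) + 2) / 2) = -((4 : ℕ) : ℝ) := by push_cast; ring
    rw [this, Real.rpow_neg hc0.le, Real.rpow_natCast, ← inv_pow, inv_div]
  have hθ1 : ‖v‖ / R ≤ 1 := by rw [div_le_one hR]; exact hvR
  have hθ0 : 0 < ‖v‖ / R := by positivity
  have hθ4 : (‖v‖ / R) ^ 4 ≤ 1 := pow_le_one₀ hθ0.le hθ1
  have e4 : (R / ‖v‖) ^ 2 * (‖v‖ / R) ^ 4 = (‖v‖ / R) ^ 2 := by
    field_simp
  have h3 : |κ * lap (ker (b * (R / ‖v‖) ^ 2) (-((d : ℝ) - 2) / 2) ((R / ‖v‖) ^ 2 • v)) x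
      + gam d * b * (‖v‖ / R) ^ 2 * B| ≤ C * B := by
    have h4 := mul_le_mul_of_nonneg_left h2 hκ0.le
    rw [← abs_of_pos hκ0, ← abs_mul, abs_of_pos hκ0] at h4
    have e5 : κ * (lap (ker (b * (R / ‖v‖) ^ 2) (-((d : ℝ) - 2) / 2) ((R / ‖v‖) ^ 2 • v)) x
        + ((d : ℝ) - 2) / 2 * (b * (R / ‖v‖) ^ 2) * (((R / ‖v‖) ^ 2) ^ (-((d : ℝ) + 2) / 2) * B))
        = κ * lap (ker (b * (R / ‖v‖) ^ 2) (-((d : ℝ) - 2) / 2) ((R / ‖v‖) ^ 2 • v)) x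
        + gam d * b * (‖v‖ / R) ^ 2 * B := by
      have e6 : ((d : ℝ) - 2) / 2 * (b * (R / ‖v‖) ^ 2) * (((R / ‖v‖) ^ 2) ^ (-((d : ℝ) + 2) / 2) * B) * κ
          = gam d * b * ((R / ‖v‖) ^ 2 * (κ * ((R / ‖v‖) ^ 2) ^ (-((d : ℝ) + 2) / 2))) * B := by
        unfold gam; ring
      rw [e3, e4] at e6
      rw [mul_add, mul_comm κ (((d : ℝ) - 2) / 2 * (b * (R / ‖v‖) ^ 2) * _), e6]
    rw [e5] at h4
    refine h4.trans ?_
    calc κ * (C * (((R / ‖v‖) ^ 2) ^ (-((d : ℝ) + 2) / 2) * B))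
        = C * (κ * ((R / ‖v‖) ^ 2) ^ (-((d : ℝ) + 2) / 2)) * B := by ring
      _ = C * (‖v‖ / R) ^ 4 * B := by rw [e3]
      _ ≤ C * 1 * B := by gcongr
      _ = C * B := by ring
  have e7 : lap (green b R v) x = lap (ker b (-((d : ℝ) - 2) / 2) v) x
      - κ * lap (ker (b * (R / ‖v‖) ^ 2) (-((d : ℝ) - 2) / 2) ((R / ‖v‖) ^ 2 • v)) x := by
    have : green b R v = fun y => ker b (-((d : ℝ) - 2) / 2) v y -
      κ * ker (b * (R / ‖v‖) ^ 2) (-((d : ℝ) - 2) / 2) ((R / ‖v‖) ^ 2 • v) y := rfl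
    rw [this, lap_sub, lap_const_mul]
  rw [e7]
  have e8 : lap (ker b (-((d : ℝ) - 2) / 2) v) x
      - κ * lap (ker (b * (R / ‖v‖) ^ 2) (-((d : ℝ) - 2) / 2) ((R / ‖v‖) ^ 2 • v)) x
      + gam d * b * A - gam d * b * (‖v‖ / R) ^ 2 * B
      = (lap (ker b (-((d : ℝ) - 2) / 2) v) x + ((d : ℝ) - 2) / 2 * b * A)
      - (κ * lap (ker (b * (R / ‖v‖) ^ 2) (-((d : ℝ) - 2) / 2) ((R / ‖v‖) ^ 2 • v)) x
        + gam d * b * (‖v‖ / R) ^ 2 * B) := by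
    unfold gam; ring
  rw [e8]
  refine (abs_sub _ _).trans ?_
  rw [mul_add]
  exact add_le_add h1 h3

/-- mean value bound for the difference of negative powers -/
lemma rpow_sub_le {γ X Y : ℝ} (hγ : 0 < γ) (hX : 0 < X) (hXY : X ≤ Y) :
    X ^ (-γ) - Y ^ (-γ) ≤ γ * X ^ (-γ - 1) * (Y - X) := by
  have hY : 0 < Y := hX.trans_le hXY
  -- (Y/X)^{-γ} ≥ 1 - γ (Y/X - 1)
  set z := Y / X with hz
  have hz1 : 1 ≤ z := by rw [hz, le_div_iff₀ hX]; linarith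
  have hz0 : 0 < z := by linarith
  have h1 : z ^ (-γ) = Real.exp (-γ * Real.log z) := by
    rw [Real.rpow_def_of_pos hz0, mul_comm]
  have h2 := Real.add_one_le_exp (-γ * Real.log z)
  have h3 := Real.log_le_sub_one_of_pos hz0
  have h4 : 1 - γ * (z - 1) ≤ z ^ (-γ) := by
    rw [h1]; nlinarith
  have e1 : Y ^ (-γ) = X ^ (-γ) * z ^ (-γ) := by
    rw [← Real.mul_rpow hX.le hz0.le, hz, mul_div_cancel₀ _ hX.ne']
  have e2 : X ^ (-γ) = X ^ (-γ - 1) * X := by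
    rw [← Real.rpow_add_one hX.ne']; congr 1; ring
  have e3 : Y - X = X * (z - 1) := by rw [hz]; field_simp
  have hXp : 0 < X ^ (-γ) := by positivity
  rw [e1, e3]
  have h5 := mul_le_mul_of_nonneg_left h4 hXp.le
  calc X ^ (-γ) - X ^ (-γ) * z ^ (-γ) ≤ X ^ (-γ) * (γ * (z - 1)) := by nlinarith
    _ = γ * X ^ (-γ - 1) * (X * (z - 1)) := by
        rw [e2]; ring

lemma green_nonneg {b R : ℝ} {v : EuclideanSpace ℝ (Fin d)} (hd : 3 ≤ d) (hb : 0 < b) (hv : 0 < ‖v‖)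
    (hvR : ‖v‖ ≤ R) {x : Site d} (hx : ‖toE x‖ ≤ R) : 0 ≤ green b R v x := by
  have hR : 0 < R := hv.trans_le hvR
  rw [green_eq hb hv hR]
  have h1 := gX_le_gY (b := b) hR hvR hx
  have hX := gX_pos (v := v) hb x
  have hd3 : (3 : ℝ) ≤ d := by exact_mod_cast hd
  have := Real.rpow_le_rpow_of_nonpos hX h1 (by linarith : -((d : ℝ) - 2) / 2 ≤ 0)
  linarith

lemma green_nonpos {b R : ℝ} {v : EuclideanSpace ℝ (Fin d)} (hd : 3 ≤ d) (hb : 0 < b) (hv : 0 < ‖v‖)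
    (hvR : ‖v‖ ≤ R) {x : Site d} (hx : R ≤ ‖toE x‖) : green b R v x ≤ 0 := by
  have hR : 0 < R := hv.trans_le hvR
  rw [green_eq hb hv hR]
  have hY := gY_pos hb hv hR x
  have h1 : gY b R v x ≤ gX b v x := by
    unfold gX gY
    have h1 : 0 ≤ R ^ 2 - ‖v‖ ^ 2 := by nlinarith [norm_nonneg v]
    have h2 : 0 ≤ ‖toE x‖ ^ 2 - R ^ 2 := by nlinarith [norm_nonneg (toE x)]
    have h3 : 0 ≤ (R ^ 2 - ‖v‖ ^ 2) * (‖toE x‖ ^ 2 - R ^ 2) / R ^ 2 := by positivity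
    have h4 : (R ^ 2 - ‖v‖ ^ 2) * (R ^ 2 - ‖toE x‖ ^ 2) / R ^ 2
        = -((R ^ 2 - ‖v‖ ^ 2) * (‖toE x‖ ^ 2 - R ^ 2) / R ^ 2) := by ring
    linarith
  have hd3 : (3 : ℝ) ≤ d := by exact_mod_cast hd
  have := Real.rpow_le_rpow_of_nonpos hY h1 (by linarith : -((d : ℝ) - 2) / 2 ≤ 0)
  linarith

lemma green_le_X {b R : ℝ} {v : EuclideanSpace ℝ (Fin d)} (hb : 0 < b) (hv : 0 < ‖v‖)
    (hR : 0 < R) (x : Site d) : green b R v x ≤ (gX b v x) ^ (-((d : ℝ) - 2) / 2) := by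
  rw [green_eq hb hv hR]
  have hY := gY_pos hb hv hR x
  have : 0 < (gY b R v x) ^ (-((d : ℝ) - 2) / 2) := by positivity
  linarith

/-- gap between the two squared distances, upper bound -/
lemma gap_le {b R : ℝ} {v : EuclideanSpace ℝ (Fin d)} (hR : 0 < R)
    (hvR : ‖v‖ ≤ R) {x : Site d} (hx : ‖toE x‖ ≤ R) :
    gY b R v x - gX b v x ≤ 4 * (R - ‖v‖) * ((R - ‖v‖) + ‖toE x - v‖) := by
  unfold gX gY
  have h0 : ‖v‖ - ‖toE x - v‖ ≤ ‖toE x‖ := by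
    have := norm_sub_le (toE x) (toE x - v)
    rw [sub_sub_cancel] at this
    linarith
  have hn := norm_nonneg v
  have hn' := norm_nonneg (toE x)
  have h1 : R ^ 2 - ‖v‖ ^ 2 ≤ 2 * R * (R - ‖v‖) := by nlinarith
  have h2 : R ^ 2 - ‖toE x‖ ^ 2 ≤ 2 * R * (R - ‖toE x‖) := by nlinarith
  have h3 : 0 ≤ R ^ 2 - ‖toE x‖ ^ 2 := by nlinarith
  have h4 : (R ^ 2 - ‖v‖ ^ 2) * (R ^ 2 - ‖toE x‖ ^ 2) ≤ (2 * R * (R - ‖v‖)) * (2 * R * (R - ‖toE x‖)) := by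
    apply mul_le_mul h1 h2 h3
    have : 0 ≤ R - ‖v‖ := by linarith
    positivity
  have h5 : (R ^ 2 - ‖v‖ ^ 2) * (R ^ 2 - ‖toE x‖ ^ 2) / R ^ 2 ≤ 4 * (R - ‖v‖) * (R - ‖toE x‖) := by
    rw [div_le_iff₀ (by positivity)]
    nlinarith
  have h6 : 4 * (R - ‖v‖) * (R - ‖toE x‖) ≤ 4 * (R - ‖v‖) * ((R - ‖v‖) + ‖toE x - v‖) := by
    apply mul_le_mul_of_nonneg_left _ (by linarith)
    linarith
  linarith

/-- dipole bound on the Green function -/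
lemma green_le_dipole (d : ℕ) (hd : 3 ≤ d) (b : ℝ) (hb : 1 ≤ b) : ∃ C, 0 ≤ C ∧
    ∀ (R : ℝ) (v : EuclideanSpace ℝ (Fin d)) (x : Site d), 0 < ‖v‖ → ‖v‖ ≤ R → ‖toE x‖ ≤ R →
    green b R v x ≤ C * (R - ‖v‖ + 1) * (gX b v x) ^ (-((d : ℝ) - 1) / 2) := by
  have hγ := gam_pos hd
  have hd3 : (3 : ℝ) ≤ d := by exact_mod_cast hd
  refine ⟨8 * gam d + (1 + √b), by positivity, ?_⟩
  intro R v x hv hvR hx
  have hR : 0 < R := hv.trans_le hvR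
  have hb0 : 0 < b := by linarith
  have hX := gX_pos (v := v) hb0 x
  set h := R - ‖v‖ with hh
  have hh0 : 0 ≤ h := by linarith
  set s := ‖toE x - v‖ with hs
  have hs0 : 0 ≤ s := norm_nonneg _
  have hsX : s ≤ √(gX b v x) := by
    apply Real.le_sqrt_of_sq_le
    unfold gX; rw [← hs]; linarith
  have hXp : 0 < (gX b v x) ^ (-((d : ℝ) - 1) / 2) := by positivity
  rcases le_or_gt h s with hc | hc
  · -- dipole regime
    have h1 : green b R v x ≤ gam d * (gX b v x) ^ (-gam d - 1) * (gY b R v x - gX b v x) := by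
      rw [green_eq hb0 hv hR]
      have e : -((d : ℝ) - 2) / 2 = -gam d := by unfold gam; ring
      rw [e]
      exact rpow_sub_le hγ hX (gX_le_gY hR hvR hx)
    have h2 := gap_le (b := b) hR hvR hx
    rw [← hh, ← hs] at h2
    have h3 : gY b R v x - gX b v x ≤ 8 * h * √(gX b v x) := by
      calc gY b R v x - gX b v x ≤ 4 * h * (h + s) := h2
        _ ≤ 4 * h * (2 * s) := by
            apply mul_le_mul_of_nonneg_left _ (by positivity); linarith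
        _ ≤ 4 * h * (2 * √(gX b v x)) := by
            apply mul_le_mul_of_nonneg_left _ (by positivity); linarith
        _ = _ := by ring
    have e1 : (gX b v x) ^ (-gam d - 1) * √(gX b v x) = (gX b v x) ^ (-((d : ℝ) - 1) / 2) := by
      rw [Real.sqrt_eq_rpow, ← Real.rpow_add hX]
      congr 1; unfold gam; ring
    calc green b R v x ≤ gam d * (gX b v x) ^ (-gam d - 1) * (gY b R v x - gX b v x) := h1
      _ ≤ gam d * (gX b v x) ^ (-gam d - 1) * (8 * h * √(gX b v x)) :=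
          mul_le_mul_of_nonneg_left h3 (by positivity)
      _ = 8 * gam d * h * ((gX b v x) ^ (-gam d - 1) * √(gX b v x)) := by ring
      _ = 8 * gam d * h * (gX b v x) ^ (-((d : ℝ) - 1) / 2) := by rw [e1]
      _ ≤ (8 * gam d + (1 + √b)) * (h + 1) * (gX b v x) ^ (-((d : ℝ) - 1) / 2) := by
          apply mul_le_mul_of_nonneg_right _ hXp.le
          have : 0 ≤ √b := Real.sqrt_nonneg b
          nlinarith
  · have h1 := green_le_X (b := b) hb0 hv hR x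
    have e1 : (gX b v x) ^ (-((d : ℝ) - 2) / 2) = √(gX b v x) * (gX b v x) ^ (-((d : ℝ) - 1) / 2) := by
      rw [Real.sqrt_eq_rpow, ← Real.rpow_add hX]
      congr 1; ring
    have h2 : √(gX b v x) ≤ h + √b := by
      rw [Real.sqrt_le_left (by positivity)]
      have hsb : √b ^ 2 = b := Real.sq_sqrt hb0.le
      unfold gX
      rw [← hs]
      have : 0 ≤ h * √b := by positivity
      nlinarith
    calc green b R v x ≤ √(gX b v x) * (gX b v x) ^ (-((d : ℝ) - 1) / 2) := by rw [← e1]; exact h1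
      _ ≤ (h + √b) * (gX b v x) ^ (-((d : ℝ) - 1) / 2) := mul_le_mul_of_nonneg_right h2 hXp.le
      _ ≤ (8 * gam d + (1 + √b)) * (h + 1) * (gX b v x) ^ (-((d : ℝ) - 1) / 2) := by
          apply mul_le_mul_of_nonneg_right _ hXp.le
          have : 0 ≤ √b := Real.sqrt_nonneg b
          have : 0 ≤ 8 * gam d := by positivity
          nlinarith

/-- symmetric second difference of the power kernel at the origin -/
lemma ker_sym (q : ℝ) : ∃ C, 0 ≤ C ∧ ∀ (d : ℕ) (b ρ : ℝ) (c : EuclideanSpace ℝ (Fin d))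
    (x : Site d), 1 ≤ b → 0 < ρ → ρ ≤ ‖c‖ + 1 → ‖toE x‖ ≤ ρ / 8 →
    |(ker b q c x + ker b q c (-x)) / 2 - ker b q c 0| ≤ C * ‖toE x‖ ^ 2 * (‖c‖ ^ 2 + b) ^ (q - 1) := by
  obtain ⟨C, hC, h⟩ := rem2 q
  refine ⟨|q| + C * 9, by positivity, ?_⟩
  intro d b ρ c x hb hρ hρc hx
  set a := ‖c‖ ^ 2 + b with ha
  have ha1 : 1 ≤ a := by nlinarith [sq_nonneg ‖c‖]
  have ha0 : 0 < a := by linarith
  set n := ‖toE x‖ with hn
  have hn0 : 0 ≤ n := norm_nonneg _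
  set p := inner ℝ (toE x) c with hp
  have hp1 : |p| ≤ n * ‖c‖ := abs_real_inner_le_norm _ _
  have hc0 := norm_nonneg c
  have e1 : ‖toE x - c‖ ^ 2 + b = a * (1 + (n ^ 2 - 2 * p) / a) := by
    rw [@norm_sub_sq_real, ← hp, ← hn, ha]; field_simp; ring
  have e2 : ‖toE (-x) - c‖ ^ 2 + b = a * (1 + (n ^ 2 + 2 * p) / a) := by
    rw [toE_neg, @norm_sub_sq_real, norm_neg, inner_neg_left, ← hp, ← hn, ha]; field_simp; ring
  have e3 : ‖toE (0 : Site d) - c‖ ^ 2 + b = a := by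
    rw [toE_zero, zero_sub, norm_neg]
  have hn2 : n ^ 2 ≤ a / 32 := by
    have : n ^ 2 ≤ (ρ / 8) ^ 2 := pow_le_pow_left₀ hn0 hx 2
    nlinarith [sq_nonneg (‖c‖ - 1)]
  have hpn : 2 * |p| ≤ 3 / 8 * a := by
    have : n * ‖c‖ ≤ (‖c‖ + 1) / 8 * ‖c‖ := by
      apply mul_le_mul_of_nonneg_right _ hc0; linarith
    nlinarith [sq_nonneg (‖c‖ - 1)]
  have hz : ∀ s : ℝ, |s| ≤ 2 * |p| → |(n ^ 2 + s) / a| ≤ 1 / 2 := by
    intro s hs
    rw [abs_div, abs_of_pos ha0, div_le_iff₀ ha0]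
    have := abs_add_le (n ^ 2) s
    rw [abs_of_nonneg (by positivity : 0 ≤ n ^ 2)] at this
    linarith
  have hz1 := hz (-(2 * p)) (by rw [abs_neg, abs_mul]; norm_num)
  have hz2 := hz (2 * p) (by rw [abs_mul]; norm_num)
  rw [← sub_eq_add_neg] at hz1
  have r1 := h _ hz1
  have r2 := h _ hz2
  have hp2 : p ^ 2 ≤ n ^ 2 * ‖c‖ ^ 2 := by
    rw [← sq_abs, ← mul_pow]
    exact pow_le_pow_left₀ (abs_nonneg _) hp1 2
  have hzsq : ∀ s : ℝ, |s| = 2 * |p| → |(n ^ 2 + s) / a| ^ 2 ≤ 9 * n ^ 2 / a := by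
    intro s hs
    have h1 : |n ^ 2 + s| ≤ n ^ 2 + 2 * |p| := by
      have := abs_add_le (n ^ 2) s
      rwa [abs_of_nonneg (by positivity : 0 ≤ n ^ 2), hs] at this
    have h2 : |n ^ 2 + s| ^ 2 ≤ (n ^ 2 + 2 * |p|) ^ 2 := pow_le_pow_left₀ (abs_nonneg _) h1 2
    have h3 : (n ^ 2 + 2 * |p|) ^ 2 ≤ 2 * n ^ 4 + 8 * p ^ 2 := by
      have : |p| ^ 2 = p ^ 2 := sq_abs p
      nlinarith [sq_nonneg (n ^ 2 - 2 * |p|)]
    have h4 : n ^ 4 ≤ n ^ 2 * (a / 32) := by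
      have : n ^ 4 = n ^ 2 * n ^ 2 := by ring
      rw [this]; exact mul_le_mul_of_nonneg_left hn2 (by positivity)
    have h5 : n ^ 2 * ‖c‖ ^ 2 ≤ n ^ 2 * a := by
      apply mul_le_mul_of_nonneg_left _ (by positivity); linarith
    have h6 : |n ^ 2 + s| ^ 2 ≤ 9 * (n ^ 2 * a) := by
      have : 0 ≤ n ^ 2 * a := by positivity
      linarith
    rw [abs_div, abs_of_pos ha0, div_pow, div_le_div_iff₀ (by positivity) ha0]
    calc |n ^ 2 + s| ^ 2 * a ≤ 9 * (n ^ 2 * a) * a := by gcongr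
      _ = 9 * n ^ 2 * a ^ 2 := by ring
  have z1 := hzsq (-(2 * p)) (by rw [abs_neg, abs_mul]; norm_num)
  have z2 := hzsq (2 * p) (by rw [abs_mul]; norm_num)
  rw [← sub_eq_add_neg] at z1
  have hpos1 : 0 ≤ 1 + (n ^ 2 - 2 * p) / a := by
    have := (abs_le.1 hz1).1; linarith
  have hpos2 : 0 ≤ 1 + (n ^ 2 + 2 * p) / a := by
    have := (abs_le.1 hz2).1; linarith
  unfold ker
  rw [e1, e2, e3, Real.mul_rpow ha0.le hpos1, Real.mul_rpow ha0.le hpos2]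
  have haq : 0 < a ^ q := by positivity
  have e4 : a ^ (q - 1) = a ^ q / a := by rw [Real.rpow_sub ha0, Real.rpow_one]
  set P := (1 + (n ^ 2 - 2 * p) / a) ^ q
  set M := (1 + (n ^ 2 + 2 * p) / a) ^ q
  have e5 : (a ^ q * P + a ^ q * M) / 2 - a ^ q = a ^ q * (q * (n ^ 2 / a)
      + ((P - (1 + q * ((n ^ 2 - 2 * p) / a))) + (M - (1 + q * ((n ^ 2 + 2 * p) / a)))) / 2) := by
    field_simp
    ring
  rw [e5, abs_mul, abs_of_pos haq, e4]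
  have b1 : |q * (n ^ 2 / a)| = |q| * (n ^ 2 / a) := by
    rw [abs_mul, abs_of_nonneg (by positivity : 0 ≤ n ^ 2 / a)]
  have b2 : |((P - (1 + q * ((n ^ 2 - 2 * p) / a))) + (M - (1 + q * ((n ^ 2 + 2 * p) / a)))) / 2|
      ≤ C * (9 * n ^ 2 / a) := by
    rw [abs_div, abs_of_pos (by norm_num : (0:ℝ) < 2), div_le_iff₀ (by norm_num)]
    refine (abs_add_le _ _).trans ?_
    have t1 := r1.trans (mul_le_mul_of_nonneg_left z1 hC)
    have t2 := r2.trans (mul_le_mul_of_nonneg_left z2 hC)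
    linarith
  calc a ^ q * |q * (n ^ 2 / a) + ((P - (1 + q * ((n ^ 2 - 2 * p) / a)))
        + (M - (1 + q * ((n ^ 2 + 2 * p) / a)))) / 2|
      ≤ a ^ q * (|q| * (n ^ 2 / a) + C * (9 * n ^ 2 / a)) := by
        refine mul_le_mul_of_nonneg_left ((abs_add_le _ _).trans ?_) haq.le
        rw [b1]
        linarith
    _ = (|q| + C * 9) * n ^ 2 * (a ^ q / a) := by ring

end BIDLA
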