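import Mathlib
import Pool.Agent.Work.MP_1354f0_pr.Green

/-!
Mean value inequality for the regularised Green function.
-/

namespace BIDLA

open Real Finset

variable {d : ℕ}

lemma neg_mem_ballF {ρ : ℝ} {x : Site d} :
    -x ∈ ballF (0 : EuclideanSpace ℝ (Fin d)) ρ ↔ x ∈ ballF (0 : EuclideanSpace ℝ (Fin d)) ρ := by
  rw [mem_ballF, mem_ballF, toE_neg, sub_zero, sub_zero, norm_neg]

lemma sum_neg_ballF (f : Site d → ℝ) (ρ : ℝ) :
    ∑ x ∈ ballF (0 : EuclideanSpace ℝ (Fin d)) ρ, f (-x)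
      = ∑ x ∈ ballF (0 : EuclideanSpace ℝ (Fin d)) ρ, f x := by
  refine Finset.sum_nbij' (fun x => -x) (fun x => -x) ?_ ?_ ?_ ?_ ?_
  · intro x hx; exact neg_mem_ballF.2 hx
  · intro x hx; exact neg_mem_ballF.2 hx
  · intro x _; simp
  · intro x _; simp
  · intro x _; rfl

lemma lap_neg (f : Site d → ℝ) (x : Site d) : lap (fun y => f (-y)) x = lap f (-x) := by
  unfold lap
  rw [← sum_flip (fun e => f (-x + vec e))]
  congr 2
  refine Finset.sum_congr rfl fun e _ => ?_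
  rw [vec_flip']
  simp only [neg_add]

lemma wt_neg (a : ℝ) (v : EuclideanSpace ℝ (Fin d)) (x : Site d) : wt a v (-x) = wt a (-v) x := by
  unfold wt
  rw [toE_neg, show -toE x - v = -(toE x - -v) by abel, norm_neg]

/-- crude bound on the Laplacian of the Green function inside the sphere -/
lemma lap_green_le (d : ℕ) (hd : 3 ≤ d) (b : ℝ) (hb : 64 ≤ b) : ∃ C, 0 ≤ C ∧
    ∀ (R : ℝ) (v : EuclideanSpace ℝ (Fin d)) (x : Site d), 0 < ‖v‖ → ‖v‖ ≤ R → ‖toE x‖ ≤ R →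
    |lap (green b R v) x| ≤ C * wt ((d : ℝ) + 2) v x := by
  obtain ⟨C, hC, h⟩ := lap_green d hd
  have hγ := gam_pos hd
  refine ⟨2 * gam d * b + 2 * C, by positivity, ?_⟩
  intro R v x hv hvR hx
  have hR : 0 < R := hv.trans_le hvR
  have hb0 : 0 < b := by linarith
  have h1 := h b R v x hb hv hvR
  have hX := gX_pos (v := v) hb0 x
  have hY := gY_pos hb0 hv hR x
  have hXY := gX_le_gY (b := b) hR hvR hx
  set A := (gX b v x) ^ (-((d : ℝ) + 2) / 2) with hA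
  set B := (gY b R v x) ^ (-((d : ℝ) + 2) / 2) with hB
  have hd3 : (3 : ℝ) ≤ d := by exact_mod_cast hd
  have hA0 : 0 < A := by positivity
  have hB0 : 0 < B := by positivity
  have hBA : B ≤ A := Real.rpow_le_rpow_of_nonpos hX hXY (by linarith)
  have hAw : A ≤ wt ((d : ℝ) + 2) v x := by
    apply Real.rpow_le_rpow_of_nonpos (by positivity) _ (by linarith)
    unfold gX; linarith
  have hθ1 : ‖v‖ / R ≤ 1 := by rw [div_le_one hR]; exact hvR
  have hθ0 : 0 < ‖v‖ / R := by positivity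
  have hθ2 : (‖v‖ / R) ^ 2 ≤ 1 := pow_le_one₀ hθ0.le hθ1
  have h2 : |lap (green b R v) x| ≤ C * (A + B) + gam d * b * A + gam d * b * (‖v‖ / R) ^ 2 * B := by
    have e : lap (green b R v) x = (lap (green b R v) x + gam d * b * A - gam d * b * (‖v‖ / R) ^ 2 * B)
        - gam d * b * A + gam d * b * (‖v‖ / R) ^ 2 * B := by ring
    rw [e]
    refine (abs_add_le _ _).trans (add_le_add ((abs_sub _ _).trans (add_le_add h1 ?_)) ?_)
    · rw [abs_of_nonneg (by positivity)]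
    · rw [abs_of_nonneg (by positivity)]
  have h3 : gam d * b * (‖v‖ / R) ^ 2 * B ≤ gam d * b * 1 * A := by gcongr
  calc |lap (green b R v) x| ≤ C * (A + B) + gam d * b * A + gam d * b * (‖v‖ / R) ^ 2 * B := h2
    _ ≤ C * (A + A) + gam d * b * A + gam d * b * 1 * A := by gcongr
    _ = (2 * gam d * b + 2 * C) * A := by ring
    _ ≤ _ := mul_le_mul_of_nonneg_left hAw (by positivity)

theorem mv_green (d : ℕ) (hd : 3 ≤ d) (b : ℝ) (hb : 64 ≤ b) : ∃ C, 0 ≤ C ∧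
    ∀ (ρ R : ℝ) (v : EuclideanSpace ℝ (Fin d)), 1 ≤ ρ → ρ ≤ ‖v‖ + 1 → ρ + 1 ≤ R → 0 < ‖v‖ → ‖v‖ ≤ R →
    |∑ x ∈ ballF (0 : EuclideanSpace ℝ (Fin d)) ρ, (green b R v x - green b R v 0)|
      ≤ C * (R - ‖v‖ + 1) * (1 + Real.log ρ) := by
  obtain ⟨K0, hK0, h0⟩ := mv_g d hd
  obtain ⟨K1, hK1, h1⟩ := lap_green_le d hd b hb
  obtain ⟨K2, hK2, h2⟩ := green_le_dipole d hd b (by linarith)
  obtain ⟨K3, hK3, h3⟩ := ker_sym (-((d : ℝ) - 2) / 2)
  have hd3 : (3 : ℝ) ≤ d := by exact_mod_cast hd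
  have hdm : ((d - 1 : ℕ) : ℝ) = (d : ℝ) - 1 := by
    rw [Nat.cast_sub (by omega)]; simp
  set C1 : ℝ := K1 + K3 * 2 ^ ((d : ℝ) / 2) + K3 with hC1
  set C2 : ℝ := K2 * 2 ^ (((d : ℝ) - 1) / 2) with hC2
  refine ⟨K0 * (C1 + (K2 + C2)), by positivity, ?_⟩
  intro ρ R v hρ hρv hρR hv hvR
  have hR : 0 < R := hv.trans_le hvR
  have hb0 : 0 < b := by linarith
  have hρ0 : 0 < ρ := by linarith
  set hh := R - ‖v‖ with hhd
  have hh0 : 0 ≤ hh := by linarith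
  set f := green b R v with hf
  set g : Site d → ℝ := fun x => (f x + f (-x)) / 2 - f 0 with hg
  have hsum : ∑ x ∈ ballF (0 : EuclideanSpace ℝ (Fin d)) ρ, (f x - f 0)
      = ∑ x ∈ ballF (0 : EuclideanSpace ℝ (Fin d)) ρ, g x := by
    simp only [hg]
    rw [Finset.sum_sub_distrib, Finset.sum_sub_distrib, ← Finset.sum_div, Finset.sum_add_distrib,
      sum_neg_ballF]
    ring
  rw [hsum]
  -- (a)
  have ha : ∀ x : Site d, ‖toE x‖ < ρ → |lap g x| ≤ C1 * (wt ((d : ℝ) + 2) v x + wt ((d : ℝ) + 2) (-v) x) := by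
    intro x hx
    have e : lap g x = (lap f x + lap f (-x)) / 2 := by
      have e1 : g = fun y => (1 / 2) * (f y + f (-y)) - f 0 := by
        funext y; simp only [hg]; ring
      rw [e1, lap_sub, lap_const (by omega), lap_const_mul, lap_add, lap_neg]
      ring
    rw [e, abs_div, abs_of_pos (by norm_num : (0:ℝ) < 2), div_le_iff₀ (by norm_num)]
    have a1 := h1 R v x hv hvR (by linarith)
    have a2 := h1 R v (-x) hv hvR (by rw [toE_neg, norm_neg]; linarith)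
    rw [wt_neg] at a2
    have w1 := wt_nonneg ((d : ℝ) + 2) v x
    have w2 := wt_nonneg ((d : ℝ) + 2) (-v) x
    have hC1K : K1 ≤ C1 := by
      have : 0 ≤ K3 * 2 ^ ((d : ℝ) / 2) := by positivity
      rw [hC1]; linarith
    calc |lap f x + lap f (-x)| ≤ |lap f x| + |lap f (-x)| := abs_add_le _ _
      _ ≤ K1 * wt ((d : ℝ) + 2) v x + K1 * wt ((d : ℝ) + 2) (-v) x := add_le_add a1 a2
      _ = K1 * (wt ((d : ℝ) + 2) v x + wt ((d : ℝ) + 2) (-v) x) := by ring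
      _ ≤ C1 * (wt ((d : ℝ) + 2) v x + wt ((d : ℝ) + 2) (-v) x) := by gcongr
      _ ≤ C1 * (wt ((d : ℝ) + 2) v x + wt ((d : ℝ) + 2) (-v) x) * 2 := by
          have : 0 ≤ C1 * (wt ((d : ℝ) + 2) v x + wt ((d : ℝ) + 2) (-v) x) := by positivity
          linarith
  -- (b)
  have hbb : ∀ x : Site d, ‖toE x‖ ≤ ρ / 8 → |g x| ≤ C1 * ‖toE x‖ ^ 2 * ρ ^ (-(d : ℝ)) := by
    intro x hx
    set q := -((d : ℝ) - 2) / 2 with hq
    set κ := (R / ‖v‖) ^ ((d : ℝ) - 2) with hκ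
    set b' := b * (R / ‖v‖) ^ 2 with hb'
    set v' := (R / ‖v‖) ^ 2 • v with hv'
    have hc1 : 1 ≤ R / ‖v‖ := by rw [le_div_iff₀ hv]; linarith
    have hc0 : 0 < R / ‖v‖ := by linarith
    have hκ0 : 0 < κ := by positivity
    have hb1 : 1 ≤ b' := by
      have : 1 ≤ (R / ‖v‖) ^ 2 := one_le_pow₀ hc1
      rw [hb']; nlinarith
    have hv'n : ‖v'‖ = R ^ 2 / ‖v‖ := by
      rw [hv', norm_smul, Real.norm_eq_abs, abs_of_nonneg (by positivity)]
      field_simp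
    have hv'R : R ≤ ‖v'‖ := by
      rw [hv'n, le_div_iff₀ hv]; nlinarith
    have s1 := h3 d b ρ v x (by linarith) hρ0 hρv hx
    have s2 := h3 d b' ρ v' x hb1 hρ0 (by linarith) hx
    have e : g x = ((ker b q v x + ker b q v (-x)) / 2 - ker b q v 0)
        - κ * ((ker b' q v' x + ker b' q v' (-x)) / 2 - ker b' q v' 0) := by
      simp only [hg, hf]
      unfold green
      ring
    have a1 : (‖v‖ ^ 2 + b) ^ (q - 1) ≤ 2 ^ ((d : ℝ) / 2) * ρ ^ (-(d : ℝ)) := by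
      have e1 : q - 1 = -(d : ℝ) / 2 := by rw [hq]; ring
      have h4 : ρ ^ 2 / 2 ≤ ‖v‖ ^ 2 + b := by nlinarith [sq_nonneg (‖v‖ - 1)]
      rw [e1]
      calc (‖v‖ ^ 2 + b) ^ (-(d : ℝ) / 2) ≤ (ρ ^ 2 / 2) ^ (-(d : ℝ) / 2) :=
            Real.rpow_le_rpow_of_nonpos (by positivity) h4 (by linarith)
        _ = 2 ^ ((d : ℝ) / 2) * ρ ^ (-(d : ℝ)) := by
            rw [Real.div_rpow (by positivity) (by norm_num), neg_div,
              Real.rpow_neg (by norm_num : (0:ℝ) ≤ 2), div_inv_eq_mul, mul_comm,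
              ← Real.rpow_natCast ρ 2, ← Real.rpow_mul hρ0.le]
            congr 2; push_cast; ring
    have a2 : κ * (‖v'‖ ^ 2 + b') ^ (q - 1) ≤ ρ ^ (-(d : ℝ)) := by
      have e1 : q - 1 = -(d : ℝ) / 2 := by rw [hq]; ring
      have e2 : ‖v'‖ ^ 2 + b' = (R / ‖v‖) ^ 2 * (R ^ 2 + b) := by
        rw [hv'n, hb']; field_simp
      rw [e1, e2, Real.mul_rpow (by positivity) (by positivity), ← mul_assoc]
      have e3 : κ * ((R / ‖v‖) ^ 2) ^ (-(d : ℝ) / 2) = (‖v‖ / R) ^ 2 := by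
        rw [hκ, ← Real.rpow_natCast (R / ‖v‖) 2, ← Real.rpow_mul hc0.le, ← Real.rpow_add hc0]
        have : (d : ℝ) - 2 + ((2 : ℕ) : ℝ) * (-(d : ℝ) / 2) = -((2 : ℕ) : ℝ) := by push_cast; ring
        rw [this, Real.rpow_neg hc0.le, Real.rpow_natCast, ← inv_pow, inv_div]
      rw [e3]
      have hθ1 : ‖v‖ / R ≤ 1 := by rw [div_le_one hR]; exact hvR
      have hθ0 : 0 < ‖v‖ / R := by positivity
      have hθ2 : (‖v‖ / R) ^ 2 ≤ 1 := pow_le_one₀ hθ0.le hθ1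
      have h5 : (R ^ 2 + b) ^ (-(d : ℝ) / 2) ≤ ρ ^ (-(d : ℝ)) := by
        calc (R ^ 2 + b) ^ (-(d : ℝ) / 2) ≤ (ρ ^ 2) ^ (-(d : ℝ) / 2) :=
              Real.rpow_le_rpow_of_nonpos (by positivity) (by nlinarith) (by linarith)
          _ = ρ ^ (-(d : ℝ)) := by
              rw [← Real.rpow_natCast ρ 2, ← Real.rpow_mul hρ0.le]
              congr 1; push_cast; ring
      have h6 : 0 ≤ (R ^ 2 + b) ^ (-(d : ℝ) / 2) := by positivity
      calc (‖v‖ / R) ^ 2 * (R ^ 2 + b) ^ (-(d : ℝ) / 2) ≤ 1 * (R ^ 2 + b) ^ (-(d : ℝ) / 2) := by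
            gcongr
        _ ≤ _ := by rw [one_mul]; exact h5
    rw [e]
    refine (abs_sub _ _).trans ?_
    rw [abs_mul, abs_of_pos hκ0]
    have t1 : |(ker b q v x + ker b q v (-x)) / 2 - ker b q v 0|
        ≤ K3 * 2 ^ ((d : ℝ) / 2) * ‖toE x‖ ^ 2 * ρ ^ (-(d : ℝ)) := by
      refine s1.trans ?_
      calc K3 * ‖toE x‖ ^ 2 * (‖v‖ ^ 2 + b) ^ (q - 1)
          ≤ K3 * ‖toE x‖ ^ 2 * (2 ^ ((d : ℝ) / 2) * ρ ^ (-(d : ℝ))) := by gcongr
        _ = _ := by ring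
    have t2 : κ * |(ker b' q v' x + ker b' q v' (-x)) / 2 - ker b' q v' 0|
        ≤ K3 * ‖toE x‖ ^ 2 * ρ ^ (-(d : ℝ)) := by
      calc κ * |(ker b' q v' x + ker b' q v' (-x)) / 2 - ker b' q v' 0|
          ≤ κ * (K3 * ‖toE x‖ ^ 2 * (‖v'‖ ^ 2 + b') ^ (q - 1)) := by gcongr
        _ = K3 * ‖toE x‖ ^ 2 * (κ * (‖v'‖ ^ 2 + b') ^ (q - 1)) := by ring
        _ ≤ K3 * ‖toE x‖ ^ 2 * ρ ^ (-(d : ℝ)) := by gcongr
    have t3 : 0 ≤ K1 * ‖toE x‖ ^ 2 * ρ ^ (-(d : ℝ)) := by positivity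
    calc _ ≤ _ := add_le_add t1 t2
      _ = (K3 * 2 ^ ((d : ℝ) / 2) + K3) * ‖toE x‖ ^ 2 * ρ ^ (-(d : ℝ)) := by ring
      _ ≤ C1 * ‖toE x‖ ^ 2 * ρ ^ (-(d : ℝ)) := by
          rw [hC1]
          gcongr
          linarith
  -- (c)
  have hcc : ∀ x : Site d, ‖toE x‖ < ρ + 1 → |g x| ≤ (K2 + C2) * (hh + 1) *
      (wt ((d - 1 : ℕ) : ℝ) v x + wt ((d - 1 : ℕ) : ℝ) (-v) x + ρ ^ (-((d - 1 : ℕ) : ℝ))) := by
    intro x hx
    rw [hdm]
    have key : ∀ y : Site d, ‖toE y‖ ≤ R → |f y| ≤ K2 * (hh + 1) * wt ((d : ℝ) - 1) v y := by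
      intro y hy
      rw [abs_of_nonneg (green_nonneg hd hb0 hv hvR hy)]
      refine (h2 R v y hv hvR hy).trans ?_
      refine mul_le_mul_of_nonneg_left ?_ (by positivity)
      apply Real.rpow_le_rpow_of_nonpos (by positivity) _ (by linarith)
      unfold gX; linarith
    have a1 := key x (by linarith)
    have a2 := key (-x) (by rw [toE_neg, norm_neg]; linarith)
    rw [wt_neg] at a2
    have a3 : |f 0| ≤ C2 * (hh + 1) * ρ ^ (-((d : ℝ) - 1)) := by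
      rw [abs_of_nonneg (green_nonneg hd hb0 hv hvR (by rw [toE_zero, norm_zero]; exact hR.le))]
      refine (h2 R v 0 hv hvR (by rw [toE_zero, norm_zero]; exact hR.le)).trans ?_
      have h4 : ρ ^ 2 / 2 ≤ gX b v 0 := by
        unfold gX
        rw [toE_zero, zero_sub, norm_neg]
        nlinarith [sq_nonneg (‖v‖ - 1)]
      have h5 : (gX b v 0) ^ (-((d : ℝ) - 1) / 2) ≤ 2 ^ (((d : ℝ) - 1) / 2) * ρ ^ (-((d : ℝ) - 1)) := by
        calc (gX b v 0) ^ (-((d : ℝ) - 1) / 2) ≤ (ρ ^ 2 / 2) ^ (-((d : ℝ) - 1) / 2) :=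
              Real.rpow_le_rpow_of_nonpos (by positivity) h4 (by linarith)
          _ = 2 ^ (((d : ℝ) - 1) / 2) * ρ ^ (-((d : ℝ) - 1)) := by
              rw [Real.div_rpow (by positivity) (by norm_num), neg_div,
                Real.rpow_neg (by norm_num : (0:ℝ) ≤ 2), div_inv_eq_mul, mul_comm,
                ← Real.rpow_natCast ρ 2, ← Real.rpow_mul hρ0.le]
              congr 2; push_cast; ring
      calc K2 * (hh + 1) * (gX b v 0) ^ (-((d : ℝ) - 1) / 2)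
          ≤ K2 * (hh + 1) * (2 ^ (((d : ℝ) - 1) / 2) * ρ ^ (-((d : ℝ) - 1))) := by gcongr
        _ = _ := by rw [hC2]; ring
    have w1 := wt_nonneg ((d : ℝ) - 1) v x
    have w2 := wt_nonneg ((d : ℝ) - 1) (-v) x
    have w3 : 0 < ρ ^ (-((d : ℝ) - 1)) := by positivity
    have t1 : |g x| ≤ (|f x| + |f (-x)|) / 2 + |f 0| := by
      simp only [hg]
      refine (abs_sub _ _).trans (add_le_add_left ?_ _)
      rw [abs_div, abs_of_pos (by norm_num : (0:ℝ) < 2)]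
      have := abs_add_le (f x) (f (-x))
      linarith
    have p1 : 0 ≤ C2 * (hh + 1) * wt ((d : ℝ) - 1) v x := by positivity
    have p2 : 0 ≤ C2 * (hh + 1) * wt ((d : ℝ) - 1) (-v) x := by positivity
    have p3 : 0 ≤ K2 * (hh + 1) * ρ ^ (-((d : ℝ) - 1)) := by positivity
    have p4 : 0 ≤ K2 * (hh + 1) * wt ((d : ℝ) - 1) v x := by positivity
    have p5 : 0 ≤ K2 * (hh + 1) * wt ((d : ℝ) - 1) (-v) x := by positivity
    have e6 : (K2 + C2) * (hh + 1) * (wt ((d : ℝ) - 1) v x + wt ((d : ℝ) - 1) (-v) x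
        + ρ ^ (-((d : ℝ) - 1)))
        = K2 * (hh + 1) * wt ((d : ℝ) - 1) v x + K2 * (hh + 1) * wt ((d : ℝ) - 1) (-v) x
          + K2 * (hh + 1) * ρ ^ (-((d : ℝ) - 1)) + C2 * (hh + 1) * wt ((d : ℝ) - 1) v x
          + C2 * (hh + 1) * wt ((d : ℝ) - 1) (-v) x + C2 * (hh + 1) * ρ ^ (-((d : ℝ) - 1)) := by
      ring
    rw [e6]
    linarith
  have hfin := h0 ρ C1 ((K2 + C2) * (hh + 1)) v g hρ (by positivity) (by positivity) (by linarith)
    ha hbb hcc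
  refine hfin.trans ?_
  have hlog : 0 ≤ Real.log ρ := Real.log_nonneg hρ
  have : C1 + (K2 + C2) * (hh + 1) ≤ (C1 + (K2 + C2)) * (hh + 1) := by
    have : 0 ≤ C1 * hh := by positivity
    nlinarith
  calc K0 * (C1 + (K2 + C2) * (hh + 1)) * (1 + Real.log ρ)
      ≤ K0 * ((C1 + (K2 + C2)) * (hh + 1)) * (1 + Real.log ρ) := by gcongr
    _ = _ := by ring

end BIDLA
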