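import Mathlib
import Pool.Agent.Work.MP_1354f0_pr.MVGreen

/-!
The exponential corrector `η^{|x-ζ|_1}`.
-/

namespace BIDLA

open Real Finset

variable {d : ℕ}

/-- `ℓ¹` norm -/
def n1 (y : Site d) : ℕ := ∑ i, (y i).natAbs

/-- exponentially decaying corrector -/
noncomputable def expo (ζ x : Site d) : ℝ := (1 / (4 * d) : ℝ) ^ n1 (x - ζ)

lemma expo_pos (hd : 1 ≤ d) (ζ x : Site d) : 0 < expo ζ x := by
  unfold expo
  have : (0 : ℝ) < d := by positivity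
  positivity

lemma eta_le_one (hd : 1 ≤ d) : (1 / (4 * d) : ℝ) ≤ 1 := by
  have : (1 : ℝ) ≤ d := by exact_mod_cast hd
  rw [div_le_one (by positivity)]
  linarith

lemma expo_le_one (hd : 1 ≤ d) (ζ x : Site d) : expo ζ x ≤ 1 := by
  unfold expo
  exact pow_le_one₀ (by positivity) (eta_le_one hd)

lemma n1_step {y : Site d} {i : Fin d} (hi : y i ≠ 0) :
    ∃ b : Bool, n1 (y + vec (i, b)) + 1 = n1 y := by
  refine ⟨decide (y i < 0), ?_⟩
  unfold n1
  rw [← Finset.add_sum_erase _ _ (mem_univ i), ← Finset.add_sum_erase (a := i) _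
    (fun i => (y i).natAbs) (mem_univ i)]
  have e1 : ∑ j ∈ univ.erase i, ((y + vec (i, decide (y i < 0))) j).natAbs
      = ∑ j ∈ univ.erase i, (y j).natAbs := by
    refine Finset.sum_congr rfl fun j hj => ?_
    have : j ≠ i := Finset.ne_of_mem_erase hj
    simp [vec, Pi.single_eq_of_ne this]
  rw [e1]
  have e2 : ((y + vec (i, decide (y i < 0))) i).natAbs + 1 = (y i).natAbs := by
    by_cases h : y i < 0
    · simp [vec, h]; omega
    · simp [vec, h]; omega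
  omega

lemma lap_expo (hd : 1 ≤ d) {ζ x : Site d} (hx : x ≠ ζ) : expo ζ x ≤ lap (expo ζ) x := by
  have hy : x - ζ ≠ 0 := sub_ne_zero.2 hx
  obtain ⟨i, hi⟩ : ∃ i, (x - ζ) i ≠ 0 := by
    by_contra h
    push Not at h
    exact hy (funext h)
  obtain ⟨b, hb⟩ := n1_step hi
  have hd0 : (0 : ℝ) < d := by positivity
  set η : ℝ := 1 / (4 * d) with hη
  have hη0 : 0 < η := by positivity
  have h1 : expo ζ x = η * expo ζ (x + vec (i, b)) := by
    unfold expo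
    rw [← hη, show x + vec (i, b) - ζ = x - ζ + vec (i, b) by abel, ← hb, pow_succ]
    ring
  have h2 : expo ζ (x + vec (i, b)) ≤ ∑ e : Dir d, expo ζ (x + vec e) :=
    Finset.single_le_sum (f := fun e : Dir d => expo ζ (x + vec e))
      (fun e _ => (expo_pos hd ζ _).le) (mem_univ (i, b))
  have h3 : expo ζ (x + vec (i, b)) = 4 * d * expo ζ x := by
    rw [h1, hη]; field_simp
  unfold lap
  rw [h3] at h2
  have h4 : 2 * expo ζ x ≤ (∑ e : Dir d, expo ζ (x + vec e)) / (2 * d) := by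
    rw [le_div_iff₀ (by positivity)]
    linarith
  linarith

lemma n1_le_normsq (y : Site d) : (n1 y : ℝ) ≤ ‖toE y‖ ^ 2 := by
  rw [normsq_toE]
  unfold n1
  push_cast
  refine Finset.sum_le_sum fun i _ => ?_
  rw [Nat.cast_natAbs]
  have : |y i| ≤ (y i) ^ 2 := by
    rw [← sq_abs]
    rcases eq_or_ne (y i) 0 with h | h
    · simp [h]
    · have := Int.one_le_abs h
      nlinarith
  exact_mod_cast this

lemma norm_le_n1 (y : Site d) : ‖toE y‖ ≤ n1 y := by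
  apply abs_le_of_sq_le_sq' _ (Nat.cast_nonneg _) |>.2
  rw [normsq_toE]
  unfold n1
  push_cast
  have h : ∀ i, (y i : ℝ) ^ 2 = ((y i).natAbs : ℝ) ^ 2 := by
    intro i
    rw [Nat.cast_natAbs]; push_cast; rw [sq_abs]
  simp_rw [h]
  exact Finset.sum_sq_le_sq_sum_of_nonneg (fun i _ => Nat.cast_nonneg _)

lemma expo_ge (hd : 1 ≤ d) {ζ x : Site d} {M : ℕ} (h : ‖toE x - toE ζ‖ ^ 2 ≤ M) :
    (1 / (4 * d) : ℝ) ^ M ≤ expo ζ x := by
  unfold expo
  apply pow_le_pow_of_le_one (by positivity) (eta_le_one hd)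
  have h1 := n1_le_normsq (x - ζ)
  have e : toE (x - ζ) = toE x - toE ζ := by
    rw [sub_eq_add_neg, toE_add, toE_neg, ← sub_eq_add_neg]
  rw [e] at h1
  exact_mod_cast h1.trans h

lemma toE_sub (x y : Site d) : toE (x - y) = toE x - toE y := by
  rw [sub_eq_add_neg, toE_add, toE_neg, ← sub_eq_add_neg]

lemma expo_le_wt (d : ℕ) (hd : 1 ≤ d) (a : ℝ) (ha : 0 ≤ a) : ∃ C, 0 ≤ C ∧ ∀ (ζ x : Site d),
    expo ζ x ≤ C * wt a (toE ζ) x := by
  set η : ℝ := 1 / (4 * d) with hη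
  have hd1 : (1 : ℝ) ≤ d := by exact_mod_cast hd
  have hη0 : 0 < η := by positivity
  have hη1 : η < 1 := by
    rw [hη, div_lt_one (by positivity)]; linarith
  obtain ⟨k, hk⟩ := exists_nat_ge a
  have ht := tendsto_pow_const_mul_const_pow_of_abs_lt_one k (r := η) (by
    rw [abs_of_pos hη0]; exact hη1)
  obtain ⟨M, hM⟩ := (ht.comp (Filter.tendsto_add_atTop_nat 1)).bddAbove_range
  have hM' : ∀ n : ℕ, ((n : ℝ) + 1) ^ k * η ^ (n + 1) ≤ M := by
    intro n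
    have := hM ⟨n, rfl⟩
    simpa using this
  have hM0 : 0 ≤ M := le_trans (by positivity) (hM' 0)
  refine ⟨M / η, by positivity, ?_⟩
  intro ζ x
  have h1 := norm_le_n1 (x - ζ)
  rw [toE_sub] at h1
  have h2 : ‖toE x - toE ζ‖ ^ 2 + 1 ≤ ((n1 (x - ζ) : ℝ) + 1) ^ 2 := by
    have := norm_nonneg (toE x - toE ζ)
    have hn : (0 : ℝ) ≤ n1 (x - ζ) := Nat.cast_nonneg _
    nlinarith
  have h3 : (‖toE x - toE ζ‖ ^ 2 + 1) ^ (a / 2) ≤ ((n1 (x - ζ) : ℝ) + 1) ^ k := by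
    calc (‖toE x - toE ζ‖ ^ 2 + 1) ^ (a / 2) ≤ (((n1 (x - ζ) : ℝ) + 1) ^ 2) ^ (a / 2) :=
          Real.rpow_le_rpow (by positivity) h2 (by positivity)
      _ = ((n1 (x - ζ) : ℝ) + 1) ^ a := by
          rw [← Real.rpow_natCast, ← Real.rpow_mul (by positivity)]
          congr 1; push_cast; ring
      _ ≤ ((n1 (x - ζ) : ℝ) + 1) ^ (k : ℝ) := by
          apply Real.rpow_le_rpow_of_exponent_le _ hk
          have hn : (0 : ℝ) ≤ n1 (x - ζ) := Nat.cast_nonneg _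
          linarith
      _ = ((n1 (x - ζ) : ℝ) + 1) ^ k := Real.rpow_natCast _ _
  have h4 : wt a (toE ζ) x * (‖toE x - toE ζ‖ ^ 2 + 1) ^ (a / 2) = 1 := by
    unfold wt
    rw [← Real.rpow_add (by positivity)]
    have : -a / 2 + a / 2 = 0 := by ring
    rw [this, Real.rpow_zero]
  have h5 := hM' (n1 (x - ζ))
  have hw := wt_pos a (toE ζ) x
  unfold expo
  rw [← hη, div_mul_eq_mul_div, le_div_iff₀ hη0, ← pow_succ]
  calc η ^ (n1 (x - ζ) + 1) = η ^ (n1 (x - ζ) + 1) *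
        (wt a (toE ζ) x * (‖toE x - toE ζ‖ ^ 2 + 1) ^ (a / 2)) := by rw [h4, mul_one]
    _ ≤ η ^ (n1 (x - ζ) + 1) * (wt a (toE ζ) x * ((n1 (x - ζ) : ℝ) + 1) ^ k) := by gcongr
    _ = (((n1 (x - ζ) : ℝ) + 1) ^ k * η ^ (n1 (x - ζ) + 1)) * wt a (toE ζ) x := by ring
    _ ≤ M * wt a (toE ζ) x := by gcongr

end BIDLA
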