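import Mathlib
import Pool.Agent.Work.MP_1354f0_pr.Expo

/-!
Ingredients of the inner test function: the subharmonic functions `H` and `F` with pole `ζ`.
-/

namespace BIDLA

open Real Finset

variable {d : ℕ}

lemma gX_step_le {b : ℝ} (hb : 2 ≤ b) (v : EuclideanSpace ℝ (Fin d)) (x : Site d) (e : Dir d) :
    gX b v (x + vec e) ≤ 2 * gX b v x := by
  unfold gX
  have h := norm_step_le x e v
  have h1 : ‖toE (x + vec e) - v‖ ^ 2 ≤ (‖toE x - v‖ + 1) ^ 2 :=
    pow_le_pow_left₀ (norm_nonneg _) h 2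
  nlinarith [sq_nonneg (‖toE x - v‖ - 1)]

lemma gX_step_ge {b : ℝ} (hb : 2 ≤ b) (v : EuclideanSpace ℝ (Fin d)) (x : Site d) (e : Dir d) :
    gX b v x ≤ 2 * gX b v (x + vec e) := by
  have h := gX_step_le hb v (x + vec e) (flip e)
  rw [vec_flip', add_neg_cancel_right] at h
  exact h

lemma rpow_step {b q : ℝ} (hb : 2 ≤ b) (hq : q ≤ 0) (v : EuclideanSpace ℝ (Fin d)) (x : Site d)
    (e : Dir d) : (gX b v (x + vec e)) ^ q ≤ 2 ^ (-q) * (gX b v x) ^ q := by
  have h := gX_step_ge hb v x e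
  have hX := gX_pos (v := v) (by linarith : 0 < b) x
  have h2 : gX b v x / 2 ≤ gX b v (x + vec e) := by linarith
  calc (gX b v (x + vec e)) ^ q ≤ (gX b v x / 2) ^ q :=
        Real.rpow_le_rpow_of_nonpos (by positivity) h2 hq
    _ = 2 ^ (-q) * (gX b v x) ^ q := by
        rw [Real.div_rpow hX.le (by norm_num), Real.rpow_neg (by norm_num : (0:ℝ) ≤ 2)]
        field_simp

lemma wt_le_X {a : ℝ} (ha : 0 ≤ a) (v : EuclideanSpace ℝ (Fin d)) (x : Site d) :
    wt a v x ≤ 64 ^ (a / 2) * (gX 64 v x) ^ (-a / 2) := by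
  unfold wt gX
  have h1 : (‖toE x - v‖ ^ 2 + 64) / 64 ≤ ‖toE x - v‖ ^ 2 + 1 := by
    have := sq_nonneg ‖toE x - v‖
    linarith
  calc (‖toE x - v‖ ^ 2 + 1) ^ (-a / 2) ≤ ((‖toE x - v‖ ^ 2 + 64) / 64) ^ (-a / 2) :=
        Real.rpow_le_rpow_of_nonpos (by positivity) h1 (by linarith)
    _ = _ := by
        rw [Real.div_rpow (by positivity) (by norm_num), neg_div,
          Real.rpow_neg (by norm_num : (0:ℝ) ≤ 64), div_inv_eq_mul, mul_comm]

lemma X_le_wt {a : ℝ} (ha : 0 ≤ a) (v : EuclideanSpace ℝ (Fin d)) (x : Site d) :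
    (gX 64 v x) ^ (-a / 2) ≤ wt a v x := by
  unfold wt gX
  exact Real.rpow_le_rpow_of_nonpos (by positivity) (by linarith) (by linarith)

/-- comparison of the two squared distances when the sphere passes at distance one of the pole -/
lemma gX_le_eight_gY {v : EuclideanSpace ℝ (Fin d)} (hv : 1 ≤ ‖v‖) (x : Site d) :
    gX 64 v x ≤ 8 * gY 64 (‖v‖ + 1) v x := by
  have hv0 : 0 < ‖v‖ := by linarith
  set R := ‖v‖ + 1 with hR
  have hR0 : 0 < R := by linarith
  have h := image_eq (b := 64) hv0 hR0 x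
  have hY := gY_pos (b := 64) (by norm_num) hv0 hR0 x
  set c := (R / ‖v‖) ^ 2 with hc
  have hc1 : 1 ≤ c := one_le_pow₀ (by rw [le_div_iff₀ hv0]; linarith)
  have hc4 : c ≤ 4 := by
    have : R / ‖v‖ ≤ 2 := by rw [div_le_iff₀ hv0]; linarith
    have h0 : 0 ≤ R / ‖v‖ := by positivity
    rw [hc]; nlinarith
  have hdist : ‖v - c • v‖ ≤ 3 := by
    have e : v - c • v = (1 - c) • v := by rw [sub_smul, one_smul]
    rw [e, norm_smul, Real.norm_eq_abs, abs_of_nonpos (by linarith), neg_sub]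
    have : (c - 1) * ‖v‖ = (2 * ‖v‖ + 1) / ‖v‖ := by
      rw [hc, hR]; field_simp; ring
    rw [this, div_le_iff₀ hv0]; linarith
  have h1 : ‖toE x - v‖ ≤ ‖toE x - c • v‖ + 3 := by
    have e : toE x - v = (toE x - c • v) - (v - c • v) := by abel
    rw [e]
    exact (norm_sub_le _ _).trans (by linarith)
  unfold gX
  have h2 : ‖toE x - v‖ ^ 2 ≤ (‖toE x - c • v‖ + 3) ^ 2 := pow_le_pow_left₀ (norm_nonneg _) h1 2
  have h3 : ‖toE x - v‖ ^ 2 + 64 ≤ 2 * (‖toE x - c • v‖ ^ 2 + 64 * c) := by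
    nlinarith [sq_nonneg (‖toE x - c • v‖ - 3)]
  rw [h] at h3
  nlinarith

/-- global bound on the Laplacian of the Green function with pole at distance one of the sphere -/
lemma lap_green_global (d : ℕ) (hd : 3 ≤ d) : ∃ C, 0 ≤ C ∧
    ∀ (v : EuclideanSpace ℝ (Fin d)) (x : Site d), 1 ≤ ‖v‖ →
    |lap (green 64 (‖v‖ + 1) v) x| ≤ C * (gX 64 v x) ^ (-((d : ℝ) + 2) / 2) := by
  obtain ⟨C, hC, h⟩ := lap_green d hd
  have hγ := gam_pos hd
  refine ⟨(C + gam d * 64) * (1 + 8 ^ (((d : ℝ) + 2) / 2)), by positivity, ?_⟩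
  intro v x hv
  have hv0 : 0 < ‖v‖ := by linarith
  set R := ‖v‖ + 1 with hR
  have hR0 : 0 < R := by linarith
  have h1 := h 64 R v x le_rfl hv0 (by linarith)
  have hX := gX_pos (v := v) (by norm_num : (0:ℝ) < 64) x
  have hY := gY_pos (b := 64) (by norm_num) hv0 hR0 x
  have h8 := gX_le_eight_gY hv x
  rw [← hR] at h8
  set A := (gX 64 v x) ^ (-((d : ℝ) + 2) / 2) with hA
  set B := (gY 64 R v x) ^ (-((d : ℝ) + 2) / 2) with hB
  have hA0 : 0 < A := by positivity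
  have hB0 : 0 < B := by positivity
  have hd3 : (3 : ℝ) ≤ d := by exact_mod_cast hd
  have hBA : B ≤ 8 ^ (((d : ℝ) + 2) / 2) * A := by
    calc B ≤ (gX 64 v x / 8) ^ (-((d : ℝ) + 2) / 2) :=
          Real.rpow_le_rpow_of_nonpos (by positivity) (by linarith) (by linarith)
      _ = 8 ^ (((d : ℝ) + 2) / 2) * A := by
          rw [Real.div_rpow hX.le (by norm_num), neg_div,
            Real.rpow_neg (by norm_num : (0:ℝ) ≤ 8), div_inv_eq_mul, mul_comm, hA, neg_div]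
  have hθ1 : ‖v‖ / R ≤ 1 := by rw [div_le_one hR0]; linarith
  have hθ0 : 0 < ‖v‖ / R := by positivity
  have hθ2 : (‖v‖ / R) ^ 2 ≤ 1 := pow_le_one₀ hθ0.le hθ1
  have h2 : |lap (green 64 R v) x| ≤ C * (A + B) + gam d * 64 * A + gam d * 64 * (‖v‖ / R) ^ 2 * B := by
    have e : lap (green 64 R v) x = (lap (green 64 R v) x + gam d * 64 * A
        - gam d * 64 * (‖v‖ / R) ^ 2 * B) - gam d * 64 * A + gam d * 64 * (‖v‖ / R) ^ 2 * B := by ring
    rw [e]
    refine (abs_add_le _ _).trans (add_le_add ((abs_sub _ _).trans (add_le_add h1 ?_)) ?_)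
    · rw [abs_of_nonneg (by positivity)]
    · rw [abs_of_nonneg (by positivity)]
  calc |lap (green 64 R v) x|
      ≤ C * (A + B) + gam d * 64 * A + gam d * 64 * (‖v‖ / R) ^ 2 * B := h2
    _ ≤ C * (A + B) + gam d * 64 * A + gam d * 64 * 1 * B := by gcongr
    _ = (C + gam d * 64) * (A + B) := by ring
    _ ≤ (C + gam d * 64) * (A + 8 ^ (((d : ℝ) + 2) / 2) * A) := by gcongr
    _ = _ := by ring

/-- lower bound for the Laplacian of a power kernel with very negative exponent -/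
lemma lap_ker_ge (d : ℕ) (hd : 1 ≤ d) (q : ℝ) (hq : (d : ℝ) - 2 + 2 * q < 0) (hq0 : q < 0) :
    ∃ c C, 0 < c ∧ 0 ≤ C ∧
    ∀ (v : EuclideanSpace ℝ (Fin d)) (x : Site d),
    c * (gX 64 v x) ^ (q - 1) - C * (gX 64 v x) ^ (q - 2) ≤ lap (ker 64 q v) x := by
  obtain ⟨C, hC, h⟩ := lap_ker q
  have hd0 : (0 : ℝ) < d := by positivity
  set k : ℝ := 2 * q * ((d : ℝ) - 2 + 2 * q) with hk
  have hk0 : 0 < k := by
    rw [hk]; nlinarith
  refine ⟨k / (2 * d), (64 * k - 2 * q * (64 * d) + d * C) / (2 * d), by positivity, ?_, ?_⟩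
  · have : 0 ≤ -(2 * q * (64 * d)) := by nlinarith
    have : 0 ≤ 64 * k - 2 * q * (64 * d) + d * C := by
      have : 0 ≤ d * C := by positivity
      linarith
    positivity
  intro v x
  have h1 := (abs_le.1 (h d 64 v x le_rfl)).1
  have hX := gX_pos (v := v) (by norm_num : (0:ℝ) < 64) x
  have e1 : (gX 64 v x) ^ (q - 1) = (gX 64 v x) ^ (q - 2) * gX 64 v x := by
    rw [← Real.rpow_add_one hX.ne']; congr 1; ring
  have e2 : (‖toE x - v‖ ^ 2 + 64) = gX 64 v x := rfl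
  have e3 : ‖toE x - v‖ ^ 2 = gX 64 v x - 64 := by unfold gX; ring
  rw [e2, e3] at h1
  rw [e1]
  set A := (gX 64 v x) ^ (q - 2) with hA
  set a := gX 64 v x with ha
  have h2 : k / (2 * d) * (A * a) - (64 * k - 2 * q * (64 * d) + d * C) / (2 * d) * A
      = (2 * q * A * ((d - 2 + 2 * q) * (a - 64) + d * 64) - d * C * A) / (2 * d) := by
    rw [hk]; field_simp; ring
  rw [h2, div_le_iff₀ (by positivity)]
  linarith

/-- Adding a multiple of the corrector makes a far-positive function positive everywhere off `ζ`. -/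
lemma correct (d : ℕ) (hd : 1 ≤ d) (q c C : ℝ) (hq : q - 1 ≤ 0) (hc : 0 < c) (hC : 0 ≤ C) :
    ∃ K, 0 ≤ K ∧ ∀ (ζ x : Site d) (L : ℝ), x ≠ ζ →
    c * (gX 64 (toE ζ) x) ^ (q - 1) - C * (gX 64 (toE ζ) x) ^ (q - 2) ≤ L →
    c / 2 * (gX 64 (toE ζ) x) ^ (q - 1) ≤ L + K * lap (expo ζ) x := by
  obtain ⟨M, hM⟩ := exists_nat_ge (2 * C / c)
  set m : ℝ := (1 / (4 * d) : ℝ) ^ M with hm
  have hd0 : (0 : ℝ) < d := by positivity
  have hm0 : 0 < m := by positivity
  refine ⟨C / m, by positivity, ?_⟩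
  intro ζ x L hx hL
  have hX := gX_pos (v := toE ζ) (by norm_num : (0:ℝ) < 64) x
  have hlap : 0 ≤ lap (expo ζ) x := (expo_pos hd ζ x).le.trans (lap_expo hd hx)
  have e1 : (gX 64 (toE ζ) x) ^ (q - 1) = (gX 64 (toE ζ) x) ^ (q - 2) * gX 64 (toE ζ) x := by
    rw [← Real.rpow_add_one hX.ne']; congr 1; ring
  set a := gX 64 (toE ζ) x with ha
  set A := a ^ (q - 2) with hA
  have hA0 : 0 < A := by positivity
  rcases le_or_gt (2 * C / c) a with h | h
  · have h1 : C * A ≤ c / 2 * (A * a) := by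
      rw [div_le_iff₀ hc] at h
      nlinarith
    rw [e1] at hL ⊢
    have : 0 ≤ C / m * lap (expo ζ) x := by positivity
    linarith
  · have h1 : ‖toE x - toE ζ‖ ^ 2 ≤ M := by
      have : a = ‖toE x - toE ζ‖ ^ 2 + 64 := rfl
      linarith
    have h2 := expo_ge hd h1
    rw [← hm] at h2
    have h3 : m ≤ lap (expo ζ) x := h2.trans (lap_expo hd hx)
    have h4 : C ≤ C / m * lap (expo ζ) x := by
      calc C = C / m * m := by field_simp
        _ ≤ C / m * lap (expo ζ) x := by gcongr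
    have ha64 : 64 ≤ a := by
      have : a = ‖toE x - toE ζ‖ ^ 2 + 64 := rfl
      have := sq_nonneg ‖toE x - toE ζ‖
      linarith
    have h5 : A ≤ 1 := Real.rpow_le_one_of_one_le_of_nonpos (by linarith) (by linarith)
    have h6 : 0 ≤ c / 2 * a ^ (q - 1) := by positivity
    have h7 : C * A ≤ C := by nlinarith
    linarith

end BIDLA
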