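import Mathlib
import Pool.Agent.Work.MP_1354f0_pr.InnerA

/-!
The subharmonic functions `H` (Poisson type) and `F` (variance type) with pole `ζ`.
-/

namespace BIDLA

open Real Finset

variable {d : ℕ}

/-- Poisson type kernel with pole `ζ` -/
noncomputable def Hfun (K K' : ℝ) (ζ x : Site d) : ℝ :=
  green 64 (‖toE ζ‖ + 1) (toE ζ) x + (K * ker 64 (-(d : ℝ) / 2) (toE ζ) x + K' * expo ζ x)

/-- variance type kernel with pole `ζ` -/
noncomputable def Ffun (K : ℝ) (ζ x : Site d) : ℝ :=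
  ker 64 (2 - (d : ℝ)) (toE ζ) x + K * expo ζ x

lemma ker_pos (q : ℝ) (v : EuclideanSpace ℝ (Fin d)) (x : Site d) : 0 < ker 64 q v x := by
  unfold ker; positivity

theorem exists_H (d : ℕ) (hd : 3 ≤ d) : ∃ K K' C C1 : ℝ, 0 ≤ K ∧ 0 ≤ K' ∧ 0 ≤ C ∧ 1 ≤ C1 ∧
    ∀ ζ : Site d, 1 ≤ ‖toE ζ‖ →
      (∀ x, x ≠ ζ → 0 ≤ lap (Hfun K K' ζ) x) ∧
      (∀ x, Hfun K K' ζ x ≤ C * (gX 64 (toE ζ) x) ^ (-((d : ℝ) - 1) / 2)) ∧
      (∀ x, C1 * ‖toE ζ‖ ≤ ‖toE x - toE ζ‖ → Hfun K K' ζ x ≤ 0) := by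
  have hd3 : (3 : ℝ) ≤ d := by exact_mod_cast hd
  have hγ := gam_pos hd
  obtain ⟨Cm, hCm, hm⟩ := lap_green_global d hd
  obtain ⟨cJ, CJ, hcJ, hCJ, hJ⟩ := lap_ker_ge d (by omega) (-(d : ℝ) / 2) (by linarith) (by linarith)
  set K : ℝ := (Cm + 1) / cJ with hK
  have hK0 : 0 < K := by positivity
  obtain ⟨K', hK', hcor⟩ := correct d (by omega) (-(d : ℝ) / 2) 1 (K * CJ) (by linarith) one_pos
    (by positivity)
  obtain ⟨Ce, hCe, he⟩ := expo_le_wt d (by omega) (d : ℝ) (by linarith)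
  obtain ⟨C2, hC2, h2⟩ := green_le_dipole d hd 64 (by norm_num)
  set Ce' : ℝ := Ce * 64 ^ ((d : ℝ) / 2) with hCe'
  have hCe'0 : 0 ≤ Ce' := by positivity
  set C1 : ℝ := 10 + 10 * (K + K' * Ce') / gam d with hC1
  have hC1' : 0 ≤ 10 * (K + K' * Ce') / gam d := by positivity
  refine ⟨K, K', 2 * C2 + (K + K' * Ce'), C1, hK0.le, hK', by positivity, by linarith, ?_⟩
  intro ζ hζ
  set v := toE ζ with hv
  set ρ := ‖v‖ with hρ
  have hρ0 : 0 < ρ := by linarith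
  have hX0 : ∀ x : Site d, 0 < gX 64 v x := fun x => gX_pos (by norm_num) x
  have hX64 : ∀ x : Site d, 64 ≤ gX 64 v x := by
    intro x; unfold gX; have := sq_nonneg ‖toE x - v‖; linarith
  have heX : ∀ x, expo ζ x ≤ Ce' * (gX 64 v x) ^ (-(d : ℝ) / 2) := by
    intro x
    refine (he ζ x).trans ?_
    have := wt_le_X (a := (d : ℝ)) (by linarith) v x
    calc Ce * wt d v x ≤ Ce * (64 ^ ((d : ℝ) / 2) * (gX 64 v x) ^ (-(d : ℝ) / 2)) := by gcongr
      _ = _ := by rw [hCe']; ring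
  have hexp : ∀ x, K * ker 64 (-(d : ℝ) / 2) v x + K' * expo ζ x
      ≤ (K + K' * Ce') * (gX 64 v x) ^ (-(d : ℝ) / 2) := by
    intro x
    have e : ker 64 (-(d : ℝ) / 2) v x = (gX 64 v x) ^ (-(d : ℝ) / 2) := rfl
    rw [e]
    have := mul_le_mul_of_nonneg_left (heX x) hK'
    linarith
  refine ⟨?_, ?_, ?_⟩
  · intro x hx
    have e : lap (Hfun K K' ζ) x = lap (green 64 (ρ + 1) v) x + (K * lap (ker 64 (-(d : ℝ) / 2) v) x
        + K' * lap (expo ζ) x) := by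
      have : Hfun K K' ζ = fun y => green 64 (ρ + 1) v y +
        (K * ker 64 (-(d : ℝ) / 2) v y + K' * expo ζ y) := rfl
      rw [this, lap_add, lap_add, lap_const_mul, lap_const_mul]
    have h1 := (abs_le.1 (hm v x hζ)).1
    have h3 := hJ v x
    have e1 : -((d : ℝ) + 2) / 2 = -(d : ℝ) / 2 - 1 := by ring
    rw [e1] at h1
    set A := (gX 64 v x) ^ (-(d : ℝ) / 2 - 1) with hA
    set B := (gX 64 v x) ^ (-(d : ℝ) / 2 - 2) with hB
    have h4 : 1 * A - K * CJ * B ≤ lap (green 64 (ρ + 1) v) x + K * lap (ker 64 (-(d : ℝ) / 2) v) x := by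
      have h5 := mul_le_mul_of_nonneg_left h3 hK0.le
      have e2 : K * (cJ * A - CJ * B) = (Cm + 1) * A - K * CJ * B := by
        rw [hK]; field_simp
      rw [e2] at h5
      linarith
    have h5 := hcor ζ x _ hx h4
    have hA0 : 0 < A := by have := hX0 x; positivity
    rw [e]
    linarith
  · intro x
    have hXx := hX64 x
    have e3 : (gX 64 v x) ^ (-(d : ℝ) / 2) ≤ (gX 64 v x) ^ (-((d : ℝ) - 1) / 2) :=
      Real.rpow_le_rpow_of_exponent_le (by linarith) (by linarith)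
    have h6 : green 64 (ρ + 1) v x ≤ 2 * C2 * (gX 64 v x) ^ (-((d : ℝ) - 1) / 2) := by
      rcases le_or_gt ‖toE x‖ (ρ + 1) with h | h
      · have := h2 (ρ + 1) v x hρ0 (by linarith) h
        have e4 : ρ + 1 - ‖v‖ + 1 = 2 := by rw [← hρ]; ring
        rw [e4] at this
        linarith
      · have := green_nonpos (b := 64) hd (by norm_num) hρ0 (by linarith : ‖v‖ ≤ ρ + 1) h.le
        have hp : 0 ≤ 2 * C2 * (gX 64 v x) ^ (-((d : ℝ) - 1) / 2) := by
          have := hX0 x; positivity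
        linarith
    have h7 := hexp x
    have h8 : (K + K' * Ce') * (gX 64 v x) ^ (-(d : ℝ) / 2)
        ≤ (K + K' * Ce') * (gX 64 v x) ^ (-((d : ℝ) - 1) / 2) := by gcongr
    unfold Hfun
    rw [add_mul]
    linarith
  · intro x hx
    set s := ‖toE x - v‖ with hs
    set n := ‖toE x‖ with hn
    have hn0 : 0 ≤ n := norm_nonneg _
    have hs10 : 10 * ρ ≤ s := by nlinarith
    have hns : s ≤ n + ρ := norm_sub_le _ _
    have hR0 : 0 < ρ + 1 := by linarith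
    have hXx := hX0 x
    have hY := gY_pos (b := 64) (by norm_num) hρ0 hR0 x
    have hXs : gX 64 v x = s ^ 2 + 64 := rfl
    have hX2 : gX 64 v x ≤ 1.64 * s ^ 2 := by
      rw [hXs]; nlinarith
    have hn2 : 0.4 * s ^ 2 ≤ n ^ 2 - (ρ + 1) ^ 2 := by
      have h1 : 0.9 * s ≤ n := by linarith
      have h2 : (ρ + 1) ^ 2 ≤ 4 * ρ ^ 2 := by nlinarith
      have h3 : 100 * ρ ^ 2 ≤ s ^ 2 := by nlinarith
      nlinarith
    have hgap : gX 64 v x / (10 * ρ) ≤ gX 64 v x - gY 64 (ρ + 1) v x := by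
      have e : gX 64 v x - gY 64 (ρ + 1) v x = (2 * ρ + 1) * (n ^ 2 - (ρ + 1) ^ 2) / (ρ + 1) ^ 2 := by
        unfold gX gY
        rw [← hρ, ← hn]
        ring
      rw [e, div_le_div_iff₀ (by positivity) (by positivity)]
      have h1 : (ρ + 1) ^ 2 ≤ 4 * ρ ^ 2 := by nlinarith
      calc gX 64 v x * (ρ + 1) ^ 2 ≤ (1.64 * s ^ 2) * (4 * ρ ^ 2) := by gcongr
        _ ≤ 2 * ρ * (0.4 * s ^ 2) * (10 * ρ) := by nlinarith [mul_nonneg (sq_nonneg s) (sq_nonneg ρ)]
        _ ≤ (2 * ρ + 1) * (n ^ 2 - (ρ + 1) ^ 2) * (10 * ρ) := by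
            have h0 : 0 ≤ 0.4 * s ^ 2 := by positivity
            gcongr
            linarith
    have hgreen : green 64 (ρ + 1) v x ≤ -(gam d * (gX 64 v x) ^ (-(d : ℝ) / 2) * (gX 64 v x / (10 * ρ))) := by
      rw [green_eq (by norm_num) hρ0 hR0]
      have e0 : -((d : ℝ) - 2) / 2 = -gam d := by unfold gam; ring
      rw [e0]
      -- tangent inequality
      have h1 : gam d * (gX 64 v x) ^ (-gam d - 1) * (gX 64 v x - gY 64 (ρ + 1) v x)
          ≤ (gY 64 (ρ + 1) v x) ^ (-gam d) - (gX 64 v x) ^ (-gam d) := by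
        set X := gX 64 v x with hXd
        set Y := gY 64 (ρ + 1) v x with hYd
        set z := Y / X with hz
        have hz0 : 0 < z := by positivity
        have h1 : z ^ (-gam d) = Real.exp (-gam d * Real.log z) := by
          rw [Real.rpow_def_of_pos hz0, mul_comm]
        have h2 := Real.add_one_le_exp (-gam d * Real.log z)
        have h3 := Real.log_le_sub_one_of_pos hz0
        have h4 : 1 - gam d * (z - 1) ≤ z ^ (-gam d) := by
          rw [h1]; nlinarith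
        have e1 : Y ^ (-gam d) = X ^ (-gam d) * z ^ (-gam d) := by
          rw [← Real.mul_rpow hXx.le hz0.le, hz, mul_div_cancel₀ _ hXx.ne']
        have e2 : X ^ (-gam d) = X ^ (-gam d - 1) * X := by
          rw [← Real.rpow_add_one hXx.ne']; congr 1; ring
        have e3 : X - Y = -(X * (z - 1)) := by rw [hz]; field_simp; ring
        have hXp : 0 < X ^ (-gam d) := by positivity
        rw [e1, e3]
        have h5 := mul_le_mul_of_nonneg_left h4 hXp.le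
        calc gam d * X ^ (-gam d - 1) * -(X * (z - 1)) = X ^ (-gam d) * (1 - gam d * (z - 1)) - X ^ (-gam d) := by
              rw [e2]; ring
          _ ≤ _ := by linarith
      have e4 : -gam d - 1 = -(d : ℝ) / 2 := by unfold gam; ring
      rw [e4] at h1
      have h2 : gam d * (gX 64 v x) ^ (-(d : ℝ) / 2) * (gX 64 v x / (10 * ρ))
          ≤ gam d * (gX 64 v x) ^ (-(d : ℝ) / 2) * (gX 64 v x - gY 64 (ρ + 1) v x) := by gcongr
      linarith
    have h7 := hexp x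
    have h9 : K + K' * Ce' ≤ gam d * (gX 64 v x / (10 * ρ)) := by
      have h10 : C1 ^ 2 * ρ ≤ gX 64 v x / ρ := by
        rw [le_div_iff₀ hρ0, hXs]
        have : (C1 * ρ) ^ 2 ≤ s ^ 2 := pow_le_pow_left₀ (by positivity) hx 2
        nlinarith
      have h11 : 10 * (K + K' * Ce') / gam d ≤ C1 ^ 2 * ρ := by
        have hh : 10 * (K + K' * Ce') / gam d ≤ C1 := by rw [hC1]; linarith
        have h1C : 1 ≤ C1 := by linarith
        nlinarith [mul_nonneg (by linarith : 0 ≤ C1 - 1) (by linarith : 0 ≤ C1),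
          mul_nonneg (sq_nonneg C1) (by linarith : 0 ≤ ρ - 1)]
      have h12 : 10 * (K + K' * Ce') ≤ gam d * (gX 64 v x / ρ) := by
        have := (div_le_iff₀ hγ).1 (h11.trans h10)
        linarith
      have e5 : gam d * (gX 64 v x / (10 * ρ)) = gam d * (gX 64 v x / ρ) / 10 := by
        field_simp
      rw [e5]; linarith
    have hXp : 0 < (gX 64 v x) ^ (-(d : ℝ) / 2) := by positivity
    have h13 := mul_le_mul_of_nonneg_right h9 hXp.le
    unfold Hfun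
    have : green 64 (‖v‖ + 1) v x = green 64 (ρ + 1) v x := rfl
    rw [this]
    linarith

theorem exists_F (d : ℕ) (hd : 3 ≤ d) : ∃ K c C : ℝ, 0 ≤ K ∧ 0 < c ∧ 0 ≤ C ∧
    ∀ ζ : Site d,
      (∀ x, x ≠ ζ → c * (gX 64 (toE ζ) x) ^ (1 - (d : ℝ)) ≤ lap (Ffun K ζ) x) ∧
      (∀ x, Ffun K ζ x ≤ C * (gX 64 (toE ζ) x) ^ (2 - (d : ℝ))) := by
  have hd3 : (3 : ℝ) ≤ d := by exact_mod_cast hd
  obtain ⟨cJ, CJ, hcJ, hCJ, hJ⟩ := lap_ker_ge d (by omega) (2 - (d : ℝ)) (by linarith) (by linarith)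
  obtain ⟨K, hK, hcor⟩ := correct d (by omega) (2 - (d : ℝ)) cJ CJ (by linarith) hcJ hCJ
  obtain ⟨Ce, hCe, he⟩ := expo_le_wt d (by omega) (2 * (d : ℝ) - 4) (by linarith)
  refine ⟨K, cJ / 2, 1 + K * (Ce * 64 ^ ((2 * (d : ℝ) - 4) / 2)), hK, by positivity, by positivity, ?_⟩
  intro ζ
  refine ⟨?_, ?_⟩
  · intro x hx
    have e : lap (Ffun K ζ) x = lap (ker 64 (2 - (d : ℝ)) (toE ζ)) x + K * lap (expo ζ) x := by
      have : Ffun K ζ = fun y => ker 64 (2 - (d : ℝ)) (toE ζ) y + K * expo ζ y := rfl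
      rw [this, lap_add, lap_const_mul]
    have h := hcor ζ x _ hx (hJ (toE ζ) x)
    have e1 : 2 - (d : ℝ) - 1 = 1 - (d : ℝ) := by ring
    rw [e1] at h
    rw [e]; exact h
  · intro x
    have h1 := wt_le_X (a := 2 * (d : ℝ) - 4) (by linarith) (toE ζ) x
    have e1 : -(2 * (d : ℝ) - 4) / 2 = 2 - (d : ℝ) := by ring
    rw [e1] at h1
    have h2 := he ζ x
    have e2 : ker 64 (2 - (d : ℝ)) (toE ζ) x = (gX 64 (toE ζ) x) ^ (2 - (d : ℝ)) := rfl
    unfold Ffun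
    rw [e2]
    have h3 : expo ζ x ≤ Ce * (64 ^ ((2 * (d : ℝ) - 4) / 2) * (gX 64 (toE ζ) x) ^ (2 - (d : ℝ))) :=
      h2.trans (mul_le_mul_of_nonneg_left h1 hCe)
    have h4 := mul_le_mul_of_nonneg_left h3 hK
    linarith

end BIDLA
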