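import Mathlib
import Pool.Agent.Work.MP_1354f0_pr.InnerB

/-!
Assembly of the inner test function.
-/

namespace BIDLA

open Real Finset

variable {d : ℕ}

lemma one_le_norm_toE {ζ : Site d} (h : ζ ≠ 0) : 1 ≤ ‖toE ζ‖ := by
  obtain ⟨i, hi⟩ : ∃ i, ζ i ≠ 0 := by
    by_contra hcon
    push Not at hcon
    exact h (funext hcon)
  have h1 : (1 : ℝ) ≤ (ζ i : ℝ) ^ 2 := by
    have : 1 ≤ (ζ i) ^ 2 := by
      have := Int.one_le_abs hi
      rw [← sq_abs]; nlinarith
    exact_mod_cast this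
  have h2 : (ζ i : ℝ) ^ 2 ≤ ‖toE ζ‖ ^ 2 := coord_sq_le (toE ζ) i
  nlinarith [norm_nonneg (toE ζ)]

/-- size of the variance budget -/
noncomputable def budget (d : ℕ) (ρ : ℝ) : ℝ :=
  if d = 3 then ρ else if d = 4 then 1 + Real.log ρ else 1

lemma one_le_budget (d : ℕ) {ρ : ℝ} (hρ : 1 ≤ ρ) : 1 ≤ budget d ρ := by
  unfold budget
  have := Real.log_nonneg hρ
  split_ifs <;> linarith

lemma card_filter_ballF (v : EuclideanSpace ℝ (Fin d)) (R : ℝ) (s : ℝ) (hs : 1 ≤ s) :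
    haveI := Classical.decPred fun x : Site d => ‖toE x - v‖ < s
    (((ballF v R).filter (fun x => ‖toE x - v‖ < s)).card : ℝ) ≤ 3 ^ d * s ^ d := by
  classical
  refine le_trans ?_ (card_ballF_le v hs)
  have : (ballF v R).filter (fun x => ‖toE x - v‖ < s) ⊆ ballF v s := by
    intro x hx
    rw [mem_ballF]
    exact (Finset.mem_filter.1 hx).2
  exact_mod_cast Finset.card_le_card this

lemma sum_center_log (d : ℕ) : ∃ C, 0 ≤ C ∧ ∀ (v : EuclideanSpace ℝ (Fin d)) (R : ℝ), 1 ≤ R →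
    ∑ x ∈ ballF v R, wt d v x ≤ C * (1 + Real.log R) := by
  obtain ⟨C, hC, h⟩ := sum_eq d
  refine ⟨3 ^ d * C, by positivity, ?_⟩
  intro v R hR
  have := h d (3 ^ d) R v (ballF v R) (by positivity) hR
    (fun s hs => by have := card_filter_ballF v R s hs; convert this)
    (fun x hx => mem_ballF.1 hx)
  rwa [← mul_assoc] at this

lemma sum_center_budget (d : ℕ) (hd : 3 ≤ d) : ∃ C, 0 ≤ C ∧
    ∀ (v : EuclideanSpace ℝ (Fin d)) (R : ℝ), 1 ≤ R →
    ∑ x ∈ ballF v R, wt (2 * (d : ℝ) - 4) v x ≤ C * budget d R := by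
  rcases eq_or_ne d 3 with h3 | h3
  · subst h3
    obtain ⟨C, hC, h⟩ := sum_lt 3 2 (by norm_num) (by norm_num)
    refine ⟨3 ^ 3 * C, by positivity, ?_⟩
    intro v R hR
    have := h 3 (3 ^ 3) R v (ballF v R) (by positivity) hR
      (fun s hs => by have := card_filter_ballF v R s hs; convert this)
      (fun x hx => mem_ballF.1 hx)
    have e : (2 * ((3 : ℕ) : ℝ) - 4) = 2 := by norm_num
    have e2 : (((3 : ℕ) : ℝ) - 2) = 1 := by norm_num
    unfold wt budget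
    rw [e, if_pos rfl]
    rw [e2, Real.rpow_one, ← mul_assoc] at this
    exact this
  · rcases eq_or_ne d 4 with h4 | h4
    · subst h4
      obtain ⟨C, hC, h⟩ := sum_center_log 4
      refine ⟨C, hC, ?_⟩
      intro v R hR
      have := h v R hR
      have e : (2 * ((4 : ℕ) : ℝ) - 4) = ((4 : ℕ) : ℝ) := by norm_num
      unfold budget
      rw [e, if_neg (by norm_num), if_pos rfl]
      exact this
    · obtain ⟨C, hC, h⟩ := sum_ball_const d (2 * (d : ℝ) - 4) (by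
        have : (5 : ℝ) ≤ d := by
          have : 5 ≤ d := by omega
          exact_mod_cast this
        linarith)
      refine ⟨C, hC, ?_⟩
      intro v R hR
      unfold budget
      rw [if_neg h3, if_neg h4, mul_one]
      exact h _ v

lemma budget_mul_le (d : ℕ) (K : ℝ) (hK : 1 ≤ K) : ∃ C, 0 ≤ C ∧ ∀ ρ : ℝ, 1 ≤ ρ →
    budget d (K * ρ) ≤ C * budget d ρ := by
  refine ⟨K + 1 + Real.log K, by have := Real.log_nonneg hK; linarith, ?_⟩
  intro ρ hρ
  have h1 := Real.log_nonneg hK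
  have h2 := Real.log_nonneg hρ
  unfold budget
  split_ifs
  · nlinarith
  · rw [Real.log_mul (by linarith) (by linarith)]; nlinarith
  · nlinarith

/-- positive part and the Laplacian -/
lemma lap_posPart_ge (g : Site d → ℝ) (x : Site d) (h : 0 ≤ g x) :
    lap g x ≤ lap (fun y => max (g y) 0) x := by
  unfold lap
  beta_reduce
  rw [max_eq_left h]
  have : ∑ e : Dir d, g (x + vec e) ≤ ∑ e : Dir d, max (g (x + vec e)) 0 :=
    Finset.sum_le_sum fun e _ => le_max_left _ _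
  have h2 : (∑ e : Dir d, g (x + vec e)) / (2 * d) ≤ (∑ e : Dir d, max (g (x + vec e)) 0) / (2 * d) :=
    div_le_div_of_nonneg_right this (by positivity)
  linarith

lemma lap_posPart_eq (g : Site d → ℝ) (x : Site d) (h : g x ≤ 0) :
    lap (fun y => max (g y) 0) x = (∑ e : Dir d, max (g (x + vec e)) 0) / (2 * d) := by
  unfold lap
  beta_reduce
  rw [max_eq_right h, sub_zero]

lemma lap_posPart_nonneg (g : Site d → ℝ) (x : Site d) (h : 0 ≤ lap g x) :
    0 ≤ lap (fun y => max (g y) 0) x := by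
  rcases le_total 0 (g x) with h1 | h1
  · exact h.trans (lap_posPart_ge g x h1)
  · rw [lap_posPart_eq g x h1]
    have : 0 ≤ ∑ e : Dir d, max (g (x + vec e)) 0 := Finset.sum_nonneg fun e _ => le_max_right _ _
    positivity

/-- value of the Green function at the origin, lower bound -/
lemma green_zero_ge (d : ℕ) (hd : 3 ≤ d) : ∃ c, 0 < c ∧ ∀ (v : EuclideanSpace ℝ (Fin d)), 1 ≤ ‖v‖ →
    c * ‖v‖ ^ (-((d : ℝ) - 1)) ≤ green 64 (‖v‖ + 1) v 0 := by
  have hγ := gam_pos hd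
  have hd3 : (3 : ℝ) ≤ d := by exact_mod_cast hd
  refine ⟨2 * gam d * 68 ^ (-(d : ℝ) / 2), by positivity, ?_⟩
  intro v hv
  have hv0 : 0 < ‖v‖ := by linarith
  set ρ := ‖v‖ with hρ
  have hR0 : 0 < ρ + 1 := by linarith
  rw [green_eq (by norm_num) hv0 hR0]
  have e0 : -((d : ℝ) - 2) / 2 = -gam d := by unfold gam; ring
  have eX : gX 64 v 0 = ρ ^ 2 + 64 := by unfold gX; rw [toE_zero, zero_sub, norm_neg]
  have eY : gY 64 (ρ + 1) v 0 = (ρ + 1) ^ 2 + 64 := by
    unfold gY; rw [toE_zero, zero_sub, norm_neg, norm_zero, ← hρ]; field_simp; ring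
  rw [e0, eX, eY]
  set X := ρ ^ 2 + 64 with hX
  set Y := (ρ + 1) ^ 2 + 64 with hY
  have hX0 : 0 < X := by positivity
  have hY0 : 0 < Y := by positivity
  -- tangent inequality at Y
  have h1 : gam d * Y ^ (-gam d - 1) * (Y - X) ≤ X ^ (-gam d) - Y ^ (-gam d) := by
    set z := X / Y with hz
    have hz0 : 0 < z := by positivity
    have h1 : z ^ (-gam d) = Real.exp (-gam d * Real.log z) := by
      rw [Real.rpow_def_of_pos hz0, mul_comm]
    have h2 := Real.add_one_le_exp (-gam d * Real.log z)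
    have h3 := Real.log_le_sub_one_of_pos hz0
    have h4 : 1 - gam d * (z - 1) ≤ z ^ (-gam d) := by
      rw [h1]; nlinarith
    have e1 : X ^ (-gam d) = Y ^ (-gam d) * z ^ (-gam d) := by
      rw [← Real.mul_rpow hY0.le hz0.le, hz, mul_div_cancel₀ _ hY0.ne']
    have e2 : Y ^ (-gam d) = Y ^ (-gam d - 1) * Y := by
      rw [← Real.rpow_add_one hY0.ne']; congr 1; ring
    have e3 : Y - X = -(Y * (z - 1)) := by rw [hz]; field_simp; ring
    have hYp : 0 < Y ^ (-gam d) := by positivity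
    rw [e1, e3]
    have h5 := mul_le_mul_of_nonneg_left h4 hYp.le
    calc gam d * Y ^ (-gam d - 1) * -(Y * (z - 1)) = Y ^ (-gam d) * (1 - gam d * (z - 1)) - Y ^ (-gam d) := by
          rw [e2]; ring
      _ ≤ _ := by linarith
  refine le_trans ?_ h1
  have e4 : -gam d - 1 = -(d : ℝ) / 2 := by unfold gam; ring
  rw [e4]
  have hYle : Y ≤ 68 * ρ ^ 2 := by rw [hY]; nlinarith
  have h5 : 68 ^ (-(d : ℝ) / 2) * ρ ^ (-(d : ℝ)) ≤ Y ^ (-(d : ℝ) / 2) := by
    calc 68 ^ (-(d : ℝ) / 2) * ρ ^ (-(d : ℝ)) = (68 * ρ ^ 2) ^ (-(d : ℝ) / 2) := by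
          rw [Real.mul_rpow (by norm_num) (by positivity), ← Real.rpow_natCast ρ 2,
            ← Real.rpow_mul hv0.le]
          congr 2; push_cast; ring
      _ ≤ Y ^ (-(d : ℝ) / 2) := Real.rpow_le_rpow_of_nonpos hY0 hYle (by linarith)
  have h6 : 2 * ρ ≤ Y - X := by rw [hX, hY]; nlinarith
  have e5 : ρ ^ (-((d : ℝ) - 1)) = ρ ^ (-(d : ℝ)) * ρ := by
    rw [← Real.rpow_add_one hv0.ne']; congr 1; ring
  rw [e5]
  calc 2 * gam d * 68 ^ (-(d : ℝ) / 2) * (ρ ^ (-(d : ℝ)) * ρ)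
      = gam d * (68 ^ (-(d : ℝ) / 2) * ρ ^ (-(d : ℝ))) * (2 * ρ) := by ring
    _ ≤ gam d * Y ^ (-(d : ℝ) / 2) * (Y - X) := by gcongr

/-- sum of the Green function over the ball -/
lemma sum_green_le (d : ℕ) (hd : 3 ≤ d) : ∃ C, 0 ≤ C ∧ ∀ (v : EuclideanSpace ℝ (Fin d)), 1 ≤ ‖v‖ →
    ∑ x ∈ ballF (0 : EuclideanSpace ℝ (Fin d)) (‖v‖ + 1), green 64 (‖v‖ + 1) v x
      ≤ (ballF (0 : EuclideanSpace ℝ (Fin d)) ‖v‖).card * green 64 (‖v‖ + 1) v 0
        + C * (1 + Real.log ‖v‖) := by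
  obtain ⟨K1, hK1, h1⟩ := mv_green d hd 64 le_rfl
  obtain ⟨K2, hK2, h2⟩ := green_le_dipole d hd 64 (by norm_num)
  obtain ⟨K3, hK3, h3⟩ := sum_layer_log d (by omega)
  have hd3 : (3 : ℝ) ≤ d := by exact_mod_cast hd
  have hdm : ((d - 1 : ℕ) : ℝ) = (d : ℝ) - 1 := by
    rw [Nat.cast_sub (by omega)]; simp
  rw [hdm] at h3
  refine ⟨2 * K1 + 2 * K2 * K3, by positivity, ?_⟩
  intro v hv
  have hv0 : 0 < ‖v‖ := by linarith
  set ρ := ‖v‖ with hρ
  set f := green 64 (ρ + 1) v with hf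
  have hlog : 0 ≤ Real.log ρ := Real.log_nonneg hv
  have hmv := (abs_le.1 (h1 ρ (ρ + 1) v hv (by linarith) le_rfl hv0 (by linarith))).2
  rw [Finset.sum_sub_distrib, Finset.sum_const, nsmul_eq_mul] at hmv
  have e1 : K1 * (ρ + 1 - ‖v‖ + 1) = 2 * K1 := by rw [← hρ]; ring
  rw [e1] at hmv
  -- split the larger ball
  have hsplit : ∑ x ∈ ballF (0 : EuclideanSpace ℝ (Fin d)) (ρ + 1), f x
      ≤ ∑ x ∈ ballF (0 : EuclideanSpace ℝ (Fin d)) ρ, f x
        + ∑ x ∈ layer d ρ, 2 * K2 * wt ((d : ℝ) - 1) v x := by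
    classical
    have hsub : ballF (0 : EuclideanSpace ℝ (Fin d)) ρ ⊆ ballF (0 : EuclideanSpace ℝ (Fin d)) (ρ + 1) := by
      intro x hx
      rw [mem_ballF] at hx ⊢
      linarith
    rw [← Finset.sum_sdiff hsub, add_comm]
    refine add_le_add le_rfl ?_
    calc ∑ x ∈ ballF (0 : EuclideanSpace ℝ (Fin d)) (ρ + 1) \ ballF 0 ρ, f x
        ≤ ∑ x ∈ ballF (0 : EuclideanSpace ℝ (Fin d)) (ρ + 1) \ ballF 0 ρ,
            2 * K2 * wt ((d : ℝ) - 1) v x := by
          refine Finset.sum_le_sum fun x hx => ?_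
          rw [Finset.mem_sdiff, mem_ballF, mem_ballF, sub_zero] at hx
          have := h2 (ρ + 1) v x hv0 (by linarith) hx.1.le
          have e4 : ρ + 1 - ‖v‖ + 1 = 2 := by rw [← hρ]; ring
          rw [e4] at this
          have h5 := X_le_wt (a := (d : ℝ) - 1) (by linarith) v x
          calc f x ≤ K2 * 2 * (gX 64 v x) ^ (-((d : ℝ) - 1) / 2) := this
            _ ≤ K2 * 2 * wt ((d : ℝ) - 1) v x := by gcongr
            _ = _ := by ring
      _ ≤ ∑ x ∈ layer d ρ, 2 * K2 * wt ((d : ℝ) - 1) v x := by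
          apply Finset.sum_le_sum_of_subset_of_nonneg
          · intro x hx
            rw [Finset.mem_sdiff, mem_ballF, mem_ballF, sub_zero] at hx
            rw [mem_layer]
            exact ⟨by linarith [hx.2], by linarith [hx.1]⟩
          · intro x _ _
            have := wt_nonneg ((d : ℝ) - 1) v x
            positivity
  rw [← Finset.mul_sum] at hsplit
  have h6 := mul_le_mul_of_nonneg_left (h3 ρ v hv) (by positivity : 0 ≤ 2 * K2)
  nlinarith

end BIDLA
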