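import Mathlib
import Pool.Agent.Work.MP_1354f0_pr.Defs
import Pool.Agent.Work.MP_1354f0_pr.InnerC

/-!
The one-step exponential inequality for the offspring law.
-/

namespace BIDLA

open Real Finset
open scoped ENNReal

lemma pow_sub_le {s : ℝ} (hs : 0 ≤ s) (k : ℕ) :
    s ^ k - 1 - k * (s - 1) ≤ (k : ℝ) ^ 2 * (s - 1) ^ 2 * (max 1 s) ^ k := by
  have hM1 : 1 ≤ max 1 s := le_max_left _ _
  have hMs : s ≤ max 1 s := le_max_right _ _
  set M := max 1 s with hM
  induction k with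
  | zero => simp
  | succ k ih =>
    have e : s ^ (k + 1) - 1 - ((k + 1 : ℕ) : ℝ) * (s - 1)
        = s * (s ^ k - 1 - k * (s - 1)) + k * (s - 1) ^ 2 := by
      push_cast; ring
    have hMk : 1 ≤ M ^ k := one_le_pow₀ hM1
    have hMk1 : 1 ≤ M ^ (k + 1) := one_le_pow₀ hM1
    have hsq : 0 ≤ (s - 1) ^ 2 := sq_nonneg _
    have h1 : s * (s ^ k - 1 - k * (s - 1)) ≤ (k : ℝ) ^ 2 * (s - 1) ^ 2 * M ^ (k + 1) := by
      calc s * (s ^ k - 1 - k * (s - 1)) ≤ s * ((k : ℝ) ^ 2 * (s - 1) ^ 2 * M ^ k) :=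
            mul_le_mul_of_nonneg_left ih hs
        _ ≤ M * ((k : ℝ) ^ 2 * (s - 1) ^ 2 * M ^ k) :=
            mul_le_mul_of_nonneg_right hMs (by positivity)
        _ = _ := by rw [pow_succ]; ring
    have h2 : k * (s - 1) ^ 2 ≤ k * (s - 1) ^ 2 * M ^ (k + 1) :=
      le_mul_of_one_le_right (by positivity) hMk1
    have h3 : (0:ℝ) ≤ (s - 1) ^ 2 * M ^ (k + 1) := by positivity
    have hk : (0:ℝ) ≤ k := Nat.cast_nonneg k
    rw [e]
    push_cast
    nlinarith [mul_nonneg hk h3]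

lemma pmf_summable (ν : PMF ℕ) : Summable fun k => (ν k).toReal :=
  ENNReal.summable_toReal ν.tsum_coe_ne_top

lemma pmf_tsum (ν : PMF ℕ) : ∑' k, (ν k).toReal = 1 := by
  rw [← ENNReal.tsum_toReal_eq (fun k => ν.apply_ne_top k), ν.tsum_coe, ENNReal.toReal_one]

/-- generating function bound -/
lemma phi_le (ν : PMF ℕ) (H : HypH ν) : ∃ C κ : ℝ, 0 ≤ C ∧ 0 < κ ∧ κ ≤ 1 / 2 ∧
    ∀ s : ℝ, |s - 1| ≤ κ → (Summable fun k : ℕ => (ν k).toReal * s ^ k) ∧
      ∑' k : ℕ, (ν k).toReal * s ^ k ≤ 1 + (s - 1) + C * (s - 1) ^ 2 := by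
  obtain ⟨l, hl, hS⟩ := H.exp_moment
  set S := ∑' k : ℕ, Real.exp (l * k) * (ν k).toReal with hSd
  have hS0 : 0 ≤ S := tsum_nonneg fun k => by positivity
  have hκ : (0:ℝ) < min (1 / 2) (l / 2) := lt_min (by norm_num) (by positivity)
  refine ⟨8 / l ^ 2 * S, min (1 / 2) (l / 2), by positivity, hκ, min_le_left _ _, ?_⟩
  intro s hs
  have hs2 := abs_le.1 hs
  have hk1 : min (1 / 2) (l / 2) ≤ (1 / 2 : ℝ) := min_le_left _ _
  have hk2 : min (1 / 2) (l / 2) ≤ l / 2 := min_le_right _ _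
  have hs0 : 0 ≤ s := by linarith [hs2.1]
  have hM : max 1 s ≤ Real.exp (l / 2) := by
    have := Real.add_one_le_exp (l / 2)
    apply max_le
    · linarith
    · linarith [hs2.2]
  have hM0 : 0 ≤ max 1 s := le_trans zero_le_one (le_max_left _ _)
  have hb : ∀ k : ℕ, (k : ℝ) ^ 2 * (max 1 s) ^ k ≤ 8 / l ^ 2 * Real.exp (l * k) := by
    intro k
    have hk0 : (0:ℝ) ≤ k := Nat.cast_nonneg k
    have h1 := Real.quadratic_le_exp_of_nonneg (x := l / 2 * k) (by positivity)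
    have h2 : (k : ℝ) ^ 2 ≤ 8 / l ^ 2 * Real.exp (l / 2 * k) := by
      have h3 : (l / 2 * k) ^ 2 / 2 ≤ Real.exp (l / 2 * k) := by
        have : 0 ≤ l / 2 * k := by positivity
        linarith
      have h4 : (k : ℝ) ^ 2 = 8 / l ^ 2 * ((l / 2 * k) ^ 2 / 2) := by field_simp; norm_num
      rw [h4]
      exact mul_le_mul_of_nonneg_left h3 (by positivity)
    have h5 : (max 1 s) ^ k ≤ Real.exp (l / 2 * k) := by
      calc (max 1 s) ^ k ≤ (Real.exp (l / 2)) ^ k := pow_le_pow_left₀ hM0 hM k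
        _ = Real.exp (l / 2 * k) := by rw [← Real.exp_nat_mul]; congr 1; ring
    calc (k : ℝ) ^ 2 * (max 1 s) ^ k ≤ (8 / l ^ 2 * Real.exp (l / 2 * k)) * Real.exp (l / 2 * k) :=
          mul_le_mul h2 h5 (by positivity) (by positivity)
      _ = 8 / l ^ 2 * Real.exp (l * k) := by
          rw [mul_assoc, ← Real.exp_add]; congr 2; ring
  have hν0 : ∀ k, 0 ≤ (ν k).toReal := fun k => ENNReal.toReal_nonneg
  have hsum1 : Summable fun k : ℕ => (k : ℝ) * (ν k).toReal := by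
    refine Summable.of_nonneg_of_le (fun k => mul_nonneg (Nat.cast_nonneg k) (hν0 k)) ?_
      (hS.mul_left (1 / l))
    intro k
    have h1 := Real.add_one_le_exp (l * k)
    have h2 : (k : ℝ) ≤ 1 / l * Real.exp (l * k) := by
      rw [one_div, ← div_eq_inv_mul, le_div_iff₀ hl]; linarith
    calc (k : ℝ) * (ν k).toReal ≤ (1 / l * Real.exp (l * k)) * (ν k).toReal :=
          mul_le_mul_of_nonneg_right h2 (hν0 k)
      _ = _ := by ring
  have hsum2 : Summable fun k : ℕ => (k : ℝ) ^ 2 * (max 1 s) ^ k * (ν k).toReal := by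
    refine Summable.of_nonneg_of_le (fun k => by have := hν0 k; positivity) ?_ (hS.mul_left (8 / l ^ 2))
    intro k
    calc (k : ℝ) ^ 2 * (max 1 s) ^ k * (ν k).toReal
        ≤ (8 / l ^ 2 * Real.exp (l * k)) * (ν k).toReal :=
          mul_le_mul_of_nonneg_right (hb k) (hν0 k)
      _ = _ := by ring
  have hle2 : ∑' k : ℕ, (k : ℝ) ^ 2 * (max 1 s) ^ k * (ν k).toReal ≤ 8 / l ^ 2 * S := by
    rw [hSd, ← tsum_mul_left]
    refine hsum2.tsum_le_tsum (fun k => ?_) (hS.mul_left _)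
    calc (k : ℝ) ^ 2 * (max 1 s) ^ k * (ν k).toReal
        ≤ (8 / l ^ 2 * Real.exp (l * k)) * (ν k).toReal :=
          mul_le_mul_of_nonneg_right (hb k) (hν0 k)
      _ = _ := by ring
  have hbound : ∀ k : ℕ, (ν k).toReal * s ^ k ≤ (ν k).toReal + (s - 1) * ((k : ℝ) * (ν k).toReal)
      + (s - 1) ^ 2 * ((k : ℝ) ^ 2 * (max 1 s) ^ k * (ν k).toReal) := by
    intro k
    have h1 := mul_le_mul_of_nonneg_left (pow_sub_le hs0 k) (hν0 k)
    nlinarith
  have hsumR : Summable fun k : ℕ => (ν k).toReal + (s - 1) * ((k : ℝ) * (ν k).toReal)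
      + (s - 1) ^ 2 * ((k : ℝ) ^ 2 * (max 1 s) ^ k * (ν k).toReal) :=
    ((pmf_summable ν).add (hsum1.mul_left _)).add (hsum2.mul_left _)
  have hsumL : Summable fun k : ℕ => (ν k).toReal * s ^ k :=
    Summable.of_nonneg_of_le (fun k => by have := hν0 k; positivity) hbound hsumR
  refine ⟨hsumL, ?_⟩
  calc ∑' k : ℕ, (ν k).toReal * s ^ k
      ≤ ∑' k : ℕ, ((ν k).toReal + (s - 1) * ((k : ℝ) * (ν k).toReal)
        + (s - 1) ^ 2 * ((k : ℝ) ^ 2 * (max 1 s) ^ k * (ν k).toReal)) :=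
        hsumL.tsum_le_tsum hbound hsumR
    _ = 1 + (s - 1) + (s - 1) ^ 2 * ∑' k : ℕ, (k : ℝ) ^ 2 * (max 1 s) ^ k * (ν k).toReal := by
        rw [Summable.tsum_add ((pmf_summable ν).add (hsum1.mul_left _)) (hsum2.mul_left _),
          Summable.tsum_add (pmf_summable ν) (hsum1.mul_left _), tsum_mul_left, tsum_mul_left,
          pmf_tsum, H.mean_one, mul_one]
    _ ≤ 1 + (s - 1) + 8 / l ^ 2 * S * (s - 1) ^ 2 := by
        have := mul_le_mul_of_nonneg_left hle2 (sq_nonneg (s - 1))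
        linarith

variable {d : ℕ}

/-- probability weight of a list of steps -/
noncomputable def lw (ν : PMF ℕ) (d : ℕ) (w : List (Dir d)) : ℝ≥0∞ :=
  ν w.length / (2 * d) ^ w.length

/-- generating functional of the list of steps -/
lemma tsum_list (ν : PMF ℕ) (hd : 1 ≤ d) (h : Dir d → ℝ≥0∞) :
    ∑' w : List (Dir d), lw ν d w * (w.map h).prod
      = ∑' n : ℕ, ν n * ((∑ e, h e) / (2 * d)) ^ n := by
  rw [← (List.equivSigmaTuple (α := Dir d)).symm.tsum_eq, ENNReal.tsum_sigma']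
  refine tsum_congr fun n => ?_
  have e1 : ∀ u : Fin n → Dir d, lw ν d ((List.equivSigmaTuple (α := Dir d)).symm ⟨n, u⟩) *
      (((List.equivSigmaTuple (α := Dir d)).symm ⟨n, u⟩).map h).prod
      = ν n / (2 * d) ^ n * ∏ i, h (u i) := by
    intro u
    have : (List.equivSigmaTuple (α := Dir d)).symm ⟨n, u⟩ = List.ofFn u := rfl
    rw [this, lw, List.length_ofFn, List.map_ofFn, List.prod_ofFn]
    rfl
  rw [tsum_congr e1, tsum_fintype, ← Finset.mul_sum]
  have e2 : ∑ u : Fin n → Dir d, ∏ i, h (u i) = (∑ e, h e) ^ n := by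
    rw [Fintype.sum_pow]
  rw [e2, ENNReal.div_eq_inv_mul, ENNReal.div_eq_inv_mul, mul_pow _ (∑ e, h e), ← ENNReal.inv_pow]
  ring

lemma ofReal_list_prod (g : Dir d → ℝ) (w : List (Dir d)) :
    (w.map fun e => ENNReal.ofReal (Real.exp (g e))).prod
      = ENNReal.ofReal (Real.exp (w.map g).sum) := by
  induction w with
  | nil => simp
  | cons a w ih =>
    rw [List.map_cons, List.prod_cons, ih, List.map_cons, List.sum_cons, Real.exp_add,
      ENNReal.ofReal_mul (Real.exp_pos _).le]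

/-- One-step exponential inequality. -/
theorem mgf_le (ν : PMF ℕ) (H : HypH ν) : ∃ C κ : ℝ, 0 ≤ C ∧ 0 < κ ∧
    ∀ (d : ℕ), 1 ≤ d → ∀ (g : Dir d → ℝ) (m2 : ℝ), (∀ e, |g e| ≤ κ) → (∀ e, g e ^ 2 ≤ m2) →
      ∑' w : List (Dir d), lw ν d w * ENNReal.ofReal (Real.exp (w.map g).sum)
        ≤ ENNReal.ofReal (Real.exp ((∑ e, g e) / (2 * d) + C * m2)) := by
  obtain ⟨C, κ, hC, hκ, hκ2, h⟩ := phi_le ν H
  refine ⟨1 + 4 * C, κ / 2, by positivity, by positivity, ?_⟩
  intro d hd g m2 hg hm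
  have hd0 : (0 : ℝ) < d := by positivity
  haveI : Nonempty (Dir d) := ⟨(⟨0, hd⟩, true)⟩
  have hm0 : 0 ≤ m2 := (sq_nonneg _).trans (hm (Classical.arbitrary _))
  have hcard : ((Finset.univ : Finset (Dir d)).card : ℝ) = 2 * d := by
    rw [Finset.card_univ, card_dir]; push_cast; ring
  -- bounds on each exponential
  have hg1 : ∀ e, |g e| ≤ 1 := fun e => (hg e).trans (by linarith)
  have he : ∀ e, |Real.exp (g e) - 1 - g e| ≤ g e ^ 2 := fun e => Real.abs_exp_sub_one_sub_id_le (hg1 e)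
  have he2 : ∀ e, |Real.exp (g e) - 1| ≤ 2 * |g e| := by
    intro e
    have h1 : |Real.exp (g e) - 1| ≤ |Real.exp (g e) - 1 - g e| + |g e| := by
      have := abs_add_le (Real.exp (g e) - 1 - g e) (g e)
      rwa [sub_add_cancel] at this
    have h2 : g e ^ 2 ≤ |g e| := by
      rw [← sq_abs]; nlinarith [abs_nonneg (g e), hg1 e]
    linarith [he e]
  have hgm : ∀ e, |g e| ≤ √m2 := fun e => Real.abs_le_sqrt (hm e)
  set s : ℝ := (∑ e, Real.exp (g e)) / (2 * d) with hs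
  have hs1 : s - 1 = (∑ e, (Real.exp (g e) - 1)) / (2 * d) := by
    rw [Finset.sum_sub_distrib, Finset.sum_const, nsmul_eq_mul, mul_one, hcard, sub_div,
      div_self (by positivity)]
  have hsabs : ∀ B : ℝ, (∀ e, |g e| ≤ B) → |s - 1| ≤ 2 * B := by
    intro B hB
    rw [hs1, abs_div, abs_of_pos (by positivity : (0:ℝ) < 2 * d), div_le_iff₀ (by positivity)]
    calc |∑ e, (Real.exp (g e) - 1)| ≤ ∑ e, |Real.exp (g e) - 1| := Finset.abs_sum_le_sum_abs _ _
      _ ≤ ∑ _e : Dir d, 2 * B := Finset.sum_le_sum fun e _ => (he2 e).trans (by linarith [hB e])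
      _ = 2 * B * (2 * d) := by rw [Finset.sum_const, nsmul_eq_mul, hcard]; ring
  have hsκ : |s - 1| ≤ κ := by
    have := hsabs (κ / 2) hg
    linarith
  have hsq : (s - 1) ^ 2 ≤ 4 * m2 := by
    have h1 := hsabs (√m2) hgm
    have h2 : (s - 1) ^ 2 ≤ (2 * √m2) ^ 2 := by
      rw [← sq_abs]; exact pow_le_pow_left₀ (abs_nonneg _) h1 2
    rwa [mul_pow, Real.sq_sqrt hm0, show (2:ℝ) ^ 2 = 4 by norm_num] at h2
  have hsle : s - 1 ≤ (∑ e, g e) / (2 * d) + m2 := by
    rw [hs1]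
    have h1 : ∑ e, (Real.exp (g e) - 1) ≤ ∑ e, (g e + m2) := by
      refine Finset.sum_le_sum fun e _ => ?_
      have := (abs_le.1 (he e)).2
      linarith [hm e]
    rw [Finset.sum_add_distrib, Finset.sum_const, nsmul_eq_mul, hcard] at h1
    calc (∑ e, (Real.exp (g e) - 1)) / (2 * d) ≤ ((∑ e, g e) + 2 * d * m2) / (2 * d) :=
          div_le_div_of_nonneg_right h1 (by positivity)
      _ = _ := by field_simp
  obtain ⟨hsum, hle⟩ := h s hsκ
  have hs0 : 0 ≤ s := by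
    rw [hs]; positivity
  -- compute
  have e1 : ∑' w : List (Dir d), lw ν d w * ENNReal.ofReal (Real.exp (w.map g).sum)
      = ENNReal.ofReal (∑' n : ℕ, (ν n).toReal * s ^ n) := by
    rw [ENNReal.ofReal_tsum_of_nonneg (fun n => by positivity) hsum]
    have := tsum_list ν hd (fun e => ENNReal.ofReal (Real.exp (g e)))
    simp_rw [ofReal_list_prod] at this
    rw [this]
    refine tsum_congr fun n => ?_
    have e2 : (∑ e, ENNReal.ofReal (Real.exp (g e))) / (2 * d) = ENNReal.ofReal s := by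
      rw [hs, ENNReal.ofReal_div_of_pos (by positivity), ← ENNReal.ofReal_sum_of_nonneg
        (fun e _ => (Real.exp_pos _).le)]
      congr 1
      rw [ENNReal.ofReal_mul (by norm_num)]
      simp
    rw [e2, ENNReal.ofReal_mul ENNReal.toReal_nonneg, ENNReal.ofReal_pow hs0,
      ENNReal.ofReal_toReal (ν.apply_ne_top n)]
  rw [e1]
  apply ENNReal.ofReal_le_ofReal
  refine hle.trans ?_
  have h1 : C * (s - 1) ^ 2 ≤ 4 * C * m2 := by
    have := mul_le_mul_of_nonneg_left hsq hC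
    linarith
  have h2 := Real.add_one_le_exp ((∑ e, g e) / (2 * d) + (1 + 4 * C) * m2)
  linarith

end BIDLA
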