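import Mathlib
import Pool.Agent.Work.MP_1354f0_pr.Evol
import Pool.Agent.Work.MP_1354f0_pr.OneStep

/-!
Exponential supermartingales of the particle system, stopped at the end of the `t`-th BRW.
-/

namespace BIDLA

open MeasureTheory
open scoped ENNReal

variable {d : ℕ}

/-- generating functional of the children of a particle at `v` -/
noncomputable def gen (ν : PMF ℕ) (f : Site d → ℝ) (v : Site d) : ℝ≥0∞ :=
  ∑' w : List (Dir d), lw ν d w * ENNReal.ofReal (Real.exp ((w.map fun e => f (v + vec e)).sum))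

lemma measurable_sub_add {Ω : Type*} (m : MeasurableSpace Ω) {a b c : Ω → ℝ} (ha : Measurable a)
    (hb : Measurable b) (hc : Measurable c) : Measurable fun ω => a ω - b ω + c ω :=
  (ha.sub hb).add hc

lemma measurable_add_sub {Ω : Type*} (m : MeasurableSpace Ω) {a b c : Ω → ℝ} (ha : Measurable a)
    (hb : Measurable b) (hc : Measurable c) : Measurable fun ω => a ω + b ω - c ω :=
  (ha.add hb).sub hc

lemma measurable_ofReal_exp {Ω : Type*} (m : MeasurableSpace Ω) {a : Ω → ℝ} (ha : Measurable a) :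
    Measurable fun ω => ENNReal.ofReal (Real.exp (a ω)) :=
  ENNReal.measurable_ofReal.comp (Real.measurable_exp.comp ha)

variable {ν : PMF ℕ} {Ω : Type*} [MeasurableSpace Ω] {P : Measure Ω} (X : Process d ν P)

namespace Process

/-- exponent -/
noncomputable def Phi (f c : Site d → ℝ) (n : ℕ) (ω : Ω) : ℝ :=
  mass f (X.state n ω) - X.L n ω * f 0 + ∑ j ∈ Finset.range n, c (X.site j ω)

lemma Phi_zero (f c : Site d → ℝ) (ω : Ω) : X.Phi f c 0 ω = f 0 := by
  unfold Phi mass
  rw [X.start, X.L_zero]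
  simp

lemma Phi_succ (f c : Site d → ℝ) (n : ℕ) (ω : Ω) :
    X.Phi f c (n + 1) ω = (X.Phi f c n ω + c (X.site n ω) - f (X.site n ω))
      + ((X.offs n ω).map fun e => f (X.site n ω + vec e)).sum := by
  unfold Phi
  rw [X.mass_succ, X.L_succ, Finset.sum_range_succ]
  by_cases h : X.Idle ω n
  · simp only [h, if_true]; push_cast; ring
  · simp only [h, if_false]; push_cast; ring

lemma measurable_comp_site (c : Site d → ℝ) {m n : ℕ} (h : m ≤ n) :
    Measurable[X.ℱ n] (fun ω => c (X.site m ω)) :=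
  (measurable_of_countable c).comp (X.measurable_site h)

lemma measurable_Phi (f c : Site d → ℝ) {m n : ℕ} (h : m ≤ n) :
    Measurable[X.ℱ n] (X.Phi f c m) := by
  have h1 : Measurable[X.ℱ n] (fun ω => mass f (X.state m ω)) :=
    (measurable_from_top (f := fun s : State d => mass f s)).comp (X.measurable_state h)
  have h2 : Measurable[X.ℱ n] (fun ω => (X.L m ω : ℝ) * f 0) :=
    (measurable_from_top (f := fun k : ℕ => (k : ℝ) * f 0)).comp (X.measurable_L h)
  have h3 : Measurable[X.ℱ n] (fun ω => ∑ j ∈ Finset.range m, c (X.site j ω)) := by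
    refine @Finset.measurable_sum _ _ _ _ _ _ (X.ℱ n) _ _ fun j hj => ?_
    rw [Finset.mem_range] at hj
    exact X.measurable_comp_site c (by omega)
  exact measurable_sub_add _ h1 h2 h3

/-- one step of the exponential process -/
lemma lintegral_Phi_succ (f c : Site d → ℝ) (n : ℕ) {E : Set Ω} (hE : MeasurableSet[X.ℱ n] E) :
    ∫⁻ ω in E, ENNReal.ofReal (Real.exp (X.Phi f c (n + 1) ω)) ∂P
      = ∫⁻ ω in E, ENNReal.ofReal (Real.exp (X.Phi f c n ω + c (X.site n ω) - f (X.site n ω)))
          * gen ν f (X.site n ω) ∂P := by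
  have hE' := X.le n _ hE
  rw [← lintegral_indicator hE', ← lintegral_indicator hE']
  set a : Ω → ℝ≥0∞ := fun ω => ENNReal.ofReal (Real.exp (X.Phi f c n ω + c (X.site n ω)
    - f (X.site n ω))) with ha
  have hma : Measurable[X.ℱ n] a := measurable_ofReal_exp _ (measurable_add_sub _
    (X.measurable_Phi f c le_rfl) (X.measurable_comp_site c le_rfl)
    (X.measurable_comp_site f le_rfl))
  have e1 : (E.indicator fun ω => ENNReal.ofReal (Real.exp (X.Phi f c (n + 1) ω)))
      = fun ω => (fun ω (w : List (Dir d)) => E.indicator a ω *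
        ENNReal.ofReal (Real.exp ((w.map fun e => f (X.site n ω + vec e)).sum))) ω (X.offs n ω) := by
    funext ω
    simp only [ha]
    by_cases h : ω ∈ E
    · rw [Set.indicator_of_mem h, Set.indicator_of_mem h, X.Phi_succ, Real.exp_add,
        ENNReal.ofReal_mul (Real.exp_pos _).le]
    · rw [Set.indicator_of_notMem h, Set.indicator_of_notMem h, zero_mul]
  rw [e1, X.lintegral_step]
  · refine lintegral_congr fun ω => ?_
    by_cases h : ω ∈ E
    · rw [Set.indicator_of_mem h, Set.indicator_of_mem h, gen, ← ENNReal.tsum_mul_left]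
      refine tsum_congr fun w => ?_
      rw [lw]; ring
    · rw [Set.indicator_of_notMem h, Set.indicator_of_notMem h]
      simp
  · intro w
    have h1 : Measurable[X.ℱ n] (E.indicator a) := hma.indicator hE
    have h2 : Measurable[X.ℱ n] fun ω =>
        ENNReal.ofReal (Real.exp ((w.map fun e => f (X.site n ω + vec e)).sum)) :=
      measurable_ofReal_exp _ (X.measurable_comp_site
        (fun v => (w.map fun e => f (v + vec e)).sum) le_rfl)
    exact h1.mul h2

/-- the process has not been stopped before time `n` -/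
def alive (S : ℕ → Set Ω) (n : ℕ) : Set Ω := {ω | ∀ j < n, ω ∉ S j}

/-- the sites of the first `n` rings are in `V` -/
def inV (V : Set (Site d)) (n : ℕ) : Set Ω := {ω | ∀ j < n, X.site j ω ∈ V}

omit [MeasurableSpace Ω] in
lemma alive_succ (S : ℕ → Set Ω) (n : ℕ) : alive S (n + 1) = alive S n ∩ (S n)ᶜ := by
  ext ω
  simp only [alive, Set.mem_ofPred_eq, Set.mem_inter_iff, Set.mem_compl_iff]
  constructor
  · intro h; exact ⟨fun j hj => h j (by omega), h n (by omega)⟩
  · rintro ⟨h1, h2⟩ j hj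
    rcases Nat.lt_succ_iff_lt_or_eq.1 hj with h | h
    · exact h1 j h
    · rw [h]; exact h2

lemma inV_succ (V : Set (Site d)) (n : ℕ) :
    X.inV V (n + 1) = X.inV V n ∩ {ω | X.site n ω ∈ V} := by
  ext ω
  simp only [inV, Set.mem_ofPred_eq, Set.mem_inter_iff]
  constructor
  · intro h; exact ⟨fun j hj => h j (by omega), h n (by omega)⟩
  · rintro ⟨h1, h2⟩ j hj
    rcases Nat.lt_succ_iff_lt_or_eq.1 hj with h | h
    · exact h1 j h
    · rw [h]; exact h2

lemma measurableSet_alive {S : ℕ → Set Ω} (hS : ∀ n, MeasurableSet[X.ℱ n] (S n)) {m n : ℕ}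
    (h : m ≤ n + 1) : MeasurableSet[X.ℱ n] (alive S m) := by
  induction m with
  | zero =>
    have : alive S 0 = Set.univ := by ext; simp [alive]
    rw [this]; exact @MeasurableSet.univ _ (X.ℱ n)
  | succ m ih =>
    rw [alive_succ]
    exact @MeasurableSet.inter _ (X.ℱ n) _ _ (ih (by omega))
      (@MeasurableSet.compl _ _ (X.ℱ n) (X.mono (by omega : m ≤ n) _ (hS m)))

lemma measurableSet_inV (V : Set (Site d)) {m n : ℕ} (h : m ≤ n + 1) :
    MeasurableSet[X.ℱ n] (X.inV V m) := by
  induction m with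
  | zero =>
    have : X.inV V 0 = Set.univ := by ext; simp [inV]
    rw [this]; exact @MeasurableSet.univ _ (X.ℱ n)
  | succ m ih =>
    rw [inV_succ]
    exact @MeasurableSet.inter _ (X.ℱ n) _ _ (ih (by omega))
      (X.measurable_site (by omega : m ≤ n) (Set.to_countable V).measurableSet)

end Process

/-- the step inequality at `v` -/
def StepLe (ν : PMF ℕ) (f c : Site d → ℝ) (v : Site d) : Prop :=
  gen ν f v ≤ ENNReal.ofReal (Real.exp (f v - c v))

namespace Process

/-- supermartingale property -/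
lemma lintegral_Phi_succ_le {f c : Site d → ℝ} {V : Set (Site d)} (hV : ∀ v ∈ V, StepLe ν f c v)
    (n : ℕ) {E : Set Ω} (hE : MeasurableSet[X.ℱ n] E) (hEV : ∀ ω ∈ E, X.site n ω ∈ V) :
    ∫⁻ ω in E, ENNReal.ofReal (Real.exp (X.Phi f c (n + 1) ω)) ∂P
      ≤ ∫⁻ ω in E, ENNReal.ofReal (Real.exp (X.Phi f c n ω)) ∂P := by
  rw [X.lintegral_Phi_succ f c n hE]
  refine setLIntegral_mono' (X.le n _ hE) fun ω hω => ?_
  have h1 := hV _ (hEV ω hω)
  unfold StepLe at h1
  calc ENNReal.ofReal (Real.exp (X.Phi f c n ω + c (X.site n ω) - f (X.site n ω)))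
        * gen ν f (X.site n ω)
      ≤ ENNReal.ofReal (Real.exp (X.Phi f c n ω + c (X.site n ω) - f (X.site n ω)))
        * ENNReal.ofReal (Real.exp (f (X.site n ω) - c (X.site n ω))) :=
        mul_le_mul_right h1 _
    _ = ENNReal.ofReal (Real.exp (X.Phi f c n ω)) := by
        rw [← ENNReal.ofReal_mul (Real.exp_pos _).le, ← Real.exp_add]
        congr 2; ring

/-- **Stopped exponential supermartingale**, finite horizon. -/
lemma stopped_le {f c : Site d → ℝ} {V : Set (Site d)} (hV : ∀ v ∈ V, StepLe ν f c v)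
    {S : ℕ → Set Ω} (hS : ∀ n, MeasurableSet[X.ℱ n] (S n)) (n : ℕ) :
    ∑ k ∈ Finset.range n, ∫⁻ ω in alive S k ∩ X.inV V k ∩ S k,
        ENNReal.ofReal (Real.exp (X.Phi f c k ω)) ∂P
      + ∫⁻ ω in alive S n ∩ X.inV V n, ENNReal.ofReal (Real.exp (X.Phi f c n ω)) ∂P
      ≤ ENNReal.ofReal (Real.exp (f 0)) * P Set.univ := by
  induction n with
  | zero =>
    have : alive S 0 ∩ X.inV V 0 = Set.univ := by ext; simp [inV, alive]
    rw [Finset.sum_range_zero, zero_add, this, Measure.restrict_univ]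
    simp_rw [X.Phi_zero]
    rw [lintegral_const]
  | succ n ih =>
    refine le_trans ?_ ih
    rw [Finset.sum_range_succ, add_assoc]
    refine add_le_add le_rfl ?_
    have hm1 : MeasurableSet[X.ℱ n] (alive S n ∩ X.inV V n) :=
      @MeasurableSet.inter _ (X.ℱ n) _ _ (X.measurableSet_alive hS (by omega))
        (X.measurableSet_inV V (by omega))
    have hm2 : MeasurableSet[X.ℱ n] (alive S (n + 1) ∩ X.inV V (n + 1)) :=
      @MeasurableSet.inter _ (X.ℱ n) _ _ (X.measurableSet_alive hS (by omega))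
        (X.measurableSet_inV V (by omega))
    have h1 := X.lintegral_Phi_succ_le (P := P) hV n hm2 (by
      rintro ω ⟨_, h⟩
      exact h n (by omega))
    have h2 : ∫⁻ ω in alive S (n + 1) ∩ X.inV V (n + 1), ENNReal.ofReal (Real.exp (X.Phi f c n ω)) ∂P
        ≤ ∫⁻ ω in (alive S n ∩ X.inV V n) ∩ (S n)ᶜ, ENNReal.ofReal (Real.exp (X.Phi f c n ω)) ∂P := by
      refine lintegral_mono_set ?_
      rw [alive_succ, inV_succ]
      rintro ω ⟨⟨h1, h2⟩, h3, h4⟩
      exact ⟨⟨h1, h3⟩, h2⟩
    calc _ ≤ ∫⁻ ω in alive S n ∩ X.inV V n ∩ S n, ENNReal.ofReal (Real.exp (X.Phi f c n ω)) ∂P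
          + ∫⁻ ω in (alive S n ∩ X.inV V n) ∩ (S n)ᶜ,
            ENNReal.ofReal (Real.exp (X.Phi f c n ω)) ∂P := add_le_add le_rfl (h1.trans h2)
      _ = _ := by
          rw [← Set.sdiff_eq, lintegral_inter_add_sdiff _ _ (X.le n _ (hS n))]

end Process

end BIDLA
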