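import Mathlib
import Pool.Agent.Work.MP_1354f0_pr.Super

/-!
The supermartingale bound at the end of the `t`-th BRW.
-/

namespace BIDLA

open MeasureTheory
open scoped ENNReal

variable {d : ℕ} {ν : PMF ℕ} {Ω : Type*} [MeasurableSpace Ω] {P : Measure Ω} (X : Process d ν P)

namespace Process

/-- `k` is the `t`-th idle time -/
def Done (t k : ℕ) : Set Ω := {ω | X.Idle ω k ∧ X.L k ω + 1 = t}

lemma measurableSet_done (t : ℕ) {m n : ℕ} (h : m ≤ n) : MeasurableSet[X.ℱ n] (X.Done t m) := by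
  have : X.Done t m = {ω | X.Idle ω m} ∩ X.L m ⁻¹' {k | k + 1 = t} := rfl
  rw [this]
  exact @MeasurableSet.inter _ (X.ℱ n) _ _ (X.measurableSet_idle h) (X.measurable_L h trivial)

lemma mem_alive_done {t : ℕ} (ht : 1 ≤ t) (n : ℕ) (ω : Ω) :
    ω ∈ alive (X.Done t) n ↔ X.L n ω < t := by
  induction n with
  | zero =>
    rw [X.L_zero]
    constructor
    · intro _; omega
    · intro _ j hj; omega
  | succ n ih =>
    rw [alive_succ, Set.mem_inter_iff, ih, X.L_succ]
    by_cases h : X.Idle ω n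
    · simp only [Set.mem_compl_iff, Done, Set.mem_ofPred_eq, h, true_and, if_true]
      omega
    · simp only [Set.mem_compl_iff, Done, Set.mem_ofPred_eq, h, false_and, if_false]
      simp

lemma alive_of_done {t k : ℕ} {ω : Ω} (h : ω ∈ X.Done t k) : ω ∈ alive (X.Done t) k := by
  have h2 := h.2
  rw [X.mem_alive_done (by omega)]
  omega

lemma done_unique {t k l : ℕ} {ω : Ω} (hk : ω ∈ X.Done t k) (hl : ω ∈ X.Done t l) : k = l := by
  rcases lt_trichotomy k l with h | h | h
  · exact absurd hk (X.alive_of_done hl k h)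
  · exact h
  · exact absurd hl (X.alive_of_done hk l h)

open Classical in
lemma A_of_done {t k : ℕ} {ω : Ω} (h : ω ∈ X.Done t k) : X.A t ω = (X.state k ω).agg := by
  unfold A
  have h1 : t - 1 = Nat.count (X.Idle ω) k := by
    have := h.2
    unfold L at this
    omega
  rw [h1, Nat.nth_count h.1]

lemma mass_done {M : Type*} [AddCommGroup M] (f : Site d → M) {t k : ℕ} {ω : Ω}
    (h : ω ∈ X.Done t k) : mass f (X.state k ω) = ∑ x ∈ X.A t ω, f x := by
  unfold mass
  have h1 : (X.state k ω).act = 0 := h.1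
  rw [h1, X.A_of_done h]
  simp

lemma Phi_done (f c : Site d → ℝ) {t k : ℕ} {ω : Ω} (h : ω ∈ X.Done t k) :
    X.Phi f c k ω = ∑ x ∈ X.A t ω, f x - (t : ℝ) * f 0 + ∑ j ∈ Finset.range k, c (X.site j ω)
      + f 0 := by
  unfold Phi
  rw [X.mass_done f h]
  have h2 : (t : ℝ) = X.L k ω + 1 := by
    rw [← h.2]; push_cast; ring
  rw [h2]; ring

/-- **Supermartingale bound at the end of the `t`-th BRW.** -/
theorem prob_le [IsProbabilityMeasure P] {f c : Site d → ℝ} {V : Set (Site d)}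
    (hV : ∀ v ∈ V, StepLe ν f c v) (t : ℕ) (a : ℝ) (E : Set Ω)
    (hE : ∀ ω ∈ E, ∃ k, ω ∈ X.Done t k ∧ (∀ j < k, X.site j ω ∈ V) ∧
      a ≤ ∑ x ∈ X.A t ω, f x - (t : ℝ) * f 0 + ∑ j ∈ Finset.range k, c (X.site j ω)) :
    P E ≤ ENNReal.ofReal (Real.exp (-a)) := by
  set F : ℕ → Set Ω := fun k => alive (X.Done t) k ∩ X.inV V k ∩ X.Done t k ∩
    {ω | a + f 0 ≤ X.Phi f c k ω} with hF
  have h1 : E ⊆ ⋃ k, F k := by
    intro ω hω
    obtain ⟨k, hk1, hk2, hk3⟩ := hE ω hω
    rw [Set.mem_iUnion]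
    refine ⟨k, ⟨⟨X.alive_of_done hk1, hk2⟩, hk1⟩, ?_⟩
    rw [Set.mem_ofPred_eq, X.Phi_done f c hk1]
    linarith
  have h2 : ∀ k, P (F k) ≤ ENNReal.ofReal (Real.exp (-(a + f 0))) *
      ∫⁻ ω in alive (X.Done t) k ∩ X.inV V k ∩ X.Done t k,
        ENNReal.ofReal (Real.exp (X.Phi f c k ω)) ∂P := by
    intro k
    have hm : MeasurableSet (F k) := by
      refine MeasurableSet.inter (MeasurableSet.inter (MeasurableSet.inter ?_ ?_) ?_) ?_
      · exact X.le k _ (X.measurableSet_alive (fun n => X.measurableSet_done t le_rfl) (by omega))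
      · exact X.le k _ (X.measurableSet_inV V (by omega))
      · exact X.le k _ (X.measurableSet_done t le_rfl)
      · exact measurableSet_le measurable_const ((X.measurable_Phi f c le_rfl).mono (X.le k) le_rfl)
    calc P (F k) = ∫⁻ _ω in F k, 1 ∂P := by rw [setLIntegral_one]
      _ ≤ ∫⁻ ω in F k, ENNReal.ofReal (Real.exp (-(a + f 0))) *
            ENNReal.ofReal (Real.exp (X.Phi f c k ω)) ∂P := by
          refine setLIntegral_mono' hm fun ω hω => ?_
          rw [← ENNReal.ofReal_mul (Real.exp_pos _).le, ← Real.exp_add]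
          rw [← ENNReal.ofReal_one]
          apply ENNReal.ofReal_le_ofReal
          rw [← Real.exp_zero]
          apply Real.exp_le_exp.2
          have := hω.2
          rw [Set.mem_ofPred_eq] at this
          linarith
      _ ≤ ∫⁻ ω in alive (X.Done t) k ∩ X.inV V k ∩ X.Done t k,
            ENNReal.ofReal (Real.exp (-(a + f 0))) * ENNReal.ofReal (Real.exp (X.Phi f c k ω)) ∂P :=
          lintegral_mono_set Set.inter_subset_left
      _ = _ := by
          rw [lintegral_const_mul']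
          exact ENNReal.ofReal_ne_top
  have h3 : ∑' k, ∫⁻ ω in alive (X.Done t) k ∩ X.inV V k ∩ X.Done t k,
      ENNReal.ofReal (Real.exp (X.Phi f c k ω)) ∂P ≤ ENNReal.ofReal (Real.exp (f 0)) := by
    refine ENNReal.tsum_le_of_sum_range_le fun n => ?_
    have := X.stopped_le (P := P) hV (fun n => X.measurableSet_done t le_rfl) n
    rw [measure_univ, mul_one] at this
    exact le_trans le_self_add this
  calc P E ≤ P (⋃ k, F k) := measure_mono h1
    _ ≤ ∑' k, P (F k) := measure_iUnion_le _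
    _ ≤ ∑' k, ENNReal.ofReal (Real.exp (-(a + f 0))) *
      ∫⁻ ω in alive (X.Done t) k ∩ X.inV V k ∩ X.Done t k,
        ENNReal.ofReal (Real.exp (X.Phi f c k ω)) ∂P := ENNReal.tsum_le_tsum h2
    _ ≤ ENNReal.ofReal (Real.exp (-(a + f 0))) * ENNReal.ofReal (Real.exp (f 0)) := by
        rw [ENNReal.tsum_mul_left]
        exact mul_le_mul_right h3 _
    _ = ENNReal.ofReal (Real.exp (-a)) := by
        rw [← ENNReal.ofReal_mul (Real.exp_pos _).le, ← Real.exp_add]
        congr 2; ring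

end Process

/-- The step inequality from a Laplacian estimate. -/
theorem stepLe_of_lap (ν : PMF ℕ) (H : HypH ν) : ∃ C κ : ℝ, 0 ≤ C ∧ 0 < κ ∧
    ∀ (d : ℕ), 1 ≤ d → ∀ (f c : Site d → ℝ) (v : Site d), (∀ e, |f (v + vec e)| ≤ κ) →
      (∀ e, lap f v + C * f (v + vec e) ^ 2 + c v ≤ 0) → StepLe ν f c v := by
  obtain ⟨C, κ, hC, hκ, h⟩ := mgf_le ν H
  refine ⟨C, κ, hC, hκ, ?_⟩
  intro d hd f c v h1 h2
  have : Nonempty (Dir d) := ⟨(⟨0, hd⟩, true)⟩
  obtain ⟨e0, he0⟩ := Finite.exists_max (fun e : Dir d => f (v + vec e) ^ 2)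
  unfold StepLe gen
  refine (h d hd (fun e => f (v + vec e)) (f (v + vec e0) ^ 2) h1 he0).trans ?_
  apply ENNReal.ofReal_le_ofReal
  apply Real.exp_le_exp.2
  have h3 := h2 e0
  have h4 : lap f v = (∑ e, f (v + vec e)) / (2 * d) - f v := by
    unfold lap; ring
  rw [h4] at h3
  linarith

end BIDLA
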