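import Mathlib
import Pool.Agent.Work.MP_1354f0_pr.SuperB

/-!
Crude bound on the number of rings before the end of the `t`-th BRW.
-/

namespace BIDLA

open MeasureTheory Filter
open scoped ENNReal

lemma pow_sub_ge {s : ℝ} (hs : 0 ≤ s) (k : ℕ) : 0 ≤ s ^ k - 1 - k * (s - 1) := by
  have := one_add_mul_le_pow (a := s - 1) (by linarith) k
  rw [add_sub_cancel] at this
  linarith

lemma pow_sub_ge' {s : ℝ} (hs : 0 ≤ s) {k : ℕ} (hk : 2 ≤ k) :
    (s - 1) ^ 2 ≤ s ^ k - 1 - k * (s - 1) := by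
  obtain ⟨j, rfl⟩ : ∃ j, k = j + 1 := ⟨k - 1, by omega⟩
  have e : s ^ (j + 1) - 1 - ((j + 1 : ℕ) : ℝ) * (s - 1)
      = s * (s ^ j - 1 - j * (s - 1)) + j * (s - 1) ^ 2 := by
    push_cast; ring
  rw [e]
  have h1 := mul_nonneg hs (pow_sub_ge hs j)
  have h2 : (1 : ℝ) ≤ j := by exact_mod_cast (by omega : 1 ≤ j)
  nlinarith [sq_nonneg (s - 1)]

lemma hyp_summable (ν : PMF ℕ) (H : HypH ν) : Summable fun k : ℕ => (k : ℝ) * (ν k).toReal := by
  obtain ⟨l, hl, hS⟩ := H.exp_moment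
  refine Summable.of_nonneg_of_le (fun k => mul_nonneg (Nat.cast_nonneg k) ENNReal.toReal_nonneg) ?_
    (hS.mul_left (1 / l))
  intro k
  have h1 := Real.add_one_le_exp (l * k)
  have h2 : (k : ℝ) ≤ 1 / l * Real.exp (l * k) := by
    rw [one_div, ← div_eq_inv_mul, le_div_iff₀ hl]; linarith
  calc (k : ℝ) * (ν k).toReal ≤ (1 / l * Real.exp (l * k)) * (ν k).toReal :=
        mul_le_mul_of_nonneg_right h2 ENNReal.toReal_nonneg
    _ = _ := by ring

/-- some `k ≥ 2` has positive mass -/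
lemma exists_two_le (ν : PMF ℕ) (H : HypH ν) : ∃ k, 2 ≤ k ∧ 0 < (ν k).toReal := by
  by_contra hcon
  push Not at hcon
  have h0 : ∀ k, 2 ≤ k → (ν k).toReal = 0 := fun k hk =>
    le_antisymm (hcon k hk) ENNReal.toReal_nonneg
  have h1 : ∀ k ∉ Finset.range 2, (k : ℝ) * (ν k).toReal = 0 := by
    intro k hk
    rw [Finset.mem_range, not_lt] at hk
    rw [h0 k hk, mul_zero]
  have h2 := H.mean_one
  rw [tsum_eq_sum h1] at h2
  have h3 : ∀ k ∉ Finset.range 2, (ν k).toReal = 0 := by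
    intro k hk
    rw [Finset.mem_range, not_lt] at hk
    exact h0 k hk
  have h4 := pmf_tsum ν
  rw [tsum_eq_sum h3] at h4
  have h5 : ∀ k ∉ Finset.range 2, ((k : ℝ) - 1) ^ 2 * (ν k).toReal = 0 := by
    intro k hk
    rw [Finset.mem_range, not_lt] at hk
    rw [h0 k hk, mul_zero]
  have h6 := H.var_pos
  rw [tsum_eq_sum h5] at h6
  simp [Finset.sum_range_succ] at h2 h4 h6
  rw [h2] at h4
  linarith

/-- lower bound for the generating function -/
lemma phi_ge (ν : PMF ℕ) (H : HypH ν) : ∃ c : ℝ, 0 < c ∧ ∀ θ : ℝ, 0 < θ → θ ≤ 1 →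
    Real.exp (-θ + c * θ ^ 2) ≤ ∑' k : ℕ, (ν k).toReal * (Real.exp (-θ)) ^ k := by
  obtain ⟨k0, hk0, hp⟩ := exists_two_le ν H
  set p := (ν k0).toReal with hpd
  have hp1 : p ≤ 1 := by
    rw [hpd, ← ENNReal.toReal_one]
    exact ENNReal.toReal_mono ENNReal.one_ne_top (ν.coe_le_one k0)
  refine ⟨p / 8, by positivity, ?_⟩
  intro θ hθ hθ1
  set s := Real.exp (-θ) with hs
  have hs0 : 0 < s := Real.exp_pos _
  have hs1 : s ≤ 1 := by rw [hs, ← Real.exp_zero]; exact Real.exp_le_exp.2 (by linarith)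
  have hν0 : ∀ k, 0 ≤ (ν k).toReal := fun k => ENNReal.toReal_nonneg
  have hsum0 := pmf_summable ν
  have hsum1 := hyp_summable ν H
  have hsumL : Summable fun k : ℕ => (ν k).toReal * s ^ k :=
    Summable.of_nonneg_of_le (fun k => by have := hν0 k; positivity)
      (fun k => mul_le_of_le_one_right (hν0 k) (pow_le_one₀ hs0.le hs1)) hsum0
  -- φ(s) - s = Σ ν(k) (s^k - 1 - k (s-1))
  have hsumD : Summable fun k : ℕ => (ν k).toReal * (s ^ k - 1 - k * (s - 1)) := by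
    have : (fun k : ℕ => (ν k).toReal * (s ^ k - 1 - k * (s - 1)))
        = fun k => ((ν k).toReal * s ^ k - (ν k).toReal) - (s - 1) * ((k : ℝ) * (ν k).toReal) := by
      funext k; ring
    rw [this]
    exact (hsumL.sub hsum0).sub (hsum1.mul_left _)
  have e1 : ∑' k : ℕ, (ν k).toReal * (s ^ k - 1 - k * (s - 1))
      = ∑' k : ℕ, (ν k).toReal * s ^ k - s := by
    have : (fun k : ℕ => (ν k).toReal * (s ^ k - 1 - k * (s - 1)))
        = fun k => ((ν k).toReal * s ^ k - (ν k).toReal) - (s - 1) * ((k : ℝ) * (ν k).toReal) := by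
      funext k; ring
    rw [this, Summable.tsum_sub (hsumL.sub hsum0) (hsum1.mul_left _), Summable.tsum_sub hsumL hsum0,
      tsum_mul_left, H.mean_one, pmf_tsum]
    ring
  have h1 : p * (s - 1) ^ 2 ≤ ∑' k : ℕ, (ν k).toReal * (s ^ k - 1 - k * (s - 1)) := by
    refine le_trans ?_ (hsumD.le_tsum k0 (fun k _ => mul_nonneg (hν0 k) (pow_sub_ge hs0.le k)))
    exact mul_le_mul_of_nonneg_left (pow_sub_ge' hs0.le hk0) hp.le
  have h2 : θ / 2 ≤ 1 - s := by
    -- e^{-θ} ≤ 1 - θ/2 for θ ≤ 1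
    have := Real.abs_exp_sub_one_sub_id_le (x := -θ) (by rw [abs_neg, abs_of_pos hθ]; exact hθ1)
    have h3 := (abs_le.1 this).2
    have := Real.exp_bound' (x := -θ)
    nlinarith [Real.add_one_le_exp θ, Real.exp_pos θ, Real.exp_neg θ, mul_inv_cancel₀ (Real.exp_pos θ).ne']
  have h3 : θ ^ 2 / 4 ≤ (s - 1) ^ 2 := by nlinarith
  have h4 : Real.exp (p / 8 * θ ^ 2) ≤ 1 + p / 4 * θ ^ 2 := by
    have hx : p / 8 * θ ^ 2 ≤ 1 := by nlinarith [sq_nonneg θ]
    have hx0 : 0 ≤ p / 8 * θ ^ 2 := by positivity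
    have := Real.abs_exp_sub_one_le (x := p / 8 * θ ^ 2) (by rw [abs_of_nonneg hx0]; exact hx)
    rw [abs_of_nonneg hx0] at this
    have := (abs_le.1 this).2
    linarith
  rw [Real.exp_add, ← hs]
  have h5 : s + p * (θ ^ 2 / 4) ≤ ∑' k : ℕ, (ν k).toReal * s ^ k := by
    have := mul_le_mul_of_nonneg_left h3 hp.le
    linarith
  have h6 : s * Real.exp (p / 8 * θ ^ 2) ≤ s * (1 + p / 4 * θ ^ 2) :=
    mul_le_mul_of_nonneg_left h4 hs0.le
  have h7 : s * (p / 4 * θ ^ 2) ≤ p / 4 * θ ^ 2 := mul_le_of_le_one_left (by positivity) hs1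
  linarith

end BIDLA
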