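import Mathlib
import Pool.Agent.Work.MP_1354f0_pr.Crude

/-!
Crude bound on the number of rings before the end of the `t`-th BRW.
-/

namespace BIDLA

open MeasureTheory Filter
open scoped ENNReal

variable {d : ℕ} {ν : PMF ℕ} {Ω : Type*} [MeasurableSpace Ω] {P : Measure Ω} (X : Process d ν P)

/-- generating functional for constant weights -/
lemma gen_const (ν : PMF ℕ) (hd : 1 ≤ d) (a : ℝ) (ha : a ≤ 0) (v : Site d) :
    gen ν (fun _ => a) v = ENNReal.ofReal (∑' k : ℕ, (ν k).toReal * (Real.exp a) ^ k) := by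
  have hd0 : (0 : ℝ) < d := by exact_mod_cast hd
  have hs0 : 0 < Real.exp a := Real.exp_pos _
  have hs1 : Real.exp a ≤ 1 := by rw [← Real.exp_zero]; exact Real.exp_le_exp.2 ha
  have hν0 : ∀ k, 0 ≤ (ν k).toReal := fun k => ENNReal.toReal_nonneg
  have hsumL : Summable fun k : ℕ => (ν k).toReal * (Real.exp a) ^ k :=
    Summable.of_nonneg_of_le (fun k => by have := hν0 k; positivity)
      (fun k => mul_le_of_le_one_right (hν0 k) (pow_le_one₀ hs0.le hs1)) (pmf_summable ν)
  unfold gen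
  rw [ENNReal.ofReal_tsum_of_nonneg (fun n => by have := hν0 n; positivity) hsumL]
  have := tsum_list ν hd (fun _ => ENNReal.ofReal (Real.exp a))
  have e0 : ∀ w : List (Dir d), (w.map fun _ => ENNReal.ofReal (Real.exp a)).prod
      = ENNReal.ofReal (Real.exp ((w.map fun _ => a).sum)) := fun w => ofReal_list_prod (fun _ => a) w
  simp_rw [e0] at this
  rw [this]
  refine tsum_congr fun n => ?_
  have e2 : (∑ _e : Dir d, ENNReal.ofReal (Real.exp a)) / (2 * d) = ENNReal.ofReal (Real.exp a) := by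
    rw [Finset.sum_const, Finset.card_univ, card_dir, nsmul_eq_mul]
    push_cast
    rw [mul_comm, mul_div_assoc, ENNReal.div_self, mul_one]
    · simp; omega
    · exact ENNReal.mul_ne_top (by simp) (by simp)
  rw [e2, ENNReal.ofReal_mul ENNReal.toReal_nonneg, ENNReal.ofReal_pow hs0.le,
    ENNReal.ofReal_toReal (ν.apply_ne_top n)]

lemma gen_zero (ν : PMF ℕ) (hd : 1 ≤ d) (v : Site d) : gen ν (fun _ => (0 : ℝ)) v = 1 := by
  rw [gen_const ν hd 0 le_rfl]
  simp [pmf_tsum]

/-- Borel-Cantelli -/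
lemma bc {E : ℕ → Set Ω} {u : ℕ → ℝ} (hu : Summable u) (t0 : ℕ)
    (h : ∀ t, t0 ≤ t → P (E t) ≤ ENNReal.ofReal (u t)) : ∀ᵐ ω ∂P, ∀ᶠ t in atTop, ω ∉ E t := by
  have h1 : ∑' t, P (E (t + t0)) ≠ ⊤ := by
    have h2 : Summable fun t => u (t + t0) := (summable_nat_add_iff t0).2 hu
    refine ne_top_of_le_ne_top h2.tsum_ofReal_ne_top (ENNReal.tsum_le_tsum fun t => ?_)
    exact h _ (by omega)
  filter_upwards [ae_eventually_notMem h1] with ω hω
  rw [eventually_atTop] at hω ⊢
  obtain ⟨T, hT⟩ := hω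
  refine ⟨T + t0, fun t ht => ?_⟩
  have := hT (t - t0) (by omega)
  rwa [Nat.sub_add_cancel (by omega)] at this

namespace Process

/-- stopped exponential submartingale, finite horizon -/
lemma stopped_ge {f c : Site d → ℝ}
    (hV : ∀ v, ENNReal.ofReal (Real.exp (f v - c v)) ≤ gen ν f v)
    {S : ℕ → Set Ω} (hS : ∀ n, MeasurableSet[X.ℱ n] (S n)) (n : ℕ) :
    ENNReal.ofReal (Real.exp (f 0)) * P Set.univ ≤
    ∑ k ∈ Finset.range n, ∫⁻ ω in alive S k ∩ S k, ENNReal.ofReal (Real.exp (X.Phi f c k ω)) ∂P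
      + ∫⁻ ω in alive S n, ENNReal.ofReal (Real.exp (X.Phi f c n ω)) ∂P := by
  induction n with
  | zero =>
    have : alive S 0 = (Set.univ : Set Ω) := by ext; simp [alive]
    rw [Finset.sum_range_zero, zero_add, this, Measure.restrict_univ]
    simp_rw [X.Phi_zero]
    rw [lintegral_const]
  | succ n ih =>
    refine le_trans ih ?_
    rw [Finset.sum_range_succ, add_assoc]
    refine add_le_add le_rfl ?_
    have hm2 : MeasurableSet[X.ℱ n] (alive S (n + 1)) := X.measurableSet_alive hS (by omega)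
    have h1 : ∫⁻ ω in alive S (n + 1), ENNReal.ofReal (Real.exp (X.Phi f c n ω)) ∂P ≤
        ∫⁻ ω in alive S (n + 1), ENNReal.ofReal (Real.exp (X.Phi f c (n + 1) ω)) ∂P := by
      rw [X.lintegral_Phi_succ f c n hm2]
      refine setLIntegral_mono' (X.le n _ hm2) fun ω hω => ?_
      calc ENNReal.ofReal (Real.exp (X.Phi f c n ω))
          = ENNReal.ofReal (Real.exp (X.Phi f c n ω + c (X.site n ω) - f (X.site n ω)))
            * ENNReal.ofReal (Real.exp (f (X.site n ω) - c (X.site n ω))) := by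
            rw [← ENNReal.ofReal_mul (Real.exp_pos _).le, ← Real.exp_add]
            congr 2; ring
        _ ≤ _ := mul_le_mul_right (hV _) _
    calc _ = ∫⁻ ω in alive S n ∩ S n, ENNReal.ofReal (Real.exp (X.Phi f c n ω)) ∂P
          + ∫⁻ ω in alive S (n + 1), ENNReal.ofReal (Real.exp (X.Phi f c n ω)) ∂P := by
            rw [alive_succ, ← Set.sdiff_eq, lintegral_inter_add_sdiff _ _ (X.le n _ (hS n))]
      _ ≤ _ := add_le_add le_rfl h1

/-- **crude bound**: the `t`-th BRW has ended before time `n` except with small probability. -/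
theorem alive_le [IsProbabilityMeasure P] (H : HypH ν) (hd : 1 ≤ d) : ∃ C : ℝ, 0 ≤ C ∧
    ∀ t n : ℕ, 1 ≤ t → 1 ≤ n →
      P (alive (X.Done t) n) ≤ ENNReal.ofReal (C * t / √n) := by
  obtain ⟨c, hc, hphi⟩ := phi_ge ν H
  refine ⟨(1 - Real.exp (-c))⁻¹, ?_, ?_⟩
  · rw [inv_nonneg, sub_nonneg, ← Real.exp_zero]
    exact Real.exp_le_exp.2 (by linarith)
  intro t n ht hn
  have hn0 : (0 : ℝ) < n := by exact_mod_cast hn
  have hsq : 0 < √(n : ℝ) := Real.sqrt_pos.2 hn0
  have hsq1 : 1 ≤ √(n : ℝ) := by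
    rw [Real.one_le_sqrt]; exact_mod_cast hn
  set θ : ℝ := 1 / √(n : ℝ) with hθ
  have hθ0 : 0 < θ := by positivity
  have hθ1 : θ ≤ 1 := by rw [hθ, div_le_one hsq]; exact hsq1
  have hθ2 : θ ^ 2 * n = 1 := by
    rw [hθ, div_pow, Real.sq_sqrt hn0.le]; field_simp
  set f : Site d → ℝ := fun _ => -θ with hf
  set cc : Site d → ℝ := fun _ => -(c * θ ^ 2) with hcc
  have hV : ∀ v, ENNReal.ofReal (Real.exp (f v - cc v)) ≤ gen ν f v := by
    intro v
    rw [hf, gen_const ν hd (-θ) (by linarith)]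
    apply ENNReal.ofReal_le_ofReal
    have := hphi θ hθ0 hθ1
    rw [hcc]
    refine le_trans (le_of_eq ?_) this
    congr 1; ring
  have hS := fun n => X.measurableSet_done t (le_refl n)
  have key := X.stopped_ge (P := P) hV hS n
  have key2 := X.stopped_le (P := P) (f := fun _ => 0) (c := fun _ => 0) (V := Set.univ)
    (fun v _ => by unfold StepLe; rw [gen_zero ν hd]; simp) hS n
  rw [measure_univ, mul_one] at key key2
  -- simplify key2
  have hPhi0 : ∀ k ω, X.Phi (fun _ => (0:ℝ)) (fun _ => 0) k ω = 0 := by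
    intro k ω; unfold Phi mass; simp
  have hinV : ∀ k, X.inV Set.univ k = Set.univ := by
    intro k; ext ω; simp [inV]
  simp only [hPhi0, hinV, Real.exp_zero, ENNReal.ofReal_one, Set.inter_univ, setLIntegral_one]
    at key2
  -- bound the exponents
  have hPhi : ∀ k ω, X.L k ω ≤ t - 1 → X.Phi f cc k ω ≤ θ * (t - 1) - θ - c * θ ^ 2 * k := by
    intro k ω hk
    have h1 : mass f (X.state k ω) ≤ -θ := by
      unfold mass
      have h2 : (1 : ℝ) ≤ (X.state k ω).agg.card := by
        have : 0 < (X.state k ω).agg.card := Finset.card_pos.2 ⟨0, (X.inv k ω).1⟩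
        exact_mod_cast this
      have h3 : (0 : ℝ) ≤ Multiset.card (X.state k ω).act := Nat.cast_nonneg _
      simp only [hf, Finset.sum_const, nsmul_eq_mul, Multiset.map_const', Multiset.sum_replicate]
      nlinarith
    have h2 : (X.L k ω : ℝ) ≤ t - 1 := by
      have : ((t - 1 : ℕ) : ℝ) = t - 1 := by rw [Nat.cast_sub ht]; simp
      rw [← this]; exact_mod_cast hk
    unfold Phi
    simp only [hcc, Finset.sum_const, Finset.card_range, nsmul_eq_mul]
    have h3 : (X.L k ω : ℝ) * θ ≤ (t - 1) * θ := mul_le_mul_of_nonneg_right h2 hθ0.le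
    simp only [hf] at h1 ⊢
    linarith
  have b1 : ∀ k, ∫⁻ ω in alive (X.Done t) k ∩ X.Done t k,
      ENNReal.ofReal (Real.exp (X.Phi f cc k ω)) ∂P
        ≤ ENNReal.ofReal (Real.exp (θ * (t - 1) - θ)) * P (alive (X.Done t) k ∩ X.Done t k) := by
    intro k
    have hm : MeasurableSet (alive (X.Done t) k ∩ X.Done t k) :=
      (X.le k _ (X.measurableSet_alive hS (by omega))).inter (X.le k _ (hS k))
    calc _ ≤ ∫⁻ _ω in alive (X.Done t) k ∩ X.Done t k,
          ENNReal.ofReal (Real.exp (θ * (t - 1) - θ)) ∂P := by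
          refine setLIntegral_mono' hm fun ω hω => ?_
          apply ENNReal.ofReal_le_ofReal
          apply Real.exp_le_exp.2
          have h1 := hPhi k ω (by have := hω.2.2; omega)
          have : 0 ≤ c * θ ^ 2 * k := by positivity
          linarith
      _ = _ := by rw [setLIntegral_const]
  have b2 : ∫⁻ ω in alive (X.Done t) n, ENNReal.ofReal (Real.exp (X.Phi f cc n ω)) ∂P
        ≤ ENNReal.ofReal (Real.exp (θ * (t - 1) - θ - c)) * P (alive (X.Done t) n) := by
    have hm : MeasurableSet (alive (X.Done t) n) := X.le n _ (X.measurableSet_alive hS (by omega))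
    calc _ ≤ ∫⁻ _ω in alive (X.Done t) n, ENNReal.ofReal (Real.exp (θ * (t - 1) - θ - c)) ∂P := by
          refine setLIntegral_mono' hm fun ω hω => ?_
          apply ENNReal.ofReal_le_ofReal
          apply Real.exp_le_exp.2
          have h1 := hPhi n ω (by rw [X.mem_alive_done ht] at hω; omega)
          have : c * θ ^ 2 * n = c := by rw [mul_assoc, hθ2, mul_one]
          linarith
      _ = _ := by rw [setLIntegral_const]
  -- real numbers
  set p : ℝ := (P (alive (X.Done t) n)).toReal with hp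
  set q : ℝ := (∑ k ∈ Finset.range n, P (alive (X.Done t) k ∩ X.Done t k)).toReal with hq
  have hqtop : ∑ k ∈ Finset.range n, P (alive (X.Done t) k ∩ X.Done t k) ≠ ⊤ := by
    rw [ENNReal.sum_ne_top]; intro k _; exact measure_ne_top _ _
  have hptop : P (alive (X.Done t) n) ≠ ⊤ := measure_ne_top _ _
  have k1 : Real.exp (-θ) ≤ Real.exp (θ * (t - 1) - θ) * q + Real.exp (θ * (t - 1) - θ - c) * p := by
    have h1 : ENNReal.ofReal (Real.exp (f 0)) ≤
        ENNReal.ofReal (Real.exp (θ * (t - 1) - θ)) *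
          ∑ k ∈ Finset.range n, P (alive (X.Done t) k ∩ X.Done t k)
        + ENNReal.ofReal (Real.exp (θ * (t - 1) - θ - c)) * P (alive (X.Done t) n) := by
      refine key.trans (add_le_add ?_ b2)
      rw [Finset.mul_sum]
      exact Finset.sum_le_sum fun k _ => b1 k
    rw [← ENNReal.ofReal_toReal hqtop, ← ENNReal.ofReal_toReal hptop,
      ← ENNReal.ofReal_mul (Real.exp_pos _).le, ← ENNReal.ofReal_mul (Real.exp_pos _).le,
      ← ENNReal.ofReal_add (by positivity) (by positivity)] at h1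
    exact (ENNReal.ofReal_le_ofReal_iff (by positivity)).1 h1
  have k2 : q + p ≤ 1 := by
    rw [hp, hq, ← ENNReal.toReal_add hqtop hptop, ← ENNReal.toReal_one]
    exact ENNReal.toReal_mono ENNReal.one_ne_top key2
  have hp0 : 0 ≤ p := ENNReal.toReal_nonneg
  have k3 : (1 - Real.exp (-c)) * p ≤ θ * t := by
    have e1 : Real.exp (θ * (t - 1) - θ) = Real.exp (θ * (t - 1)) * Real.exp (-θ) := by
      rw [← Real.exp_add]; congr 1
    have e2 : Real.exp (θ * (t - 1) - θ - c)
        = Real.exp (θ * (t - 1)) * Real.exp (-θ) * Real.exp (-c) := by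
      rw [← Real.exp_add, ← Real.exp_add]; congr 1
    rw [e1, e2] at k1
    have h1 : 1 ≤ Real.exp (θ * (t - 1)) * (q + Real.exp (-c) * p) := by
      have hpos := Real.exp_pos (-θ)
      have : Real.exp (-θ) * 1 ≤ Real.exp (-θ) * (Real.exp (θ * (t - 1)) * (q + Real.exp (-c) * p)) := by
        linarith
      exact le_of_mul_le_mul_left this hpos
    have h2 : Real.exp (-(θ * (t - 1))) ≤ q + Real.exp (-c) * p := by
      have hpos := Real.exp_pos (-(θ * (t - 1)))
      have h3 := mul_le_mul_of_nonneg_left h1 hpos.le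
      rw [← mul_assoc, ← Real.exp_add, neg_add_cancel, Real.exp_zero, one_mul, mul_one] at h3
      exact h3
    have h4 := Real.add_one_le_exp (-(θ * (t - 1)))
    nlinarith
  rw [← ENNReal.ofReal_toReal hptop]
  apply ENNReal.ofReal_le_ofReal
  have hpos : 0 < 1 - Real.exp (-c) := by
    rw [sub_pos, ← Real.exp_zero]; exact Real.exp_lt_exp.2 (by linarith)
  have e3 : (1 - Real.exp (-c))⁻¹ * t / √(n : ℝ) = (1 - Real.exp (-c))⁻¹ * (θ * t) := by
    rw [hθ]; ring
  rw [e3, ← hp, ← div_eq_inv_mul, le_div_iff₀ hpos]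
  linarith

/-- almost surely all BRWs end -/
theorem ae_done [IsProbabilityMeasure P] (H : HypH ν) (hd : 1 ≤ d) :
    ∀ᵐ ω ∂P, ∀ t : ℕ, 1 ≤ t → ∃ k, ω ∈ X.Done t k := by
  rw [ae_all_iff]
  intro t
  by_cases ht : 1 ≤ t
  swap
  · exact Filter.Eventually.of_forall fun ω h => absurd h ht
  obtain ⟨C, hC, hb⟩ := X.alive_le (P := P) H hd
  have h1 : {ω | ¬ (1 ≤ t → ∃ k, ω ∈ X.Done t k)} ⊆ ⋂ n, alive (X.Done t) n := by
    intro ω hω
    rw [Set.mem_iInter]
    intro n j hj hcon
    exact hω fun _ => ⟨j, hcon⟩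
  rw [ae_iff]
  refine le_antisymm ((measure_mono h1).trans ?_) zero_le
  have h2 : Tendsto (fun n : ℕ => ENNReal.ofReal (C * t / √(n : ℝ))) atTop (nhds 0) := by
    rw [← ENNReal.ofReal_zero]
    apply ENNReal.tendsto_ofReal
    apply Tendsto.div_atTop tendsto_const_nhds
    exact Real.tendsto_sqrt_atTop.comp tendsto_natCast_atTop_atTop
  refine ge_of_tendsto h2 ?_
  filter_upwards [Filter.eventually_ge_atTop 1] with n hn
  exact (measure_mono (Set.iInter_subset _ n)).trans (hb t n ht hn)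

/-- the aggregate before the `n`-th ring is in the ball of radius `n` -/
lemma agg_norm_le (n : ℕ) (ω : Ω) : ∀ x ∈ (X.state n ω).agg, ‖toE x‖ ≤ n := by
  induction n with
  | zero =>
    rw [X.start]
    intro x hx
    simp only [Finset.mem_singleton] at hx
    rw [hx, toE_zero]; simp
  | succ n ih =>
    intro x hx
    rw [X.step] at hx
    rcases mem_ring_agg hx with h | ⟨e, he⟩
    · rw [agg_launch] at h
      have := ih x h
      push_cast; linarith
    · have h1 := ih _ (X.site_mem_agg n ω)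
      rw [he, toE_add]
      have h2 := norm_add_le (toE (X.site n ω)) (toE (vec e))
      rw [norm_toE_vec] at h2
      push_cast; linarith

/-- crude outer bound -/
theorem crude_outer [IsProbabilityMeasure P] (H : HypH ν) (hd : 1 ≤ d) :
    ∀ᵐ ω ∂P, ∀ᶠ t : ℕ in atTop, ∀ x ∈ X.A t ω, ‖toE x‖ ≤ (t : ℝ) ^ 8 := by
  obtain ⟨C, hC, hb⟩ := X.alive_le (P := P) H hd
  have h1 : ∀ᵐ ω ∂P, ∀ᶠ t : ℕ in atTop, ω ∉ alive (X.Done t) (t ^ 8) := by
    have hu : Summable fun t : ℕ => C * (1 / (t : ℝ) ^ 3) :=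
      (Real.summable_one_div_nat_pow.2 (by norm_num)).mul_left C
    refine bc hu 1 fun t ht => ?_
    refine (hb t (t ^ 8) ht (Nat.one_le_pow _ _ (by omega))).trans ?_
    apply ENNReal.ofReal_le_ofReal
    have ht0 : (0 : ℝ) < t := by exact_mod_cast ht
    apply le_of_eq
    have e1 : √(((t ^ 8 : ℕ) : ℝ)) = (t : ℝ) ^ 4 := by
      push_cast
      rw [show (t : ℝ) ^ 8 = ((t : ℝ) ^ 4) ^ 2 by ring, Real.sqrt_sq (by positivity)]
    rw [e1]
    field_simp
  filter_upwards [h1, X.ae_done H hd] with ω h2 h3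
  filter_upwards [h2, Filter.eventually_ge_atTop 1] with t h4 h5
  obtain ⟨k, hk⟩ := h3 t h5
  rw [X.A_of_done hk]
  intro x hx
  have h6 : k < t ^ 8 := by
    by_contra hcon
    push Not at hcon
    exact h4 fun j hj => X.alive_of_done hk j (by omega)
  have := X.agg_norm_le k ω x hx
  refine this.trans ?_
  exact_mod_cast h6.le

end Process

end BIDLA
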