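import Mathlib
import Pool.Agent.Work.MP_1354f0_pr.InnerC

/-!
The inner test function.
-/

namespace BIDLA

open Real Finset

variable {d : ℕ}

/-- summed upper bounds for the positive parts -/
lemma sum_H_le (d : ℕ) (hd : 3 ≤ d) {K K' C1 : ℝ} (hK : 0 ≤ K) (hK' : 0 ≤ K') (hC1 : 1 ≤ C1) :
    ∃ C, 0 ≤ C ∧ ∀ ζ : Site d, 1 ≤ ‖toE ζ‖ →
      (∀ x, C1 * ‖toE ζ‖ ≤ ‖toE x - toE ζ‖ → Hfun K K' ζ x ≤ 0) →
      ∀ A : Finset (Site d), ∑ x ∈ A, max (Hfun K K' ζ x) 0 ≤
        (ballF (0 : EuclideanSpace ℝ (Fin d)) ‖toE ζ‖).card * green 64 (‖toE ζ‖ + 1) (toE ζ) 0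
          + C * (1 + Real.log ‖toE ζ‖) := by
  classical
  obtain ⟨D1, hD1, s1⟩ := sum_green_le d hd
  obtain ⟨D2, hD2, s2⟩ := sum_center_log d
  obtain ⟨D3, hD3, s3⟩ := sum_ball_const d ((d : ℝ) + 1) (by linarith)
  obtain ⟨D4, hD4, s4⟩ := expo_le_wt d (by omega) ((d : ℝ) + 1) (by positivity)
  have hlogC1 : 0 ≤ Real.log C1 := Real.log_nonneg hC1
  refine ⟨D1 + K * (D2 * (1 + Real.log C1)) + K' * (D4 * D3), by positivity, ?_⟩
  intro ζ hζ hsupp A
  set v := toE ζ with hv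
  set ρ := ‖v‖ with hρ
  have hρ0 : 0 < ρ := by linarith
  have hlog : 0 ≤ Real.log ρ := Real.log_nonneg hζ
  set f := green 64 (ρ + 1) v with hf
  have hf0 : ∀ x : Site d, ‖toE x‖ < ρ + 1 → 0 ≤ f x := fun x hx =>
    green_nonneg hd (by norm_num) hρ0 (by linarith) hx.le
  have hker : ∀ x : Site d, ker 64 (-(d : ℝ) / 2) v x ≤ wt d v x := by
    intro x
    exact X_le_wt (a := (d : ℝ)) (by positivity) v x
  have hterm : ∀ x, max (Hfun K K' ζ x) 0 ≤ (if ‖toE x‖ < ρ + 1 then f x else 0)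
      + (if ‖toE x - v‖ < C1 * ρ then K * wt d v x else 0) + K' * expo ζ x := by
    intro x
    have hw := wt_nonneg (d : ℝ) v x
    have he := (expo_pos (by omega : 1 ≤ d) ζ x).le
    have p1 : 0 ≤ (if ‖toE x‖ < ρ + 1 then f x else 0) := by
      split_ifs with h
      · exact hf0 x h
      · exact le_rfl
    have p2 : 0 ≤ (if ‖toE x - v‖ < C1 * ρ then K * wt d v x else 0) := by
      split_ifs <;> positivity
    have p3 : 0 ≤ K' * expo ζ x := by positivity
    apply max_le _ (by linarith)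
    rcases lt_or_ge ‖toE x - v‖ (C1 * ρ) with h | h
    · rw [if_pos h]
      have h1 : f x ≤ (if ‖toE x‖ < ρ + 1 then f x else 0) := by
        split_ifs with h2
        · exact le_rfl
        · exact green_nonpos hd (by norm_num) hρ0 (by linarith) (by linarith)
      have h3 := mul_le_mul_of_nonneg_left (hker x) hK
      have : Hfun K K' ζ x = f x + (K * ker 64 (-(d : ℝ) / 2) v x + K' * expo ζ x) := rfl
      rw [this]
      linarith
    · have := hsupp x h
      linarith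
  refine (Finset.sum_le_sum fun x _ => hterm x).trans ?_
  rw [Finset.sum_add_distrib, Finset.sum_add_distrib, ← Finset.sum_filter, ← Finset.sum_filter,
    ← Finset.mul_sum, ← Finset.mul_sum]
  have t1 : ∑ x ∈ A.filter (fun x => ‖toE x‖ < ρ + 1), f x
      ≤ (ballF (0 : EuclideanSpace ℝ (Fin d)) ρ).card * f 0 + D1 * (1 + Real.log ρ) := by
    refine le_trans ?_ (s1 v hζ)
    apply Finset.sum_le_sum_of_subset_of_nonneg
    · intro x hx
      rw [Finset.mem_filter] at hx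
      rw [mem_ballF, sub_zero]; exact hx.2
    · intro x hx _
      rw [mem_ballF, sub_zero] at hx
      exact hf0 x hx
  have t2 : ∑ x ∈ A.filter (fun x => ‖toE x - v‖ < C1 * ρ), wt d v x
      ≤ D2 * (1 + Real.log C1) * (1 + Real.log ρ) := by
    have hCρ : 1 ≤ C1 * ρ := by nlinarith
    calc ∑ x ∈ A.filter (fun x => ‖toE x - v‖ < C1 * ρ), wt d v x
        ≤ ∑ x ∈ ballF v (C1 * ρ), wt d v x := by
          apply Finset.sum_le_sum_of_subset_of_nonneg
          · intro x hx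
            rw [Finset.mem_filter] at hx
            rw [mem_ballF]; exact hx.2
          · intro x _ _; exact wt_nonneg _ _ _
      _ ≤ D2 * (1 + Real.log (C1 * ρ)) := s2 v _ hCρ
      _ ≤ D2 * ((1 + Real.log C1) * (1 + Real.log ρ)) := by
          rw [Real.log_mul (by linarith) (by linarith)]
          apply mul_le_mul_of_nonneg_left _ hD2
          nlinarith
      _ = _ := by ring
  have t3 : ∑ x ∈ A, expo ζ x ≤ D4 * D3 := by
    calc ∑ x ∈ A, expo ζ x ≤ ∑ x ∈ A, D4 * wt ((d : ℝ) + 1) v x := Finset.sum_le_sum fun x _ => s4 ζ x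
      _ = D4 * ∑ x ∈ A, wt ((d : ℝ) + 1) v x := by rw [Finset.mul_sum]
      _ ≤ D4 * D3 := mul_le_mul_of_nonneg_left (s3 A v) hD4
  have u2 := mul_le_mul_of_nonneg_left t2 hK
  have u3 := mul_le_mul_of_nonneg_left t3 hK'
  have u4 : K' * (D4 * D3) ≤ K' * (D4 * D3) * (1 + Real.log ρ) := by
    have : 0 ≤ K' * (D4 * D3) := by positivity
    nlinarith
  have e : (D1 + K * (D2 * (1 + Real.log C1)) + K' * (D4 * D3)) * (1 + Real.log ρ)
      = D1 * (1 + Real.log ρ) + K * (D2 * (1 + Real.log C1) * (1 + Real.log ρ))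
        + K' * (D4 * D3) * (1 + Real.log ρ) := by ring
  rw [e]
  linarith

/-- truncation level -/
noncomputable def trunc (d : ℕ) (C1 ρ : ℝ) : ℝ := ((C1 * ρ) ^ 2 + 64) ^ (2 - (d : ℝ))

lemma sum_F_le (d : ℕ) (hd : 3 ≤ d) {K C1 : ℝ} (hK : 0 ≤ K) (hC1 : 1 ≤ C1) :
    ∃ C, 0 ≤ C ∧ ∀ ζ : Site d, 1 ≤ ‖toE ζ‖ →
      ∀ A : Finset (Site d), ∑ x ∈ A, max (Ffun K ζ x - trunc d C1 ‖toE ζ‖) 0 ≤
        C * budget d ‖toE ζ‖ := by
  classical
  obtain ⟨D2, hD2, s2⟩ := sum_center_budget d hd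
  obtain ⟨D3, hD3, s3⟩ := sum_ball_const d ((d : ℝ) + 1) (by linarith)
  obtain ⟨D4, hD4, s4⟩ := expo_le_wt d (by omega) ((d : ℝ) + 1) (by positivity)
  obtain ⟨D5, hD5, s5⟩ := budget_mul_le d C1 hC1
  have hd3 : (3 : ℝ) ≤ d := by exact_mod_cast hd
  refine ⟨D2 * D5 + K * (D4 * D3), by positivity, ?_⟩
  intro ζ hζ A
  set v := toE ζ with hv
  set ρ := ‖v‖ with hρ
  have hρ0 : 0 < ρ := by linarith
  have hCρ : 1 ≤ C1 * ρ := by nlinarith
  have hT0 : 0 < trunc d C1 ρ := by unfold trunc; positivity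
  have hterm : ∀ x, max (Ffun K ζ x - trunc d C1 ρ) 0 ≤
      (if ‖toE x - v‖ < C1 * ρ then wt (2 * (d : ℝ) - 4) v x else 0) + K * expo ζ x := by
    intro x
    have hw := wt_nonneg (2 * (d : ℝ) - 4) v x
    have he := (expo_pos (by omega : 1 ≤ d) ζ x).le
    have p2 : 0 ≤ (if ‖toE x - v‖ < C1 * ρ then wt (2 * (d : ℝ) - 4) v x else 0) := by
      split_ifs <;> positivity
    have p3 : 0 ≤ K * expo ζ x := by positivity
    apply max_le _ (by linarith)
    have e1 : Ffun K ζ x = (gX 64 v x) ^ (2 - (d : ℝ)) + K * expo ζ x := rfl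
    rw [e1]
    rcases lt_or_ge ‖toE x - v‖ (C1 * ρ) with h | h
    · rw [if_pos h]
      have h3 := X_le_wt (a := 2 * (d : ℝ) - 4) (by linarith) v x
      have e2 : -(2 * (d : ℝ) - 4) / 2 = 2 - (d : ℝ) := by ring
      rw [e2] at h3
      linarith
    · rw [if_neg (by linarith)]
      have h3 : (gX 64 v x) ^ (2 - (d : ℝ)) ≤ trunc d C1 ρ := by
        unfold trunc gX
        apply Real.rpow_le_rpow_of_nonpos (by positivity) _ (by linarith)
        have := pow_le_pow_left₀ (by linarith : 0 ≤ C1 * ρ) h 2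
        linarith
      linarith
  refine (Finset.sum_le_sum fun x _ => hterm x).trans ?_
  rw [Finset.sum_add_distrib, ← Finset.sum_filter, ← Finset.mul_sum]
  have t2 : ∑ x ∈ A.filter (fun x => ‖toE x - v‖ < C1 * ρ), wt (2 * (d : ℝ) - 4) v x
      ≤ D2 * D5 * budget d ρ := by
    calc ∑ x ∈ A.filter (fun x => ‖toE x - v‖ < C1 * ρ), wt (2 * (d : ℝ) - 4) v x
        ≤ ∑ x ∈ ballF v (C1 * ρ), wt (2 * (d : ℝ) - 4) v x := by
          apply Finset.sum_le_sum_of_subset_of_nonneg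
          · intro x hx
            rw [Finset.mem_filter] at hx
            rw [mem_ballF]; exact hx.2
          · intro x _ _; exact wt_nonneg _ _ _
      _ ≤ D2 * budget d (C1 * ρ) := s2 v _ hCρ
      _ ≤ D2 * (D5 * budget d ρ) := mul_le_mul_of_nonneg_left (s5 ρ hζ) hD2
      _ = _ := by ring
  have t3 : ∑ x ∈ A, expo ζ x ≤ D4 * D3 := by
    calc ∑ x ∈ A, expo ζ x ≤ ∑ x ∈ A, D4 * wt ((d : ℝ) + 1) v x := Finset.sum_le_sum fun x _ => s4 ζ x
      _ = D4 * ∑ x ∈ A, wt ((d : ℝ) + 1) v x := by rw [Finset.mul_sum]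
      _ ≤ D4 * D3 := mul_le_mul_of_nonneg_left (s3 A v) hD4
  have u3 := mul_le_mul_of_nonneg_left t3 hK
  have hb := one_le_budget d hζ
  have u4 : K * (D4 * D3) ≤ K * (D4 * D3) * budget d ρ := by
    have : 0 ≤ K * (D4 * D3) := by positivity
    nlinarith
  rw [add_mul]
  linarith

theorem inner_fun (d : ℕ) (hd : 3 ≤ d) (Cν κ0 : ℝ) (hCν : 0 ≤ Cν) (hκ0 : 0 < κ0) :
    ∃ θ0 c C : ℝ, 0 < θ0 ∧ 0 < c ∧ 0 ≤ C ∧ ∀ ζ : Site d, ζ ≠ 0 → ∀ θ, 0 < θ → θ ≤ θ0 →
    ∃ f : Site d → ℝ,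
      (∀ x, |f x| ≤ κ0) ∧
      (∀ x, x ≠ ζ → ∀ e, lap f x + Cν * f (x + vec e) ^ 2 ≤ 0) ∧
      (∀ A : Finset (Site d), ζ ∉ A → ∀ t : ℝ,
        ((ballF (0 : EuclideanSpace ℝ (Fin d)) ‖toE ζ‖).card : ℝ) ≤ t →
        θ * (c * (t - (ballF (0 : EuclideanSpace ℝ (Fin d)) ‖toE ζ‖).card)
          * ‖toE ζ‖ ^ (-((d : ℝ) - 1)) - C * (1 + Real.log ‖toE ζ‖))
          - C * θ ^ 2 * budget d ‖toE ζ‖ ≤ ∑ x ∈ A, f x - t * f 0) := by
  have hd3 : (3 : ℝ) ≤ d := by exact_mod_cast hd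
  have hd0 : (0 : ℝ) < d := by linarith
  obtain ⟨K, K', CH, C1, hK, hK', hCH, hC1, hH⟩ := exists_H d hd
  obtain ⟨KF, cF, CF, hKF, hcF, hCF, hF⟩ := exists_F d hd
  obtain ⟨S1, hS1, sH⟩ := sum_H_le d hd hK hK' hC1
  obtain ⟨S2, hS2, sF⟩ := sum_F_le d hd (K := KF) (C1 := C1 + 1) hKF (by linarith)
  obtain ⟨c0, hc0, hg0⟩ := green_zero_ge d hd
  -- parameters
  set P : ℝ := 2 ^ ((d : ℝ) - 1) with hP
  have hP0 : 0 < P := by positivity
  set C3 : ℝ := 4 * Cν * P * CH ^ 2 / cF + 1 with hC3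
  have hC30 : 0 < C3 := by positivity
  set l1 : ℝ := cF / (4 * Cν * P * CF ^ 2 + 1) with hl1
  set l2 : ℝ := 1 / (Cν * CF * (2 * d) + 1) with hl2
  set l3 : ℝ := κ0 / (2 * (CF + 1)) with hl3
  have hl1p : 0 < l1 := by positivity
  have hl2p : 0 < l2 := by positivity
  have hl3p : 0 < l3 := by positivity
  set lm : ℝ := min l1 (min l2 l3) with hlm
  have hlmp : 0 < lm := lt_min hl1p (lt_min hl2p hl3p)
  set θ0 : ℝ := min 1 (min (κ0 / (2 * (CH + 1))) (lm / C3)) with hθ0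
  have hθ0p : 0 < θ0 := lt_min one_pos (lt_min (by positivity) (by positivity))
  refine ⟨θ0, c0, S1 + C3 * S2, hθ0p, hc0, by positivity, ?_⟩
  intro ζ hζ θ hθ hθle
  have hζ1 := one_le_norm_toE hζ
  obtain ⟨hH1, hH2, hH3⟩ := hH ζ hζ1
  obtain ⟨hF1, hF2⟩ := hF ζ
  set v := toE ζ with hv
  set ρ := ‖v‖ with hρ
  have hρ0 : 0 < ρ := by linarith
  have hlog : 0 ≤ Real.log ρ := Real.log_nonneg hζ1
  set T := trunc d (C1 + 1) ρ with hT
  have hT0 : 0 < T := by rw [hT]; unfold trunc; positivity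
  set lam := C3 * θ ^ 2 with hlam
  have hlam0 : 0 < lam := by positivity
  have hθ1 : θ ≤ 1 := hθle.trans (min_le_left _ _)
  have hlamle : lam ≤ lm := by
    have h1 : θ ≤ lm / C3 := hθle.trans ((min_le_right _ _).trans (min_le_right _ _))
    rw [le_div_iff₀ hC30] at h1
    have h2 : θ ^ 2 ≤ θ := by nlinarith
    calc lam = C3 * θ ^ 2 := rfl
      _ ≤ C3 * θ := by gcongr
      _ ≤ lm := by linarith
  have hlam1 : lam ≤ l1 := hlamle.trans (min_le_left _ _)
  have hlam2 : lam ≤ l2 := hlamle.trans ((min_le_right _ _).trans (min_le_left _ _))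
  have hlam3 : lam ≤ l3 := hlamle.trans ((min_le_right _ _).trans (min_le_right _ _))
  set Hp : Site d → ℝ := fun y => max (Hfun K K' ζ y) 0 with hHp
  set Fp : Site d → ℝ := fun y => max (Ffun KF ζ y - T) 0 with hFp
  have hHp0 : ∀ y, 0 ≤ Hp y := fun y => le_max_right _ _
  have hFp0 : ∀ y, 0 ≤ Fp y := fun y => le_max_right _ _
  have hX64 : ∀ x : Site d, 64 ≤ gX 64 v x := by
    intro x; unfold gX; have := sq_nonneg ‖toE x - v‖; linarith
  have hX0 : ∀ x : Site d, 0 < gX 64 v x := fun x => by linarith [hX64 x]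
  have hHpX : ∀ y, Hp y ≤ CH * (gX 64 v y) ^ (-((d : ℝ) - 1) / 2) := by
    intro y
    apply max_le (hH2 y)
    have := hX0 y; positivity
  have hFpX : ∀ y, Fp y ≤ CF * (gX 64 v y) ^ (2 - (d : ℝ)) := by
    intro y
    apply max_le _ (by have := hX0 y; positivity)
    have := hF2 y
    linarith
  have hHpC : ∀ y, Hp y ≤ CH := by
    intro y
    refine (hHpX y).trans ?_
    have : (gX 64 v y) ^ (-((d : ℝ) - 1) / 2) ≤ 1 :=
      Real.rpow_le_one_of_one_le_of_nonpos (by linarith [hX64 y]) (by linarith)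
    nlinarith
  have hFpC : ∀ y, Fp y ≤ CF := by
    intro y
    refine (hFpX y).trans ?_
    have : (gX 64 v y) ^ (2 - (d : ℝ)) ≤ 1 :=
      Real.rpow_le_one_of_one_le_of_nonpos (by linarith [hX64 y]) (by linarith)
    nlinarith
  set f : Site d → ℝ := fun y => -(θ * Hp y + lam * Fp y) with hf
  have hlapf : ∀ x, lap f x = -(θ * lap Hp x + lam * lap Fp x) := by
    intro x
    have e1 : f = fun y => (-1) * (θ * Hp y + lam * Fp y) := by funext y; simp only [hf]; ring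
    rw [e1, lap_const_mul, lap_add, lap_const_mul, lap_const_mul]; ring
  have hsq : ∀ y, f y ^ 2 ≤ 2 * θ ^ 2 * Hp y ^ 2 + 2 * lam ^ 2 * Fp y ^ 2 := by
    intro y
    simp only [hf]
    nlinarith [sq_nonneg (θ * Hp y - lam * Fp y)]
  refine ⟨f, ?_, ?_, ?_⟩
  · -- boundedness
    intro y
    have h1 : θ * Hp y ≤ κ0 / 2 := by
      have h2 : θ ≤ κ0 / (2 * (CH + 1)) := hθle.trans ((min_le_right _ _).trans (min_le_left _ _))
      rw [le_div_iff₀ (by positivity)] at h2
      have := mul_le_mul_of_nonneg_left (hHpC y) hθ.le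
      nlinarith
    have h3 : lam * Fp y ≤ κ0 / 2 := by
      have h2 := hlam3
      rw [hl3, le_div_iff₀ (by positivity)] at h2
      have := mul_le_mul_of_nonneg_left (hFpC y) hlam0.le
      nlinarith
    have h4 : 0 ≤ θ * Hp y := mul_nonneg hθ.le (hHp0 y)
    have h5 : 0 ≤ lam * Fp y := mul_nonneg hlam0.le (hFp0 y)
    simp only [hf]
    rw [abs_neg, abs_of_nonneg (by linarith)]
    linarith
  · -- supersolution
    intro x hx e
    have hHlap : 0 ≤ lap Hp x := lap_posPart_nonneg _ x (hH1 x hx)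
    rw [hlapf]
    rcases lt_or_ge T (Ffun KF ζ x) with hc | hc
    · -- inside the support of F
      have hFlap : cF * (gX 64 v x) ^ (1 - (d : ℝ)) ≤ lap Fp x := by
        refine (hF1 x hx).trans ?_
        have h1 := lap_posPart_ge (fun y => Ffun KF ζ y - T) x (by linarith)
        rw [lap_sub, lap_const (by omega), sub_zero] at h1
        exact h1
      have hy := rpow_step (b := 64) (q := 1 - (d : ℝ)) (by norm_num) (by linarith) v x e
      have eP : (2 : ℝ) ^ (-(1 - (d : ℝ))) = P := by rw [hP]; congr 1; ring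
      rw [eP] at hy
      set y := x + vec e with hyd
      have hXy := hX0 y
      have hXy64 := hX64 y
      have hXx := hX0 x
      have h1 : Hp y ^ 2 ≤ CH ^ 2 * (P * (gX 64 v x) ^ (1 - (d : ℝ))) := by
        have h2 := pow_le_pow_left₀ (hHp0 y) (hHpX y) 2
        rw [mul_pow, ← Real.rpow_natCast ((gX 64 v y) ^ (-((d : ℝ) - 1) / 2)) 2,
          ← Real.rpow_mul hXy.le] at h2
        have e2 : -((d : ℝ) - 1) / 2 * ((2 : ℕ) : ℝ) = 1 - (d : ℝ) := by push_cast; ring
        rw [e2] at h2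
        exact h2.trans (by gcongr)
      have h3 : Fp y ^ 2 ≤ CF ^ 2 * (P * (gX 64 v x) ^ (1 - (d : ℝ))) := by
        have h2 := pow_le_pow_left₀ (hFp0 y) (hFpX y) 2
        rw [mul_pow, ← Real.rpow_natCast ((gX 64 v y) ^ (2 - (d : ℝ))) 2,
          ← Real.rpow_mul hXy.le] at h2
        have h4 : (gX 64 v y) ^ ((2 - (d : ℝ)) * ((2 : ℕ) : ℝ)) ≤ (gX 64 v y) ^ (1 - (d : ℝ)) := by
          apply Real.rpow_le_rpow_of_exponent_le (by linarith)
          push_cast; linarith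
        exact h2.trans (by gcongr; exact h4.trans hy)
      set W := (gX 64 v x) ^ (1 - (d : ℝ)) with hW
      have hW0 : 0 < W := by positivity
      have hs := hsq y
      have a1 : Cν * (2 * θ ^ 2 * Hp y ^ 2) ≤ lam * cF * W / 2 := by
        have h5 : Cν * (2 * θ ^ 2 * Hp y ^ 2) ≤ Cν * (2 * θ ^ 2 * (CH ^ 2 * (P * W))) := by gcongr
        refine h5.trans ?_
        have h6 : 4 * Cν * P * CH ^ 2 ≤ C3 * cF := by
          rw [hC3, add_mul, div_mul_cancel₀ _ hcF.ne', one_mul]; linarith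
        have h7 : 4 * Cν * P * CH ^ 2 * (θ ^ 2 * W) ≤ C3 * cF * (θ ^ 2 * W) := by gcongr
        rw [hlam]
        linarith
      have a2 : Cν * (2 * lam ^ 2 * Fp y ^ 2) ≤ lam * cF * W / 2 := by
        have h5 : Cν * (2 * lam ^ 2 * Fp y ^ 2) ≤ Cν * (2 * lam ^ 2 * (CF ^ 2 * (P * W))) := by gcongr
        refine h5.trans ?_
        have h6 : lam * (4 * Cν * P * CF ^ 2 + 1) ≤ cF := by
          rw [hl1, le_div_iff₀ (by positivity)] at hlam1
          exact hlam1
        have h7 : lam * (4 * Cν * P * CF ^ 2) ≤ cF := by nlinarith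
        have h8 : lam * (4 * Cν * P * CF ^ 2) * (lam * W) ≤ cF * (lam * W) := by gcongr
        linarith
      have a3 : Cν * f y ^ 2 ≤ lam * cF * W := by
        have := mul_le_mul_of_nonneg_left hs hCν
        rw [mul_add] at this
        linarith
      have a4 : lam * (cF * W) ≤ lam * lap Fp x := by gcongr
      have a5 : 0 ≤ θ * lap Hp x := by positivity
      linarith
    · -- outside
      have hXT : (C1 + 1) * ρ ≤ ‖toE x - v‖ := by
        by_contra hcon
        push Not at hcon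
        have h1 : T < (gX 64 v x) ^ (2 - (d : ℝ)) := by
          rw [hT]; unfold trunc
          apply Real.rpow_lt_rpow_of_neg (hX0 x) _ (by linarith)
          unfold gX
          have := pow_lt_pow_left₀ hcon (norm_nonneg _) (by norm_num : (2:ℕ) ≠ 0)
          linarith
        have h2 : (gX 64 v x) ^ (2 - (d : ℝ)) ≤ Ffun KF ζ x := by
          have := (expo_pos (by omega : 1 ≤ d) ζ x).le
          have e1 : Ffun KF ζ x = (gX 64 v x) ^ (2 - (d : ℝ)) + KF * expo ζ x := rfl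
          rw [e1]
          have : 0 ≤ KF * expo ζ x := by positivity
          linarith
        linarith
      set y := x + vec e with hyd
      have hHy : Hp y = 0 := by
        have h1 := norm_step_ge x e v
        have h2 := hH3 y (by linarith)
        simp only [hHp]
        exact max_eq_right h2
      have hlapF : lap Fp x = (∑ e : Dir d, Fp (x + vec e)) / (2 * d) :=
        lap_posPart_eq (fun y => Ffun KF ζ y - T) x (by linarith)
      have h1 : Fp y ≤ ∑ e : Dir d, Fp (x + vec e) :=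
        Finset.single_le_sum (f := fun e : Dir d => Fp (x + vec e)) (fun e _ => hFp0 _) (mem_univ e)
      have h2 : Fp y ≤ 2 * d * lap Fp x := by
        rw [hlapF, mul_div_cancel₀ _ (by positivity)]; exact h1
      have h3 : f y = -(lam * Fp y) := by
        simp only [hf]; rw [hHy]; ring
      rw [h3, neg_sq, mul_pow]
      have h4 : Fp y ^ 2 ≤ CF * (2 * d * lap Fp x) := by
        have := hFpC y
        have := hFp0 y
        calc Fp y ^ 2 = Fp y * Fp y := by ring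
          _ ≤ CF * (2 * d * lap Fp x) := mul_le_mul (hFpC y) h2 (hFp0 y) hCF
      have hlF0 : 0 ≤ lap Fp x := by
        have h5 : (0:ℝ) < 2 * d := by positivity
        by_contra hcon
        push Not at hcon
        have : 2 * d * lap Fp x < 0 := mul_neg_of_pos_of_neg h5 hcon
        have := hFp0 y
        linarith
      have h5 : lam * (Cν * CF * (2 * d) + 1) ≤ 1 := by
        rw [hl2, le_div_iff₀ (by positivity)] at hlam2
        exact hlam2
      have h6 : lam * (Cν * CF * (2 * d)) ≤ 1 := by nlinarith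
      have h7 : Cν * (lam ^ 2 * Fp y ^ 2) ≤ lam * lap Fp x := by
        calc Cν * (lam ^ 2 * Fp y ^ 2) ≤ Cν * (lam ^ 2 * (CF * (2 * d * lap Fp x))) := by gcongr
          _ = (lam * (Cν * CF * (2 * d))) * (lam * lap Fp x) := by ring
          _ ≤ 1 * (lam * lap Fp x) := by gcongr
          _ = _ := one_mul _
      have a5 : 0 ≤ θ * lap Hp x := by positivity
      linarith
  · -- lower bound on the sum
    intro A hζA t ht
    have h1 := sH ζ hζ1 hH3 A
    have h2 := sF ζ hζ1 A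
    rw [← hv, ← hρ] at h1 h2
    have e1 : ∑ x ∈ A, f x = -(θ * ∑ x ∈ A, Hp x + lam * ∑ x ∈ A, Fp x) := by
      simp only [hf]
      rw [Finset.sum_neg_distrib, Finset.sum_add_distrib, Finset.mul_sum, Finset.mul_sum]
    set N : ℝ := ((ballF (0 : EuclideanSpace ℝ (Fin d)) ρ).card : ℝ) with hN
    set g0 := green 64 (ρ + 1) v 0 with hg0d
    have hN0 : 0 ≤ N := Nat.cast_nonneg _
    have ht0 : 0 ≤ t := hN0.trans ht
    have hgg := hg0 v hζ1
    rw [← hρ] at hgg
    have hH0 : g0 ≤ Hp 0 := by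
      have p1 : 0 ≤ K * ker 64 (-(d : ℝ) / 2) v 0 := by have := ker_pos (-(d : ℝ) / 2) v 0; positivity
      have p2 : 0 ≤ K' * expo ζ 0 := by have := expo_pos (by omega : 1 ≤ d) ζ 0; positivity
      have : Hfun K K' ζ 0 = g0 + (K * ker 64 (-(d : ℝ) / 2) v 0 + K' * expo ζ 0) := rfl
      exact (by linarith : g0 ≤ Hfun K K' ζ 0).trans (le_max_left _ _)
    have e2 : t * f 0 = -(t * (θ * Hp 0) + t * (lam * Fp 0)) := by
      simp only [hf]; ring
    rw [e1, e2]
    have q1 : t * (θ * g0) ≤ t * (θ * Hp 0) := by gcongr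
    have q2 : 0 ≤ t * (lam * Fp 0) := by have := hFp0 0; positivity
    have q3 : θ * ∑ x ∈ A, Hp x ≤ θ * (N * g0 + S1 * (1 + Real.log ρ)) := by gcongr
    have q4 : lam * ∑ x ∈ A, Fp x ≤ lam * (S2 * budget d ρ) := by gcongr
    have q5 : c0 * (t - N) * ρ ^ (-((d : ℝ) - 1)) ≤ (t - N) * g0 := by
      calc c0 * (t - N) * ρ ^ (-((d : ℝ) - 1)) = (t - N) * (c0 * ρ ^ (-((d : ℝ) - 1))) := by ring
        _ ≤ (t - N) * g0 := mul_le_mul_of_nonneg_left hgg (by linarith)
    have q6 : θ * (c0 * (t - N) * ρ ^ (-((d : ℝ) - 1))) ≤ θ * ((t - N) * g0) := by gcongr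
    have q7 : 0 ≤ C3 * S2 * (θ * (1 + Real.log ρ)) := by positivity
    have hb := one_le_budget d hζ1
    have q8 : 0 ≤ S1 * θ ^ 2 * budget d ρ := by positivity
    have e3 : lam * (S2 * budget d ρ) = C3 * S2 * θ ^ 2 * budget d ρ := by rw [hlam]; ring
    rw [e3] at q4
    nlinarith

end BIDLA
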