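import Mathlib
import Pool.Agent.Work.MP_1354f0_pr.Lattice
import Pool.Agent.Work.MP_1354f0_pr.Defs

/-!
The number of lattice points in a ball compared with the volume.
-/

namespace BIDLA

open Real Finset MeasureTheory

variable {d : ℕ}

lemma unitVol_pos : 0 < unitVol d := by
  unfold unitVol
  apply ENNReal.toReal_pos
  · exact (Metric.measure_ball_pos volume _ one_pos).ne'
  · exact measure_ball_lt_top.ne

lemma volume_ball_eq (hd : 1 ≤ d) {R : ℝ} (hR : 0 ≤ R) :
    volume (Metric.ball (0 : EuclideanSpace ℝ (Fin d)) R) = ENNReal.ofReal (unitVol d * R ^ d) := by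
  haveI : Nonempty (Fin d) := ⟨⟨0, hd⟩⟩
  rw [Measure.addHaar_ball _ _ hR, finrank_euclideanSpace_fin, mul_comm,
    ENNReal.ofReal_mul unitVol_pos.le]
  unfold unitVol
  rw [ENNReal.ofReal_toReal measure_ball_lt_top.ne]

/-- half-open unit cube with corner `x` -/
def cube (x : Site d) : Set (EuclideanSpace ℝ (Fin d)) :=
  {y | ∀ i, (x i : ℝ) ≤ y i ∧ y i < x i + 1}

lemma cube_eq (x : Site d) : cube x = (WithLp.ofLp) ⁻¹'
    (Set.pi Set.univ (fun i => Set.Ico (x i : ℝ) (x i + 1))) := by
  ext y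
  simp [cube, Set.mem_pi]

lemma measurableSet_cube (x : Site d) : MeasurableSet (cube x) := by
  rw [cube_eq]
  exact (PiLp.volume_preserving_ofLp (Fin d)).measurable
    (MeasurableSet.univ_pi fun i => measurableSet_Ico)

lemma volume_cube (x : Site d) : volume (cube x) = 1 := by
  rw [cube_eq, (PiLp.volume_preserving_ofLp (Fin d)).measure_preimage
    (MeasurableSet.univ_pi fun i => measurableSet_Ico).nullMeasurableSet, Real.volume_pi_Ico]
  simp

lemma cube_disjoint : Pairwise (Function.onFun Disjoint (cube (d := d))) := by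
  intro x y hxy
  rw [Function.onFun, Set.disjoint_left]
  intro z hz hz'
  apply hxy
  funext i
  have h1 := hz i
  have h2 := hz' i
  have h3 : (x i : ℝ) < y i + 1 := by linarith [h1.1, h2.2]
  have h4 : (y i : ℝ) < x i + 1 := by linarith [h1.2, h2.1]
  have h3' : x i < y i + 1 := by exact_mod_cast h3
  have h4' : y i < x i + 1 := by exact_mod_cast h4
  omega

lemma dist_cube {x : Site d} {y : EuclideanSpace ℝ (Fin d)} (hy : y ∈ cube x) :
    ‖y - toE x‖ ≤ √d := by
  apply Real.le_sqrt_of_sq_le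
  rw [EuclideanSpace.real_norm_sq_eq]
  calc ∑ i, (y - toE x) i ^ 2 ≤ ∑ _i : Fin d, (1 : ℝ) := by
        refine Finset.sum_le_sum fun i _ => ?_
        have h := hy i
        have e : (y - toE x) i = y i - x i := by simp [toE]
        rw [e]
        nlinarith [h.1, h.2]
    _ = d := by simp

lemma volume_iUnion_cube (S : Finset (Site d)) : volume (⋃ x ∈ S, cube x) = S.card := by
  rw [measure_biUnion_finset]
  · simp [volume_cube]
  · intro x _ y _ hxy
    exact cube_disjoint hxy
  · intro x _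
    exact measurableSet_cube x

lemma card_ballF_zero_le (hd : 1 ≤ d) {ρ : ℝ} (hρ : 0 ≤ ρ) :
    ((ballF (0 : EuclideanSpace ℝ (Fin d)) ρ).card : ℝ) ≤ unitVol d * (ρ + √d) ^ d := by
  have h1 : (⋃ x ∈ ballF (0 : EuclideanSpace ℝ (Fin d)) ρ, cube x) ⊆ Metric.ball 0 (ρ + √d) := by
    intro y hy
    simp only [Set.mem_iUnion] at hy
    obtain ⟨x, hx, hy⟩ := hy
    rw [mem_ballF, sub_zero] at hx
    rw [mem_ball_zero_iff]
    have h2 := dist_cube hy
    have h3 : ‖y‖ ≤ ‖y - toE x‖ + ‖toE x‖ := by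
      simpa using norm_add_le (y - toE x) (toE x)
    linarith
  have h2 := measure_mono (μ := volume) h1
  rw [volume_iUnion_cube, volume_ball_eq hd (by positivity)] at h2
  have h3 := ENNReal.toReal_mono ENNReal.ofReal_ne_top h2
  rw [ENNReal.toReal_natCast, ENNReal.toReal_ofReal] at h3
  · exact h3
  · have := unitVol_pos (d := d)
    positivity

lemma le_card_ballF_zero (hd : 1 ≤ d) {ρ : ℝ} (hρ : √d ≤ ρ) :
    unitVol d * (ρ - √d) ^ d ≤ ((ballF (0 : EuclideanSpace ℝ (Fin d)) ρ).card : ℝ) := by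
  have h1 : Metric.ball 0 (ρ - √d) ⊆ (⋃ x ∈ ballF (0 : EuclideanSpace ℝ (Fin d)) ρ, cube x) := by
    intro y hy
    rw [mem_ball_zero_iff] at hy
    set x : Site d := fun i => ⌊y i⌋ with hx
    have hyx : y ∈ cube x := by
      intro i
      exact ⟨Int.floor_le _, Int.lt_floor_add_one _⟩
    simp only [Set.mem_iUnion]
    refine ⟨x, ?_, hyx⟩
    rw [mem_ballF, sub_zero]
    have h2 := dist_cube hyx
    have h3 : ‖toE x‖ ≤ ‖y - toE x‖ + ‖y‖ := by
      have := norm_sub_le y (y - toE x)
      rw [sub_sub_cancel] at this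
      linarith
    linarith
  have h2 := measure_mono (μ := volume) h1
  rw [volume_iUnion_cube, volume_ball_eq hd (by linarith)] at h2
  have h3 := ENNReal.toReal_mono (ENNReal.natCast_ne_top _) h2
  rw [ENNReal.toReal_natCast, ENNReal.toReal_ofReal] at h3
  · exact h3
  · have := unitVol_pos (d := d)
    have : 0 ≤ ρ - √d := by linarith
    positivity

end BIDLA
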