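import Mathlib
import Pool.Agent.Work.MP_1354f0_pr.Volume
import Pool.Agent.Work.MP_1354f0_pr.InnerC

/-!
Facts about the radius, and the choice of parameters for the inner bound.
-/

namespace BIDLA

open Filter Real

variable {d : ℕ}

lemma radius_nonneg (d : ℕ) {t : ℝ} (ht : 0 ≤ t) : 0 ≤ radius d t :=
  Real.rpow_nonneg (div_nonneg ht unitVol_pos.le) _

lemma radius_pow (hd : 1 ≤ d) {t : ℝ} (ht : 0 ≤ t) : unitVol d * radius d t ^ d = t := by
  unfold radius
  have hd0 : (d : ℝ) ≠ 0 := by positivity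
  have hw := unitVol_pos (d := d)
  rw [← Real.rpow_natCast, ← Real.rpow_mul (div_nonneg ht hw.le), one_div, inv_mul_cancel₀ hd0,
    Real.rpow_one]
  field_simp

lemma radius_mono (hd : 1 ≤ d) {s t : ℝ} (hs : 0 ≤ s) (h : s ≤ t) : radius d s ≤ radius d t := by
  unfold radius
  have hw := unitVol_pos (d := d)
  exact Real.rpow_le_rpow (div_nonneg hs hw.le) (div_le_div_of_nonneg_right h hw.le) (by positivity)

lemma tendsto_radius (hd : 1 ≤ d) : Tendsto (fun t : ℕ => radius d t) atTop atTop := by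
  unfold radius
  have hd0 : (0 : ℝ) < d := by positivity
  refine (tendsto_rpow_atTop (by positivity)).comp ?_
  exact tendsto_natCast_atTop_atTop.atTop_div_const unitVol_pos

lemma pow_sub_pow_ge {a b : ℝ} (hb : 0 ≤ b) (h : b ≤ a) (hd : 1 ≤ d) :
    (a - b) * a ^ (d - 1) ≤ a ^ d - b ^ d := by
  obtain ⟨j, rfl⟩ : ∃ j, d = j + 1 := ⟨d - 1, by omega⟩
  simp only [Nat.add_sub_cancel]
  rw [pow_succ, pow_succ]
  have := mul_le_mul_of_nonneg_right (pow_le_pow_left₀ hb h j) hb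
  linarith

lemma pow_sub_pow_le {a b : ℝ} (hb : 0 ≤ b) (h : b ≤ a) (d : ℕ) :
    a ^ d - b ^ d ≤ d * (a - b) * a ^ (d - 1) := by
  induction d with
  | zero => simp
  | succ j ih =>
    rcases Nat.eq_zero_or_pos j with h0 | h0
    · subst h0; simp
    have e : a ^ (j + 1) - b ^ (j + 1) = a * (a ^ j - b ^ j) + (a - b) * b ^ j := by ring
    rw [e]
    have h1 := mul_le_mul_of_nonneg_left ih (hb.trans h)
    have h2 := mul_le_mul_of_nonneg_left (pow_le_pow_left₀ hb h j) (sub_nonneg.2 h)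
    have e2 : a * (j * (a - b) * a ^ (j - 1)) = j * (a - b) * a ^ j := by
      obtain ⟨i, rfl⟩ : ∃ i, j = i + 1 := ⟨j - 1, by omega⟩
      simp only [Nat.add_sub_cancel]
      ring
    rw [e2] at h1
    simp only [Nat.add_sub_cancel]
    push_cast
    linarith

/-- volume gap -/
lemma vol_gap (hd : 1 ≤ d) {r ρ : ℝ} (hρ : 0 ≤ ρ) (h : ρ + 2 * √d ≤ r) :
    unitVol d / 2 * (r - ρ) * r ^ (d - 1) ≤
      unitVol d * r ^ d - (ballF (0 : EuclideanSpace ℝ (Fin d)) ρ).card := by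
  have hs : 0 ≤ √(d : ℝ) := Real.sqrt_nonneg _
  have h1 := card_ballF_zero_le hd hρ
  have h2 := pow_sub_pow_ge (d := d) (a := r) (b := ρ + √d) (by positivity) (by linarith) hd
  have hw := unitVol_pos (d := d)
  have hr : 0 ≤ r ^ (d - 1) := by have : 0 ≤ r := by linarith
                                  positivity
  have h3 : (r - ρ) / 2 ≤ r - (ρ + √d) := by linarith
  have h4 : (r - ρ) / 2 * r ^ (d - 1) ≤ (r - (ρ + √d)) * r ^ (d - 1) :=
    mul_le_mul_of_nonneg_right h3 hr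
  nlinarith [mul_le_mul_of_nonneg_left (h4.trans h2) hw.le]

/-- scale of the inner deviation -/
noncomputable def gI (d : ℕ) (r : ℝ) : ℝ := if d = 3 then √(r * Real.log r) else Real.log r

lemma rpow_gap {r ρ : ℝ} (hρ : 0 < ρ) (h : ρ ≤ r) (hd : 1 ≤ d) :
    1 ≤ r ^ (d - 1) * ρ ^ (-((d : ℝ) - 1)) := by
  have hr : 0 < r := hρ.trans_le h
  have h1 : ρ ^ ((d : ℝ) - 1) ≤ r ^ ((d : ℝ) - 1) :=
    Real.rpow_le_rpow hρ.le h (by have : (1 : ℝ) ≤ d := by exact_mod_cast hd
                                  linarith)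
  have e1 : r ^ (d - 1) = r ^ ((d : ℝ) - 1) := by
    rw [← Real.rpow_natCast, Nat.cast_sub hd, Nat.cast_one]
  rw [e1, Real.rpow_neg hρ.le, ← div_eq_mul_inv, one_le_div (Real.rpow_pos_of_pos hρ _)]
  exact h1

end BIDLA
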