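import Mathlib
import Pool.Agent.Work.MP_1354f0_pr.Radius

/-!
Choice of parameters for the inner bound.
-/

namespace BIDLA

open Filter Real

variable {d : ℕ}

lemma log_le_sqrt_mul {r : ℝ} (hr : 1 ≤ r) : Real.log r ≤ √(r * Real.log r) := by
  have h0 := Real.log_nonneg hr
  apply Real.le_sqrt_of_sq_le
  have : Real.log r ≤ r := (Real.log_le_sub_one_of_pos (by linarith)).trans (by linarith)
  nlinarith

/-- Choice of parameters for the inner bound. -/
lemma inner_exponent (d : ℕ) (hd : 3 ≤ d) {θ0 c C : ℝ} (hθ0 : 0 < θ0) (hc : 0 < c) (hC : 0 ≤ C) :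
    ∃ K R0 : ℝ, 0 < K ∧ 1 ≤ R0 ∧ ∀ r, R0 ≤ r → ∀ ρ, 1 ≤ ρ → ρ < r - K * gI d r →
      ∃ θ, 0 < θ ∧ θ ≤ θ0 ∧ ((ballF (0 : EuclideanSpace ℝ (Fin d)) ρ).card : ℝ) ≤ unitVol d * r ^ d ∧
        8 * d * Real.log r ≤
          θ * (c * (unitVol d * r ^ d - (ballF (0 : EuclideanSpace ℝ (Fin d)) ρ).card)
          * ρ ^ (-((d : ℝ) - 1)) - C * (1 + Real.log ρ)) - C * θ ^ 2 * budget d ρ := by
  have hd1 : 1 ≤ d := by omega
  have hd3 : (3 : ℝ) ≤ d := by exact_mod_cast hd
  have hw := unitVol_pos (d := d)
  set c' : ℝ := c * unitVol d / 2 with hc'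
  have hc'0 : 0 < c' := by positivity
  have hs0 : 0 ≤ √(d : ℝ) := Real.sqrt_nonneg _
  -- common lower bound
  have common : ∀ r ρ : ℝ, 1 ≤ ρ → ρ + 2 * √d ≤ r → 1 ≤ Real.log r → ∀ θ, 0 < θ →
      θ * (c' * (r - ρ) - 2 * C * Real.log r) - C * θ ^ 2 * budget d ρ ≤
      θ * (c * (unitVol d * r ^ d - (ballF (0 : EuclideanSpace ℝ (Fin d)) ρ).card)
          * ρ ^ (-((d : ℝ) - 1)) - C * (1 + Real.log ρ)) - C * θ ^ 2 * budget d ρ := by
    intro r ρ hρ h hlog θ hθ
    have hρ0 : 0 < ρ := by linarith
    have hρr : ρ ≤ r := by linarith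
    have hr0 : 0 < r := by linarith
    have h1 := vol_gap hd1 hρ0.le h
    have h2 := rpow_gap hρ0 hρr hd1
    have hp : 0 < ρ ^ (-((d : ℝ) - 1)) := Real.rpow_pos_of_pos hρ0 _
    have h3 : c' * (r - ρ) ≤ c * (unitVol d * r ^ d
        - (ballF (0 : EuclideanSpace ℝ (Fin d)) ρ).card) * ρ ^ (-((d : ℝ) - 1)) := by
      have h4 := mul_le_mul_of_nonneg_right h1 hp.le
      have h5 : 0 ≤ unitVol d / 2 * (r - ρ) := by
        have : 0 ≤ r - ρ := by linarith
        positivity
      have h6 := mul_le_mul_of_nonneg_left h2 h5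
      have h7 : unitVol d / 2 * (r - ρ) ≤ (unitVol d * r ^ d
        - (ballF (0 : EuclideanSpace ℝ (Fin d)) ρ).card) * ρ ^ (-((d : ℝ) - 1)) := by
        calc _ = unitVol d / 2 * (r - ρ) * 1 := by ring
          _ ≤ _ := h6
          _ = unitVol d / 2 * (r - ρ) * r ^ (d - 1) * ρ ^ (-((d : ℝ) - 1)) := by ring
          _ ≤ _ := h4
      have h8 := mul_le_mul_of_nonneg_left h7 hc.le
      calc c' * (r - ρ) = c * (unitVol d / 2 * (r - ρ)) := by rw [hc']; ring
        _ ≤ _ := h8
        _ = _ := by ring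
    have h9 : C * (1 + Real.log ρ) ≤ 2 * C * Real.log r := by
      have : Real.log ρ ≤ Real.log r := Real.log_le_log hρ0 hρr
      nlinarith
    have h10 := mul_le_mul_of_nonneg_left (sub_le_sub h3 h9) hθ.le
    linarith
  -- monotonicity for membership
  have hcard : ∀ r ρ : ℝ, 1 ≤ ρ → ρ + 2 * √d ≤ r →
      ((ballF (0 : EuclideanSpace ℝ (Fin d)) ρ).card : ℝ) ≤ unitVol d * r ^ d := by
    intro r ρ hρ h
    have h1 := vol_gap hd1 (by linarith) h
    have hr0 : 0 < r := by linarith
    have : 0 ≤ unitVol d / 2 * (r - ρ) * r ^ (d - 1) := by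
      have : 0 ≤ r - ρ := by linarith
      positivity
    linarith
  have hev : ∀ᶠ r : ℝ in atTop, 1 ≤ Real.log r :=
    Real.tendsto_log_atTop.eventually_ge_atTop 1
  by_cases h3 : d = 3
  · -- dimension three
    set η : ℝ := c' / (2 * C + 1) with hη
    have hη0 : 0 < η := by positivity
    have hηC : C * η ≤ c' / 2 := by
      rw [hη, mul_div_assoc', div_le_div_iff₀ (by positivity) (by norm_num)]
      nlinarith
    set K : ℝ := 8 * C / c' + 8 * d / (η * c') * 4 + 2 * √d + 1 with hK
    have hK1 : 1 ≤ K := by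
      rw [hK]
      have : 0 ≤ 8 * C / c' := by positivity
      have : 0 ≤ 8 * (d : ℝ) / (η * c') * 4 := by positivity
      linarith
    have hK0 : 0 < K := by linarith
    have hKa : 8 * C ≤ K * c' := by
      have : 8 * C / c' ≤ K := by
        rw [hK]
        have : 0 ≤ 8 * (d : ℝ) / (η * c') * 4 := by positivity
        linarith
      rwa [div_le_iff₀ hc'0] at this
    have hKb : 8 * d ≤ η * K ^ 2 * c' / 4 := by
      have h4 : 8 * (d : ℝ) / (η * c') * 4 ≤ K := by
        rw [hK]
        have : 0 ≤ 8 * C / c' := by positivity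
        linarith
      rw [div_mul_eq_mul_div, div_le_iff₀ (by positivity)] at h4
      have h5 : K ≤ K ^ 2 := by nlinarith
      have h6 := mul_le_mul_of_nonneg_right h5 (by positivity : 0 ≤ η * c')
      linarith
    have hKc : 2 * √(d : ℝ) ≤ K := by
      rw [hK]
      have : 0 ≤ 8 * C / c' := by positivity
      have : 0 ≤ 8 * (d : ℝ) / (η * c') * 4 := by positivity
      linarith
    -- θ small
    have hlim : Tendsto (fun r : ℝ => Real.log r / r) atTop (nhds 0) := by
      have := Real.isLittleO_log_id_atTop.tendsto_div_nhds_zero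
      exact this
    have hev2 : ∀ᶠ r : ℝ in atTop, Real.log r / r ≤ (θ0 / (η * K)) ^ 2 :=
      hlim.eventually (ge_mem_nhds (by positivity))
    obtain ⟨R1, hR1⟩ := eventually_atTop.1 (hev.and hev2)
    refine ⟨K, max R1 1, hK0, le_max_right _ _, ?_⟩
    intro r hr ρ hρ hρr
    have hr1 : 1 ≤ r := (le_max_right _ _).trans hr
    have hr0 : 0 < r := by linarith
    obtain ⟨hlog, hsmall⟩ := hR1 r ((le_max_left _ _).trans hr)
    have hgI : gI d r = √(r * Real.log r) := by unfold gI; rw [if_pos h3]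
    rw [hgI] at hρr
    set q := √(r * Real.log r) with hq
    have hlq : Real.log r ≤ q := log_le_sqrt_mul hr1
    have hq1 : 1 ≤ q := hlog.trans hlq
    have hq2 : q ^ 2 = r * Real.log r := by
      rw [hq, Real.sq_sqrt]; have := hlog; positivity
    have hlogr : Real.log r ≤ r := (Real.log_le_sub_one_of_pos (by linarith)).trans (by linarith)
    have hqr : q ≤ r := by
      have : q ^ 2 ≤ r ^ 2 := by rw [hq2]; nlinarith
      exact (sq_le_sq₀ (by positivity) hr0.le).1 this
    have hgap : ρ + 2 * √d ≤ r := by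
      have : K ≤ K * q := le_mul_of_one_le_right hK0.le hq1
      linarith
    refine ⟨η * K * q / r, by positivity, ?_, hcard r ρ hρ hgap, ?_⟩
    · -- θ ≤ θ0
      have h4 : (q / r) ^ 2 = Real.log r / r := by
        rw [div_pow, hq2]; field_simp
      have h5 : q / r ≤ θ0 / (η * K) := by
        refine (sq_le_sq₀ (by positivity) (by positivity)).1 ?_
        rw [h4]; exact hsmall
      rw [le_div_iff₀ (by positivity)] at h5
      calc η * K * q / r = q / r * (η * K) := by ring
        _ ≤ θ0 := h5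
    · refine le_trans ?_ (common r ρ hρ hgap hlog _ (by positivity))
      have hb : budget d ρ ≤ r := by
        unfold budget; rw [if_pos h3]; linarith [Real.sqrt_nonneg (d : ℝ)]
      have hθ2 : 0 ≤ C * (η * K * q / r) ^ 2 := by positivity
      have h6 := mul_le_mul_of_nonneg_left hb hθ2
      have h7 : C * (η * K * q / r) ^ 2 * r = C * η ^ 2 * K ^ 2 * Real.log r := by
        rw [div_pow, mul_pow, mul_pow, hq2]; field_simp
      have h8 : K * q ≤ r - ρ := by linarith
      have h9 : η * K * q / r * (c' * (K * q) - 2 * C * Real.log r)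
          ≤ η * K * q / r * (c' * (r - ρ) - 2 * C * Real.log r) := by
        apply mul_le_mul_of_nonneg_left _ (by positivity)
        have := mul_le_mul_of_nonneg_left h8 hc'0.le
        linarith
      have h10 : η * K * q / r * (c' * (K * q) - 2 * C * Real.log r)
          = η * K ^ 2 * c' * Real.log r - 2 * C * η * K * Real.log r * (q / r) := by
        have : η * K * q / r * (c' * (K * q)) = η * K ^ 2 * c' * (q ^ 2 / r) := by ring
        rw [mul_sub, this, hq2]
        have h11 : r * Real.log r / r = Real.log r := by field_simp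
        rw [h11]; ring
      have h12 : 2 * C * η * K * Real.log r * (q / r) ≤ 2 * C * η * K * Real.log r := by
        apply mul_le_of_le_one_right (by have := hlog; positivity)
        rw [div_le_one hr0]; exact hqr
      have h13 : 2 * C * η * K ≤ η * K ^ 2 * c' / 4 := by
        have := mul_le_mul_of_nonneg_left hKa (by positivity : 0 ≤ η * K)
        linarith
      have h14 : C * η ^ 2 * K ^ 2 ≤ η * K ^ 2 * c' / 2 := by
        have := mul_le_mul_of_nonneg_left hηC (by positivity : 0 ≤ η * K ^ 2)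
        linarith
      have h15 := mul_le_mul_of_nonneg_right h13 (by linarith : 0 ≤ Real.log r)
      have h16 := mul_le_mul_of_nonneg_right h14 (by linarith : 0 ≤ Real.log r)
      have h17 := mul_le_mul_of_nonneg_right hKb (by linarith : 0 ≤ Real.log r)
      linarith
  · -- dimension at least four
    set K : ℝ := (8 * d + 2 * C * θ0 + 2 * C * θ0 ^ 2) / (c' * θ0) + 2 * √d + 1 with hK
    have hK0 : 0 < K := by positivity
    have hKa : 8 * d + 2 * C * θ0 + 2 * C * θ0 ^ 2 ≤ K * (c' * θ0) := by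
      have : (8 * d + 2 * C * θ0 + 2 * C * θ0 ^ 2) / (c' * θ0) ≤ K := by
        rw [hK]; linarith
      rwa [div_le_iff₀ (by positivity)] at this
    have hKc : 2 * √(d : ℝ) ≤ K := by
      rw [hK]
      have : 0 ≤ (8 * d + 2 * C * θ0 + 2 * C * θ0 ^ 2) / (c' * θ0) := by positivity
      linarith
    obtain ⟨R1, hR1⟩ := eventually_atTop.1 hev
    refine ⟨K, max R1 1, hK0, le_max_right _ _, ?_⟩
    intro r hr ρ hρ hρr
    have hr1 : 1 ≤ r := (le_max_right _ _).trans hr
    have hr0 : 0 < r := by linarith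
    have hlog := hR1 r ((le_max_left _ _).trans hr)
    have hgI : gI d r = Real.log r := by unfold gI; rw [if_neg h3]
    rw [hgI] at hρr
    have hgap : ρ + 2 * √d ≤ r := by
      have : K ≤ K * Real.log r := le_mul_of_one_le_right hK0.le hlog
      linarith
    refine ⟨θ0, hθ0, le_rfl, hcard r ρ hρ hgap, ?_⟩
    refine le_trans ?_ (common r ρ hρ hgap hlog _ hθ0)
    have hb : budget d ρ ≤ 2 * Real.log r := by
      have hlr : Real.log ρ ≤ Real.log r := Real.log_le_log (by linarith) (by linarith)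
      unfold budget; rw [if_neg h3]
      split_ifs <;> linarith
    have h6 := mul_le_mul_of_nonneg_left hb (by positivity : 0 ≤ C * θ0 ^ 2)
    have h8 : K * Real.log r ≤ r - ρ := by linarith
    have h9 : θ0 * (c' * (K * Real.log r) - 2 * C * Real.log r)
        ≤ θ0 * (c' * (r - ρ) - 2 * C * Real.log r) := by
      apply mul_le_mul_of_nonneg_left _ hθ0.le
      have := mul_le_mul_of_nonneg_left h8 hc'0.le
      linarith
    have h10 := mul_le_mul_of_nonneg_right hKa (by linarith : 0 ≤ Real.log r)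
    linarith

end BIDLA
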