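import Mathlib
import Pool.Agent.Work.MP_1354f0_pr.CrudeB
import Pool.Agent.Work.MP_1354f0_pr.InnerD
import Pool.Agent.Work.MP_1354f0_pr.InnerE

/-!
The inner bound.
-/

namespace BIDLA

open MeasureTheory Filter
open scoped ENNReal

variable {d : ℕ} {ν : PMF ℕ} {Ω : Type*} [MeasurableSpace Ω] {P : Measure Ω} (X : Process d ν P)

namespace Process

lemma site_ne_of_notMem {t k : ℕ} {ω : Ω} (hk : ω ∈ X.Done t k) {ζ : Site d}
    (hζ : ζ ∉ X.A t ω) : ∀ j < k, X.site j ω ≠ ζ := by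
  intro j hj h
  apply hζ
  rw [X.A_of_done hk, ← h]
  exact X.agg_mono hj.le ω (X.site_mem_agg j ω)

lemma site_mem_A {t k : ℕ} {ω : Ω} (hk : ω ∈ X.Done t k) : ∀ j < k, X.site j ω ∈ X.A t ω := by
  intro j hj
  rw [X.A_of_done hk]
  exact X.agg_mono hj.le ω (X.site_mem_agg j ω)

lemma zero_mem_A {t k : ℕ} {ω : Ω} (hk : ω ∈ X.Done t k) : (0 : Site d) ∈ X.A t ω := by
  rw [X.A_of_done hk]; exact (X.inv k ω).1

/-- probability bound for a single site -/
theorem inner_site [IsProbabilityMeasure P] (H : HypH ν) (hd : 3 ≤ d) :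
    ∃ K R0 : ℝ, 0 < K ∧ 1 ≤ R0 ∧ ∀ t : ℕ, R0 ≤ radius d t → ∀ ζ : Site d,
      ‖toE ζ‖ < radius d t - K * gI d (radius d t) →
      P {ω | (∃ k, ω ∈ X.Done t k) ∧ ζ ∉ X.A t ω} ≤
        ENNReal.ofReal (Real.exp (-(8 * d * Real.log (radius d t)))) := by
  obtain ⟨Cν, κ, hCν, hκ, hstep⟩ := stepLe_of_lap ν H
  obtain ⟨θ0, c, C, hθ0, hc, hC, hf⟩ := inner_fun d hd Cν κ hCν hκ
  obtain ⟨K, R0, hK, hR0, hexp⟩ := inner_exponent d hd hθ0 hc hC
  refine ⟨K, R0, hK, hR0, ?_⟩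
  intro t ht ζ hζ
  by_cases h0 : ζ = 0
  · have : {ω | (∃ k, ω ∈ X.Done t k) ∧ ζ ∉ X.A t ω} = ∅ := by
      rw [Set.eq_empty_iff_forall_notMem]
      rintro ω ⟨⟨k, hk⟩, hz⟩
      rw [h0] at hz
      exact hz (X.zero_mem_A hk)
    rw [this, measure_empty]; exact zero_le
  have hρ1 : 1 ≤ ‖toE ζ‖ := one_le_norm_toE h0
  obtain ⟨θ, hθ, hθ1, hcard, hlow⟩ := hexp _ ht _ hρ1 hζ
  obtain ⟨f, hf1, hf2, hf3⟩ := hf ζ h0 θ hθ hθ1
  have hrp : unitVol d * radius d (t : ℝ) ^ d = t := radius_pow (by omega) (Nat.cast_nonneg t)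
  refine X.prob_le (f := f) (c := fun _ => 0) (V := {v | v ≠ ζ}) ?_ t _ _ ?_
  · intro v hv
    refine hstep d (by omega) f _ v (fun e => hf1 _) (fun e => ?_)
    have := hf2 v hv e
    linarith
  · rintro ω ⟨⟨k, hk⟩, hz⟩
    refine ⟨k, hk, X.site_ne_of_notMem hk hz, ?_⟩
    rw [hrp] at hcard hlow
    have := hf3 (X.A t ω) hz t hcard
    simp only [Finset.sum_const_zero, add_zero]
    exact hlow.trans this

/-- **Inner bound**: almost surely, `B_{r(t) - K g(r(t))} ⊆ A(t)` eventually. -/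
theorem inner_as [IsProbabilityMeasure P] (H : HypH ν) (hd : 3 ≤ d) : ∃ K : ℝ, 0 < K ∧
    ∀ᵐ ω ∂P, ∀ᶠ t : ℕ in atTop, ∀ ζ : Site d,
      ‖toE ζ‖ < radius d t - K * gI d (radius d t) → ζ ∈ X.A t ω := by
  obtain ⟨K, R0, hK, hR0, hb⟩ := X.inner_site (P := P) H hd
  refine ⟨K, hK, ?_⟩
  have hw := unitVol_pos (d := d)
  have hd1 : 1 ≤ d := by omega
  have hd3 : (3 : ℝ) ≤ d := by exact_mod_cast hd
  -- eventually the radius is large
  have hev : ∀ᶠ t : ℕ in atTop, max R0 (max (unitVol d) 1) ≤ radius d t :=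
    (tendsto_radius hd1).eventually_ge_atTop _
  obtain ⟨T, hT⟩ := eventually_atTop.1 hev
  set E : ℕ → Set Ω := fun t => {ω | (∃ k, ω ∈ X.Done t k) ∧
    ∃ ζ : Site d, ‖toE ζ‖ < radius d t - K * gI d (radius d t) ∧ ζ ∉ X.A t ω} with hE
  have hsum : Summable fun t : ℕ => 3 ^ d * (unitVol d)⁻¹ * (1 / (t : ℝ) ^ 2) :=
    (Real.summable_one_div_nat_pow.2 (by norm_num)).mul_left _
  have hbc : ∀ᵐ ω ∂P, ∀ᶠ t in atTop, ω ∉ E t := by
    refine bc hsum (max T 1) ?_
    intro t ht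
    have ht1 : 1 ≤ t := (le_max_right _ _).trans ht
    have ht0 : (0 : ℝ) < t := by exact_mod_cast ht1
    have hr := hT t ((le_max_left _ _).trans ht)
    set r := radius d t with hrd
    have hr0 : R0 ≤ r := (le_max_left _ _).trans hr
    have hrw : unitVol d ≤ r := (le_max_left _ _).trans ((le_max_right _ _).trans hr)
    have hr1 : 1 ≤ r := (le_max_right _ _).trans ((le_max_right _ _).trans hr)
    have hrp : unitVol d * r ^ d = t := radius_pow hd1 (Nat.cast_nonneg t)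
    have hgI : 0 ≤ K * gI d r := by
      have : 0 ≤ gI d r := by
        unfold gI; split_ifs
        · exact Real.sqrt_nonneg _
        · exact Real.log_nonneg hr1
      positivity
    have hsub : E t ⊆ ⋃ ζ ∈ (ballF (0 : EuclideanSpace ℝ (Fin d)) r),
        (if ‖toE ζ‖ < r - K * gI d r then {ω | (∃ k, ω ∈ X.Done t k) ∧ ζ ∉ X.A t ω} else ∅) := by
      rintro ω ⟨hk, ζ, hζ1, hζ2⟩
      simp only [Set.mem_iUnion]
      refine ⟨ζ, ?_, ?_⟩
      · rw [mem_ballF, sub_zero]; linarith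
      · rw [if_pos hζ1]; exact ⟨hk, hζ2⟩
    have hlogt : 3 * Real.log t ≤ 8 * d * Real.log r := by
      have h1 : (t : ℝ) ≤ r ^ (d + 1) := by
        rw [← hrp, pow_succ, mul_comm]
        exact mul_le_mul_of_nonneg_left hrw (by positivity)
      have h2 : Real.log t ≤ (d + 1) * Real.log r := by
        have := Real.log_le_log ht0 h1
        rw [Real.log_pow] at this
        push_cast at this
        exact this
      have h3 := Real.log_nonneg hr1
      nlinarith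
    have hexp : Real.exp (-(8 * d * Real.log r)) ≤ 1 / (t : ℝ) ^ 3 := by
      calc Real.exp (-(8 * d * Real.log r)) ≤ Real.exp (-(3 * Real.log t)) :=
            Real.exp_le_exp.2 (by linarith)
        _ = 1 / (t : ℝ) ^ 3 := by
            rw [Real.exp_neg, show 3 * Real.log (t : ℝ) = Real.log ((t : ℝ) ^ 3) by
              rw [Real.log_pow]; norm_num, Real.exp_log (by positivity), one_div]
    calc P (E t) ≤ ∑ ζ ∈ ballF (0 : EuclideanSpace ℝ (Fin d)) r,
          P (if ‖toE ζ‖ < r - K * gI d r then {ω | (∃ k, ω ∈ X.Done t k) ∧ ζ ∉ X.A t ω} else ∅) :=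
          (measure_mono hsub).trans (measure_biUnion_finset_le _ _)
      _ ≤ ∑ _ζ ∈ ballF (0 : EuclideanSpace ℝ (Fin d)) r, ENNReal.ofReal (1 / (t : ℝ) ^ 3) := by
          refine Finset.sum_le_sum fun ζ _ => ?_
          split_ifs with h
          · exact (hb t hr0 ζ h).trans (ENNReal.ofReal_le_ofReal hexp)
          · rw [measure_empty]; exact zero_le
      _ = ENNReal.ofReal (((ballF (0 : EuclideanSpace ℝ (Fin d)) r).card : ℝ) * (1 / (t : ℝ) ^ 3)) := by
          rw [Finset.sum_const, nsmul_eq_mul, ENNReal.ofReal_mul (Nat.cast_nonneg _),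
            ENNReal.ofReal_natCast]
      _ ≤ _ := by
          apply ENNReal.ofReal_le_ofReal
          have h1 := card_ballF_le (0 : EuclideanSpace ℝ (Fin d)) hr1
          have h2 : (3 : ℝ) ^ d * r ^ d = 3 ^ d * (unitVol d)⁻¹ * t := by
            rw [← hrp]; field_simp
          rw [h2] at h1
          calc _ ≤ (3 ^ d * (unitVol d)⁻¹ * t) * (1 / (t : ℝ) ^ 3) :=
                mul_le_mul_of_nonneg_right h1 (by positivity)
            _ = _ := by field_simp
  filter_upwards [hbc, X.ae_done H hd1] with ω h1 h2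
  filter_upwards [h1, eventually_ge_atTop 1] with t h3 h4 ζ hζ
  by_contra hcon
  exact h3 ⟨h2 t h4, ζ, hζ, hcon⟩

end Process

end BIDLA
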