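import Mathlib
import Pool.Agent.Work.MP_1354f0_pr.CrudeB

/-!
Linear expectations of the list of steps, and the count process.
-/

namespace BIDLA

open MeasureTheory
open scoped ENNReal

variable {d : ℕ}

lemma sum_coord (n : ℕ) (i : Fin n) (g : Dir d → ℝ≥0∞) :
    ∑ u : Fin n → Dir d, g (u i) = (2 * d) ^ (n - 1) * ∑ e, g e := by
  have h := Finset.prod_univ_sum (fun _ : Fin n => (Finset.univ : Finset (Dir d)))
    (fun j e => if j = i then g e else 1)
  rw [Fintype.piFinset_univ] at h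
  have h1 : ∀ u : Fin n → Dir d, ∏ j, (if j = i then g (u j) else 1) = g (u i) := by
    intro u
    rw [Finset.prod_ite_eq']
    simp
  simp_rw [h1] at h
  rw [← h]
  have h2 : ∀ j : Fin n, ∑ e : Dir d, (if j = i then g e else 1)
      = if j = i then ∑ e, g e else (2 * d : ℝ≥0∞) := by
    intro j
    split_ifs
    · rfl
    · rw [Finset.sum_const, Finset.card_univ, card_dir, nsmul_eq_mul, mul_one]; push_cast; rfl
  simp_rw [h2]
  rw [Finset.prod_ite, Finset.prod_const, Finset.prod_const]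
  have h3 : (Finset.univ.filter fun j : Fin n => j = i) = {i} := by ext; simp
  have h4 : (Finset.univ.filter fun j : Fin n => ¬ j = i).card = n - 1 := by
    rw [Finset.filter_ne']
    simp
  rw [h3, h4, Finset.card_singleton, pow_one, mul_comm]

/-- linear expectation -/
lemma tsum_list_linear (ν : PMF ℕ) (H : HypH ν) (hd : 1 ≤ d) (g : Dir d → ℝ≥0∞) :
    ∑' w : List (Dir d), lw ν d w * (w.map g).sum = (∑ e, g e) / (2 * d) := by
  rw [← (List.equivSigmaTuple (α := Dir d)).symm.tsum_eq, ENNReal.tsum_sigma']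
  have h2d0 : (2 * d : ℝ≥0∞) ≠ 0 := by simp; omega
  have h2dt : (2 * d : ℝ≥0∞) ≠ ⊤ := ENNReal.mul_ne_top (by simp) (by simp)
  have e1 : ∀ n : ℕ, ∑' u : Fin n → Dir d, lw ν d ((List.equivSigmaTuple (α := Dir d)).symm ⟨n, u⟩) *
      (((List.equivSigmaTuple (α := Dir d)).symm ⟨n, u⟩).map g).sum
      = (n * ν n) * ((∑ e, g e) / (2 * d)) := by
    intro n
    have e2 : ∀ u : Fin n → Dir d, lw ν d ((List.equivSigmaTuple (α := Dir d)).symm ⟨n, u⟩) *
      (((List.equivSigmaTuple (α := Dir d)).symm ⟨n, u⟩).map g).sum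
        = ν n / (2 * d) ^ n * ∑ i, g (u i) := by
      intro u
      have : (List.equivSigmaTuple (α := Dir d)).symm ⟨n, u⟩ = List.ofFn u := rfl
      rw [this, lw, List.length_ofFn, List.map_ofFn, List.sum_ofFn]
      rfl
    rw [tsum_congr e2, tsum_fintype, ← Finset.mul_sum, Finset.sum_comm]
    simp_rw [sum_coord]
    rw [Finset.sum_const, Finset.card_univ, Fintype.card_fin, nsmul_eq_mul]
    rcases Nat.eq_zero_or_pos n with h0 | h0
    · subst h0; simp
    · obtain ⟨m, rfl⟩ : ∃ m, n = m + 1 := ⟨n - 1, by omega⟩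
      simp only [Nat.add_sub_cancel]
      rw [ENNReal.div_eq_inv_mul, ENNReal.div_eq_inv_mul, pow_succ, ENNReal.mul_inv
        (Or.inr h2dt) (Or.inr h2d0)]
      have h5 : ((2 * d : ℝ≥0∞) ^ m)⁻¹ * (2 * d) ^ m = 1 :=
        ENNReal.inv_mul_cancel (pow_ne_zero _ h2d0) (ENNReal.pow_ne_top h2dt)
      calc ((2 * d : ℝ≥0∞) ^ m)⁻¹ * (2 * (d:ℝ≥0∞))⁻¹ * ν (m + 1) * (((m + 1 : ℕ) : ℝ≥0∞) *
            ((2 * d) ^ m * ∑ e, g e))
          = (((2 * d : ℝ≥0∞) ^ m)⁻¹ * (2 * d) ^ m) * (((m + 1 : ℕ) : ℝ≥0∞) * ν (m + 1)) *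
            ((2 * (d:ℝ≥0∞))⁻¹ * ∑ e, g e) := by ring
        _ = _ := by rw [h5, one_mul]
  rw [tsum_congr e1, ENNReal.tsum_mul_right]
  have e3 : ∑' n : ℕ, (n : ℝ≥0∞) * ν n = 1 := by
    have h := H.mean_one
    have hs := hyp_summable ν H
    have : ∀ n : ℕ, (n : ℝ≥0∞) * ν n = ENNReal.ofReal ((n : ℝ) * (ν n).toReal) := by
      intro n
      rw [ENNReal.ofReal_mul (Nat.cast_nonneg n), ENNReal.ofReal_natCast,
        ENNReal.ofReal_toReal (ν.apply_ne_top n)]
    rw [tsum_congr this, ← ENNReal.ofReal_tsum_of_nonneg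
      (fun n => mul_nonneg (Nat.cast_nonneg n) ENNReal.toReal_nonneg) hs, h, ENNReal.ofReal_one]
  rw [e3, one_mul]

end BIDLA
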