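import Mathlib
import Pool.Agent.Work.MP_1354f0_pr.Linear
import Pool.Agent.Work.MP_1354f0_pr.Parts
import Pool.Agent.Work.MP_1354f0_pr_h70.MaxPrinciple

/-!
Expected local times, and the bound by the maximum principle.
-/

namespace BIDLA

open MeasureTheory
open scoped ENNReal

variable {d : ℕ}

/-- number of particles (settled or active) at `z` -/
def cnt (z : Site d) (s : State d) : ℕ := (if z ∈ s.agg then 1 else 0) + s.act.count z

lemma cnt_eq_mass (z : Site d) (s : State d) :
    ((cnt z s : ℕ) : ℤ) = mass (fun x => if x = z then (1 : ℤ) else 0) s := by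
  unfold cnt mass
  rw [Finset.sum_ite_eq']
  push_cast
  congr 1
  induction s.act using Multiset.induction_on with
  | empty => simp
  | cons a t ih =>
    rw [Multiset.map_cons, Multiset.sum_cons, ← ih, Multiset.count_cons]
    by_cases h : a = z
    · subst h; simp; ring
    · rw [if_neg h, if_neg (fun h' => h h'.symm)]; simp

lemma measurable_add' {Ω : Type*} (m : MeasurableSpace Ω) {a b : Ω → ℝ≥0∞} (ha : Measurable a)
    (hb : Measurable b) : Measurable fun ω => a ω + b ω := ha.add hb

variable {ν : PMF ℕ} {Ω : Type*} [MeasurableSpace Ω] {P : Measure Ω} (X : Process d ν P)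

namespace Process

/-- local time -/
def N (z : Site d) (n : ℕ) (ω : Ω) : ℕ :=
  ∑ j ∈ Finset.range n, if X.site j ω = z then 1 else 0

lemma N_succ (z : Site d) (n : ℕ) (ω : Ω) :
    X.N z (n + 1) ω = X.N z n ω + if X.site n ω = z then 1 else 0 := by
  unfold N; rw [Finset.sum_range_succ]

lemma N_zero (z : Site d) (ω : Ω) : X.N z 0 ω = 0 := by unfold N; simp

lemma cnt_succ {z : Site d} (hz : z ≠ 0) (n : ℕ) (ω : Ω) :
    cnt z (X.state (n + 1) ω) + (if X.site n ω = z then 1 else 0) = cnt z (X.state n ω)
      + ((X.offs n ω).map fun e => if X.site n ω + vec e = z then 1 else 0).sum := by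
  classical
  have h := X.mass_succ (fun x => if x = z then (1 : ℤ) else 0) n ω
  rw [← cnt_eq_mass, ← cnt_eq_mass] at h
  have h0 : (if (0 : Site d) = z then (1 : ℤ) else 0) = 0 := by rw [if_neg (Ne.symm hz)]
  have h1 : (if X.Idle ω n then (if (0 : Site d) = z then (1 : ℤ) else 0) else 0) = 0 := by
    rw [h0]; split_ifs <;> rfl
  rw [h1] at h
  have h2 : (((X.offs n ω).map fun e => if X.site n ω + vec e = z then (1:ℤ) else 0).sum)
      = ((((X.offs n ω).map fun e => if X.site n ω + vec e = z then 1 else 0).sum : ℕ) : ℤ) := by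
    induction (X.offs n ω) with
    | nil => simp
    | cons a w ih =>
      rw [List.map_cons, List.sum_cons, ih, List.map_cons, List.sum_cons]
      push_cast; rfl
  rw [h2] at h
  have h3 : (if X.site n ω = z then (1 : ℤ) else 0)
      = (((if X.site n ω = z then 1 else 0) : ℕ) : ℤ) := by push_cast; rfl
  rw [h3] at h
  have : ((cnt z (X.state (n + 1) ω) + (if X.site n ω = z then 1 else 0) : ℕ) : ℤ)
      = ((cnt z (X.state n ω)
      + ((X.offs n ω).map fun e => if X.site n ω + vec e = z then 1 else 0).sum : ℕ) : ℤ) := by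
    push_cast
    push_cast at h
    linarith
  exact_mod_cast this

lemma measurable_cnt (z : Site d) {m n : ℕ} (h : m ≤ n) :
    Measurable[X.ℱ n] (fun ω => (cnt z (X.state m ω) : ℝ≥0∞)) :=
  (measurable_from_top (f := fun s : State d => (cnt z s : ℝ≥0∞))).comp (X.measurable_state h)

lemma measurable_fun_site (g : Site d → ℝ≥0∞) {m n : ℕ} (h : m ≤ n) :
    Measurable[X.ℱ n] (fun ω => g (X.site m ω)) :=
  (measurable_of_countable g).comp (X.measurable_site h)

lemma measurable_N (z : Site d) {m n : ℕ} (h : m ≤ n + 1) :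
    Measurable[X.ℱ n] (fun ω => (X.N z m ω : ℝ≥0∞)) := by
  induction m with
  | zero =>
    have : (fun ω => (X.N z 0 ω : ℝ≥0∞)) = fun _ => 0 := by funext ω; rw [X.N_zero]; simp
    rw [this]; exact @measurable_const _ _ _ (X.ℱ n) _
  | succ m ih =>
    have e : (fun ω => (X.N z (m + 1) ω : ℝ≥0∞)) = fun ω => (X.N z m ω : ℝ≥0∞) +
        (fun v : Site d => if v = z then (1 : ℝ≥0∞) else 0) (X.site m ω) := by
      funext ω; rw [X.N_succ]; push_cast; rfl
    rw [e]
    exact measurable_add' _ (ih (by omega)) (X.measurable_fun_site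
      (fun v : Site d => if v = z then (1 : ℝ≥0∞) else 0) (by omega))

variable (S : ℕ → Set Ω)

/-- expected number of rings at `z` before the stopping time (and before time `n`) -/
noncomputable def un (P : Measure Ω) (z : Site d) (n : ℕ) : ℝ≥0∞ :=
  ∑ j ∈ Finset.range n, P (alive S (j + 1) ∩ {ω | X.site j ω = z})

/-- expectation at the stopping time -/
noncomputable def stopExp (P : Measure Ω) (F : ℕ → Ω → ℝ≥0∞) (n : ℕ) : ℝ≥0∞ :=
  ∑ k ∈ Finset.range n, ∫⁻ ω in alive S k ∩ S k, F k ω ∂P + ∫⁻ ω in alive S n, F n ω ∂P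

variable {S}

lemma stopExp_eq (hS : ∀ n, MeasurableSet (S n)) (F : ℕ → Ω → ℝ≥0∞) (n : ℕ) :
    stopExp S P F n = ∑ k ∈ Finset.range (n + 1), ∫⁻ ω in alive S k ∩ S k, F k ω ∂P
      + ∫⁻ ω in alive S (n + 1), F n ω ∂P := by
  unfold stopExp
  have h : ∫⁻ ω in alive S n, F n ω ∂P
      = ∫⁻ ω in alive S n ∩ S n, F n ω ∂P + ∫⁻ ω in alive S (n + 1), F n ω ∂P := by
    rw [alive_succ, ← Set.sdiff_eq, lintegral_inter_add_sdiff _ _ (hS n)]
  rw [h, Finset.sum_range_succ]
  ring

lemma stopExp_step (hS : ∀ n, MeasurableSet (S n)) (F : ℕ → Ω → ℝ≥0∞) (n : ℕ) {a b : ℝ≥0∞}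
    (h : ∫⁻ ω in alive S (n + 1), F (n + 1) ω ∂P + a = ∫⁻ ω in alive S (n + 1), F n ω ∂P + b) :
    stopExp S P F (n + 1) + a = stopExp S P F n + b := by
  rw [stopExp_eq hS F n]
  unfold stopExp
  rw [add_assoc, h]; ring

lemma stopExp_mono {F G : ℕ → Ω → ℝ≥0∞} (hS : ∀ n, MeasurableSet[X.ℱ n] (S n))
    (h : ∀ n, ∀ ω ∈ alive S n, F n ω ≤ G n ω) (n : ℕ) :
    stopExp S P F n ≤ stopExp S P G n := by
  unfold stopExp
  have hm : ∀ k, MeasurableSet (alive S k) := fun k =>
    X.le k _ (X.measurableSet_alive hS (by omega))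
  refine add_le_add (Finset.sum_le_sum fun k _ => ?_) ?_
  · exact setLIntegral_mono' ((hm k).inter (X.le k _ (hS k))) fun ω hω => h k ω hω.1
  · exact setLIntegral_mono' (hm n) fun ω hω => h n ω hω

lemma lintegral_ind {E : Set Ω} {F : Set Ω} (hF : MeasurableSet F) :
    ∫⁻ ω in E, F.indicator (fun _ => (1 : ℝ≥0∞)) ω ∂P = P (E ∩ F) := by
  rw [lintegral_indicator hF, setLIntegral_const, one_mul, Measure.restrict_apply hF,
    Set.inter_comm]

/-- `u_n` is the expectation of the stopped local time -/
lemma stopExp_N (hS : ∀ n, MeasurableSet[X.ℱ n] (S n)) (z : Site d) (n : ℕ) :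
    stopExp S P (fun n ω => (X.N z n ω : ℝ≥0∞)) n = X.un S P z n := by
  induction n with
  | zero =>
    unfold stopExp un
    simp [X.N_zero]
  | succ n ih =>
    have hmN : Measurable fun ω => (X.N z n ω : ℝ≥0∞) :=
      (X.measurable_N z (by omega : n ≤ n + 1)).mono (X.le n) le_rfl
    have h1 : ∫⁻ ω in alive S (n + 1), (X.N z (n + 1) ω : ℝ≥0∞) ∂P + 0
        = ∫⁻ ω in alive S (n + 1), (X.N z n ω : ℝ≥0∞) ∂P
          + P (alive S (n + 1) ∩ {ω | X.site n ω = z}) := by
      have e : ∀ ω, (X.N z (n + 1) ω : ℝ≥0∞) = (X.N z n ω : ℝ≥0∞)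
          + ({ω | X.site n ω = z}).indicator (fun _ => (1 : ℝ≥0∞)) ω := by
        intro ω
        rw [X.N_succ]
        by_cases hz : X.site n ω = z
        · rw [if_pos hz, Set.indicator_of_mem (by exact hz)]; push_cast; rfl
        · rw [if_neg hz, Set.indicator_of_notMem (by exact hz)]; push_cast; rfl
      simp_rw [e]
      rw [lintegral_add_left hmN, lintegral_ind (X.le n _ (X.meas_site n z)), add_zero]
    have h := stopExp_step (P := P) (fun n => X.le n _ (hS n))
      (fun n ω => (X.N z n ω : ℝ≥0∞)) n h1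
    rw [ih, add_zero] at h
    rw [h]
    unfold un
    rw [Finset.sum_range_succ]

/-- balance of the particles at `z` -/
lemma stopExp_cnt (H : HypH ν) (hd : 1 ≤ d) (hS : ∀ n, MeasurableSet[X.ℱ n] (S n)) {z : Site d}
    (hz : z ≠ 0) (n : ℕ) :
    stopExp S P (fun n ω => (cnt z (X.state n ω) : ℝ≥0∞)) n + X.un S P z n
      = (∑ e : Dir d, X.un S P (z + vec e) n) / (2 * d) := by
  induction n with
  | zero =>
    unfold stopExp un
    have : ∀ ω, cnt z (X.state 0 ω) = 0 := by
      intro ω; rw [X.start]; simp [cnt, hz]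
    simp [this]
  | succ n ih =>
    have hE : MeasurableSet[X.ℱ n] (alive S (n + 1)) := X.measurableSet_alive hS (by omega)
    have hE' := X.le n _ hE
    have hmc : Measurable fun ω => (cnt z (X.state n ω) : ℝ≥0∞) :=
      (X.measurable_cnt z le_rfl).mono (X.le n) le_rfl
    set g : Ω → List (Dir d) → ℝ≥0∞ := fun ω w => (alive S (n + 1)).indicator (fun _ => 1) ω *
      (w.map fun e => if X.site n ω + vec e = z then (1 : ℝ≥0∞) else 0).sum with hg
    have h2 : ∫⁻ ω in alive S (n + 1), ((((X.offs n ω).map fun e =>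
        if X.site n ω + vec e = z then 1 else 0).sum : ℕ) : ℝ≥0∞) ∂P
        = (∑ e : Dir d, P (alive S (n + 1) ∩ {ω | X.site n ω = z + vec e})) / (2 * d) := by
      rw [← lintegral_indicator hE']
      have e1 : ((alive S (n + 1)).indicator fun ω => ((((X.offs n ω).map fun e =>
        if X.site n ω + vec e = z then 1 else 0).sum : ℕ) : ℝ≥0∞)) = fun ω => g ω (X.offs n ω) := by
        funext ω
        rw [hg]
        simp only
        have e2 : ((((X.offs n ω).map fun e => if X.site n ω + vec e = z then 1 else 0).sum : ℕ)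
            : ℝ≥0∞) = ((X.offs n ω).map fun e =>
              if X.site n ω + vec e = z then (1 : ℝ≥0∞) else 0).sum := by
          induction (X.offs n ω) with
          | nil => simp
          | cons a w ih =>
            rw [List.map_cons, List.sum_cons, List.map_cons, List.sum_cons, ← ih]
            push_cast; rfl
        by_cases hω : ω ∈ alive S (n + 1)
        · rw [Set.indicator_of_mem hω, Set.indicator_of_mem hω, one_mul, e2]
        · rw [Set.indicator_of_notMem hω, Set.indicator_of_notMem hω, zero_mul]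
      rw [e1, X.lintegral_step n g]
      · have e3 : ∀ ω, ∑' w, (ν w.length / (2 * d) ^ w.length) * g ω w
            = (∑ e : Dir d, (alive S (n + 1) ∩ {ω | X.site n ω = z + vec e}).indicator
                (fun _ => (1 : ℝ≥0∞)) ω) / (2 * d) := by
          intro ω
          rw [hg]
          simp only
          by_cases hω : ω ∈ alive S (n + 1)
          · have h3 := tsum_list_linear ν H hd
              (fun e => if X.site n ω + vec e = z then (1 : ℝ≥0∞) else 0)
            simp only [Set.indicator_of_mem hω, one_mul]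
            unfold lw at h3
            rw [h3]
            congr 1
            rw [← Equiv.sum_comp (⟨flip, flip, flip_flip, flip_flip⟩ : Dir d ≃ Dir d)]
            refine Finset.sum_congr rfl fun e _ => ?_
            simp only [Equiv.coe_fn_mk]
            by_cases hs : X.site n ω = z + vec e
            · rw [if_pos (by rw [hs, vec_flip']; abel), Set.indicator_of_mem
                (show ω ∈ alive S (n + 1) ∩ {ω | X.site n ω = z + vec e} from ⟨hω, hs⟩)]
            · rw [if_neg, Set.indicator_of_notMem
                (show ω ∉ alive S (n + 1) ∩ {ω | X.site n ω = z + vec e} from fun h => hs h.2)]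
              intro h4; apply hs; rw [← h4, vec_flip']; abel
          · have h4 : ∀ w : List (Dir d), (ν w.length / (2 * d) ^ w.length) *
                ((alive S (n + 1)).indicator (fun _ => (1 : ℝ≥0∞)) ω *
                (w.map fun e => if X.site n ω + vec e = z then (1 : ℝ≥0∞) else 0).sum) = 0 := by
              intro w; rw [Set.indicator_of_notMem hω]; simp
            rw [tsum_congr h4, tsum_zero]
            have h5 : ∀ e : Dir d, (alive S (n + 1) ∩ {ω | X.site n ω = z + vec e}).indicator
                (fun _ => (1 : ℝ≥0∞)) ω = 0 := fun e =>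
              Set.indicator_of_notMem (fun h => hω h.1) _
            rw [Finset.sum_congr rfl fun e _ => h5 e]
            simp
        simp_rw [e3]
        have hms : ∀ e : Dir d, MeasurableSet (alive S (n + 1) ∩ {ω | X.site n ω = z + vec e}) :=
          fun e => hE'.inter (X.le n _ (X.meas_site n _))
        simp_rw [ENNReal.div_eq_inv_mul]
        rw [lintegral_const_mul, lintegral_finsetSum]
        · congr 1
          refine Finset.sum_congr rfl fun e _ => ?_
          rw [lintegral_indicator (hms e), setLIntegral_const, one_mul]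
        · intro e _
          exact measurable_const.indicator (hms e)
        · exact Finset.measurable_sum _ fun e _ => measurable_const.indicator (hms e)
      · intro w
        rw [hg]
        have m1 : Measurable[X.ℱ n] ((alive S (n + 1)).indicator (fun _ => (1 : ℝ≥0∞))) :=
          (@measurable_const _ _ _ (X.ℱ n) _).indicator hE
        have m2 : Measurable[X.ℱ n] fun ω =>
            (w.map fun e => if X.site n ω + vec e = z then (1 : ℝ≥0∞) else 0).sum :=
          X.measurable_fun_site
            (fun v : Site d => (w.map fun e => if v + vec e = z then (1 : ℝ≥0∞) else 0).sum) le_rfl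
        exact m1.mul m2
    have h1 : ∫⁻ ω in alive S (n + 1), (cnt z (X.state (n + 1) ω) : ℝ≥0∞) ∂P
          + P (alive S (n + 1) ∩ {ω | X.site n ω = z})
        = ∫⁻ ω in alive S (n + 1), (cnt z (X.state n ω) : ℝ≥0∞) ∂P
          + (∑ e : Dir d, P (alive S (n + 1) ∩ {ω | X.site n ω = z + vec e})) / (2 * d) := by
      rw [← h2, ← lintegral_add_left hmc, ← lintegral_ind (X.le n _ (X.meas_site n z)),
        ← lintegral_add_right _ (measurable_const.indicator (X.le n _ (X.meas_site n z)))]
      refine lintegral_congr fun ω => ?_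
      have h3 := X.cnt_succ hz n ω
      have h4 : ({ω | X.site n ω = z}).indicator (fun _ => (1 : ℝ≥0∞)) ω
          = (((if X.site n ω = z then 1 else 0) : ℕ) : ℝ≥0∞) := by
        by_cases hs : X.site n ω = z
        · rw [if_pos hs, Set.indicator_of_mem (by exact hs)]; simp
        · rw [if_neg hs, Set.indicator_of_notMem (by exact hs)]; simp
      rw [h4]
      exact_mod_cast h3
    have h := stopExp_step (P := P) (fun n => X.le n _ (hS n))
      (fun n ω => (cnt z (X.state n ω) : ℝ≥0∞)) n h1
    have h5 : ∀ y, X.un S P y (n + 1) = X.un S P y n + P (alive S (n + 1) ∩ {ω | X.site n ω = y}) := by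
      intro y; unfold un; rw [Finset.sum_range_succ]
    simp_rw [h5]
    rw [Finset.sum_add_distrib, ENNReal.add_div, ← ih]
    calc _ = (stopExp S P (fun n ω => (cnt z (X.state n ω) : ℝ≥0∞)) (n + 1)
          + P (alive S (n + 1) ∩ {ω | X.site n ω = z})) + X.un S P z n := by ring
      _ = _ := by rw [h]; ring

end Process

end BIDLA
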