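import Mathlib
import Pool.Agent.Work.MP_1354f0_pr.Local

/-!
Points far away are not reached before the local time outside the ball gets large.
-/

namespace BIDLA

open MeasureTheory
open scoped ENNReal

variable {d : ℕ} {ν : PMF ℕ} {Ω : Type*} [MeasurableSpace Ω] {P : Measure Ω} (X : Process d ν P)

lemma abs_coord_bound {z z0 : Site d} {D : ℕ} (h : ∀ i, |z i - z0 i| ≤ D) :
    ‖toE z - toE z0‖ ≤ √d * D := by
  have h1 : ‖toE z - toE z0‖ ^ 2 ≤ (√d * D) ^ 2 := by
    rw [EuclideanSpace.real_norm_sq_eq, mul_pow, Real.sq_sqrt (Nat.cast_nonneg d)]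
    calc ∑ i, (toE z - toE z0) i ^ 2 ≤ ∑ _i : Fin d, (D : ℝ) ^ 2 := by
          refine Finset.sum_le_sum fun i _ => ?_
          have h2 : (toE z - toE z0) i = ((z i - z0 i : ℤ) : ℝ) := by
            rw [PiLp.sub_apply, toE_apply, toE_apply]; push_cast; rfl
          rw [h2, ← sq_abs]
          have h3 : |((z i - z0 i : ℤ) : ℝ)| ≤ D := by
            rw [← Int.cast_abs]; exact_mod_cast h i
          exact pow_le_pow_left₀ (abs_nonneg _) h3 2
      _ = d * (D : ℝ) ^ 2 := by rw [Finset.sum_const, Finset.card_univ, Fintype.card_fin, nsmul_eq_mul]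
  exact (sq_le_sq₀ (norm_nonneg _) (by positivity)).1 h1

namespace Process

variable {S : ℕ → Set Ω}

lemma stopExp_one [IsProbabilityMeasure P] (hS : ∀ n, MeasurableSet[X.ℱ n] (S n)) (n : ℕ) :
    stopExp S P (fun _ _ => 1) n = 1 := by
  induction n with
  | zero =>
    unfold stopExp
    have : alive S 0 = (Set.univ : Set Ω) := by ext; simp [alive]
    rw [this]; simp
  | succ n ih =>
    have h := stopExp_step (P := P) (fun n => X.le n _ (hS n)) (fun _ _ => 1) n
      (a := 0) (b := 0) rfl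
    rw [add_zero, add_zero, ih] at h
    exact h

lemma stopExp_const_mul (hS : ∀ n, MeasurableSet[X.ℱ n] (S n)) (c : ℝ≥0∞) (hc : c ≠ ⊤)
    (F : ℕ → Ω → ℝ≥0∞) (n : ℕ) :
    stopExp S P (fun n ω => c * F n ω) n = c * stopExp S P F n := by
  unfold stopExp
  rw [mul_add, Finset.mul_sum, lintegral_const_mul' _ _ hc]
  congr 1
  exact Finset.sum_congr rfl fun k _ => lintegral_const_mul' _ _ hc

open Classical in
/-- indicator of `z ∈ A` -/
noncomputable def pres (z : Site d) (n : ℕ) (ω : Ω) : ℝ≥0∞ :=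
  if z ∈ (X.state n ω).agg then 1 else 0

lemma un_le (z : Site d) [IsProbabilityMeasure P] (n : ℕ) : X.un S P z n ≤ n := by
  unfold un
  calc _ ≤ ∑ _j ∈ Finset.range n, (1 : ℝ≥0∞) := Finset.sum_le_sum fun j _ => prob_le_one
    _ = n := by simp

/-- points far away are not reached before the local time outside the ball gets large -/
theorem far_le [IsProbabilityMeasure P] (H : HypH ν) (hd : 1 ≤ d)
    (hS : ∀ n, MeasurableSet[X.ℱ n] (S n)) {r : ℝ} (hr : 0 < r) {K : ℕ} (hK : 1 ≤ K)
    (hSK : ∀ n, ∀ z : Site d, r ≤ ‖toE z‖ → ∀ ω, K ≤ X.N z n ω → ω ∈ S n) (D : ℕ) (z0 : Site d)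
    (hz0 : r + 1 + √d * D ≤ ‖toE z0‖) (n : ℕ) :
    stopExp S P (X.pres z0) n ≤ ENNReal.ofReal (2 * K * Real.exp (-(D : ℝ) / √K)) := by
  have hd0 : (0 : ℝ) < d := by exact_mod_cast hd
  have hK1 : (1 : ℝ) ≤ K := by exact_mod_cast hK
  have hK0 : (0 : ℝ) < K := by linarith
  have hne : ∀ z : Site d, r ≤ ‖toE z‖ → z ≠ 0 := by
    intro z hz h0
    rw [h0, toE_zero, norm_zero] at hz
    linarith
  have h1 : ∀ z : Site d, r ≤ ‖toE z‖ → X.un S P z n ≤ K * stopExp S P (X.pres z) n := by
    intro z hz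
    rw [← X.stopExp_N hS z n, ← X.stopExp_const_mul hS _ (ENNReal.natCast_ne_top K)]
    refine X.stopExp_mono hS ?_ n
    intro k ω hω
    unfold pres
    by_cases hzk : z ∈ (X.state k ω).agg
    · rw [if_pos hzk, mul_one]
      have : X.N z k ω ≤ K := by
        rcases Nat.eq_zero_or_pos k with h0 | h0
        · subst h0; rw [X.N_zero]; omega
        · obtain ⟨j, rfl⟩ : ∃ j, k = j + 1 := ⟨k - 1, by omega⟩
          have h2 : X.N z j ω < K := by
            by_contra hcon
            push Not at hcon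
            exact hω j (by omega) (hSK j z hz ω hcon)
          rw [X.N_succ]
          split_ifs <;> omega
      exact_mod_cast this
    · rw [if_neg hzk, mul_zero]
      have : X.N z k ω = 0 := by
        unfold N
        rw [Finset.sum_eq_zero]
        intro j hj
        rw [Finset.mem_range] at hj
        rw [if_neg]
        intro h3
        exact hzk (X.agg_mono hj.le ω (h3 ▸ X.site_mem_agg j ω))
      rw [this]; simp
  have h2 : ∀ z : Site d, z ≠ 0 → X.un S P z n + stopExp S P (X.pres z) n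
      ≤ (∑ e : Dir d, X.un S P (z + vec e) n) / (2 * d) := by
    intro z hz
    rw [← X.stopExp_cnt H hd hS hz n, add_comm]
    refine add_le_add (X.stopExp_mono hS ?_ n) le_rfl
    intro k ω _
    unfold pres cnt
    split_ifs
    · push_cast; exact le_self_add
    · exact zero_le
  have h3 : ∀ z : Site d, stopExp S P (X.pres z) n ≤ 1 := by
    intro z
    rw [← X.stopExp_one (P := P) hS n]
    refine X.stopExp_mono hS ?_ n
    intro k ω _
    unfold pres
    split_ifs
    · exact le_rfl
    · exact zero_le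
  -- real versions
  set U : Site d → ℝ := fun z => (X.un S P z n).toReal with hU
  have hfin : ∀ z, X.un S P z n ≠ ⊤ := fun z =>
    ne_top_of_le_ne_top (ENNReal.natCast_ne_top n) (X.un_le z n)
  have hpfin : ∀ z, stopExp S P (X.pres z) n ≠ ⊤ := fun z =>
    ne_top_of_le_ne_top ENNReal.one_ne_top (h3 z)
  have havg : ∀ z, ((∑ e : Dir d, X.un S P (z + vec e) n) / (2 * d)).toReal
      = (∑ e : Dir d, U (z + vec e)) / (2 * d) := by
    intro z
    rw [ENNReal.toReal_div, ENNReal.toReal_sum fun e _ => hfin _]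
    simp [hU]
  have havgfin : ∀ z, (∑ e : Dir d, X.un S P (z + vec e) n) / (2 * d) ≠ ⊤ := by
    intro z
    apply ENNReal.div_ne_top
    · rw [ENNReal.sum_ne_top]; exact fun e _ => hfin _
    · simp; omega
  have r2 : ∀ z : Site d, z ≠ 0 → U z + (stopExp S P (X.pres z) n).toReal
      ≤ (∑ e : Dir d, U (z + vec e)) / (2 * d) := by
    intro z hz
    rw [← havg, hU]
    simp only
    rw [← ENNReal.toReal_add (hfin z) (hpfin z)]
    exact ENNReal.toReal_mono (havgfin z) (h2 z hz)
  have r1 : ∀ z : Site d, r ≤ ‖toE z‖ → U z ≤ K * (stopExp S P (X.pres z) n).toReal := by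
    intro z hz
    have := ENNReal.toReal_mono (ENNReal.mul_ne_top (ENNReal.natCast_ne_top K) (hpfin z)) (h1 z hz)
    rw [ENNReal.toReal_mul, ENNReal.toReal_natCast] at this
    exact this
  have r3 : ∀ z : Site d, (stopExp S P (X.pres z) n).toReal ≤ 1 := by
    intro z
    have := ENNReal.toReal_mono ENNReal.one_ne_top (h3 z)
    rwa [ENNReal.toReal_one] at this
  have hUe : ∀ e : Dir d, U (z0 + vec e) ≤ 2 * K * Real.exp (-(D : ℝ) / √K) := by
    intro e
    have hbox : ∀ z : Site d, (∀ i, |z i - (z0 + vec e) i| ≤ D) → r ≤ ‖toE z‖ := by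
      intro z hz
      have h4 := abs_coord_bound hz
      have h5 : ‖toE z0‖ ≤ ‖toE z‖ + ‖toE z - toE (z0 + vec e)‖ + 1 := by
        have e1 : toE z0 = toE z - (toE z - toE (z0 + vec e)) - toE (vec e) := by
          rw [toE_add]; abel
        calc ‖toE z0‖ = ‖toE z - (toE z - toE (z0 + vec e)) - toE (vec e)‖ := by rw [← e1]
          _ ≤ ‖toE z - (toE z - toE (z0 + vec e))‖ + ‖toE (vec e)‖ := norm_sub_le _ _
          _ ≤ _ := by rw [norm_toE_vec]; gcongr; exact norm_sub_le _ _
      linarith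
    refine max_principle hd U K hK1 (z0 + vec e) D (fun z => ENNReal.toReal_nonneg) ?_ ?_
    · intro z hz
      exact (r1 z (hbox z hz)).trans (mul_le_of_le_one_right hK0.le (r3 z))
    · intro z hz
      have hz' := hbox z fun i => (hz i).le
      have h6 := r2 z (hne z hz')
      have h7 := r1 z hz'
      have h8 : 1 / (K : ℝ) * U z ≤ (stopExp S P (X.pres z) n).toReal := by
        rw [one_div, inv_mul_le_iff₀ hK0]; exact h7
      linarith
  have hz0r : r ≤ ‖toE z0‖ := by
    have : 0 ≤ √(d : ℝ) * D := by positivity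
    linarith
  have hfinal : (stopExp S P (X.pres z0) n).toReal ≤ 2 * K * Real.exp (-(D : ℝ) / √K) := by
    have h9 := r2 z0 (hne z0 hz0r)
    have h10 : (∑ e : Dir d, U (z0 + vec e)) / (2 * d) ≤ 2 * K * Real.exp (-(D : ℝ) / √K) := by
      rw [div_le_iff₀ (by positivity)]
      calc ∑ e : Dir d, U (z0 + vec e) ≤ ∑ _e : Dir d, 2 * K * Real.exp (-(D : ℝ) / √K) :=
            Finset.sum_le_sum fun e _ => hUe e
        _ = _ := by
            rw [Finset.sum_const, Finset.card_univ, card_dir, nsmul_eq_mul]; push_cast; ring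
    have h11 : 0 ≤ U z0 := ENNReal.toReal_nonneg
    linarith
  rw [← ENNReal.ofReal_toReal (hpfin z0)]
  exact ENNReal.ofReal_le_ofReal hfinal

end Process

end BIDLA
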