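import Mathlib
import Pool.Agent.Work.MP_1354f0_pr.LocalB
import Pool.Agent.Work.MP_1354f0_pr.InnerAS

/-!
Probability bounds for far points and for local times outside the ball.
-/

namespace BIDLA

open MeasureTheory
open scoped ENNReal

variable {d : ℕ} {ν : PMF ℕ} {Ω : Type*} [MeasurableSpace Ω] {P : Measure Ω} (X : Process d ν P)

namespace Process

lemma N_mono (z : Site d) {m n : ℕ} (h : m ≤ n) (ω : Ω) : X.N z m ω ≤ X.N z n ω := by
  unfold N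
  exact Finset.sum_le_sum_of_subset (Finset.range_mono h)

lemma mem_agg_of_N_pos {z : Site d} {k : ℕ} {ω : Ω} (h : 0 < X.N z k ω) :
    z ∈ (X.state k ω).agg := by
  by_contra hz
  have : X.N z k ω = 0 := by
    unfold N
    rw [Finset.sum_eq_zero]
    intro j hj
    rw [Finset.mem_range] at hj
    rw [if_neg]
    intro h3
    exact hz (X.agg_mono hj.le ω (h3 ▸ X.site_mem_agg j ω))
  omega

theorem far_prob [IsProbabilityMeasure P] (H : HypH ν) (hd : 1 ≤ d) (t : ℕ)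
    {r : ℝ} (hr : 0 < r) {K : ℕ} (hK : 1 ≤ K) (D : ℕ) (z0 : Site d)
    (hz0 : r + 1 + √d * D ≤ ‖toE z0‖) :
    P {ω | ∃ k, ω ∈ X.Done t k ∧ z0 ∈ X.A t ω ∧ ∀ z : Site d, r ≤ ‖toE z‖ → X.N z k ω < K} ≤
      ENNReal.ofReal (2 * K * Real.exp (-(D : ℝ) / √K)) := by
  classical
  set S : ℕ → Set Ω := fun n => X.Done t n ∪ {ω | ∃ z : Site d, r ≤ ‖toE z‖ ∧ K ≤ X.N z n ω}
    with hSd
  have hmN : ∀ n z, MeasurableSet[X.ℱ n] {ω | K ≤ X.N z n ω} := by
    intro n z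
    have h1 := X.measurable_N z (by omega : n ≤ n + 1)
    have h2 : {ω | K ≤ X.N z n ω} = (fun ω => (X.N z n ω : ℝ≥0∞)) ⁻¹' Set.Ici (K : ℝ≥0∞) := by
      ext ω
      simp
    rw [h2]
    exact h1 measurableSet_Ici
  have hS : ∀ n, MeasurableSet[X.ℱ n] (S n) := by
    intro n
    have h3 : {ω | ∃ z : Site d, r ≤ ‖toE z‖ ∧ K ≤ X.N z n ω}
        = ⋃ z : Site d, (if r ≤ ‖toE z‖ then {ω | K ≤ X.N z n ω} else ∅) := by
      ext ω
      simp only [Set.mem_ofPred_eq, Set.mem_iUnion]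
      constructor
      · rintro ⟨z, h1, h2⟩
        exact ⟨z, by rw [if_pos h1]; exact h2⟩
      · rintro ⟨z, hz⟩
        by_cases h1 : r ≤ ‖toE z‖
        · rw [if_pos h1] at hz; exact ⟨z, h1, hz⟩
        · rw [if_neg h1] at hz; exact absurd hz (Set.notMem_empty _)
    refine @MeasurableSet.union _ (X.ℱ n) _ _ (X.measurableSet_done t le_rfl) ?_
    rw [h3]
    refine @MeasurableSet.iUnion _ _ (X.ℱ n) _ _ fun z => ?_
    split_ifs
    · exact hmN n z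
    · exact @MeasurableSet.empty _ (X.ℱ n)
  have hfar := X.far_le (P := P) H hd hS hr hK
    (fun n z hz ω h => Or.inr ⟨z, hz, h⟩) D z0 hz0
  have hsub : {ω | ∃ k, ω ∈ X.Done t k ∧ z0 ∈ X.A t ω ∧ ∀ z : Site d, r ≤ ‖toE z‖ → X.N z k ω < K}
      ⊆ ⋃ k, (alive S k ∩ S k) ∩ {ω | z0 ∈ (X.state k ω).agg} := by
    rintro ω ⟨k, hk, hz, hN⟩
    rw [Set.mem_iUnion]
    refine ⟨k, ⟨?_, Or.inl hk⟩, ?_⟩
    · intro j hj hcon
      rcases hcon with h | ⟨z, h1, h2⟩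
      · exact absurd (X.done_unique hk h) (by omega)
      · have := hN z h1
        have := X.N_mono z hj.le ω
        omega
    · rw [X.A_of_done hk] at hz
      exact hz
  have hmz : ∀ k, MeasurableSet {ω | z0 ∈ (X.state k ω).agg} := by
    intro k
    have : {ω | z0 ∈ (X.state k ω).agg} = X.state k ⁻¹' {s | z0 ∈ s.agg} := rfl
    rw [this]
    exact ((X.measurable_state le_rfl).mono (X.le k) le_rfl) trivial
  have hpres : ∀ k, P ((alive S k ∩ S k) ∩ {ω | z0 ∈ (X.state k ω).agg})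
      = ∫⁻ ω in alive S k ∩ S k, X.pres z0 k ω ∂P := by
    intro k
    rw [← lintegral_ind (hmz k)]
    refine lintegral_congr fun ω => ?_
    unfold pres
    by_cases h : z0 ∈ (X.state k ω).agg
    · rw [if_pos h, Set.indicator_of_mem (by exact h)]
    · rw [if_neg h, Set.indicator_of_notMem (by exact h)]
  calc _ ≤ P (⋃ k, (alive S k ∩ S k) ∩ {ω | z0 ∈ (X.state k ω).agg}) := measure_mono hsub
    _ ≤ ∑' k, P ((alive S k ∩ S k) ∩ {ω | z0 ∈ (X.state k ω).agg}) := measure_iUnion_le _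
    _ ≤ _ := by
      refine ENNReal.tsum_le_of_sum_range_le fun n => ?_
      refine le_trans ?_ (hfar n)
      unfold stopExp
      rw [Finset.sum_congr rfl fun k _ => hpres k]
      exact le_self_add

end Process

/-- exponent of the second term -/
noncomputable def a2 (d : ℕ) : ℝ := if d = 3 then 1 else 0

/-- the conclusion of the construction of the outer test function -/
def OuterFun (d : ℕ) : Prop := ∀ (Cν κ0 : ℝ), 0 ≤ Cν → 0 < κ0 → ∀ ε : ℝ, 0 < ε → ε ≤ 1 / 4 →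
  ∃ c C : ℝ, 0 < c ∧ 1 ≤ C ∧ ∀ (r m : ℝ) (v : Site d), 1 ≤ r → C ≤ m →
    C * (r + m) ^ ((a2 d + ε) / 2) ≤ m → r ≤ ‖toE v‖ → ‖toE v‖ < r + m →
  ∃ f : Site d → ℝ,
   (∀ x, ‖toE x‖ < r + m + 1 → |f x| ≤ κ0) ∧
   (∀ x, ‖toE x‖ < r + m → ∀ e, lap f x + Cν * f (x + vec e) ^ 2 ≤ 0) ∧
   (∀ e, lap f v + Cν * f (v + vec e) ^ 2 ≤ -(c * m ^ (-(2 - ε)))) ∧
   (∀ x, ‖toE x‖ < r + m → 0 ≤ f x) ∧
   (∀ ρ t : ℝ, 1 ≤ ρ → ρ ≤ r → ((ballF (0 : EuclideanSpace ℝ (Fin d)) ρ).card : ℝ) ≤ t →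
     t * f 0 - ∑ x ∈ ballF 0 ρ, f x ≤ C * m ^ (-(2 - ε)) *
      ((t - (ballF (0 : EuclideanSpace ℝ (Fin d)) ρ).card) * m * r ^ (-((d : ℝ) - 1))
        + m * (1 + Real.log r) + r ^ (a2 d + ε)))

namespace Process

/-- local times outside of the ball -/
theorem local_prob [IsProbabilityMeasure P] (H : HypH ν) (hd : 3 ≤ d) (OF : OuterFun d)
    {ε : ℝ} (hε : 0 < ε) (hε1 : ε ≤ 1 / 4) :
    ∃ c C : ℝ, 0 < c ∧ 1 ≤ C ∧ ∀ (t : ℕ) (r m ρ : ℝ) (v : Site d) (K : ℕ), 1 ≤ r → C ≤ m →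
    C * (r + m) ^ ((a2 d + ε) / 2) ≤ m → r ≤ ‖toE v‖ → ‖toE v‖ < r + m →
    1 ≤ ρ → ρ ≤ r → ((ballF (0 : EuclideanSpace ℝ (Fin d)) ρ).card : ℝ) ≤ t →
    P {ω | ∃ k, ω ∈ X.Done t k ∧ (∀ x : Site d, ‖toE x‖ < ρ → x ∈ X.A t ω) ∧
        (∀ x ∈ X.A t ω, ‖toE x‖ < r + m) ∧ K ≤ X.N v k ω} ≤
      ENNReal.ofReal (Real.exp (-(m ^ (-(2 - ε)) * (c * K - C *
      ((t - (ballF (0 : EuclideanSpace ℝ (Fin d)) ρ).card) * m * r ^ (-((d : ℝ) - 1))
        + m * (1 + Real.log r) + r ^ (a2 d + ε)))))) := by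
  obtain ⟨Cν, κ, hCν, hκ, hstep⟩ := stepLe_of_lap ν H
  obtain ⟨c, C, hc, hC, hf⟩ := OF Cν κ hCν hκ ε hε hε1
  refine ⟨c, C, hc, hC, ?_⟩
  intro t r m ρ v K hr hCm hm hv hv2 hρ hρr hcard
  obtain ⟨f, f1, f2, f3, f4, f5⟩ := hf r m v hr hCm hm hv hv2
  have hm0 : 0 < m := by linarith
  have hmp : 0 < m ^ (-(2 - ε)) := Real.rpow_pos_of_pos hm0 _
  refine X.prob_le (f := f) (c := fun u => if u = v then c * m ^ (-(2 - ε)) else 0)
    (V := {x | ‖toE x‖ < r + m}) ?_ t _ _ ?_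
  · intro u hu
    have hu' : ‖toE u‖ < r + m := hu
    refine hstep d (by omega) f _ u (fun e => ?_) (fun e => ?_)
    · apply f1
      rw [toE_add]
      have := norm_add_le (toE u) (toE (vec e))
      rw [norm_toE_vec] at this
      linarith
    · split_ifs with h
      · rw [h]; have := f3 e; linarith
      · have := f2 u hu' e; linarith
  · rintro ω ⟨k, hk, hin, hout, hK⟩
    refine ⟨k, hk, fun j hj => hout _ (X.site_mem_A hk j hj), ?_⟩
    have h1 : ∑ j ∈ Finset.range k, (if X.site j ω = v then c * m ^ (-(2 - ε)) else 0)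
        = c * m ^ (-(2 - ε)) * X.N v k ω := by
      unfold N
      push_cast
      rw [Finset.mul_sum]
      refine Finset.sum_congr rfl fun j _ => ?_
      split_ifs <;> simp
    rw [h1]
    have h2 : ∑ x ∈ ballF 0 ρ, f x ≤ ∑ x ∈ X.A t ω, f x := by
      refine Finset.sum_le_sum_of_subset_of_nonneg ?_ ?_
      · intro x hx
        rw [mem_ballF, sub_zero] at hx
        exact hin x hx
      · intro x hx _
        exact f4 x (hout x hx)
    have h3 := f5 ρ t hρ hρr hcard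
    have h4 : (K : ℝ) ≤ X.N v k ω := by exact_mod_cast hK
    have h5 := mul_le_mul_of_nonneg_left h4 (by positivity : 0 ≤ c * m ^ (-(2 - ε)))
    nlinarith

end Process

end BIDLA
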