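import Mathlib
import Pool.Agent.Work.MP_1354f0_pr.LocalC

/-!
The numbers of children are i.i.d. with law `ν`.
-/

namespace BIDLA

open MeasureTheory ProbabilityTheory
open scoped ENNReal

variable {d : ℕ}

lemma tsum_list_len (ν : PMF ℕ) (hd : 1 ≤ d) (g : ℕ → ℝ≥0∞) :
    ∑' w : List (Dir d), lw ν d w * g w.length = ∑' n, ν n * g n := by
  rw [← (List.equivSigmaTuple (α := Dir d)).symm.tsum_eq, ENNReal.tsum_sigma']
  have h2d0 : (2 * d : ℝ≥0∞) ≠ 0 := by simp; omega
  have h2dt : (2 * d : ℝ≥0∞) ≠ ⊤ := ENNReal.mul_ne_top (by simp) (by simp)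
  refine tsum_congr fun n => ?_
  have e2 : ∀ u : Fin n → Dir d, lw ν d ((List.equivSigmaTuple (α := Dir d)).symm ⟨n, u⟩) *
      g (((List.equivSigmaTuple (α := Dir d)).symm ⟨n, u⟩).length)
        = ν n / (2 * d) ^ n * g n := by
    intro u
    have : (List.equivSigmaTuple (α := Dir d)).symm ⟨n, u⟩ = List.ofFn u := rfl
    rw [this, lw, List.length_ofFn]
  rw [tsum_congr e2, tsum_fintype, Finset.sum_const, Finset.card_univ, Fintype.card_fun,
    card_dir, Fintype.card_fin, nsmul_eq_mul]
  push_cast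
  rw [ENNReal.div_eq_inv_mul]
  calc (2 * (d : ℝ≥0∞)) ^ n * (((2 * (d : ℝ≥0∞)) ^ n)⁻¹ * ν n * g n)
      = ((2 * (d : ℝ≥0∞)) ^ n * ((2 * (d : ℝ≥0∞)) ^ n)⁻¹) * (ν n * g n) := by ring
    _ = _ := by
      rw [ENNReal.mul_inv_cancel (pow_ne_zero _ h2d0) (ENNReal.pow_ne_top h2dt), one_mul]

variable {ν : PMF ℕ} {Ω : Type*} [MeasurableSpace Ω] {P : Measure Ω} (X : Process d ν P)

namespace Process

/-- number of children at the `n`-th ring -/
def len (n : ℕ) (ω : Ω) : ℕ := (X.offs n ω).length

lemma measurable_len (n : ℕ) : Measurable (X.len n) :=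
  (measurable_from_top (f := fun w : List (Dir d) => w.length)).comp (X.measurable_offs n)

lemma prob_len (hd : 1 ≤ d) (n : ℕ) {B : Set Ω} (hB : MeasurableSet[X.ℱ n] B) (s : Set ℕ) :
    P (B ∩ X.len n ⁻¹' s) = P B * ν.toMeasure s := by
  have hB' := X.le n _ hB
  have hs : MeasurableSet (X.len n ⁻¹' s) := X.measurable_len n trivial
  set g : Ω → List (Dir d) → ℝ≥0∞ := fun ω w => B.indicator (fun _ => 1) ω *
    s.indicator (fun _ => 1) w.length with hg
  have e1 : P (B ∩ X.len n ⁻¹' s) = ∫⁻ ω, g ω (X.offs n ω) ∂P := by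
    rw [← lintegral_indicator_one (hB'.inter hs)]
    refine lintegral_congr fun ω => ?_
    rw [hg]
    simp only
    by_cases h1 : ω ∈ B
    · by_cases h2 : X.len n ω ∈ s
      · rw [Set.indicator_of_mem (show ω ∈ B ∩ X.len n ⁻¹' s from ⟨h1, h2⟩),
          Set.indicator_of_mem h1, Set.indicator_of_mem (show (X.offs n ω).length ∈ s from h2)]
        simp
      · rw [Set.indicator_of_notMem (show ω ∉ B ∩ X.len n ⁻¹' s from fun h => h2 h.2),
          Set.indicator_of_notMem (show (X.offs n ω).length ∉ s from h2), mul_zero]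
    · rw [Set.indicator_of_notMem (show ω ∉ B ∩ X.len n ⁻¹' s from fun h => h1 h.1),
          Set.indicator_of_notMem h1, zero_mul]
  rw [e1, X.lintegral_step n g]
  · have e2 : ∀ ω, ∑' w, (ν w.length / (2 * d) ^ w.length) * g ω w
        = B.indicator (fun _ => 1) ω * ν.toMeasure s := by
      intro ω
      have h3 := tsum_list_len ν hd (s.indicator fun _ => (1 : ℝ≥0∞))
      unfold lw at h3
      rw [hg]
      simp only
      have : ∀ w : List (Dir d), (ν w.length / (2 * d) ^ w.length) * (B.indicator (fun _ => 1) ω *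
          s.indicator (fun _ => (1 : ℝ≥0∞)) w.length) = B.indicator (fun _ => 1) ω *
          ((ν w.length / (2 * d) ^ w.length) * s.indicator (fun _ => 1) w.length) := by
        intro w; ring
      rw [tsum_congr this, ENNReal.tsum_mul_left, h3]
      congr 1
      rw [PMF.toMeasure_apply_eq_tsum]
      refine tsum_congr fun k => ?_
      by_cases hk : k ∈ s
      · rw [Set.indicator_of_mem hk, Set.indicator_of_mem hk, mul_one]
      · rw [Set.indicator_of_notMem hk, Set.indicator_of_notMem hk, mul_zero]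
    simp_rw [e2]
    rw [lintegral_mul_const, lintegral_indicator hB', setLIntegral_const, one_mul]
    exact measurable_const.indicator hB'
  · intro w
    rw [hg]
    exact ((@measurable_const _ _ _ (X.ℱ n) (1 : ℝ≥0∞)).indicator hB).mul_const _

lemma prob_len' [IsProbabilityMeasure P] (hd : 1 ≤ d) (n : ℕ) (s : Set ℕ) :
    P (X.len n ⁻¹' s) = ν.toMeasure s := by
  have := X.prob_len (P := P) hd n (@MeasurableSet.univ _ (X.ℱ n)) s
  rwa [Set.univ_inter, measure_univ, one_mul] at this

/-- total mass identity for one ring -/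
lemma total_succ (n : ℕ) (ω : Ω) :
    mass (fun _ => (1 : ℤ)) (X.state (n + 1) ω) - X.L (n + 1) ω
      = mass (fun _ => (1 : ℤ)) (X.state n ω) - X.L n ω + (X.len n ω - 1) := by
  classical
  rw [X.mass_succ, X.L_succ]
  have : ((X.offs n ω).map fun e => (fun _ : Site d => (1 : ℤ)) (X.site n ω + vec e)).sum
      = X.len n ω := by
    simp [len]
  rw [this]
  by_cases h : X.Idle ω n
  · simp only [h, if_true]; push_cast; ring
  · simp only [h, if_false]; push_cast; ring

lemma measurable_len_succ {m n : ℕ} (h : m < n) : Measurable[X.ℱ n] (X.len m) := by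
  have h0 : ∀ k, k ≤ n → Measurable[X.ℱ n]
      fun ω => mass (fun _ => (1 : ℤ)) (X.state k ω) - (X.L k ω : ℤ) := by
    intro k hk
    have h1 : Measurable[X.ℱ n] fun ω => mass (fun _ => (1 : ℤ)) (X.state k ω) :=
      (measurable_from_top (f := fun s : State d => mass (fun _ => (1 : ℤ)) s)).comp
        (X.measurable_state hk)
    have h2 : Measurable[X.ℱ n] fun ω => (X.L k ω : ℤ) :=
      (measurable_from_top (f := fun j : ℕ => (j : ℤ))).comp (X.measurable_L hk)
    exact h1.sub h2
  have h3 : X.len m = fun ω => ((mass (fun _ => (1 : ℤ)) (X.state (m + 1) ω) - X.L (m + 1) ω)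
      - (mass (fun _ => (1 : ℤ)) (X.state m ω) - X.L m ω) + 1).toNat := by
    funext ω
    rw [X.total_succ]
    simp
  rw [h3]
  have h4 : Measurable[X.ℱ n] fun ω => ((mass (fun _ => (1 : ℤ)) (X.state (m + 1) ω) - X.L (m + 1) ω)
      - (mass (fun _ => (1 : ℤ)) (X.state m ω) - X.L m ω) + 1) :=
    ((h0 (m + 1) (by omega)).sub (h0 m (by omega))).add_const 1
  exact (measurable_from_top (f := fun j : ℤ => j.toNat)).comp h4

/-- independence -/
lemma prob_range [IsProbabilityMeasure P] (hd : 1 ≤ d) (s : ℕ → Set ℕ) (n : ℕ) :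
    P (⋂ i ∈ Finset.range n, X.len i ⁻¹' s i) = ∏ i ∈ Finset.range n, P (X.len i ⁻¹' s i) := by
  induction n with
  | zero => simp
  | succ n ih =>
    have hm : MeasurableSet[X.ℱ n] (⋂ i ∈ Finset.range n, X.len i ⁻¹' s i) := by
      refine @Finset.measurableSet_biInter _ _ (X.ℱ n) _ _ fun i hi => ?_
      rw [Finset.mem_range] at hi
      exact X.measurable_len_succ hi trivial
    rw [Finset.prod_range_succ, ← ih, X.prob_len' hd n, ← X.prob_len hd n hm]
    congr 1
    ext ω
    simp only [Set.mem_iInter, Finset.mem_range, Set.mem_inter_iff, Set.mem_preimage]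
    constructor
    · intro h; exact ⟨fun i hi => h i (by omega), h n (by omega)⟩
    · rintro ⟨h1, h2⟩ i hi
      rcases Nat.lt_succ_iff_lt_or_eq.1 hi with h | h
      · exact h1 i h
      · rw [h]; exact h2

theorem iIndepFun_len [IsProbabilityMeasure P] (hd : 1 ≤ d) : iIndepFun X.len P := by
  classical
  rw [iIndepFun_iff_measure_inter_preimage_eq_mul]
  intro S sets _
  set n := S.sup id + 1 with hn
  have hS : ∀ i ∈ S, i < n := fun i hi => by
    have := Finset.le_sup (f := id) hi
    simp only [id] at this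
    omega
  have h := X.prob_range (P := P) hd (fun i => if i ∈ S then sets i else Set.univ) n
  have h1 : (⋂ i ∈ Finset.range n, X.len i ⁻¹' (if i ∈ S then sets i else Set.univ))
      = ⋂ i ∈ S, X.len i ⁻¹' sets i := by
    ext ω
    simp only [Set.mem_iInter, Finset.mem_range, Set.mem_preimage]
    constructor
    · intro h i hi
      have := h i (hS i hi)
      rwa [if_pos hi] at this
    · intro h i _
      split_ifs with hi
      · exact h i hi
      · trivial
  rw [h1] at h
  rw [h]
  have h2 : S ⊆ Finset.range n := fun i hi => Finset.mem_range.2 (hS i hi)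
  rw [← Finset.prod_subset h2 (f := fun i => P (X.len i ⁻¹' (if i ∈ S then sets i else Set.univ)))]
  · exact Finset.prod_congr rfl fun i hi => by rw [if_pos hi]
  · intro i _ hi
    rw [if_neg hi]; simp

/-- the increments of the random walk of the total mass -/
def xi (n : ℕ) (ω : Ω) : ℝ := (X.len n ω : ℝ) - 1

theorem iIndepFun_xi [IsProbabilityMeasure P] (hd : 1 ≤ d) : iIndepFun X.xi P :=
  (X.iIndepFun_len (P := P) hd).comp (fun _ k => (k : ℝ) - 1) fun _ => measurable_from_top

theorem map_len [IsProbabilityMeasure P] (hd : 1 ≤ d) (n : ℕ) :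
    Measure.map (X.len n) P = ν.toMeasure := by
  ext s hs
  rw [Measure.map_apply (X.measurable_len n) hs, X.prob_len' hd]

theorem identDistrib_xi [IsProbabilityMeasure P] (hd : 1 ≤ d) (n : ℕ) :
    IdentDistrib (X.xi n) (X.xi 0) P P := by
  have h1 : IdentDistrib (X.len n) (X.len 0) P P := by
    refine ⟨(X.measurable_len n).aemeasurable, (X.measurable_len 0).aemeasurable, ?_⟩
    rw [X.map_len hd, X.map_len hd]
  exact h1.comp (u := fun k : ℕ => (k : ℝ) - 1) measurable_from_top

end Process

end BIDLA
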