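import Mathlib
import Pool.Agent.Work.MP_1354f0_pr.Offspring

/-!
Existence of the process with uniformly chosen ringing particle.
-/

namespace BIDLA

open MeasureTheory ProbabilityTheory
open scoped ENNReal

variable {d : ℕ}

/-- law of the list of steps -/
noncomputable def listPMF (ν : PMF ℕ) (hd : 1 ≤ d) : PMF (List (Dir d)) :=
  ⟨fun w => lw ν d w, by
    have h := tsum_list_len ν hd (fun _ => 1)
    simp only [mul_one, PMF.tsum_coe] at h
    rw [← h]
    exact ENNReal.summable.hasSum⟩

/-- selection of a particle by a number in `[0,1)` -/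
noncomputable def pick (s : Multiset (Site d)) (u : ℝ) : Site d :=
  s.toList.getD ⌊u * Multiset.card s⌋₊ (s.toList.headD 0)

lemma pick_mem {s : Multiset (Site d)} (hs : s ≠ 0) (u : ℝ) : pick s u ∈ s := by
  have hne : s.toList ≠ [] := by simpa using hs
  unfold pick
  rw [List.getD_eq_getElem?_getD]
  rcases lt_or_ge ⌊u * Multiset.card s⌋₊ s.toList.length with h | h
  · rw [List.getElem?_eq_getElem h, Option.getD_some]
    exact Multiset.mem_toList.1 (List.getElem_mem h)
  · rw [List.getElem?_eq_none h, Option.getD_none]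
    obtain ⟨a, l, hal⟩ := List.exists_cons_of_ne_nil hne
    rw [hal, List.headD_cons]
    apply Multiset.mem_toList.1
    rw [hal]; exact List.mem_cons_self

lemma launch_act_ne (s : State d) : (launch s).act ≠ 0 := by
  unfold launch
  split_ifs with h
  · simp
  · exact h

lemma count_fin {α : Type*} [DecidableEq α] (l : List α) (x : α) :
    (Finset.univ.filter fun i : Fin l.length => l[(i : ℕ)] = x).card = l.count x := by
  induction l with
  | nil => rfl
  | cons a l ih =>
    have h := Fin.card_filter_univ_succ (fun i : Fin (l.length + 1) => (a :: l)[(i : ℕ)] = x)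
    simp only [Fin.val_succ, List.getElem_cons_succ, Fin.val_zero, List.getElem_cons_zero] at h
    rw [ih] at h
    rw [List.count_cons]
    refine Eq.trans h ?_
    by_cases hax : a = x
    · simp [hax]
    · simp [hax]

lemma count_fin' {α : Type*} [DecidableEq α] (l : List α) (x : α) {m : ℕ} (hm : l.length = m) :
    (Finset.univ.filter fun i : Fin m => l[(i : ℕ)]'(by rw [hm]; exact i.2) = x).card
      = l.count x := by
  subst hm
  exact count_fin l x

/-- uniform law on `[0,1)` -/
noncomputable def unif : Measure ℝ := volume.restrict (Set.Ico 0 1)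

instance : IsProbabilityMeasure unif := ⟨by simp [unif]⟩

lemma measurable_pick (s : Multiset (Site d)) : Measurable (pick s) := by
  have h1 : Measurable fun u : ℝ => ⌊u * Multiset.card s⌋₊ :=
    Nat.measurable_floor.comp (measurable_id.mul_const _)
  exact (measurable_from_top (f := fun k : ℕ => s.toList.getD k (s.toList.headD 0))).comp h1

/-- the law of the picked particle -/
lemma unif_pick {s : Multiset (Site d)} (hs : s ≠ 0) (x : Site d) :
    unif (pick s ⁻¹' {x}) = (s.count x : ℝ≥0∞) / Multiset.card s := by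
  set m := Multiset.card s with hm
  have hm0 : 0 < m := Multiset.card_pos.2 hs
  have hm0' : (0 : ℝ) < m := by exact_mod_cast hm0
  have hlen : s.toList.length = m := by simp [hm]
  -- pieces
  set I : Fin m → Set ℝ := fun i => Set.Ico ((i : ℝ) / m) (((i : ℝ) + 1) / m) with hI
  have hcover : Set.Ico (0:ℝ) 1 = ⋃ i : Fin m, I i := by
    ext u
    simp only [Set.mem_Ico, Set.mem_iUnion, hI]
    constructor
    · rintro ⟨h1, h2⟩
      have h3 : 0 ≤ u * m := by positivity
      have h4 : ⌊u * m⌋₊ < m := by
        rw [Nat.floor_lt h3]; nlinarith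
      refine ⟨⟨⌊u * m⌋₊, h4⟩, ?_, ?_⟩
      · rw [div_le_iff₀ hm0']; exact Nat.floor_le h3
      · rw [lt_div_iff₀ hm0']; exact Nat.lt_floor_add_one _
    · rintro ⟨i, h1, h2⟩
      have hi : ((i : ℕ) : ℝ) + 1 ≤ m := by exact_mod_cast i.2
      constructor
      · exact le_trans (by positivity) h1
      · refine lt_of_lt_of_le h2 ?_
        rw [div_le_one hm0']; exact hi
  have hfloor : ∀ i : Fin m, ∀ u ∈ I i, ⌊u * m⌋₊ = i := by
    intro i u hu
    simp only [hI, Set.mem_Ico] at hu
    have h1 : ((i : ℕ) : ℝ) ≤ u * m := by rw [← div_le_iff₀ hm0']; exact hu.1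
    have h2 : u * m < (i : ℕ) + 1 := by rw [← lt_div_iff₀ hm0']; exact hu.2
    rw [Nat.floor_eq_iff (le_trans (by positivity) h1)]
    exact ⟨h1, h2⟩
  have hpick : ∀ i : Fin m, ∀ u ∈ I i, pick s u = s.toList[(i : ℕ)]'(by rw [hlen]; exact i.2) := by
    intro i u hu
    unfold pick
    rw [← hm, hfloor i u hu, List.getD_eq_getElem?_getD, List.getElem?_eq_getElem (by
      rw [hlen]; exact i.2), Option.getD_some]
  have hdisj : Pairwise (Function.onFun Disjoint I) := by
    intro i j hij
    rw [Function.onFun, Set.disjoint_left]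
    intro u hu hu'
    apply hij
    have h1 := hfloor i u hu
    have h2 := hfloor j u hu'
    exact Fin.ext (h1.symm.trans h2)
  have hvol : ∀ i : Fin m, volume (I i) = (m : ℝ≥0∞)⁻¹ := by
    intro i
    simp only [hI, Real.volume_Ico]
    have : ((i : ℕ) + 1 : ℝ) / m - (i : ℕ) / m = (m : ℝ)⁻¹ := by field_simp; ring
    rw [this, ENNReal.ofReal_inv_of_pos hm0', ENNReal.ofReal_natCast]
  have hset : pick s ⁻¹' {x} ∩ Set.Ico (0:ℝ) 1
      = ⋃ i ∈ (Finset.univ.filter fun i : Fin m => s.toList[(i : ℕ)]'(by rw [hlen]; exact i.2) = x), I i := by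
    ext u
    simp only [Set.mem_inter_iff, Set.mem_preimage, Set.mem_singleton_iff, hcover, Set.mem_iUnion,
      Finset.mem_filter, Finset.mem_univ, true_and]
    constructor
    · rintro ⟨h1, i, hi⟩
      exact ⟨i, by rw [← hpick i u hi]; exact h1, hi⟩
    · rintro ⟨i, h1, hi⟩
      exact ⟨by rw [hpick i u hi]; exact h1, i, hi⟩
  unfold unif
  rw [Measure.restrict_apply (measurable_pick s (measurableSet_singleton x)), hset,
    measure_biUnion_finset (fun i _ j _ hij => hdisj hij) (fun i _ => measurableSet_Ico),
    Finset.sum_congr rfl (fun i _ => hvol i), Finset.sum_const, nsmul_eq_mul,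
    ENNReal.div_eq_inv_mul, mul_comm]
  congr 2
  -- count
  have h1 : s.count x = s.toList.count x := by
    conv_lhs => rw [← Multiset.coe_toList s]
    exact Multiset.coe_count x _
  rw [h1]
  exact count_fin' _ _ hlen

section construction

variable {Ω : Type} [MeasurableSpace Ω] (Z : ℕ × Bool → Ω → List (Dir d) × ℝ)

/-- states of the constructed process -/
noncomputable def cst : ℕ → Ω → State d
  | 0, _ => ⟨{0}, 0⟩
  | n + 1, ω => ring (launch (cst n ω)) (pick (launch (cst n ω)).act (Z (n, true) ω).2)
      (Z (n, false) ω).1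

/-- information of a set of coordinates -/
@[instance_reducible] def cF (S : Set (ℕ × Bool)) : MeasurableSpace Ω :=
  ⨆ i ∈ S, MeasurableSpace.comap (Z i) inferInstance

omit [MeasurableSpace Ω] in
lemma cF_mono {S T : Set (ℕ × Bool)} (h : S ⊆ T) : cF Z S ≤ cF Z T :=
  biSup_mono fun _ hi => h hi

omit [MeasurableSpace Ω] in
lemma measurable_cF {S : Set (ℕ × Bool)} {i : ℕ × Bool} (hi : i ∈ S) :
    Measurable[cF Z S] (Z i) := by
  refine Measurable.mono (comap_measurable (Z i)) ?_ le_rfl
  exact le_biSup (fun i => MeasurableSpace.comap (Z i) inferInstance) hi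

/-- coordinates known before the choice of the `n`-th ringing particle -/
def sG (n : ℕ) : Set (ℕ × Bool) := {i | i.1 < n}

/-- coordinates known before the children of the `n`-th ring are revealed -/
def sF (n : ℕ) : Set (ℕ × Bool) := {i | i.1 < n ∨ i = (n, true)}

omit [MeasurableSpace Ω] in
lemma measurable_pick2 (m : MeasurableSpace Ω) {f : Ω → State d} {u : Ω → ℝ}
    (hf : Measurable f) (hu : Measurable u) :
    Measurable fun ω => pick (launch (f ω)).act (u ω) := by
  have h1 : Measurable (fun p : State d × ℝ => pick (launch p.1).act p.2) :=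
    measurable_from_prod_countable_right fun s => measurable_pick (launch s).act
  exact h1.comp (hf.prodMk hu)

omit [MeasurableSpace Ω] in
lemma measurable_cst (n : ℕ) : Measurable[cF Z (sG n)] (cst Z n) := by
  induction n with
  | zero => exact @measurable_const _ _ _ (cF Z (sG 0)) _
  | succ n ih =>
    have h1 : Measurable[cF Z (sG (n + 1))] (cst Z n) := by
      refine Measurable.mono ih (cF_mono Z ?_) le_rfl
      intro i hi
      have : i.1 < n := hi
      show i.1 < n + 1
      omega
    have h2 : Measurable[cF Z (sG (n + 1))] (Z (n, true)) :=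
      measurable_cF Z (show n < n + 1 by omega)
    have h3 : Measurable[cF Z (sG (n + 1))] (Z (n, false)) :=
      measurable_cF Z (show n < n + 1 by omega)
    have h4 : Measurable[cF Z (sG (n + 1))]
        (fun ω => pick (launch (cst Z n ω)).act (Z (n, true) ω).2) :=
      measurable_pick2 _ h1 (measurable_snd.comp h2)
    have h5 : Measurable[cF Z (sG (n + 1))] (fun ω => (Z (n, false) ω).1) :=
      measurable_fst.comp h3
    have h6 : Measurable (fun p : State d × Site d × List (Dir d) =>
        ring (launch p.1) p.2.1 p.2.2) := measurable_of_countable _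
    have h7 : Measurable[cF Z (sG (n + 1))] (fun ω => (cst Z n ω,
        pick (launch (cst Z n ω)).act (Z (n, true) ω).2, (Z (n, false) ω).1)) :=
      h1.prodMk (h4.prodMk h5)
    exact h6.comp h7

variable {ν : PMF ℕ} {P : Measure Ω}

lemma indep_cF [IsProbabilityMeasure P] (hZ : ∀ i, Measurable (Z i)) (hind : iIndepFun Z P)
    {S T : Set (ℕ × Bool)} (hST : Disjoint S T) {A B : Set Ω} (hA : MeasurableSet[cF Z S] A)
    (hB : MeasurableSet[cF Z T] B) : P (A ∩ B) = P A * P B := by
  have h1 : iIndep (fun i => MeasurableSpace.comap (Z i) inferInstance) P :=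
    (iIndepFun_iff_iIndep _ _ _).1 hind
  have h2 := indep_iSup_of_disjoint (fun i => (hZ i).comap_le) h1 hST
  exact (Indep_iff _ _ _).1 h2 A B hA hB

omit [MeasurableSpace Ω] in
lemma cF_le [m : MeasurableSpace Ω] (hZ : ∀ i, Measurable (Z i)) (S : Set (ℕ × Bool)) : cF Z S ≤ m :=
  iSup₂_le fun i _ => (hZ i).comap_le

/-- the constructed process -/
noncomputable def cproc (hd : 1 ≤ d) [IsProbabilityMeasure P] (hZ : ∀ i, Measurable (Z i))
    (hind : iIndepFun Z P)
    (hlaw : ∀ i, HasLaw (Z i) ((listPMF (d := d) ν hd).toMeasure.prod unif) P) :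
    Process d ν P where
  ℱ n := cF Z (sF n)
  mono := by
    intro m n h
    apply cF_mono
    rintro i (hi | hi)
    · left; omega
    · rcases h.lt_or_eq with h' | h'
      · left; rw [hi]; exact h'
      · right; rw [hi, h']
  le n := cF_le Z hZ _
  state := cst Z
  site n ω := pick (launch (cst Z n ω)).act (Z (n, true) ω).2
  offs n ω := (Z (n, false) ω).1
  meas_state n s := by
    have h : Measurable[cF Z (sF n)] (cst Z n) :=
      (measurable_cst Z n).mono (cF_mono Z fun i hi => Or.inl hi) le_rfl
    exact h (measurableSet_singleton s)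
  meas_site n x := by
    have h : Measurable[cF Z (sF n)] (cst Z n) :=
      (measurable_cst Z n).mono (cF_mono Z fun i hi => Or.inl hi) le_rfl
    have h2 : Measurable[cF Z (sF n)] (Z (n, true)) := measurable_cF Z (Or.inr rfl)
    exact measurable_pick2 _ h (measurable_snd.comp h2) (measurableSet_singleton x)
  meas_offs n w := (measurable_fst.comp (hZ (n, false))) (measurableSet_singleton w)
  start ω := rfl
  site_mem n ω := pick_mem (launch_act_ne _) _
  step n ω := rfl
  law n B hB w := by
    have hB2 : MeasurableSet[cF Z {(n, false)}] {ω | (Z (n, false) ω).1 = w} :=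
      (measurable_fst.comp (measurable_cF Z (Set.mem_singleton (n, false))))
        (measurableSet_singleton w)
    have hdis : Disjoint (sF n) ({(n, false)} : Set (ℕ × Bool)) := by
      rw [Set.disjoint_singleton_right]
      rintro (h | h)
      · exact lt_irrefl n h
      · simp at h
    rw [indep_cF Z hZ hind hdis hB hB2]
    congr 1
    have h1 : {ω | (Z (n, false) ω).1 = w} = Z (n, false) ⁻¹' ({w} ×ˢ Set.univ) := by
      ext ω; simp
    rw [h1, ← Measure.map_apply (hZ _) ((measurableSet_singleton w).prod MeasurableSet.univ),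
      (hlaw (n, false)).map_eq, Measure.prod_prod, measure_univ, mul_one,
      PMF.toMeasure_apply_singleton _ _ (measurableSet_singleton w)]
    rfl

theorem cproc_uniform (hd : 1 ≤ d) [IsProbabilityMeasure P] (hZ : ∀ i, Measurable (Z i))
    (hind : iIndepFun Z P)
    (hlaw : ∀ i, HasLaw (Z i) ((listPMF (d := d) ν hd).toMeasure.prod unif) P) :
    (cproc Z hd hZ hind hlaw).Uniform := by
  intro n B hB x
  set X := cproc Z hd hZ hind hlaw with hX
  -- the past is contained in `cF Z (sG n)`
  have hpast : X.past n ≤ cF Z (sG n) := by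
    refine sup_le (sup_le ?_ ?_) ?_
    · refine iSup₂_le fun m hm => ?_
      have h : Measurable[cF Z (sG n)] (cst Z m) := by
        refine (measurable_cst Z m).mono (cF_mono Z fun i hi => ?_) le_rfl
        have h1 : i.1 < m := hi
        have h2 : m ≤ n := hm
        show i.1 < n
        omega
      exact h.comap_le
    · refine iSup₂_le fun m hm => ?_
      have hm' : m < n := hm
      have h : Measurable[cF Z (sG n)] (cst Z m) := by
        refine (measurable_cst Z m).mono (cF_mono Z fun i hi => ?_) le_rfl
        have h1 : i.1 < m := hi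
        show i.1 < n
        omega
      have h2 : Measurable[cF Z (sG n)] (Z (m, true)) := measurable_cF Z hm'
      have h3 : Measurable[cF Z (sG n)]
          (fun ω => pick (launch (cst Z m ω)).act (Z (m, true) ω).2) :=
        measurable_pick2 _ h (measurable_snd.comp h2)
      rintro S ⟨S', -, rfl⟩
      exact h3 (Set.to_countable S').measurableSet
    · refine iSup₂_le fun m hm => ?_
      have hm' : m < n := hm
      have h2 : Measurable[cF Z (sG n)] (fun ω => (Z (m, false) ω).1) :=
        measurable_fst.comp (measurable_cF Z hm')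
      exact h2.comap_le
  have hB' := hpast _ hB
  have hBm := cF_le Z hZ _ _ hB'
  have hcm : ∀ s : State d, MeasurableSet[cF Z (sG n)] (B ∩ cst Z n ⁻¹' {s}) := fun s =>
    @MeasurableSet.inter _ (cF Z (sG n)) _ _ hB' (measurable_cst Z n trivial)
  have hcst : Measurable (cst Z n) := (measurable_cst Z n).mono (cF_le Z hZ _) le_rfl
  -- left side
  have hsite : ∀ ω, X.site n ω = pick (launch (cst Z n ω)).act (Z (n, true) ω).2 := fun ω => rfl
  have hstate : ∀ ω, X.state n ω = cst Z n ω := fun ω => rfl
  have e1 : B ∩ {ω | X.site n ω = x} = ⋃ s : State d, (B ∩ cst Z n ⁻¹' {s}) ∩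
      {ω | pick (launch s).act (Z (n, true) ω).2 = x} := by
    ext ω
    simp only [Set.mem_inter_iff, Set.mem_ofPred_eq, Set.mem_iUnion, Set.mem_preimage,
      Set.mem_singleton_iff, hsite]
    constructor
    · rintro ⟨h1, h2⟩; exact ⟨cst Z n ω, ⟨h1, rfl⟩, h2⟩
    · rintro ⟨s, ⟨h1, h2⟩, h3⟩; exact ⟨h1, by rw [h2]; exact h3⟩
  have hUm : ∀ s : State d, MeasurableSet[cF Z {(n, true)}]
      {ω | pick (launch s).act (Z (n, true) ω).2 = x} := fun s =>
    (measurable_pick _).comp (measurable_snd.comp (measurable_cF Z (Set.mem_singleton (n, true))))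
      (measurableSet_singleton x)
  have hdis : Disjoint (sG n) ({(n, true)} : Set (ℕ × Bool)) := by
    rw [Set.disjoint_singleton_right]
    intro h
    exact lt_irrefl n h
  have e2 : ∀ s : State d, P ((B ∩ cst Z n ⁻¹' {s}) ∩
      {ω | pick (launch s).act (Z (n, true) ω).2 = x})
      = P (B ∩ cst Z n ⁻¹' {s}) * (((launch s).act.count x : ℝ≥0∞) / Multiset.card (launch s).act) := by
    intro s
    rw [indep_cF Z hZ hind hdis (hcm s) (hUm s)]
    congr 1
    have h1 : {ω | pick (launch s).act (Z (n, true) ω).2 = x}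
        = Z (n, true) ⁻¹' (Set.univ ×ˢ (pick (launch s).act ⁻¹' {x})) := by
      ext ω; simp
    rw [h1, ← Measure.map_apply (hZ _) (MeasurableSet.univ.prod
      (measurable_pick _ (measurableSet_singleton x))),
      (hlaw (n, true)).map_eq, Measure.prod_prod, measure_univ, one_mul,
      unif_pick (launch_act_ne s)]
  rw [e1, measure_iUnion]
  · rw [tsum_congr e2]
    have h3 : ∫⁻ ω in B, ((launch (X.state n ω)).act.count x : ℝ≥0∞) /
        Multiset.card (launch (X.state n ω)).act ∂P
        = ∫⁻ s, ((launch s).act.count x : ℝ≥0∞) / Multiset.card (launch s).act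
          ∂(Measure.map (cst Z n) (P.restrict B)) := by
      rw [lintegral_map (measurable_of_countable _) hcst]
      rfl
    rw [h3, lintegral_countable']
    refine tsum_congr fun s => ?_
    rw [Measure.map_apply hcst (measurableSet_singleton s),
      Measure.restrict_apply (hcst (measurableSet_singleton s)), Set.inter_comm, mul_comm]
  · intro s s' hss
    rw [Function.onFun, Set.disjoint_left]
    rintro ω ⟨⟨_, h1⟩, _⟩ ⟨⟨_, h2⟩, _⟩
    exact hss (h1.symm.trans h2)
  · intro s
    exact ((cF_le Z hZ _ _ (hcm s))).inter (cF_le Z hZ _ _ (hUm s))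

end construction

/-- existence of the process with uniform choice -/
theorem exists_uniform (ν : PMF ℕ) (hd : 1 ≤ d) :
    ∃ (Ω : Type) (_ : MeasurableSpace Ω) (P : Measure Ω) (_ : IsProbabilityMeasure P)
      (X : Process d ν P), X.Uniform := by
  obtain ⟨Ω, mΩ, P, Z, hZ, hlaw, hind, hP⟩ :=
    exists_iid (ℕ × Bool) ((listPMF (d := d) ν hd).toMeasure.prod unif)
  exact ⟨Ω, mΩ, P, hP, cproc Z hd hZ hind hlaw, cproc_uniform Z hd hZ hind hlaw⟩

end BIDLA
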