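import Mathlib
import Pool.Agent.Work.MP_1354f0_pr.Offspring
import Pool.Agent.Work.MP_1354f0_pr_h70.Walk
import Pool.Agent.Work.MP_1354f0_pr_h70.WalkMax

/-!
Moments of the increments and facts about the random walk of the total mass.
-/

namespace BIDLA

open MeasureTheory ProbabilityTheory Filter
open scoped ENNReal

variable {d : ℕ}

lemma sq_summable (ν : PMF ℕ) (H : HypH ν) :
    Summable fun k : ℕ => ((k : ℝ) - 1) ^ 2 * (ν k).toReal := by
  obtain ⟨l, hl, hS⟩ := H.exp_moment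
  refine Summable.of_nonneg_of_le
    (fun k => mul_nonneg (sq_nonneg _) ENNReal.toReal_nonneg) ?_ (hS.mul_left (2 / l ^ 2 + 1))
  intro k
  have hk0 : (0:ℝ) ≤ k := Nat.cast_nonneg k
  have h1 := Real.quadratic_le_exp_of_nonneg (x := l * k) (by positivity)
  have h2 : (k : ℝ) ^ 2 ≤ 2 / l ^ 2 * Real.exp (l * k) := by
    have h3 : (l * k) ^ 2 / 2 ≤ Real.exp (l * k) := by
      have : 0 ≤ l * k := by positivity
      linarith
    have h4 : (k : ℝ) ^ 2 = 2 / l ^ 2 * ((l * k) ^ 2 / 2) := by field_simp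
    rw [h4]
    exact mul_le_mul_of_nonneg_left h3 (by positivity)
  have h5 : ((k : ℝ) - 1) ^ 2 ≤ (k : ℝ) ^ 2 + 1 := by nlinarith
  have h6 : 1 ≤ Real.exp (l * k) := by
    rw [← Real.exp_zero]; exact Real.exp_le_exp.2 (by positivity)
  calc ((k : ℝ) - 1) ^ 2 * (ν k).toReal
      ≤ ((2 / l ^ 2 + 1) * Real.exp (l * k)) * (ν k).toReal := by
        apply mul_le_mul_of_nonneg_right _ ENNReal.toReal_nonneg
        linarith
    _ = _ := by ring

lemma integrable_pmf (ν : PMF ℕ) (f : ℕ → ℝ) (hf : Summable fun k => |f k| * (ν k).toReal) :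
    Integrable f ν.toMeasure := by
  refine ⟨(measurable_from_top (f := f)).aestronglyMeasurable, ?_⟩
  rw [hasFiniteIntegral_iff_norm, lintegral_countable']
  have : ∀ k, ENNReal.ofReal ‖f k‖ * ν.toMeasure {k} = ENNReal.ofReal (|f k| * (ν k).toReal) := by
    intro k
    rw [PMF.toMeasure_apply_singleton _ _ (measurableSet_singleton k), Real.norm_eq_abs,
      ENNReal.ofReal_mul (abs_nonneg _), ENNReal.ofReal_toReal (ν.apply_ne_top k)]
  rw [tsum_congr this]
  exact hf.tsum_ofReal_lt_top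

variable {ν : PMF ℕ} {Ω : Type*} [MeasurableSpace Ω] {P : Measure Ω} (X : Process d ν P)

namespace Process

lemma integrable_sq [IsProbabilityMeasure P] (H : HypH ν) (hd : 1 ≤ d) :
    Integrable (fun ω => X.xi 0 ω ^ 2) P := by
  have h1 : Integrable (fun k : ℕ => ((k : ℝ) - 1) ^ 2) (Measure.map (X.len 0) P) := by
    rw [X.map_len hd]
    refine integrable_pmf ν _ ?_
    have : (fun k : ℕ => |((k : ℝ) - 1) ^ 2| * (ν k).toReal)
        = fun k : ℕ => ((k : ℝ) - 1) ^ 2 * (ν k).toReal := by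
      funext k; rw [abs_of_nonneg (sq_nonneg _)]
    rw [this]
    exact sq_summable ν H
  exact h1.comp_measurable (X.measurable_len 0)

lemma memLp_xi [IsProbabilityMeasure P] (H : HypH ν) (hd : 1 ≤ d) : MemLp (X.xi 0) 2 P := by
  have hm : AEStronglyMeasurable (X.xi 0) P :=
    ((measurable_from_top (f := fun k : ℕ => (k : ℝ) - 1)).comp
      (X.measurable_len 0)).aestronglyMeasurable
  exact (memLp_two_iff_integrable_sq hm).2 (X.integrable_sq H hd)

lemma integral_comp_len [IsProbabilityMeasure P] (hd : 1 ≤ d) (f : ℕ → ℝ)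
    (hf : Summable fun k => |f k| * (ν k).toReal) :
    ∫ ω, f (X.len 0 ω) ∂P = ∑' k, f k * (ν k).toReal := by
  have h1 := integrable_pmf ν f hf
  have h2 : ∫ k, f k ∂(Measure.map (X.len 0) P) = ∫ ω, f (X.len 0 ω) ∂P :=
    integral_map (X.measurable_len 0).aemeasurable
      (measurable_from_top (f := f)).aestronglyMeasurable
  rw [← h2, X.map_len hd, PMF.integral_eq_tsum _ _ h1]
  refine tsum_congr fun k => ?_
  rw [smul_eq_mul, mul_comm]

lemma integral_xi [IsProbabilityMeasure P] (H : HypH ν) (hd : 1 ≤ d) : ∫ ω, X.xi 0 ω ∂P = 0 := by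
  have hs1 := hyp_summable ν H
  have hs0 := pmf_summable ν
  have hsum : Summable fun k : ℕ => |(k : ℝ) - 1| * (ν k).toReal := by
    refine Summable.of_nonneg_of_le (fun k => by positivity) (fun k => ?_) (hs1.add hs0)
    have : |(k : ℝ) - 1| ≤ k + 1 := by
      rw [abs_le]; constructor <;> linarith [(Nat.cast_nonneg k : (0:ℝ) ≤ k)]
    calc |(k : ℝ) - 1| * (ν k).toReal ≤ (k + 1) * (ν k).toReal :=
          mul_le_mul_of_nonneg_right this ENNReal.toReal_nonneg
      _ = _ := by ring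
  have h := X.integral_comp_len (P := P) hd (fun k => (k : ℝ) - 1) hsum
  have e : (fun ω => X.xi 0 ω) = fun ω => ((X.len 0 ω : ℝ) - 1) := rfl
  rw [e, h]
  have : (fun k : ℕ => ((k : ℝ) - 1) * (ν k).toReal)
      = fun k : ℕ => (k : ℝ) * (ν k).toReal - (ν k).toReal := by funext k; ring
  rw [this, Summable.tsum_sub hs1 hs0, H.mean_one, pmf_tsum, sub_self]

lemma integral_xi_sq [IsProbabilityMeasure P] (H : HypH ν) (hd : 1 ≤ d) :
    0 < ∫ ω, X.xi 0 ω ^ 2 ∂P := by
  have hsum : Summable fun k : ℕ => |((k : ℝ) - 1) ^ 2| * (ν k).toReal := by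
    have : (fun k : ℕ => |((k : ℝ) - 1) ^ 2| * (ν k).toReal)
        = fun k : ℕ => ((k : ℝ) - 1) ^ 2 * (ν k).toReal := by
      funext k; rw [abs_of_nonneg (sq_nonneg _)]
    rw [this]
    exact sq_summable ν H
  have h := X.integral_comp_len (P := P) hd (fun k => ((k : ℝ) - 1) ^ 2) hsum
  have e : (fun ω => X.xi 0 ω ^ 2) = fun ω => ((X.len 0 ω : ℝ) - 1) ^ 2 := rfl
  rw [e, h]
  exact H.var_pos

/-- the random walk -/
def S (n : ℕ) (ω : Ω) : ℝ := ∑ k ∈ Finset.range n, X.xi k ω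

/-- total mass identity -/
lemma total_eq (n : ℕ) (ω : Ω) :
    ((X.state n ω).agg.card : ℝ) + Multiset.card (X.state n ω).act = 1 + X.L n ω + X.S n ω := by
  have h : ∀ n, ((mass (fun _ => (1 : ℤ)) (X.state n ω) : ℤ) : ℝ) = 1 + X.L n ω + X.S n ω := by
    intro n
    induction n with
    | zero =>
      rw [X.start, X.L_zero]
      unfold mass S
      simp
    | succ n ih =>
      have h1 := X.total_succ n ω
      have h2 : ((mass (fun _ => (1 : ℤ)) (X.state (n + 1) ω) : ℤ) : ℝ) - X.L (n + 1) ω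
          = (mass (fun _ => (1 : ℤ)) (X.state n ω) : ℤ) - X.L n ω + ((X.len n ω : ℝ) - 1) := by
        exact_mod_cast h1
      rw [ih] at h2
      have h3 : X.S (n + 1) ω = X.S n ω + ((X.len n ω : ℝ) - 1) := by
        unfold S; rw [Finset.sum_range_succ]; rfl
      rw [h3]; linarith
  rw [← h n]
  unfold mass
  push_cast
  simp

lemma card_A {t k : ℕ} {ω : Ω} (hk : ω ∈ X.Done t k) :
    ((X.A t ω).card : ℝ) = t + X.S k ω := by
  have h := X.total_eq k ω
  have h1 : (X.state k ω).act = 0 := hk.1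
  have h2 : (t : ℝ) = X.L k ω + 1 := by rw [← hk.2]; push_cast; ring
  rw [X.A_of_done hk, h2]
  rw [h1] at h
  simp only [Multiset.card_zero, Nat.cast_zero, add_zero] at h
  linarith

theorem S_io [IsProbabilityMeasure P] (H : HypH ν) (hd : 1 ≤ d) (K : ℝ) :
    (∀ᵐ ω ∂P, ∃ᶠ n : ℕ in atTop, K * √n ≤ X.S n ω) ∧
      (∀ᵐ ω ∂P, ∃ᶠ n : ℕ in atTop, X.S n ω ≤ -(K * √n)) :=
  walk_io X.xi (X.iIndepFun_xi hd) (X.identDistrib_xi hd) (X.memLp_xi H hd) (X.integral_xi H hd)
    (X.integral_xi_sq H hd) K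

theorem S_prob [IsProbabilityMeasure P] (H : HypH ν) (hd : 1 ≤ d) (K : ℝ) :
    ∃ c > 0, ∀ᶠ n : ℕ in atTop, c ≤ (P {ω | K * √n ≤ X.S n ω}).toReal ∧
      c ≤ (P {ω | X.S n ω ≤ -(K * √n)}).toReal :=
  walk_prob X.xi (X.iIndepFun_xi hd) (X.identDistrib_xi hd) (X.memLp_xi H hd) (X.integral_xi H hd)
    (X.integral_xi_sq H hd) K

end Process

end BIDLA
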