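import Mathlib
import Pool.Agent.Work.MP_1354f0_pr.LocalC

/-!
Choice of parameters for the outer bound.
-/

namespace BIDLA

open Filter Real

variable {d : ℕ}

lemma ev_pow {a b : ℝ} (h : a < b) (C : ℝ) : ∀ᶠ r : ℝ in atTop, C * r ^ a ≤ r ^ b := by
  filter_upwards [(tendsto_rpow_atTop (sub_pos.2 h)).eventually_ge_atTop C,
    eventually_gt_atTop 0] with r h1 h2
  calc C * r ^ a ≤ r ^ (b - a) * r ^ a := mul_le_mul_of_nonneg_right h1 (rpow_nonneg h2.le _)
    _ = r ^ b := by rw [← rpow_add h2, sub_add_cancel]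

lemma ev_pow_log {a b : ℝ} (h : a < b) (C : ℝ) (hC : 0 ≤ C) :
    ∀ᶠ r : ℝ in atTop, C * (r ^ a * Real.log r) ≤ r ^ b := by
  set e := (b - a) / 2 with he
  have he0 : 0 < e := by rw [he]; linarith
  filter_upwards [ev_pow (a := a + e) (b := b) (by rw [he]; linarith) (C / e),
    eventually_gt_atTop 0] with r h1 h2
  refine le_trans ?_ h1
  have h3 := Real.log_le_rpow_div h2.le he0
  calc C * (r ^ a * Real.log r) ≤ C * (r ^ a * (r ^ e / e)) := by
        apply mul_le_mul_of_nonneg_left _ hC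
        exact mul_le_mul_of_nonneg_left h3 (rpow_nonneg h2.le _)
    _ = C / e * r ^ (a + e) := by rw [rpow_add h2]; ring

lemma ev_gI (d : ℕ) {s : ℝ} (hs : 0 < s) : ∀ᶠ r : ℝ in atTop, gI d r ≤ r ^ (a2 d / 2 + s) := by
  have h1 := ev_pow_log (a := 0) (b := 2 * s) (by linarith) 1 zero_le_one
  have h2 := ev_pow_log (a := 0) (b := s) hs 1 zero_le_one
  filter_upwards [h1, h2, eventually_ge_atTop 1] with r h1 h2 hr
  have hr0 : 0 < r := by linarith
  rw [rpow_zero, one_mul, one_mul] at h1 h2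
  unfold gI a2
  split_ifs with h
  · apply Real.sqrt_le_iff.2
    refine ⟨rpow_nonneg hr0.le _, ?_⟩
    rw [← rpow_natCast, ← rpow_mul hr0.le]
    calc r * Real.log r ≤ r * r ^ (2 * s) := mul_le_mul_of_nonneg_left h1 hr0.le
      _ = r ^ ((1 / 2 + s) * ((2 : ℕ) : ℝ)) := by
          nth_rewrite 1 [← rpow_one r]
          rw [← rpow_add hr0]; congr 1; push_cast; ring
  · rw [zero_div, zero_add]; exact h2

lemma a2_nonneg (d : ℕ) : 0 ≤ a2 d := by unfold a2; split_ifs <;> norm_num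

lemma a2_le (d : ℕ) : a2 d ≤ 1 := by unfold a2; split_ifs <;> norm_num

/-- volume comparison from below -/
lemma vol_gap_le (hd : 1 ≤ d) {r ρ : ℝ} (hρ : √d ≤ ρ) (h : ρ ≤ r) :
    unitVol d * r ^ d - (ballF (0 : EuclideanSpace ℝ (Fin d)) ρ).card ≤
      unitVol d * d * (r - ρ + √d) * r ^ (d - 1) := by
  have h1 := le_card_ballF_zero hd hρ
  have hs : 0 ≤ √(d : ℝ) := Real.sqrt_nonneg _
  have h2 := pow_sub_pow_le (a := r) (b := ρ - √d) (by linarith) (by linarith) d
  have hw := unitVol_pos (d := d)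
  have h3 := mul_le_mul_of_nonneg_left h2 hw.le
  have e : r - (ρ - √d) = r - ρ + √d := by ring
  rw [e] at h3
  linarith

/-- power of `r` used for the probabilities -/
noncomputable def bigM (d : ℕ) (α : ℝ) : ℝ := d * max 1 α + 2 * α + 2 * d + 1

lemma outer_params (d : ℕ) (hd : 3 ≤ d) {δ α c C KI : ℝ} (hδ : 0 < δ) (hδ1 : δ ≤ 1 / 4)
    (hα : a2 d / 2 + δ ≤ α) (hc : 0 < c) (hC : 1 ≤ C) (hKI : 0 < KI) :
    ∀ᶠ r : ℝ in atTop, 1 ≤ r ∧ C ≤ r ^ α ∧ C * (r + r ^ α) ^ ((a2 d + δ / 2) / 2) ≤ r ^ α ∧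
      1 ≤ r - KI * gI d r ∧ r - KI * gI d r ≤ r ∧
      ((ballF (0 : EuclideanSpace ℝ (Fin d)) (r - KI * gI d r)).card : ℝ) ≤ unitVol d * r ^ d ∧
      bigM d α * Real.log r ≤ (r ^ α) ^ (-(2 - δ / 2)) * (c * (⌈r ^ (2 * α - δ ^ 2 / 4)⌉₊ : ℕ) - C *
      ((unitVol d * r ^ d - (ballF (0 : EuclideanSpace ℝ (Fin d)) (r - KI * gI d r)).card)
        * r ^ α * r ^ (-((d : ℝ) - 1))
        + r ^ α * (1 + Real.log r) + r ^ (a2 d + δ / 2))) ∧
      1 + √d * (⌈√(⌈r ^ (2 * α - δ ^ 2 / 4)⌉₊ : ℕ) * (bigM d α * Real.log r)⌉₊ : ℕ)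
        ≤ r ^ (α - δ ^ 2 / 16) ∧
      3 ^ d * (r + r ^ α) ^ d * (1 + 2 * (⌈r ^ (2 * α - δ ^ 2 / 4)⌉₊ : ℕ)) * r ^ (-bigM d α)
        ≤ 1 / (unitVol d * r ^ d) ^ 2 := by
  have hd1 : 1 ≤ d := by omega
  have hd3 : (3 : ℝ) ≤ d := by exact_mod_cast hd
  have hw := unitVol_pos (d := d)
  have ha0 := a2_nonneg d
  have ha1 := a2_le d
  have hα0 : δ ≤ α := by linarith
  have hαp : 0 < α := by linarith
  have hδ2 : δ ^ 2 ≤ δ / 4 := by nlinarith
  have hδ20 : 0 < δ ^ 2 := by positivity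
  set M := bigM d α with hM
  have hMv : M = d * max 1 α + 2 * α + 2 * d + 1 := rfl
  have hmax1 : 1 ≤ max 1 α := le_max_left _ _
  have hmaxα : α ≤ max 1 α := le_max_right _ _
  have hM0 : 0 < M := by rw [hMv]; nlinarith
  set x := 2 * α - δ ^ 2 / 4 with hx
  have hs0 : 0 ≤ √(d : ℝ) := Real.sqrt_nonneg _
  -- exponent comparisons
  have hx1 : α * (2 - δ / 2) < x := by rw [hx]; nlinarith
  have hx2 : a2 d / 2 + δ / 2 + α < x := by rw [hx]; linarith
  have hx3 : α < x := by rw [hx]; linarith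
  have hx4 : a2 d + δ / 2 < x := by rw [hx]; linarith
  have hx5 : x / 2 < α - δ ^ 2 / 16 := by rw [hx]; linarith
  have hx0 : 0 < x := by linarith
  have hx6 : x ≤ 2 * α := by rw [hx]; linarith
  have hx7 : 0 < α - δ ^ 2 / 16 := by linarith
  -- eventually facts
  have E1 := (tendsto_rpow_atTop hαp).eventually_ge_atTop C
  have E2 : ∀ᶠ r : ℝ in atTop, C * 2 * r ^ (max 1 α * ((a2 d + δ / 2) / 2)) ≤ r ^ α := by
    refine ev_pow ?_ _
    rcases le_total 1 α with h | h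
    · rw [max_eq_right h]; nlinarith
    · rw [max_eq_left h]; linarith
  have E3 := ev_gI d (s := δ / 4) (by positivity)
  have E4 : ∀ᶠ r : ℝ in atTop, KI * r ^ (a2 d / 2 + δ / 4) + (1 + 2 * √d) ≤ r := by
    have h1 := ev_pow (a := a2 d / 2 + δ / 4) (b := 1) (by linarith) (2 * KI)
    filter_upwards [h1, eventually_ge_atTop (2 * (1 + 2 * √(d : ℝ)))] with r h1 h2
    rw [rpow_one] at h1
    linarith
  have F1 := ev_pow_log hx1 (4 * M / c) (by positivity)
  have F2 := ev_pow hx2 (4 * (C * (unitVol d * d * KI + unitVol d * d * √d)) / c)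
  have F3 := ev_pow_log hx3 (8 * C / c) (by positivity)
  have F4 := ev_pow hx4 (4 * C / c)
  have G1 := ev_pow_log hx5 (4 * (√(d : ℝ) * M)) (by positivity)
  have G2 := (tendsto_rpow_atTop hx7).eventually_ge_atTop (2 * (√(d : ℝ) + 1))
  have G3 := eventually_ge_atTop (6 ^ d * 5 * unitVol d ^ 2)
  have G4 := (tendsto_rpow_atTop hx0).eventually_ge_atTop 1
  have G5 := Real.tendsto_log_atTop.eventually_ge_atTop 1
  have G6 := Real.tendsto_log_atTop.eventually_ge_atTop (√(d : ℝ) / KI)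
  filter_upwards [E1, E2, E3, E4, F1, F2, F3, F4, G1, G2, G3, G4, G5, G6, eventually_ge_atTop 1]
    with r e1 e2 e3 e4 f1 f2 f3 f4 g1 g2 g3 g4 g5 g6 hr
  have hr0 : 0 < r := by linarith
  have hgI0 : 0 ≤ gI d r := by
    unfold gI; split_ifs
    · exact Real.sqrt_nonneg _
    · exact Real.log_nonneg hr
  have hKgI : KI * gI d r ≤ KI * r ^ (a2 d / 2 + δ / 4) := mul_le_mul_of_nonneg_left e3 hKI.le
  have hKgI0 : 0 ≤ KI * gI d r := by positivity
  set ρ := r - KI * gI d r with hρ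
  have hρ1 : 1 + 2 * √d ≤ ρ := by rw [hρ]; linarith
  set K : ℕ := ⌈r ^ x⌉₊ with hK
  have hrx : 0 < r ^ x := rpow_pos_of_pos hr0 _
  have hKge : r ^ x ≤ K := Nat.le_ceil _
  have hKle : (K : ℝ) ≤ 2 * r ^ x := by
    have := (Nat.ceil_lt_add_one hrx.le).le
    rw [← hK] at this
    linarith
  have hsum : r + r ^ α ≤ 2 * r ^ max 1 α := by
    have h1 : r ≤ r ^ max 1 α := by
      nth_rewrite 1 [← rpow_one r]
      exact rpow_le_rpow_of_exponent_le hr hmax1
    have h2 : r ^ α ≤ r ^ max 1 α := rpow_le_rpow_of_exponent_le hr hmaxα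
    linarith
  have hrα : 0 < r ^ α := rpow_pos_of_pos hr0 _
  refine ⟨hr, e1, ?_, by linarith, by linarith, ?_, ?_, ?_, ?_⟩
  · -- C (r+m)^(..) ≤ m
    refine le_trans ?_ e2
    rw [mul_assoc]
    apply mul_le_mul_of_nonneg_left _ (by linarith)
    have hq0 : 0 ≤ (a2 d + δ / 2) / 2 := by linarith
    calc (r + r ^ α) ^ ((a2 d + δ / 2) / 2) ≤ (2 * r ^ max 1 α) ^ ((a2 d + δ / 2) / 2) :=
          rpow_le_rpow (by positivity) hsum hq0
      _ = 2 ^ ((a2 d + δ / 2) / 2) * r ^ (max 1 α * ((a2 d + δ / 2) / 2)) := by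
          rw [mul_rpow (by norm_num) (rpow_nonneg hr0.le _), ← rpow_mul hr0.le]
      _ ≤ 2 * r ^ (max 1 α * ((a2 d + δ / 2) / 2)) := by
          apply mul_le_mul_of_nonneg_right _ (rpow_nonneg hr0.le _)
          calc (2 : ℝ) ^ ((a2 d + δ / 2) / 2) ≤ 2 ^ (1 : ℝ) :=
                rpow_le_rpow_of_exponent_le (by norm_num) (by linarith)
            _ = 2 := rpow_one 2
  · -- volume
    have h1 := card_ballF_zero_le hd1 (ρ := ρ) (by linarith)
    have hcase : ρ + √d ≤ r := by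
      have h2 : Real.log r ≤ gI d r := by
        unfold gI; split_ifs
        · exact log_le_sqrt_mul hr
        · exact le_rfl
      have h3 : √(d : ℝ) / KI ≤ gI d r := g6.trans h2
      rw [div_le_iff₀ hKI] at h3
      rw [hρ]; linarith
    refine h1.trans ?_
    apply mul_le_mul_of_nonneg_left _ hw.le
    exact pow_le_pow_left₀ (by linarith) hcase d
  · -- exponent
    set V : ℝ := unitVol d * r ^ d - (ballF (0 : EuclideanSpace ℝ (Fin d)) ρ).card with hV
    have h1 : V ≤ unitVol d * d * (KI * gI d r + √d) * r ^ (d - 1) := by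
      have := vol_gap_le hd1 (r := r) (ρ := ρ) (by linarith) (by linarith)
      have e : r - ρ + √d = KI * gI d r + √d := by rw [hρ]; ring
      rw [e] at this
      exact this
    have hpp : r ^ (d - 1) * r ^ (-((d : ℝ) - 1)) = 1 := by
      rw [← rpow_natCast, Nat.cast_sub hd1, Nat.cast_one, ← rpow_add hr0, add_neg_cancel, rpow_zero]
    have h2 : V * r ^ α * r ^ (-((d : ℝ) - 1)) ≤
        (unitVol d * d * KI + unitVol d * d * √d) * r ^ (a2 d / 2 + δ / 2 + α) := by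
      have hrn : 0 < r ^ (-((d : ℝ) - 1)) := rpow_pos_of_pos hr0 _
      have h3 := mul_le_mul_of_nonneg_right h1 (by positivity : 0 ≤ r ^ α * r ^ (-((d : ℝ) - 1)))
      have h4 : unitVol d * d * (KI * gI d r + √d) * r ^ (d - 1) * (r ^ α * r ^ (-((d : ℝ) - 1)))
          = unitVol d * d * (KI * gI d r + √d) * r ^ α := by
        calc _ = unitVol d * d * (KI * gI d r + √d) * r ^ α
              * (r ^ (d - 1) * r ^ (-((d : ℝ) - 1))) := by ring
          _ = _ := by rw [hpp, mul_one]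
      rw [h4] at h3
      have h5 : gI d r * r ^ α ≤ r ^ (a2 d / 2 + δ / 2 + α) := by
        calc gI d r * r ^ α ≤ r ^ (a2 d / 2 + δ / 4) * r ^ α :=
              mul_le_mul_of_nonneg_right e3 hrα.le
          _ = r ^ (a2 d / 2 + δ / 4 + α) := by rw [← rpow_add hr0]
          _ ≤ _ := rpow_le_rpow_of_exponent_le hr (by linarith)
      have h6 : r ^ α ≤ r ^ (a2 d / 2 + δ / 2 + α) := rpow_le_rpow_of_exponent_le hr (by linarith)
      have h7 := mul_le_mul_of_nonneg_left h5 (by positivity : 0 ≤ unitVol d * d * KI)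
      have h8 := mul_le_mul_of_nonneg_left h6 (by positivity : 0 ≤ unitVol d * d * √d)
      linarith
    have h3 : C * (V * r ^ α * r ^ (-((d : ℝ) - 1)) + r ^ α * (1 + Real.log r)
        + r ^ (a2 d + δ / 2)) ≤ 3 / 4 * (c * r ^ x) := by
      have k1 := mul_le_mul_of_nonneg_left h2 (by linarith : 0 ≤ C)
      have k2 : C * (r ^ α * (1 + Real.log r)) ≤ 2 * C * (r ^ α * Real.log r) := by
        have : r ^ α * (1 + Real.log r) ≤ r ^ α * (2 * Real.log r) :=
          mul_le_mul_of_nonneg_left (by linarith) hrα.le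
        have := mul_le_mul_of_nonneg_left this (by linarith : 0 ≤ C)
        linarith
      have k3 : C * ((unitVol d * d * KI + unitVol d * d * √d) * r ^ (a2 d / 2 + δ / 2 + α))
          ≤ 1 / 4 * (c * r ^ x) := by
        have := mul_le_mul_of_nonneg_left f2 (by positivity : 0 ≤ 1 / 4 * c)
        calc _ = 1 / 4 * c * (4 * (C * (unitVol d * d * KI + unitVol d * d * √d)) / c
              * r ^ (a2 d / 2 + δ / 2 + α)) := by field_simp
          _ ≤ _ := this
          _ = _ := by ring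
      have k4 : 2 * C * (r ^ α * Real.log r) ≤ 1 / 4 * (c * r ^ x) := by
        have := mul_le_mul_of_nonneg_left f3 (by positivity : 0 ≤ 1 / 4 * c)
        calc _ = 1 / 4 * c * (8 * C / c * (r ^ α * Real.log r)) := by field_simp; ring
          _ ≤ _ := this
          _ = _ := by ring
      have k5 : C * r ^ (a2 d + δ / 2) ≤ 1 / 4 * (c * r ^ x) := by
        have := mul_le_mul_of_nonneg_left f4 (by positivity : 0 ≤ 1 / 4 * c)
        calc _ = 1 / 4 * c * (4 * C / c * r ^ (a2 d + δ / 2)) := by field_simp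
          _ ≤ _ := this
          _ = _ := by ring
      linarith
    have h4 : M * (r ^ (α * (2 - δ / 2)) * Real.log r) ≤ 1 / 4 * (c * r ^ x) := by
      have := mul_le_mul_of_nonneg_left f1 (by positivity : 0 ≤ 1 / 4 * c)
      calc _ = 1 / 4 * c * (4 * M / c * (r ^ (α * (2 - δ / 2)) * Real.log r)) := by field_simp
        _ ≤ _ := this
        _ = _ := by ring
    have h5 : c * r ^ x ≤ c * K := mul_le_mul_of_nonneg_left hKge hc.le
    have h6 : M * (r ^ (α * (2 - δ / 2)) * Real.log r) ≤ c * K - C * (V * r ^ α *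
        r ^ (-((d : ℝ) - 1)) + r ^ α * (1 + Real.log r) + r ^ (a2 d + δ / 2)) := by linarith
    have h7 : (r ^ α) ^ (-(2 - δ / 2)) = r ^ (-(α * (2 - δ / 2))) := by
      rw [← rpow_mul hr0.le]; congr 1; ring
    rw [h7]
    have h8 : 0 < r ^ (-(α * (2 - δ / 2))) := rpow_pos_of_pos hr0 _
    have h9 := mul_le_mul_of_nonneg_left h6 h8.le
    refine le_trans (le_of_eq ?_) h9
    have h10 : r ^ (-(α * (2 - δ / 2))) * r ^ (α * (2 - δ / 2)) = 1 := by
      rw [← rpow_add hr0, neg_add_cancel, rpow_zero]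
    calc M * Real.log r = M * Real.log r * (r ^ (-(α * (2 - δ / 2))) * r ^ (α * (2 - δ / 2))) := by
          rw [h10, mul_one]
      _ = _ := by ring
  · -- D
    have hy0 : 0 < r ^ (x / 2) := rpow_pos_of_pos hr0 _
    have h1 : √(K : ℝ) ≤ 2 * r ^ (x / 2) := by
      apply Real.sqrt_le_iff.2
      refine ⟨by positivity, ?_⟩
      have h2 : (r ^ (x / 2)) ^ 2 = r ^ x := by
        rw [← rpow_natCast, ← rpow_mul hr0.le]; congr 1; push_cast; ring
      rw [mul_pow, h2]; linarith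
    have h3 : (⌈√(K : ℝ) * (M * Real.log r)⌉₊ : ℝ) ≤ 2 * r ^ (x / 2) * (M * Real.log r) + 1 := by
      have h4 : 0 ≤ √(K : ℝ) * (M * Real.log r) := by positivity
      have h5 := (Nat.ceil_lt_add_one h4).le
      have h6 := mul_le_mul_of_nonneg_right h1 (by positivity : 0 ≤ M * Real.log r)
      linarith
    have h4 := mul_le_mul_of_nonneg_left h3 hs0
    linarith
  · -- number of sites
    have hK5 : 1 + 2 * (K : ℝ) ≤ 5 * r ^ x := by linarith
    have h1 : (r + r ^ α) ^ d ≤ 2 ^ d * r ^ (max 1 α * d) := by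
      calc (r + r ^ α) ^ d ≤ (2 * r ^ max 1 α) ^ d := pow_le_pow_left₀ (by positivity) hsum d
        _ = 2 ^ d * r ^ (max 1 α * d) := by
            rw [mul_pow, ← rpow_natCast (r ^ max 1 α), ← rpow_mul hr0.le]
    have hrM : 0 < r ^ (-M) := rpow_pos_of_pos hr0 _
    have h2 : r ^ (max 1 α * d) * r ^ x * r ^ (-M) ≤ r ^ (-(2 * (d : ℝ)) - 1) := by
      rw [← rpow_add hr0, ← rpow_add hr0]
      apply rpow_le_rpow_of_exponent_le hr
      rw [hMv]; linarith
    have h3 : r ^ (-(2 * (d : ℝ)) - 1) = 1 / (r ^ d) ^ 2 * (1 / r) := by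
      rw [rpow_sub hr0, rpow_one, rpow_neg hr0.le, ← pow_mul, ← rpow_natCast r (d * 2)]
      push_cast
      rw [mul_comm (d : ℝ) 2]
      field_simp
    calc 3 ^ d * (r + r ^ α) ^ d * (1 + 2 * (K : ℝ)) * r ^ (-M)
        ≤ 3 ^ d * (2 ^ d * r ^ (max 1 α * d)) * (5 * r ^ x) * r ^ (-M) := by gcongr
      _ = 6 ^ d * 5 * (r ^ (max 1 α * d) * r ^ x * r ^ (-M)) := by
          rw [show (6 : ℝ) = 3 * 2 by norm_num, mul_pow]; ring
      _ ≤ 6 ^ d * 5 * r ^ (-(2 * (d : ℝ)) - 1) := by gcongr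
      _ = 6 ^ d * 5 / r * (1 / (r ^ d) ^ 2) := by rw [h3]; ring
      _ ≤ 1 / unitVol d ^ 2 * (1 / (r ^ d) ^ 2) := by
          apply mul_le_mul_of_nonneg_right _ (by positivity)
          rw [div_le_div_iff₀ hr0 (by positivity)]
          linarith
      _ = _ := by rw [mul_pow]; field_simp

end BIDLA
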