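import Mathlib
import Pool.Agent.Work.MP_1354f0_pr.OuterParams

/-!
One step of the iteration for the outer bound, and the outer bound.
-/

namespace BIDLA

open MeasureTheory Filter
open scoped ENNReal

variable {d : ℕ} {ν : PMF ℕ} {Ω : Type*} [MeasurableSpace Ω] {P : Measure Ω} (X : Process d ν P)

namespace Process

/-- the outer bound with exponent `α` -/
def OB (P : Measure Ω) (α : ℝ) : Prop :=
  ∀ᵐ ω ∂P, ∀ᶠ t : ℕ in atTop, ∀ x ∈ X.A t ω, ‖toE x‖ < radius d t + radius d t ^ α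

lemma OB_mono (hd : 1 ≤ d) {α β : ℝ} (h : α ≤ β) (hα : X.OB P α) : X.OB P β := by
  unfold OB at hα ⊢
  filter_upwards [hα] with ω hω
  filter_upwards [hω, (tendsto_radius hd).eventually_ge_atTop 1] with t h1 h2 x hx
  exact (h1 x hx).trans_le (by gcongr)

/-- one step of the iteration -/
theorem outer_step [IsProbabilityMeasure P] (H : HypH ν) (hd : 3 ≤ d) (OF : OuterFun d)
    {δ α : ℝ} (hδ : 0 < δ) (hδ1 : δ ≤ 1 / 4) (hα : a2 d / 2 + δ ≤ α) (h : X.OB P α) :
    X.OB P (α - δ ^ 2 / 16) := by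
  classical
  have hd1 : 1 ≤ d := by omega
  have hd3 : (3 : ℝ) ≤ d := by exact_mod_cast hd
  have hw := unitVol_pos (d := d)
  obtain ⟨KI, hKI, hinner⟩ := X.inner_as (P := P) H hd
  obtain ⟨c, C, hc, hC, hloc⟩ := X.local_prob (P := P) H hd OF (ε := δ / 2) (by positivity)
    (by linarith)
  have hpar := outer_params d hd hδ hδ1 hα hc hC hKI
  obtain ⟨T, hT⟩ := eventually_atTop.1 ((tendsto_radius hd1).eventually hpar)
  -- bad event
  set E : ℕ → Set Ω := fun t => {ω | ∃ k, ω ∈ X.Done t k ∧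
    (∀ x : Site d, ‖toE x‖ < radius d t - KI * gI d (radius d t) → x ∈ X.A t ω) ∧
    (∀ x ∈ X.A t ω, ‖toE x‖ < radius d t + radius d t ^ α) ∧
    ∃ x ∈ X.A t ω, radius d t + radius d t ^ (α - δ ^ 2 / 16) ≤ ‖toE x‖} with hE
  have hsum : Summable fun t : ℕ => 1 / (t : ℝ) ^ 2 :=
    Real.summable_one_div_nat_pow.2 (by norm_num)
  have hbc : ∀ᵐ ω ∂P, ∀ᶠ t in atTop, ω ∉ E t := by
    refine bc hsum (max T 1) ?_
    intro t ht
    obtain ⟨p1, p2, p3, p4, p5, p6, p7, p8, p9⟩ := hT t ((le_max_left _ _).trans ht)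
    have hrp : unitVol d * radius d (t : ℝ) ^ d = t := radius_pow hd1 (Nat.cast_nonneg t)
    set r := radius d t with hr
    set m := r ^ α with hm
    set ρ := r - KI * gI d r with hρ
    set K : ℕ := ⌈r ^ (2 * α - δ ^ 2 / 4)⌉₊ with hK
    set D : ℕ := ⌈√(K : ℝ) * (bigM d α * Real.log r)⌉₊ with hD
    rw [hrp] at p6 p7 p9
    have hr0 : 0 < r := by linarith
    have hm0 : 0 < m := by linarith
    have hK1 : 1 ≤ K := by
      rw [hK, Nat.one_le_ceil_iff]
      exact Real.rpow_pos_of_pos hr0 _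
    have hK0 : (0 : ℝ) < K := by exact_mod_cast hK1
    -- decomposition
    set B := ballF (0 : EuclideanSpace ℝ (Fin d)) (r + m) with hB
    have hsub : E t ⊆ ⋃ v ∈ B,
        ((if r ≤ ‖toE v‖ then {ω | ∃ k, ω ∈ X.Done t k ∧ (∀ x : Site d, ‖toE x‖ < ρ → x ∈ X.A t ω) ∧
          (∀ x ∈ X.A t ω, ‖toE x‖ < r + m) ∧ K ≤ X.N v k ω} else ∅) ∪
        (if r + 1 + √d * D ≤ ‖toE v‖ then {ω | ∃ k, ω ∈ X.Done t k ∧ v ∈ X.A t ω ∧
          ∀ z : Site d, r ≤ ‖toE z‖ → X.N z k ω < K} else ∅)) := by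
      rintro ω ⟨k, hk, h1, h2, x, hx, hxr⟩
      simp only [Set.mem_iUnion]
      by_cases hcase : ∀ z : Site d, r ≤ ‖toE z‖ → X.N z k ω < K
      · refine ⟨x, ?_, Or.inr ?_⟩
        · rw [hB, mem_ballF, sub_zero]; exact h2 x hx
        · rw [if_pos (by linarith)]
          exact ⟨k, hk, hx, hcase⟩
      · push Not at hcase
        obtain ⟨z, hz1, hz2⟩ := hcase
        have hzA : z ∈ X.A t ω := by
          rw [X.A_of_done hk]
          exact X.mem_agg_of_N_pos (by omega)
        refine ⟨z, ?_, Or.inl ?_⟩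
        · rw [hB, mem_ballF, sub_zero]; exact h2 z hzA
        · rw [if_pos hz1]
          exact ⟨k, hk, h1, h2, hz2⟩
    have hM : Real.exp (-(bigM d α * Real.log r)) = r ^ (-bigM d α) := by
      rw [Real.rpow_def_of_pos hr0]; congr 1; ring
    have b1 : ∀ v ∈ B, P (if r ≤ ‖toE v‖ then {ω | ∃ k, ω ∈ X.Done t k ∧
        (∀ x : Site d, ‖toE x‖ < ρ → x ∈ X.A t ω) ∧
          (∀ x ∈ X.A t ω, ‖toE x‖ < r + m) ∧ K ≤ X.N v k ω} else ∅)
        ≤ ENNReal.ofReal (r ^ (-bigM d α)) := by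
      intro v hv
      rw [hB, mem_ballF, sub_zero] at hv
      split_ifs with hvr
      · refine (hloc t r m ρ v K p1 p2 p3 hvr hv p4 p5 p6).trans ?_
        apply ENNReal.ofReal_le_ofReal
        rw [← hM]
        exact Real.exp_le_exp.2 (by linarith)
      · rw [measure_empty]; exact zero_le
    have b2 : ∀ v ∈ B, P (if r + 1 + √d * D ≤ ‖toE v‖ then {ω | ∃ k, ω ∈ X.Done t k ∧ v ∈ X.A t ω ∧
          ∀ z : Site d, r ≤ ‖toE z‖ → X.N z k ω < K} else ∅)
        ≤ ENNReal.ofReal (2 * K * r ^ (-bigM d α)) := by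
      intro v _
      split_ifs with hvr
      · refine (X.far_prob H hd1 t hr0 hK1 D v hvr).trans ?_
        apply ENNReal.ofReal_le_ofReal
        rw [← hM]
        apply mul_le_mul_of_nonneg_left _ (by positivity)
        apply Real.exp_le_exp.2
        have hsq : 0 < √(K : ℝ) := Real.sqrt_pos.2 hK0
        rw [neg_div, neg_le_neg_iff, le_div_iff₀ hsq]
        have := Nat.le_ceil (√(K : ℝ) * (bigM d α * Real.log r))
        rw [← hD] at this
        linarith
      · rw [measure_empty]; exact zero_le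
    have hcard := card_ballF_le (0 : EuclideanSpace ℝ (Fin d)) (s := r + m) (by linarith)
    rw [← hB] at hcard
    calc P (E t) ≤ ∑ v ∈ B, P ((if r ≤ ‖toE v‖ then {ω | ∃ k, ω ∈ X.Done t k ∧
          (∀ x : Site d, ‖toE x‖ < ρ → x ∈ X.A t ω) ∧
          (∀ x ∈ X.A t ω, ‖toE x‖ < r + m) ∧ K ≤ X.N v k ω} else ∅) ∪
        (if r + 1 + √d * D ≤ ‖toE v‖ then {ω | ∃ k, ω ∈ X.Done t k ∧ v ∈ X.A t ω ∧
          ∀ z : Site d, r ≤ ‖toE z‖ → X.N z k ω < K} else ∅)) :=
          (measure_mono hsub).trans (measure_biUnion_finset_le _ _)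
      _ ≤ ∑ _v ∈ B, ENNReal.ofReal ((1 + 2 * K) * r ^ (-bigM d α)) := by
          refine Finset.sum_le_sum fun v hv => ?_
          refine (measure_union_le _ _).trans ((add_le_add (b1 v hv) (b2 v hv)).trans ?_)
          have hp : 0 ≤ r ^ (-bigM d α) := Real.rpow_nonneg hr0.le _
          rw [← ENNReal.ofReal_add hp (by positivity)]
          apply le_of_eq; congr 1; ring
      _ = ENNReal.ofReal ((B.card : ℝ) * ((1 + 2 * K) * r ^ (-bigM d α))) := by
          rw [Finset.sum_const, nsmul_eq_mul, ENNReal.ofReal_mul (Nat.cast_nonneg _),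
            ENNReal.ofReal_natCast]
      _ ≤ _ := by
          apply ENNReal.ofReal_le_ofReal
          refine le_trans ?_ p9
          have hp : 0 ≤ (1 + 2 * K) * r ^ (-bigM d α) := by
            have := Real.rpow_nonneg hr0.le (-bigM d α)
            positivity
          have := mul_le_mul_of_nonneg_right hcard hp
          linarith
  unfold OB at h ⊢
  filter_upwards [hbc, X.ae_done H hd1, hinner, h] with ω h1 h2 h3 h4
  filter_upwards [h1, eventually_ge_atTop 1, h3, h4] with t g1 g2 g3 g4 x hx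
  by_contra hcon
  push Not at hcon
  obtain ⟨k, hk⟩ := h2 t g2
  exact g1 ⟨k, hk, g3, g4, x, hx, hcon⟩

/-- the crude bound as a starting point -/
theorem OB_start [IsProbabilityMeasure P] (H : HypH ν) (hd : 3 ≤ d) : X.OB P (8 * d + 1) := by
  have hd1 : 1 ≤ d := by omega
  have hw := unitVol_pos (d := d)
  unfold OB
  filter_upwards [X.crude_outer (P := P) H hd1] with ω hω
  filter_upwards [hω, (tendsto_radius hd1).eventually_ge_atTop (max 1 (unitVol d ^ 8))]
    with t h1 h2 x hx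
  have hr1 : 1 ≤ radius d t := (le_max_left _ _).trans h2
  have hr2 : unitVol d ^ 8 ≤ radius d t := (le_max_right _ _).trans h2
  have hr0 : 0 < radius d t := by linarith
  have hrp : unitVol d * radius d (t : ℝ) ^ d = t := radius_pow hd1 (Nat.cast_nonneg t)
  have h3 := h1 x hx
  have h4 : (t : ℝ) ^ 8 ≤ radius d t ^ (8 * (d : ℝ) + 1) := by
    have e : radius d (t : ℝ) ^ (8 * (d : ℝ) + 1) = (radius d (t : ℝ) ^ d) ^ 8 * radius d t := by
      rw [Real.rpow_add hr0, Real.rpow_one, ← pow_mul, ← Real.rpow_natCast]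
      push_cast; rw [mul_comm (d : ℝ) 8]
    rw [e]
    calc (t : ℝ) ^ 8 = unitVol d ^ 8 * (radius d (t : ℝ) ^ d) ^ 8 := by
          rw [← mul_pow, hrp]
      _ ≤ radius d t * (radius d (t : ℝ) ^ d) ^ 8 :=
          mul_le_mul_of_nonneg_right hr2 (by positivity)
      _ = _ := by ring
  linarith

/-- **Outer bound** -/
theorem outer_as [IsProbabilityMeasure P] (H : HypH ν) (hd : 3 ≤ d) (OF : OuterFun d)
    {s : ℝ} (hs : 0 < s) : X.OB P (a2 d / 2 + s) := by
  have hd1 : 1 ≤ d := by omega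
  set δ := min s (1 / 4) with hδ
  have hδ0 : 0 < δ := lt_min hs (by norm_num)
  have hδ1 : δ ≤ 1 / 4 := min_le_right _ _
  have hδs : δ ≤ s := min_le_left _ _
  set β := a2 d / 2 + δ with hβ
  have key : ∀ n : ℕ, X.OB P (max β (8 * d + 1 - n * (δ ^ 2 / 16))) := by
    intro n
    induction n with
    | zero =>
      refine X.OB_mono hd1 ?_ (X.OB_start H hd)
      rw [Nat.cast_zero, zero_mul, sub_zero]; exact le_max_right _ _
    | succ n ih =>
      by_cases hcase : β ≤ 8 * d + 1 - n * (δ ^ 2 / 16)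
      · rw [max_eq_right hcase] at ih
        have := X.outer_step (P := P) H hd OF hδ0 hδ1 hcase ih
        refine X.OB_mono hd1 ?_ this
        push_cast
        refine le_trans (le_of_eq ?_) (le_max_right _ _)
        ring
      · push Not at hcase
        rw [max_eq_left hcase.le] at ih
        exact X.OB_mono hd1 (le_max_left _ _) ih
  obtain ⟨n, hn⟩ := exists_nat_ge ((8 * d + 1) / (δ ^ 2 / 16))
  have h1 := key n
  rw [div_le_iff₀ (by positivity)] at hn
  have h2 : max β (8 * d + 1 - n * (δ ^ 2 / 16)) = β := by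
    apply max_eq_left
    have := a2_nonneg d
    linarith
  rw [h2] at h1
  exact X.OB_mono hd1 (by rw [hβ]; linarith) h1

end Process

end BIDLA
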