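import Mathlib
import Pool.Agent.Work.MP_1354f0_pr.OuterStep
import Pool.Agent.Work.MP_1354f0_pr.OffspringB

/-!
The number of rings before the end of the `t`-th BRW is of order `r^(d+2)`.
-/

namespace BIDLA

open MeasureTheory Filter
open scoped ENNReal

variable {d : ℕ} {ν : PMF ℕ} {Ω : Type*} [MeasurableSpace Ω] {P : Measure Ω} (X : Process d ν P)

lemma lap_min_le (hd : 1 ≤ d) (M : ℝ) (v : Site d) :
    lap (fun x => min (‖toE x‖ ^ 2) M) v ≤ 1 := by
  have hd0 : (0 : ℝ) < d := by exact_mod_cast hd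
  have h := lap_normsq hd v
  unfold lap at h ⊢
  beta_reduce at h ⊢
  have h1 : (∑ e : Dir d, min (‖toE (v + vec e)‖ ^ 2) M) / (2 * d)
      ≤ (∑ e : Dir d, ‖toE (v + vec e)‖ ^ 2) / (2 * d) := by
    apply div_le_div_of_nonneg_right _ (by positivity)
    exact Finset.sum_le_sum fun e _ => min_le_left _ _
  have h2 : (∑ e : Dir d, min (‖toE (v + vec e)‖ ^ 2) M) / (2 * d) ≤ M := by
    rw [div_le_iff₀ (by positivity)]
    calc ∑ e : Dir d, min (‖toE (v + vec e)‖ ^ 2) M ≤ ∑ _e : Dir d, M :=
          Finset.sum_le_sum fun e _ => min_le_right _ _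
      _ = M * (2 * d) := by
          rw [Finset.sum_const, Finset.card_univ, card_dir, nsmul_eq_mul]; push_cast; ring
  rcases le_total (‖toE v‖ ^ 2) M with h3 | h3
  · rw [min_eq_left h3]; linarith
  · rw [min_eq_right h3]; linarith

lemma log_le_of_radius (hd : 1 ≤ d) {b : ℝ} (hb : 0 < b) {e : ℕ} (he : 1 ≤ e) :
    ∀ᶠ t : ℕ in atTop, 2 * Real.log t ≤ b * radius d t ^ e := by
  have hw := unitVol_pos (d := d)
  have h1 := ev_pow_log (a := 0) (b := 1) one_pos (2 * (d + 1) / b) (by positivity)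
  filter_upwards [(tendsto_radius hd).eventually h1, eventually_ge_atTop 1,
    (tendsto_radius hd).eventually_ge_atTop (max 1 (unitVol d))] with t h2 h3 h4
  have hr1 : 1 ≤ radius d t := (le_max_left _ _).trans h4
  have hrw : unitVol d ≤ radius d t := (le_max_right _ _).trans h4
  have ht0 : (0 : ℝ) < t := by exact_mod_cast h3
  have hrp : unitVol d * radius d (t : ℝ) ^ d = t := radius_pow hd (Nat.cast_nonneg t)
  have h5 : (t : ℝ) ≤ radius d t ^ (d + 1) := by
    rw [pow_succ]
    calc (t : ℝ) = unitVol d * radius d (t : ℝ) ^ d := hrp.symm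
      _ = radius d (t : ℝ) ^ d * unitVol d := mul_comm _ _
      _ ≤ _ := mul_le_mul_of_nonneg_left hrw (by positivity)
  have h6 : Real.log t ≤ (d + 1) * Real.log (radius d t) := by
    have := Real.log_le_log ht0 h5
    rw [Real.log_pow] at this
    push_cast at this
    exact this
  rw [Real.rpow_zero, one_mul, Real.rpow_one, div_mul_eq_mul_div, div_le_iff₀ hb] at h2
  have h7 : radius d t ≤ radius d t ^ e := by
    calc radius d t = radius d t ^ 1 := (pow_one _).symm
      _ ≤ _ := pow_le_pow_right₀ hr1 he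
  have h8 := mul_le_mul_of_nonneg_left h7 hb.le
  linarith

lemma exp_neg_two_log {t : ℕ} (ht : 1 ≤ t) {a : ℝ} (h : 2 * Real.log t ≤ a) :
    Real.exp (-a) ≤ 1 / (t : ℝ) ^ 2 := by
  have ht0 : (0 : ℝ) < t := by exact_mod_cast ht
  calc Real.exp (-a) ≤ Real.exp (-(2 * Real.log t)) := Real.exp_le_exp.2 (by linarith)
    _ = 1 / (t : ℝ) ^ 2 := by
      rw [Real.exp_neg, show 2 * Real.log (t : ℝ) = Real.log ((t : ℝ) ^ 2) by
        rw [Real.log_pow]; norm_num, Real.exp_log (by positivity), one_div]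

namespace Process

/-- **lower bound for the number of rings** -/
theorem rings_ge [IsProbabilityMeasure P] (H : HypH ν) (hd : 3 ≤ d) : ∃ c : ℝ, 0 < c ∧
    ∀ᵐ ω ∂P, ∀ᶠ t : ℕ in atTop, ∀ k, ω ∈ X.Done t k → c * radius d t ^ (d + 2) ≤ k := by
  classical
  have hd1 : 1 ≤ d := by omega
  have hd0 : (0 : ℝ) < d := by positivity
  have hw := unitVol_pos (d := d)
  obtain ⟨Cν, κ, hCν, hκ, hstep⟩ := stepLe_of_lap ν H
  obtain ⟨KI, hKI, hinner⟩ := X.inner_as (P := P) H hd
  set b : ℝ := min (1 / (16 * Cν + 1)) (κ / 4) with hb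
  have hb0 : 0 < b := lt_min (by positivity) (by positivity)
  have hb1 : 16 * Cν * b ≤ 1 := by
    have h1 : b ≤ 1 / (16 * Cν + 1) := min_le_left _ _
    rw [le_div_iff₀ (by positivity)] at h1
    nlinarith
  have hb2 : 4 * b ≤ κ := by
    have h1 : b ≤ κ / 4 := min_le_right _ _
    linarith
  set cd : ℝ := (11 / 24) ^ d - (7 / 24) ^ d with hcd
  have hcd0 : 0 < cd := by
    rw [hcd, sub_pos]
    exact pow_lt_pow_left₀ (by norm_num) (by norm_num) (by omega)
  set c1 : ℝ := unitVol d * cd / 48 with hc1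
  have hc10 : 0 < c1 := by positivity
  refine ⟨c1, hc10, ?_⟩
  have hs0 : 0 ≤ √(d : ℝ) := Real.sqrt_nonneg _
  set E : ℕ → Set Ω := fun t => {ω | ∃ k, ω ∈ X.Done t k ∧
    (∀ x : Site d, ‖toE x‖ < radius d t / 2 → x ∈ X.A t ω) ∧ (k : ℝ) < c1 * radius d t ^ (d + 2)}
    with hE
  have hsum : Summable fun t : ℕ => 1 / (t : ℝ) ^ 2 :=
    Real.summable_one_div_nat_pow.2 (by norm_num)
  have hevt := (log_le_of_radius (d := d) hd1 (b := b * c1) (by positivity) (e := d - 2)
    (by omega)).and ((tendsto_radius hd1).eventually_ge_atTop (max 1 (24 * √d)))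
  obtain ⟨T, hT⟩ := eventually_atTop.1 hevt
  have hbc : ∀ᵐ ω ∂P, ∀ᶠ t in atTop, ω ∉ E t := by
    refine bc hsum (max T 1) ?_
    intro t ht
    obtain ⟨hlog, hr⟩ := hT t ((le_max_left _ _).trans ht)
    have ht1 : 1 ≤ t := (le_max_right _ _).trans ht
    set r := radius d t with hrd
    have hr1 : 1 ≤ r := (le_max_left _ _).trans hr
    have hr2 : 24 * √d ≤ r := (le_max_right _ _).trans hr
    have hr0 : 0 < r := by linarith
    set l : ℝ := b / r ^ 4 with hl
    have hl0 : 0 < l := by positivity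
    refine (X.prob_le (f := fun x => l * min (‖toE x‖ ^ 2) (4 * r ^ 2)) (c := fun _ => -(2 * l))
      (V := Set.univ) ?_ t (b * c1 * r ^ (d - 2)) (E t) ?_).trans ?_
    · intro v _
      have hbd : ∀ e : Dir d, |l * min (‖toE (v + vec e)‖ ^ 2) (4 * r ^ 2)| ≤ l * (4 * r ^ 2) := by
        intro e
        rw [abs_of_nonneg (by positivity)]
        exact mul_le_mul_of_nonneg_left (min_le_right _ _) hl0.le
      refine hstep d hd1 _ _ v (fun e => (hbd e).trans ?_) (fun e => ?_)
      · rw [hl]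
        have : b / r ^ 4 * (4 * r ^ 2) = 4 * b / r ^ 2 := by field_simp
        rw [this, div_le_iff₀ (by positivity)]
        have : κ ≤ κ * r ^ 2 := le_mul_of_one_le_right hκ.le (one_le_pow₀ hr1)
        linarith
      · rw [lap_const_mul]
        have h1 := mul_le_mul_of_nonneg_left (lap_min_le hd1 (4 * r ^ 2) v) hl0.le
        have h2 : (l * min (‖toE (v + vec e)‖ ^ 2) (4 * r ^ 2)) ^ 2 ≤ (l * (4 * r ^ 2)) ^ 2 := by
          rw [← sq_abs]; exact pow_le_pow_left₀ (abs_nonneg _) (hbd e) 2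
        have h3 := mul_le_mul_of_nonneg_left h2 hCν
        have h4 : Cν * (l * (4 * r ^ 2)) ^ 2 = 16 * Cν * b * l := by
          rw [hl]; field_simp; ring
        have h5 := mul_le_mul_of_nonneg_right hb1 hl0.le
        linarith
    · rintro ω ⟨k, hk, hin, hk2⟩
      refine ⟨k, hk, fun _ _ => trivial, ?_⟩
      have h0 : l * min (‖toE (0 : Site d)‖ ^ 2) (4 * r ^ 2) = 0 := by
        rw [toE_zero, norm_zero, min_eq_left (by rw [zero_pow two_ne_zero]; positivity)]; ring
      rw [h0, Finset.sum_const, Finset.card_range, nsmul_eq_mul]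
      -- sum over the annulus
      set B1 := ballF (0 : EuclideanSpace ℝ (Fin d)) (r / 2) with hB1
      set B2 := ballF (0 : EuclideanSpace ℝ (Fin d)) (r / 4) with hB2
      have hsub : B2 ⊆ B1 := by
        intro x hx
        rw [hB2, mem_ballF] at hx
        rw [hB1, mem_ballF]; linarith
      have h1 : (((B1 \ B2).card : ℝ)) * (l * (r ^ 2 / 16))
          ≤ ∑ x ∈ X.A t ω, l * min (‖toE x‖ ^ 2) (4 * r ^ 2) := by
        rw [← nsmul_eq_mul, ← Finset.sum_const]
        calc ∑ _x ∈ B1 \ B2, l * (r ^ 2 / 16)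
            ≤ ∑ x ∈ B1 \ B2, l * min (‖toE x‖ ^ 2) (4 * r ^ 2) := by
              refine Finset.sum_le_sum fun x hx => ?_
              rw [Finset.mem_sdiff, hB1, hB2, mem_ballF, mem_ballF, sub_zero, not_lt] at hx
              apply mul_le_mul_of_nonneg_left _ hl0.le
              refine le_min ?_ ?_
              · have := pow_le_pow_left₀ (by positivity) hx.2 2
                calc r ^ 2 / 16 = (r / 4) ^ 2 := by ring
                  _ ≤ _ := this
              · nlinarith [sq_nonneg r]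
          _ ≤ _ := by
              refine Finset.sum_le_sum_of_subset_of_nonneg ?_
                (fun x _ _ => mul_nonneg hl0.le (le_min (by positivity) (by positivity)))
              intro x hx
              rw [Finset.mem_sdiff, hB1, mem_ballF, sub_zero] at hx
              exact hin x hx.1
      have hcard : unitVol d * cd * r ^ d ≤ ((B1 \ B2).card : ℝ) := by
        have h2 : (((B1 \ B2).card : ℝ)) = B1.card - B2.card := by
          rw [Finset.card_sdiff_of_subset hsub, Nat.cast_sub (Finset.card_le_card hsub)]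
        rw [h2]
        have h3 := le_card_ballF_zero hd1 (ρ := r / 2) (by linarith)
        have h4 := card_ballF_zero_le hd1 (ρ := r / 4) (by positivity)
        have h5 : (11 / 24 * r) ^ d ≤ (r / 2 - √d) ^ d :=
          pow_le_pow_left₀ (by positivity) (by linarith) d
        have h6 : (r / 4 + √d) ^ d ≤ (7 / 24 * r) ^ d :=
          pow_le_pow_left₀ (by positivity) (by linarith) d
        have h7 := mul_le_mul_of_nonneg_left h5 hw.le
        have h8 := mul_le_mul_of_nonneg_left h6 hw.le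
        rw [mul_pow] at h7 h8
        rw [hcd]
        linarith
      have h2 := mul_le_mul_of_nonneg_right hcard (by positivity : 0 ≤ l * (r ^ 2 / 16))
      have e1 : unitVol d * cd * r ^ d * (l * (r ^ 2 / 16)) = 3 * (l * (c1 * r ^ (d + 2))) := by
        rw [hc1, pow_add]; ring
      have e2 : b * c1 * r ^ (d - 2) = l * (c1 * r ^ (d + 2)) := by
        rw [hl]
        have : r ^ (d + 2) = r ^ (d - 2) * r ^ 4 := by
          rw [← pow_add]; congr 1; omega
        rw [this]; field_simp
      rw [e2]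
      have h3 := mul_le_mul_of_nonneg_left hk2.le hl0.le
      linarith
    · apply ENNReal.ofReal_le_ofReal
      exact exp_neg_two_log ht1 hlog
  have hgI : ∀ᶠ t : ℕ in atTop, KI * gI d (radius d t) ≤ radius d t / 2 := by
    have h1 := ev_gI d (s := 1 / 4) (by norm_num)
    have h2 := ev_pow (a := a2 d / 2 + 1 / 4) (b := 1) (by have := a2_le d; linarith) (2 * KI)
    filter_upwards [(tendsto_radius hd1).eventually h1, (tendsto_radius hd1).eventually h2]
      with t h3 h4
    rw [Real.rpow_one] at h4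
    have := mul_le_mul_of_nonneg_left h3 hKI.le
    linarith
  filter_upwards [hbc, hinner] with ω h1 h2
  filter_upwards [h1, h2, hgI] with t h3 h4 h5 k hk
  by_contra hcon
  push Not at hcon
  exact h3 ⟨k, hk, fun x hx => h4 x (by linarith), hcon⟩

/-- **upper bound for the number of rings** -/
theorem rings_le [IsProbabilityMeasure P] (H : HypH ν) (hd : 3 ≤ d) {α : ℝ} (hα : α < 1)
    (hOB : X.OB P α) : ∃ C : ℝ, 0 < C ∧
    ∀ᵐ ω ∂P, ∀ᶠ t : ℕ in atTop, ∀ k, ω ∈ X.Done t k → (k : ℝ) ≤ C * radius d t ^ (d + 2) := by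
  classical
  have hd1 : 1 ≤ d := by omega
  have hd0 : (0 : ℝ) < d := by positivity
  obtain ⟨Cν, κ, hCν, hκ, hstep⟩ := stepLe_of_lap ν H
  set b : ℝ := min (1 / (162 * Cν + 1)) (κ / 9) with hb
  have hb0 : 0 < b := lt_min (by positivity) (by positivity)
  have hb1 : 162 * Cν * b ≤ 1 := by
    have h1 : b ≤ 1 / (162 * Cν + 1) := min_le_left _ _
    rw [le_div_iff₀ (by positivity)] at h1
    nlinarith
  have hb2 : 9 * b ≤ κ := by
    have h1 : b ≤ κ / 9 := min_le_right _ _
    linarith
  set C1 : ℝ := 8 * 6 ^ d + 2 with hC1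
  have hC10 : 0 < C1 := by positivity
  refine ⟨C1, hC10, ?_⟩
  set E : ℕ → Set Ω := fun t => {ω | ∃ k, ω ∈ X.Done t k ∧
    (∀ x ∈ X.A t ω, ‖toE x‖ < 2 * radius d t) ∧ C1 * radius d t ^ (d + 2) < (k : ℝ)}
    with hE
  have hsum : Summable fun t : ℕ => 1 / (t : ℝ) ^ 2 :=
    Real.summable_one_div_nat_pow.2 (by norm_num)
  have hevt := (log_le_of_radius (d := d) hd1 (b := b) hb0 (e := d - 2)
    (by omega)).and ((tendsto_radius hd1).eventually_ge_atTop 1)
  obtain ⟨T, hT⟩ := eventually_atTop.1 hevt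
  have hbc : ∀ᵐ ω ∂P, ∀ᶠ t in atTop, ω ∉ E t := by
    refine bc hsum (max T 1) ?_
    intro t ht
    obtain ⟨hlog, hr1⟩ := hT t ((le_max_left _ _).trans ht)
    have ht1 : 1 ≤ t := (le_max_right _ _).trans ht
    set r := radius d t with hrd
    have hr0 : 0 < r := by linarith
    set l : ℝ := b / r ^ 4 with hl
    have hl0 : 0 < l := by positivity
    refine (X.prob_le (f := fun x => -l * ‖toE x‖ ^ 2) (c := fun _ => l / 2)
      (V := {x | ‖toE x‖ < 2 * r}) ?_ t (b * r ^ (d - 2)) (E t) ?_).trans ?_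
    · intro v hv
      have hv' : ‖toE v‖ < 2 * r := hv
      have hbd : ∀ e : Dir d, |-l * ‖toE (v + vec e)‖ ^ 2| ≤ l * (9 * r ^ 2) := by
        intro e
        have h1 : ‖toE (v + vec e)‖ ≤ 3 * r := by
          rw [toE_add]
          have := norm_add_le (toE v) (toE (vec e))
          rw [norm_toE_vec] at this
          linarith
        have h2 : ‖toE (v + vec e)‖ ^ 2 ≤ 9 * r ^ 2 := by
          have := pow_le_pow_left₀ (norm_nonneg _) h1 2
          linarith
        rw [abs_mul, abs_neg, abs_of_pos hl0, abs_of_nonneg (by positivity)]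
        exact mul_le_mul_of_nonneg_left h2 hl0.le
      refine hstep d hd1 _ _ v (fun e => (hbd e).trans ?_) (fun e => ?_)
      · rw [hl]
        have : b / r ^ 4 * (9 * r ^ 2) = 9 * b / r ^ 2 := by field_simp
        rw [this, div_le_iff₀ (by positivity)]
        have : κ ≤ κ * r ^ 2 := le_mul_of_one_le_right hκ.le (one_le_pow₀ hr1)
        linarith
      · rw [lap_const_mul, lap_normsq hd1]
        have h2 : (-l * ‖toE (v + vec e)‖ ^ 2) ^ 2 ≤ (l * (9 * r ^ 2)) ^ 2 := by
          rw [← sq_abs]; exact pow_le_pow_left₀ (abs_nonneg _) (hbd e) 2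
        have h3 := mul_le_mul_of_nonneg_left h2 hCν
        have h4 : Cν * (l * (9 * r ^ 2)) ^ 2 = 162 * Cν * b * (l / 2) := by
          rw [hl]; field_simp; ring
        have h5 := mul_le_mul_of_nonneg_right hb1 (by positivity : 0 ≤ l / 2)
        linarith
    · rintro ω ⟨k, hk, hout, hk2⟩
      refine ⟨k, hk, fun j hj => hout _ (X.site_mem_A hk j hj), ?_⟩
      have h0 : -l * ‖toE (0 : Site d)‖ ^ 2 = 0 := by rw [toE_zero, norm_zero]; ring
      rw [h0, Finset.sum_const, Finset.card_range, nsmul_eq_mul]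
      have h1 : -(l * (4 * r ^ 2) * (3 ^ d * (2 * r) ^ d)) ≤ ∑ x ∈ X.A t ω, -l * ‖toE x‖ ^ 2 := by
        have h2 : ∑ _x ∈ X.A t ω, -(l * (4 * r ^ 2)) ≤ ∑ x ∈ X.A t ω, -l * ‖toE x‖ ^ 2 := by
          refine Finset.sum_le_sum fun x hx => ?_
          have h3 : ‖toE x‖ ^ 2 ≤ 4 * r ^ 2 := by
            have := pow_le_pow_left₀ (norm_nonneg _) (hout x hx).le 2
            linarith
          have := mul_le_mul_of_nonneg_left h3 hl0.le
          linarith
        rw [Finset.sum_const, nsmul_eq_mul] at h2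
        have h3 : ((X.A t ω).card : ℝ) ≤ 3 ^ d * (2 * r) ^ d := by
          have h4 : X.A t ω ⊆ ballF (0 : EuclideanSpace ℝ (Fin d)) (2 * r) := by
            intro x hx
            rw [mem_ballF, sub_zero]; exact hout x hx
          have h5 : ((X.A t ω).card : ℝ) ≤ (ballF (0 : EuclideanSpace ℝ (Fin d)) (2 * r)).card := by
            exact_mod_cast Finset.card_le_card h4
          exact h5.trans (card_ballF_le _ (by linarith))
        have h6 := mul_le_mul_of_nonneg_right h3 (by positivity : 0 ≤ l * (4 * r ^ 2))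
        linarith
      have e1 : l * (4 * r ^ 2) * (3 ^ d * (2 * r) ^ d) = 4 * 6 ^ d * (l * r ^ (d + 2)) := by
        rw [mul_pow, pow_add, show (6 : ℝ) = 3 * 2 by norm_num, mul_pow]; ring
      have e2 : b * r ^ (d - 2) = l * r ^ (d + 2) := by
        rw [hl]
        have : r ^ (d + 2) = r ^ (d - 2) * r ^ 4 := by
          rw [← pow_add]; congr 1; omega
        rw [this]; field_simp
      rw [e2]
      rw [e1] at h1
      have h3 := mul_le_mul_of_nonneg_left hk2.le hl0.le
      have h4 : l * (C1 * r ^ (d + 2)) = (8 * 6 ^ d + 2) * (l * r ^ (d + 2)) := by rw [hC1]; ring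
      rw [h4] at h3
      linarith
    · apply ENNReal.ofReal_le_ofReal
      exact exp_neg_two_log ht1 hlog
  have hm : ∀ᶠ t : ℕ in atTop, radius d t ^ α ≤ radius d t := by
    filter_upwards [(tendsto_radius hd1).eventually_ge_atTop 1] with t h
    calc radius d t ^ α ≤ radius d t ^ (1 : ℝ) := Real.rpow_le_rpow_of_exponent_le h hα.le
      _ = _ := Real.rpow_one _
  unfold OB at hOB
  filter_upwards [hbc, hOB] with ω h1 h2
  filter_upwards [h1, h2, hm] with t h3 h4 h5 k hk
  by_contra hcon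
  push Not at hcon
  exact h3 ⟨k, hk, fun x hx => (h4 x hx).trans_le (by linarith), hcon⟩

end Process

end BIDLA
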