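import Mathlib
import Pool.Agent.Work.MP_1354f0_pr.Rings

/-!
The number of active particles is at most `C r^2 log r`.
-/

namespace BIDLA

open MeasureTheory Filter
open scoped ENNReal

variable {d : ℕ}

/-- total of `f` over the active particles -/
def actM (f : Site d → ℝ) (s : State d) : ℝ := (s.act.map f).sum

lemma actM_arrive_le (f : Site d → ℝ) (s : State d) (x : Site d) (h : 0 ≤ f x) :
    actM f (arrive s x) ≤ actM f s + f x := by
  unfold actM arrive
  split_ifs
  · simp only [Multiset.map_cons, Multiset.sum_cons]; linarith
  · simp only; linarith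

lemma actM_foldl_le (f : Site d → ℝ) (v : Site d) (h : ∀ e, 0 ≤ f (v + vec e)) (w : List (Dir d))
    (s : State d) : actM f (w.foldl (fun s' e => arrive s' (v + vec e)) s)
      ≤ actM f s + (w.map fun e => f (v + vec e)).sum := by
  induction w generalizing s with
  | nil => simp
  | cons a w ih =>
    rw [List.foldl_cons, List.map_cons, List.sum_cons]
    have := ih (arrive s (v + vec a))
    have := actM_arrive_le f s (v + vec a) (h a)
    linarith

lemma actM_ring_le (f : Site d → ℝ) {s : State d} {v : Site d} (hv : v ∈ s.act)
    (h : ∀ e, 0 ≤ f (v + vec e)) (w : List (Dir d)) :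
    actM f (ring s v w) ≤ actM f s - f v + (w.map fun e => f (v + vec e)).sum := by
  unfold ring
  refine (actM_foldl_le f v h w _).trans ?_
  unfold actM
  simp only
  have : (s.act.map f).sum = f v + ((s.act.erase v).map f).sum := by
    rw [← Multiset.sum_cons, ← Multiset.map_cons, Multiset.cons_erase hv]
  rw [this]; linarith

lemma actM_launch (f : Site d → ℝ) (s : State d) [Decidable (s.act = 0)] :
    actM f (launch s) = actM f s + if s.act = 0 then f 0 else 0 := by
  unfold launch
  split_ifs with h
  · unfold actM; simp [h]
  · simp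

lemma measurable_ite_const {Ω : Type*} (m : MeasurableSpace Ω) {p : Ω → Prop} [DecidablePred p]
    (h : MeasurableSet {ω | p ω}) (c : ℝ) : Measurable fun ω => if p ω then c else 0 :=
  Measurable.ite h measurable_const measurable_const

variable {ν : PMF ℕ} {Ω : Type*} [MeasurableSpace Ω] {P : Measure Ω} (X : Process d ν P)

/-- all sites of the aggregate are in `W` if `0 ∈ W` and `W` contains the neighbours of `V` -/
lemma Process.agg_subset_of_inV {V : Set (Site d)} {W : Set (Site d)} (h0 : (0 : Site d) ∈ W)
    (hW : ∀ v ∈ V, ∀ e, v + vec e ∈ W) {n : ℕ} {ω : Ω} (h : ω ∈ X.inV V n) :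
    ∀ x ∈ (X.state n ω).agg, x ∈ W := by
  induction n with
  | zero =>
    rw [X.start]
    intro x hx
    simp only [Finset.mem_singleton] at hx
    rw [hx]; exact h0
  | succ n ih =>
    rw [X.inV_succ] at h
    intro x hx
    rw [X.step] at hx
    rcases mem_ring_agg hx with h1 | ⟨e, he⟩
    · rw [agg_launch] at h1
      exact ih h.1 x h1
    · rw [he]; exact hW _ h.2 e

namespace Process

lemma measurable_actM (f : Site d → ℝ) {m n : ℕ} (h : m ≤ n) :
    Measurable[X.ℱ n] (fun ω => actM f (X.state m ω)) :=
  (measurable_from_top (f := fun s : State d => actM f s)).comp (X.measurable_state h)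

/-- exponential moment of the active mass -/
theorem act_exp [IsProbabilityMeasure P] {f : Site d → ℝ} {V : Set (Site d)}
    (hV : ∀ v ∈ V, StepLe ν f (fun _ => 0) v) (hpos : ∀ v ∈ V, ∀ e, 0 ≤ f (v + vec e)) (n : ℕ) :
    ∫⁻ ω in X.inV V n, ENNReal.ofReal (Real.exp (actM f (X.state n ω))) ∂P
      ≤ 1 + n * ENNReal.ofReal (Real.exp (f 0)) := by
  classical
  induction n with
  | zero =>
    have : X.inV V 0 = Set.univ := by ext; simp [inV]
    rw [this, Measure.restrict_univ]
    have h1 : ∀ ω, actM f (X.state 0 ω) = 0 := by intro ω; rw [X.start]; simp [actM]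
    simp [h1]
  | succ n ih =>
    have hm : MeasurableSet[X.ℱ n] (X.inV V (n + 1)) := X.measurableSet_inV V (by omega)
    have hm' := X.le n _ hm
    have hmn := X.le n _ (X.measurableSet_inV V (by omega : n ≤ n + 1))
    have hidle := X.le n _ (X.measurableSet_idle (le_refl n))
    -- the process at one step
    set a : Ω → ℝ := fun ω => actM f (X.state n ω) + (if X.Idle ω n then f 0 else 0)
      - f (X.site n ω) with ha
    have hma : Measurable[X.ℱ n] a := by
      have h1 := X.measurable_actM f (le_refl n)
      have h2 : Measurable[X.ℱ n] fun ω => (if X.Idle ω n then f 0 else 0) :=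
        measurable_ite_const _ (X.measurableSet_idle (le_refl n)) (f 0)
      exact measurable_add_sub _ h1 h2 (X.measurable_comp_site f le_rfl)
    set G : Ω → List (Dir d) → ℝ≥0∞ := fun ω w => (X.inV V (n + 1)).indicator
      (fun ω => ENNReal.ofReal (Real.exp (a ω))) ω *
        ENNReal.ofReal (Real.exp ((w.map fun e => f (X.site n ω + vec e)).sum)) with hG
    have hstep1 : ∫⁻ ω in X.inV V (n + 1), ENNReal.ofReal (Real.exp (actM f (X.state (n + 1) ω))) ∂P
        ≤ ∫⁻ ω, G ω (X.offs n ω) ∂P := by
      rw [← lintegral_indicator hm']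
      refine lintegral_mono fun ω => ?_
      rw [hG]
      simp only
      by_cases hω : ω ∈ X.inV V (n + 1)
      · rw [Set.indicator_of_mem hω, Set.indicator_of_mem hω, ← ENNReal.ofReal_mul
          (Real.exp_pos _).le, ← Real.exp_add]
        apply ENNReal.ofReal_le_ofReal
        apply Real.exp_le_exp.2
        have hs : X.site n ω ∈ V := hω n (by omega)
        rw [X.step]
        refine (actM_ring_le f (X.site_mem n ω) (hpos _ hs) _).trans ?_
        rw [actM_launch, ha]
        apply le_of_eq
        by_cases h : (X.state n ω).act = 0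
        · have h' : X.Idle ω n := h
          simp [h, h']
        · have h' : ¬ X.Idle ω n := h
          simp [h, h']
      · rw [Set.indicator_of_notMem hω, Set.indicator_of_notMem hω, zero_mul]
    have hstep2 : ∫⁻ ω, G ω (X.offs n ω) ∂P ≤ ∫⁻ ω, (X.inV V (n + 1)).indicator
        (fun ω => ENNReal.ofReal (Real.exp (a ω + f (X.site n ω)))) ω ∂P := by
      rw [X.lintegral_step n G]
      · refine lintegral_mono fun ω => ?_
        rw [hG]
        simp only
        by_cases hω : ω ∈ X.inV V (n + 1)
        · rw [Set.indicator_of_mem hω, Set.indicator_of_mem hω]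
          have hs : X.site n ω ∈ V := hω n (by omega)
          have h1 := hV _ hs
          unfold StepLe gen lw at h1
          calc ∑' w : List (Dir d), (ν w.length / (2 * d) ^ w.length) *
                (ENNReal.ofReal (Real.exp (a ω)) *
                  ENNReal.ofReal (Real.exp ((w.map fun e => f (X.site n ω + vec e)).sum)))
              = ENNReal.ofReal (Real.exp (a ω)) * ∑' w : List (Dir d),
                (ν w.length / (2 * d) ^ w.length) *
                  ENNReal.ofReal (Real.exp ((w.map fun e => f (X.site n ω + vec e)).sum)) := by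
                rw [← ENNReal.tsum_mul_left]
                refine tsum_congr fun w => ?_
                ring
            _ ≤ ENNReal.ofReal (Real.exp (a ω)) *
                ENNReal.ofReal (Real.exp (f (X.site n ω) - 0)) := mul_le_mul_right h1 _
            _ = _ := by
                rw [← ENNReal.ofReal_mul (Real.exp_pos _).le, ← Real.exp_add]
                congr 2; ring
        · rw [Set.indicator_of_notMem hω, Set.indicator_of_notMem hω]
          simp
      · intro w
        rw [hG]
        have h1 : Measurable[X.ℱ n] ((X.inV V (n + 1)).indicator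
            (fun ω => ENNReal.ofReal (Real.exp (a ω)))) :=
          (measurable_ofReal_exp _ hma).indicator hm
        have h2 : Measurable[X.ℱ n] fun ω =>
            ENNReal.ofReal (Real.exp ((w.map fun e => f (X.site n ω + vec e)).sum)) :=
          measurable_ofReal_exp _ (X.measurable_comp_site
            (fun v => (w.map fun e => f (v + vec e)).sum) le_rfl)
        exact h1.mul h2
    refine hstep1.trans (hstep2.trans ?_)
    calc ∫⁻ ω, (X.inV V (n + 1)).indicator
            (fun ω => ENNReal.ofReal (Real.exp (a ω + f (X.site n ω)))) ω ∂P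
        ≤ ∫⁻ ω, ((X.inV V n).indicator
            (fun ω => ENNReal.ofReal (Real.exp (actM f (X.state n ω)))) ω
            + ENNReal.ofReal (Real.exp (f 0))) ∂P := by
          refine lintegral_mono fun ω => ?_
          by_cases hω : ω ∈ X.inV V (n + 1)
          · have hω' : ω ∈ X.inV V n := by rw [X.inV_succ] at hω; exact hω.1
            rw [Set.indicator_of_mem hω, Set.indicator_of_mem hω']
            by_cases h : X.Idle ω n
            · have h0 : actM f (X.state n ω) = 0 := by
                unfold Idle at h; unfold actM; rw [h]; simp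
              have : a ω + f (X.site n ω) = f 0 := by
                rw [ha]; simp only [h, if_true, h0]; ring
              rw [this]; exact le_add_self
            · have : a ω + f (X.site n ω) = actM f (X.state n ω) := by
                rw [ha]; simp only [h, if_false]; ring
              rw [this]; exact le_self_add
          · rw [Set.indicator_of_notMem hω]; exact zero_le
      _ = ∫⁻ ω in X.inV V n, ENNReal.ofReal (Real.exp (actM f (X.state n ω))) ∂P
            + ENNReal.ofReal (Real.exp (f 0)) := by
          rw [lintegral_add_right _ measurable_const, lintegral_indicator hmn, lintegral_const,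
            measure_univ, mul_one]
      _ ≤ (1 + n * ENNReal.ofReal (Real.exp (f 0))) + ENNReal.ofReal (Real.exp (f 0)) :=
          add_le_add ih le_rfl
      _ = _ := by push_cast; ring

/-- Markov bound for the number of active particles -/
theorem act_prob [IsProbabilityMeasure P] {f : Site d → ℝ} {V W : Set (Site d)}
    (hV : ∀ v ∈ V, StepLe ν f (fun _ => 0) v) (h0 : (0 : Site d) ∈ W)
    (hW : ∀ v ∈ V, ∀ e, v + vec e ∈ W) {g : ℝ} (hg : 0 ≤ g) (hfW : ∀ x ∈ W, g ≤ f x)
    (n : ℕ) (a : ℝ) :
    P {ω | ω ∈ X.inV V n ∧ a ≤ Multiset.card (X.state n ω).act} ≤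
      ENNReal.ofReal (Real.exp (-(g * a)) * (1 + n * Real.exp (f 0))) := by
  have h1 := X.act_exp (P := P) hV (fun v hv e => hg.trans (hfW _ (hW v hv e))) n
  have hm := X.le n _ (X.measurableSet_inV V (by omega : n ≤ n + 1))
  have hmE : MeasurableSet {ω | ω ∈ X.inV V n ∧ a ≤ Multiset.card (X.state n ω).act} := by
    have : {ω | ω ∈ X.inV V n ∧ a ≤ Multiset.card (X.state n ω).act}
        = X.inV V n ∩ X.state n ⁻¹' {s | a ≤ Multiset.card s.act} := rfl
    rw [this]
    exact hm.inter (((X.measurable_state le_rfl).mono (X.le n) le_rfl) trivial)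
  have hact : ∀ ω ∈ X.inV V n, g * Multiset.card (X.state n ω).act ≤ actM f (X.state n ω) := by
    intro ω hω
    have h2 := X.agg_subset_of_inV h0 hW hω
    have h3 := (X.inv n ω).2
    unfold actM
    have h4 : ∀ y ∈ (X.state n ω).act.map f, g ≤ y := by
      intro y hy
      rw [Multiset.mem_map] at hy
      obtain ⟨x, hx, rfl⟩ := hy
      exact hfW x (h2 x (h3 x hx))
    have h5 := Multiset.card_nsmul_le_sum h4
    rw [Multiset.card_map, nsmul_eq_mul] at h5
    linarith
  calc P {ω | ω ∈ X.inV V n ∧ a ≤ Multiset.card (X.state n ω).act}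
      = ∫⁻ _ω in {ω | ω ∈ X.inV V n ∧ a ≤ Multiset.card (X.state n ω).act}, 1 ∂P := by
        rw [setLIntegral_one]
    _ ≤ ∫⁻ ω in {ω | ω ∈ X.inV V n ∧ a ≤ Multiset.card (X.state n ω).act},
          ENNReal.ofReal (Real.exp (-(g * a))) *
            ENNReal.ofReal (Real.exp (actM f (X.state n ω))) ∂P := by
        refine setLIntegral_mono' hmE fun ω hω => ?_
        rw [← ENNReal.ofReal_mul (Real.exp_pos _).le, ← Real.exp_add, ← ENNReal.ofReal_one]
        apply ENNReal.ofReal_le_ofReal
        rw [← Real.exp_zero]
        apply Real.exp_le_exp.2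
        have h3 := hact ω hω.1
        have h4 := mul_le_mul_of_nonneg_left hω.2 hg
        linarith
    _ ≤ ∫⁻ ω in X.inV V n, ENNReal.ofReal (Real.exp (-(g * a))) *
            ENNReal.ofReal (Real.exp (actM f (X.state n ω))) ∂P :=
        lintegral_mono_set fun ω hω => hω.1
    _ ≤ ENNReal.ofReal (Real.exp (-(g * a))) * (1 + n * ENNReal.ofReal (Real.exp (f 0))) := by
        rw [lintegral_const_mul' _ _ ENNReal.ofReal_ne_top]
        exact mul_le_mul_right h1 _
    _ = _ := by
        rw [ENNReal.ofReal_mul (Real.exp_pos _).le, ENNReal.ofReal_add zero_le_one (by positivity),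
          ENNReal.ofReal_mul (Nat.cast_nonneg _), ENNReal.ofReal_natCast, ENNReal.ofReal_one]

end Process

end BIDLA
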