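import Mathlib
import Pool.Agent.Work.MP_1354f0_pr.ActMass

/-!
Almost sure bound for the number of active particles.
-/

namespace BIDLA

open MeasureTheory Filter
open scoped ENNReal

variable {d : ℕ} {ν : PMF ℕ} {Ω : Type*} [MeasurableSpace Ω] {P : Measure Ω} (X : Process d ν P)

lemma log_t_le (hd : 1 ≤ d) : ∀ᶠ t : ℕ in atTop,
    Real.log t ≤ (d + 1) * Real.log (radius d t) := by
  have hw := unitVol_pos (d := d)
  filter_upwards [eventually_ge_atTop 1,
    (tendsto_radius hd).eventually_ge_atTop (max 1 (unitVol d))] with t h3 h4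
  have hrw : unitVol d ≤ radius d t := (le_max_right _ _).trans h4
  have hr1 : 1 ≤ radius d t := (le_max_left _ _).trans h4
  have ht0 : (0 : ℝ) < t := by exact_mod_cast h3
  have hrp : unitVol d * radius d (t : ℝ) ^ d = t := radius_pow hd (Nat.cast_nonneg t)
  have h5 : (t : ℝ) ≤ radius d t ^ (d + 1) := by
    rw [pow_succ]
    calc (t : ℝ) = unitVol d * radius d (t : ℝ) ^ d := hrp.symm
      _ = radius d (t : ℝ) ^ d * unitVol d := mul_comm _ _
      _ ≤ _ := mul_le_mul_of_nonneg_left hrw (by positivity)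
  have := Real.log_le_log ht0 h5
  rw [Real.log_pow] at this
  push_cast at this
  exact this

namespace Process

/-- crude bound on the number of rings -/
theorem crude_rings [IsProbabilityMeasure P] (H : HypH ν) (hd : 1 ≤ d) :
    ∀ᵐ ω ∂P, ∀ᶠ t : ℕ in atTop, ∀ k, ω ∈ X.Done t k → k < t ^ 8 := by
  obtain ⟨C, hC, hb⟩ := X.alive_le (P := P) H hd
  have h1 : ∀ᵐ ω ∂P, ∀ᶠ t : ℕ in atTop, ω ∉ alive (X.Done t) (t ^ 8) := by
    have hu : Summable fun t : ℕ => C * (1 / (t : ℝ) ^ 3) :=
      (Real.summable_one_div_nat_pow.2 (by norm_num)).mul_left C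
    refine bc hu 1 fun t ht => ?_
    refine (hb t (t ^ 8) ht (Nat.one_le_pow _ _ (by omega))).trans ?_
    apply ENNReal.ofReal_le_ofReal
    have ht0 : (0 : ℝ) < t := by exact_mod_cast ht
    apply le_of_eq
    have e1 : √(((t ^ 8 : ℕ) : ℝ)) = (t : ℝ) ^ 4 := by
      push_cast
      rw [show (t : ℝ) ^ 8 = ((t : ℝ) ^ 4) ^ 2 by ring, Real.sqrt_sq (by positivity)]
    rw [e1]
    field_simp
  filter_upwards [h1] with ω h2
  filter_upwards [h2] with t h4 k hk
  by_contra hcon
  push Not at hcon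
  exact h4 fun j hj => X.alive_of_done hk j (by omega)

/-- bound on the number of active particles -/
theorem act_as [IsProbabilityMeasure P] (H : HypH ν) (hd : 3 ≤ d) {α : ℝ} (hα : α < 1)
    (hOB : X.OB P α) : ∃ C : ℝ, 0 < C ∧ ∀ᵐ ω ∂P, ∀ᶠ t : ℕ in atTop, ∀ k, ω ∈ X.Done t k →
      ∀ n ≤ k, (Multiset.card (X.state n ω).act : ℝ) ≤ C * (radius d t ^ 2 * Real.log (radius d t)) := by
  classical
  have hd1 : 1 ≤ d := by omega
  have hd0 : (0 : ℝ) < d := by positivity
  obtain ⟨Cν, κ, hCν, hκ, hstep⟩ := stepLe_of_lap ν H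
  set b : ℝ := min (1 / (16 * Cν + 1)) (min κ 1) with hb
  have hb0 : 0 < b := lt_min (by positivity) (lt_min hκ one_pos)
  have hb1 : 16 * Cν * b ≤ 1 := by
    have h1 : b ≤ 1 / (16 * Cν + 1) := min_le_left _ _
    rw [le_div_iff₀ (by positivity)] at h1
    nlinarith
  have hb2 : b ≤ κ := (min_le_right _ _).trans (min_le_left _ _)
  have hb3 : b ≤ 1 := (min_le_right _ _).trans (min_le_right _ _)
  set C1 : ℝ := 18 * (d + 1) * 16 / (7 * b) with hC1
  have hC10 : 0 < C1 := by positivity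
  refine ⟨C1, hC10, ?_⟩
  set E : ℕ → Set Ω := fun t => {ω | ∃ n ∈ Finset.range (t ^ 8),
    ω ∈ X.inV {x | ‖toE x‖ < 2 * radius d t} n ∧
    C1 * (radius d t ^ 2 * Real.log (radius d t)) ≤ Multiset.card (X.state n ω).act}
    with hE
  have hsum : Summable fun t : ℕ => 4 * (1 / (t : ℝ) ^ 2) :=
    (Real.summable_one_div_nat_pow.2 (by norm_num)).mul_left _
  have hevt := (log_t_le (d := d) hd1).and ((tendsto_radius hd1).eventually_ge_atTop 1)
  obtain ⟨T, hT⟩ := eventually_atTop.1 hevt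
  have hbc : ∀ᵐ ω ∂P, ∀ᶠ t in atTop, ω ∉ E t := by
    refine bc hsum (max T 1) ?_
    intro t ht
    obtain ⟨hlog, hr1⟩ := hT t ((le_max_left _ _).trans ht)
    have ht1 : 1 ≤ t := (le_max_right _ _).trans ht
    have ht0 : (0 : ℝ) < t := by exact_mod_cast ht1
    have ht1' : (1 : ℝ) ≤ t := by exact_mod_cast ht1
    set r := radius d t with hrd
    have hr0 : 0 < r := by linarith
    set θ : ℝ := b / r ^ 2 with hθ
    have hθ0 : 0 < θ := by positivity
    have hθb : θ ≤ b := by
      rw [hθ, div_le_iff₀ (by positivity)]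
      exact le_mul_of_one_le_right hb0.le (one_le_pow₀ hr1)
    set f : Site d → ℝ := fun x => θ + (-(θ / (16 * r ^ 2))) * ‖toE x‖ ^ 2 with hf
    have hfW : ∀ x : Site d, ‖toE x‖ < 3 * r → 7 / 16 * θ ≤ f x ∧ f x ≤ θ := by
      intro x hx
      have h1 : ‖toE x‖ ^ 2 ≤ 9 * r ^ 2 := by
        have := pow_le_pow_left₀ (norm_nonneg _) hx.le 2
        linarith
      have h2 : θ / (16 * r ^ 2) * ‖toE x‖ ^ 2 ≤ θ / (16 * r ^ 2) * (9 * r ^ 2) :=
        mul_le_mul_of_nonneg_left h1 (by positivity)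
      have h3 : θ / (16 * r ^ 2) * (9 * r ^ 2) = 9 / 16 * θ := by field_simp
      have h4 : 0 ≤ θ / (16 * r ^ 2) * ‖toE x‖ ^ 2 := by positivity
      rw [hf]
      constructor <;> simp only <;> linarith
    have hnb : ∀ v : Site d, ‖toE v‖ < 2 * r → ∀ e : Dir d, ‖toE (v + vec e)‖ < 3 * r := by
      intro v hv e
      rw [toE_add]
      have := norm_add_le (toE v) (toE (vec e))
      rw [norm_toE_vec] at this
      linarith
    have hV : ∀ v ∈ {x : Site d | ‖toE x‖ < 2 * r}, StepLe ν f (fun _ => 0) v := by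
      intro v hv
      refine hstep d hd1 _ _ v (fun e => ?_) (fun e => ?_)
      · have := hfW _ (hnb v hv e)
        rw [abs_of_nonneg (by linarith [this.1])]
        linarith [this.2]
      · have h1 : lap f v = -(θ / (16 * r ^ 2)) := by
          rw [hf, lap_add, lap_const hd1, lap_const_mul, lap_normsq hd1]; ring
        have h2 := hfW _ (hnb v hv e)
        have h3 : f (v + vec e) ^ 2 ≤ θ ^ 2 := pow_le_pow_left₀ (by linarith [h2.1]) h2.2 2
        have h4 := mul_le_mul_of_nonneg_left h3 hCν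
        have h5 : Cν * θ ^ 2 = 16 * Cν * b * (θ / (16 * r ^ 2)) := by
          rw [hθ]; field_simp
        have h6 := mul_le_mul_of_nonneg_right hb1 (by positivity : 0 ≤ θ / (16 * r ^ 2))
        rw [h1]; linarith
    have hprob : ∀ n, P {ω | ω ∈ X.inV {x | ‖toE x‖ < 2 * r} n ∧
        C1 * (r ^ 2 * Real.log r) ≤ Multiset.card (X.state n ω).act} ≤
        ENNReal.ofReal (Real.exp (-(7 / 16 * θ * (C1 * (r ^ 2 * Real.log r))))
          * (1 + n * Real.exp (f 0))) := by
      intro n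
      refine X.act_prob (P := P) (W := {x | ‖toE x‖ < 3 * r}) hV ?_ ?_ (by positivity) ?_ n _
      · show ‖toE (0 : Site d)‖ < 3 * r
        rw [toE_zero, norm_zero]; positivity
      · exact fun v hv e => hnb v hv e
      · exact fun x hx => (hfW x hx).1
    have hexp : Real.exp (-(7 / 16 * θ * (C1 * (r ^ 2 * Real.log r)))) ≤ 1 / (t : ℝ) ^ 18 := by
      have h1 : 7 / 16 * θ * (C1 * (r ^ 2 * Real.log r)) = 18 * ((d + 1) * Real.log r) := by
        rw [hC1, hθ]; field_simp
      rw [h1]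
      calc Real.exp (-(18 * ((d + 1) * Real.log r))) ≤ Real.exp (-(18 * Real.log t)) :=
            Real.exp_le_exp.2 (by linarith)
        _ = 1 / (t : ℝ) ^ 18 := by
          rw [Real.exp_neg, show 18 * Real.log (t : ℝ) = Real.log ((t : ℝ) ^ 18) by
            rw [Real.log_pow]; norm_num, Real.exp_log (by positivity), one_div]
    have hf0 : Real.exp (f 0) ≤ 3 := by
      have h1 : f 0 = θ := by rw [hf]; simp [toE_zero]
      rw [h1]
      calc Real.exp θ ≤ Real.exp 1 := Real.exp_le_exp.2 (hθb.trans hb3)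
        _ ≤ 3 := by linarith [Real.exp_one_lt_d9]
    have hsub : E t ⊆ ⋃ n ∈ Finset.range (t ^ 8), {ω | ω ∈ X.inV {x | ‖toE x‖ < 2 * r} n ∧
        C1 * (r ^ 2 * Real.log r) ≤ Multiset.card (X.state n ω).act} := by
      rintro ω ⟨n, hn, h1⟩
      simp only [Set.mem_iUnion]
      exact ⟨n, hn, h1⟩
    calc P (E t) ≤ ∑ n ∈ Finset.range (t ^ 8), P {ω | ω ∈ X.inV {x | ‖toE x‖ < 2 * r} n ∧
          C1 * (r ^ 2 * Real.log r) ≤ Multiset.card (X.state n ω).act} :=
          (measure_mono hsub).trans (measure_biUnion_finset_le _ _)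
      _ ≤ ∑ _n ∈ Finset.range (t ^ 8), ENNReal.ofReal (1 / (t : ℝ) ^ 18 * (4 * (t : ℝ) ^ 8)) := by
          refine Finset.sum_le_sum fun n hn => (hprob n).trans ?_
          apply ENNReal.ofReal_le_ofReal
          rw [Finset.mem_range] at hn
          have hn' : (n : ℝ) ≤ (t : ℝ) ^ 8 := by exact_mod_cast hn.le
          have h1 : 1 + n * Real.exp (f 0) ≤ 4 * (t : ℝ) ^ 8 := by
            have h2 : (n : ℝ) * Real.exp (f 0) ≤ (t : ℝ) ^ 8 * 3 :=
              mul_le_mul hn' hf0 (Real.exp_pos _).le (by positivity)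
            have h3 : 1 ≤ (t : ℝ) ^ 8 := one_le_pow₀ ht1'
            linarith
          exact mul_le_mul hexp h1 (by positivity) (by positivity)
      _ = ENNReal.ofReal (((t ^ 8 : ℕ) : ℝ) * (1 / (t : ℝ) ^ 18 * (4 * (t : ℝ) ^ 8))) := by
          rw [Finset.sum_const, Finset.card_range, nsmul_eq_mul,
            ENNReal.ofReal_mul (Nat.cast_nonneg _), ENNReal.ofReal_natCast]
      _ = _ := by
          congr 1
          push_cast
          field_simp
  have hm : ∀ᶠ t : ℕ in atTop, radius d t ^ α ≤ radius d t := by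
    filter_upwards [(tendsto_radius hd1).eventually_ge_atTop 1] with t h
    calc radius d t ^ α ≤ radius d t ^ (1 : ℝ) := Real.rpow_le_rpow_of_exponent_le h hα.le
      _ = _ := Real.rpow_one _
  unfold OB at hOB
  filter_upwards [hbc, hOB, X.crude_rings H hd1] with ω h1 h2 h3
  filter_upwards [h1, h2, hm, h3, eventually_ge_atTop 1] with t g1 g2 g3 g4 g5 k hk n hn
  by_contra hcon
  push Not at hcon
  by_cases hnk : n < t ^ 8
  · refine g1 ⟨n, Finset.mem_range.2 hnk, ?_, hcon.le⟩
    intro j hj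
    have h5 := X.site_mem_A hk j (by omega)
    exact (g2 _ h5).trans_le (by linarith)
  · have := g4 k hk
    omega

end Process

end BIDLA
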