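import Mathlib
import Pool.Agent.Work.MP_1354f0_pr.ActAS

/-!
Infinitely often the number of sites of the aggregate is far from `t`.
-/

namespace BIDLA

open MeasureTheory Filter
open scoped ENNReal

variable {d : ℕ} {ν : PMF ℕ} {Ω : Type*} [MeasurableSpace Ω] {P : Measure Ω} (X : Process d ν P)

lemma radius_half_le (hd : 1 ≤ d) {t : ℕ} (ht : 2 ≤ t) :
    radius d t / 2 ≤ radius d ((t - 1 : ℕ) : ℝ) := by
  have hw := unitVol_pos (d := d)
  have h1 : unitVol d * radius d (t : ℝ) ^ d = t := radius_pow hd (Nat.cast_nonneg t)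
  have h2 : unitVol d * radius d ((t - 1 : ℕ) : ℝ) ^ d = ((t - 1 : ℕ) : ℝ) :=
    radius_pow hd (Nat.cast_nonneg _)
  have h3 : ((t - 1 : ℕ) : ℝ) = t - 1 := by rw [Nat.cast_sub (by omega)]; simp
  have ht' : (2 : ℝ) ≤ t := by exact_mod_cast ht
  have h4 : (radius d t / 2) ^ d ≤ radius d ((t - 1 : ℕ) : ℝ) ^ d := by
    have h5 : unitVol d * (radius d t / 2) ^ d ≤ unitVol d * radius d ((t - 1 : ℕ) : ℝ) ^ d := by
      rw [h2, h3, div_pow, mul_div_assoc', h1]
      have h6 : (2 : ℝ) ≤ 2 ^ d := by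
        calc (2 : ℝ) = 2 ^ 1 := by norm_num
          _ ≤ 2 ^ d := pow_le_pow_right₀ (by norm_num) hd
      rw [div_le_iff₀ (by positivity)]
      nlinarith
    exact le_of_mul_le_mul_left h5 hw
  exact (pow_le_pow_iff_left₀ (by have := radius_nonneg d (Nat.cast_nonneg (α := ℝ) t); positivity)
    (radius_nonneg d (Nat.cast_nonneg _)) (by omega)).1 h4

namespace Process

lemma L_succ_done {t k : ℕ} {ω : Ω} (h : ω ∈ X.Done t k) : X.L (k + 1) ω = t := by
  have h1 := h.2
  rw [X.L_succ, if_pos h.1]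
  exact h1

/-- infinitely often there are few sites -/
theorem card_low_io [IsProbabilityMeasure P] (H : HypH ν) (hd : 3 ≤ d) (K : ℝ) :
    ∀ᵐ ω ∂P, ∃ᶠ t : ℕ in atTop,
      ((X.A t ω).card : ℝ) ≤ t - K * √(radius d t ^ (d + 2)) := by
  have hd1 : 1 ≤ d := by omega
  obtain ⟨c, hc, hrings⟩ := X.rings_ge (P := P) H hd
  set K' : ℝ := (|K| + 1) / √c with hK'
  have hsc : 0 < √c := Real.sqrt_pos.2 hc
  have hK'0 : 0 < K' := by positivity
  filter_upwards [hrings, X.ae_done H hd1, (X.S_io (P := P) H hd1 K').2] with ω h1 h2 h3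
  rw [frequently_atTop] at h3 ⊢
  intro T0
  obtain ⟨T1, hT1⟩ := eventually_atTop.1 (h1.and ((tendsto_radius hd1).eventually_ge_atTop 1))
  set T := max T0 (max T1 1) with hT
  obtain ⟨k0, hk0⟩ := h2 T ((le_max_right _ _).trans (le_max_right _ _))
  obtain ⟨n, hn, hSn⟩ := h3 (k0 + 1)
  have hL : T ≤ X.L n ω := by
    have := X.L_mono hn ω
    rwa [X.L_succ_done hk0] at this
  set t := X.L n ω with ht
  have ht1 : 1 ≤ t := ((le_max_right _ _).trans (le_max_right _ _)).trans hL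
  obtain ⟨k, hk⟩ := h2 t ht1
  have hkn : k < n := by
    by_contra hcon
    push Not at hcon
    have h4 := X.L_mono hcon ω
    have h5 := hk.2
    omega
  obtain ⟨hr, hr1⟩ := hT1 t (((le_max_left _ _).trans (le_max_right _ _)).trans hL)
  refine ⟨t, (le_max_left _ _).trans hL, ?_⟩
  have h6 := hr k hk
  have h7 := X.total_eq n ω
  have h8 : ((X.A t ω).card : ℝ) ≤ ((X.state n ω).agg.card : ℝ) := by
    rw [X.A_of_done hk]
    exact_mod_cast Finset.card_le_card (X.agg_mono hkn.le ω)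
  have h9 : (0 : ℝ) ≤ Multiset.card (X.state n ω).act := Nat.cast_nonneg _
  set r := radius d t with hrd
  have h10 : √c * √(r ^ (d + 2)) ≤ √(n : ℝ) := by
    rw [← Real.sqrt_mul hc.le]
    apply Real.sqrt_le_sqrt
    exact h6.trans (by exact_mod_cast hkn.le)
  have h11 : (|K| + 1) * √(r ^ (d + 2)) ≤ K' * √(n : ℝ) := by
    have := mul_le_mul_of_nonneg_left h10 hK'0.le
    calc (|K| + 1) * √(r ^ (d + 2)) = K' * (√c * √(r ^ (d + 2))) := by
          rw [hK']; field_simp
      _ ≤ _ := this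
  have h12 : 1 ≤ √(r ^ (d + 2)) := by
    rw [Real.one_le_sqrt]; exact one_le_pow₀ hr1
  have h13 : K * √(r ^ (d + 2)) ≤ |K| * √(r ^ (d + 2)) :=
    mul_le_mul_of_nonneg_right (le_abs_self K) (by linarith)
  rw [← ht] at h7
  linarith

/-- infinitely often there are many sites -/
theorem card_high_io [IsProbabilityMeasure P] (H : HypH ν) (hd : 3 ≤ d) {α : ℝ} (hα : α < 1)
    (hOB : X.OB P α) (K : ℝ) :
    ∀ᵐ ω ∂P, ∃ᶠ t : ℕ in atTop,
      (t : ℝ) + K * √(radius d t ^ (d + 2)) ≤ ((X.A t ω).card : ℝ) := by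
  have hd1 : 1 ≤ d := by omega
  obtain ⟨c, hc, hrings⟩ := X.rings_ge (P := P) H hd
  obtain ⟨Ca, hCa, hact⟩ := X.act_as (P := P) H hd hα hOB
  set c' : ℝ := c / 2 ^ (d + 2) with hc'
  have hc'0 : 0 < c' := by positivity
  set K' : ℝ := (|K| + 1) / √c' with hK'
  have hsc : 0 < √c' := Real.sqrt_pos.2 hc'0
  have hK'0 : 0 < K' := by positivity
  have hpow : ∀ᶠ t : ℕ in atTop, Ca * (radius d t ^ 2 * Real.log (radius d t))
      ≤ √(radius d t ^ (d + 2)) := by
    have h1 := ev_pow_log (a := 2) (b := 5 / 2) (by norm_num) Ca hCa.le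
    filter_upwards [(tendsto_radius hd1).eventually h1,
      (tendsto_radius hd1).eventually_ge_atTop 1] with t h2 h3
    have hr0 : 0 < radius d t := by linarith
    have e : radius d (t : ℝ) ^ (2 : ℝ) = radius d t ^ 2 := by
      rw [← Real.rpow_natCast]; norm_num
    rw [e] at h2
    refine h2.trans ?_
    apply Real.le_sqrt_of_sq_le
    rw [← Real.rpow_natCast, ← Real.rpow_mul hr0.le, ← Real.rpow_natCast]
    apply Real.rpow_le_rpow_of_exponent_le h3
    push_cast
    have : (3 : ℝ) ≤ d := by exact_mod_cast hd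
    linarith
  filter_upwards [hrings, X.ae_done H hd1, (X.S_io (P := P) H hd1 K').1, hact] with ω h1 h2 h3 hact
  rw [frequently_atTop] at h3 ⊢
  intro T0
  obtain ⟨T1, hT1⟩ := eventually_atTop.1 (((h1.and
    ((tendsto_radius hd1).eventually_ge_atTop 1)).and hact).and hpow)
  set T := max T0 (max T1 1) with hT
  obtain ⟨k0, hk0⟩ := h2 T ((le_max_right _ _).trans (le_max_right _ _))
  obtain ⟨n, hn, hSn⟩ := h3 (k0 + 1)
  have hL : T ≤ X.L n ω := by
    have := X.L_mono hn ω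
    rwa [X.L_succ_done hk0] at this
  have hT1L : T1 ≤ X.L n ω := ((le_max_left _ _).trans (le_max_right _ _)).trans hL
  have ht1 : 1 ≤ X.L n ω := ((le_max_right _ _).trans (le_max_right _ _)).trans hL
  obtain ⟨k', hk'⟩ := h2 (X.L n ω) ht1
  have hkn' : k' < n := by
    by_contra hcon
    push Not at hcon
    have h4 := X.L_mono hcon ω
    have h5 := hk'.2
    omega
  obtain ⟨k, hk⟩ := h2 (X.L n ω + 1) (by omega)
  have hnk : n ≤ k := by
    by_contra hcon
    push Not at hcon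
    have h4 := X.L_mono (Nat.succ_le_of_lt hcon) ω
    have h5 := X.L_succ_done hk
    rw [Nat.succ_eq_add_one, h5] at h4
    omega
  set t := X.L n ω + 1 with ht
  have hLt : (X.L n ω : ℕ) = t - 1 := by omega
  have h6 := (hT1 (X.L n ω) hT1L).1.1.1 k' hk'
  obtain ⟨⟨⟨_, hr1⟩, hact2⟩, hpow2⟩ := hT1 t (by omega)
  refine ⟨t, ?_, ?_⟩
  · have := (le_max_left _ _).trans hL
    omega
  have h7 := X.total_eq n ω
  have h8 : ((X.state n ω).agg.card : ℝ) ≤ ((X.A t ω).card : ℝ) := by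
    rw [X.A_of_done hk]
    exact_mod_cast Finset.card_le_card (X.agg_mono hnk ω)
  have h9 := hact2 k hk n hnk
  have hrh := radius_half_le hd1 (t := t) (by omega)
  rw [← hLt] at hrh
  set r := radius d t with hrd
  have hr0 : 0 < r := by linarith
  have h10 : √c' * √(r ^ (d + 2)) ≤ √(n : ℝ) := by
    rw [← Real.sqrt_mul hc'0.le]
    apply Real.sqrt_le_sqrt
    have h11 : (r / 2) ^ (d + 2) ≤ radius d (X.L n ω : ℝ) ^ (d + 2) :=
      pow_le_pow_left₀ (by positivity) hrh _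
    have h12 := mul_le_mul_of_nonneg_left h11 hc.le
    have h13 : c' * r ^ (d + 2) = c * (r / 2) ^ (d + 2) := by
      rw [hc', div_pow]; ring
    rw [h13]
    exact (h12.trans h6).trans (by exact_mod_cast hkn'.le)
  have h11 : (|K| + 1) * √(r ^ (d + 2)) ≤ K' * √(n : ℝ) := by
    have := mul_le_mul_of_nonneg_left h10 hK'0.le
    calc (|K| + 1) * √(r ^ (d + 2)) = K' * (√c' * √(r ^ (d + 2))) := by
          rw [hK']; field_simp
      _ ≤ _ := this
  have h12 : 0 ≤ √(r ^ (d + 2)) := Real.sqrt_nonneg _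
  have h13 : K * √(r ^ (d + 2)) ≤ |K| * √(r ^ (d + 2)) :=
    mul_le_mul_of_nonneg_right (le_abs_self K) h12
  have h14 : (t : ℝ) = X.L n ω + 1 := by rw [ht]; push_cast; ring
  linarith

end Process

end BIDLA
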