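import Mathlib
import Pool.Agent.Work.MP_1354f0_pr.LowerAS

/-!
Inner and outer deviations.
-/

namespace BIDLA

open MeasureTheory Filter

variable {d : ℕ}

lemma bddBelow_devIn (r : ℝ) (A : Finset (Site d)) :
    BddBelow {δ : ℝ | 0 ≤ δ ∧ ∀ z : Site d, ‖toE z‖ < r - δ → z ∈ A} := ⟨0, fun _ h => h.1⟩

lemma bddBelow_devOut (r : ℝ) (A : Finset (Site d)) :
    BddBelow {δ : ℝ | 0 ≤ δ ∧ ∀ z ∈ A, ‖toE z‖ < r + δ} := ⟨0, fun _ h => h.1⟩

lemma nonempty_devIn (r : ℝ) (A : Finset (Site d)) :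
    {δ : ℝ | 0 ≤ δ ∧ ∀ z : Site d, ‖toE z‖ < r - δ → z ∈ A}.Nonempty := by
  refine ⟨|r|, abs_nonneg r, fun z hz => ?_⟩
  have h1 := norm_nonneg (toE z)
  have h2 := le_abs_self r
  linarith

lemma nonempty_devOut (r : ℝ) (A : Finset (Site d)) :
    {δ : ℝ | 0 ≤ δ ∧ ∀ z ∈ A, ‖toE z‖ < r + δ}.Nonempty := by
  refine ⟨|r| + ∑ z ∈ A, ‖toE z‖ + 1, by positivity, fun z hz => ?_⟩
  have h1 := Finset.single_le_sum (f := fun z : Site d => ‖toE z‖) (fun z _ => norm_nonneg _) hz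
  have h2 := neg_abs_le r
  linarith

lemma devIn_le {r δ : ℝ} {A : Finset (Site d)} (hδ : 0 ≤ δ)
    (h : ∀ z : Site d, ‖toE z‖ < r - δ → z ∈ A) : devIn r A ≤ δ :=
  csInf_le (bddBelow_devIn r A) ⟨hδ, h⟩

lemma devOut_le {r δ : ℝ} {A : Finset (Site d)} (hδ : 0 ≤ δ)
    (h : ∀ z ∈ A, ‖toE z‖ < r + δ) : devOut r A ≤ δ :=
  csInf_le (bddBelow_devOut r A) ⟨hδ, h⟩

lemma devIn_nonneg (r : ℝ) (A : Finset (Site d)) : 0 ≤ devIn r A :=
  Real.sInf_nonneg fun _ h => h.1

lemma devOut_nonneg (r : ℝ) (A : Finset (Site d)) : 0 ≤ devOut r A :=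
  Real.sInf_nonneg fun _ h => h.1

/-- few sites force a large inner deviation -/
lemma le_devIn (hd : 1 ≤ d) {r D : ℝ} {A : Finset (Site d)}
    (hD2 : D + √d ≤ r) (hcard : (A.card : ℝ) < unitVol d * r ^ d
      - unitVol d * d * (D + √d) * r ^ (d - 1)) : D ≤ devIn r A := by
  refine le_csInf (nonempty_devIn r A) fun δ hδ => ?_
  by_contra hcon
  push Not at hcon
  have hw := unitVol_pos (d := d)
  have h1 : (ballF (0 : EuclideanSpace ℝ (Fin d)) (r - D)).card ≤ A.card := by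
    refine Finset.card_le_card fun x hx => ?_
    rw [mem_ballF, sub_zero] at hx
    exact hδ.2 x (by linarith)
  have h1' : ((ballF (0 : EuclideanSpace ℝ (Fin d)) (r - D)).card : ℝ) ≤ A.card := by
    exact_mod_cast h1
  have h2 := vol_gap_le hd (r := r) (ρ := r - D) (by linarith) (by linarith [hδ.1])
  have e : r - (r - D) + √d = D + √d := by ring
  rw [e] at h2
  linarith

/-- many sites force a large outer deviation -/
lemma le_devOut (hd : 1 ≤ d) {r D : ℝ} {A : Finset (Site d)} (hr : 0 ≤ r) (hD : 0 ≤ D)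
    (hD2 : D + √d ≤ r) (hcard : unitVol d * r ^ d
      + unitVol d * d * (D + √d) * (2 * r) ^ (d - 1) < (A.card : ℝ)) : D ≤ devOut r A := by
  refine le_csInf (nonempty_devOut r A) fun δ hδ => ?_
  by_contra hcon
  push Not at hcon
  have hw := unitVol_pos (d := d)
  have hs : 0 ≤ √(d : ℝ) := Real.sqrt_nonneg _
  have h1 : A.card ≤ (ballF (0 : EuclideanSpace ℝ (Fin d)) (r + D)).card := by
    refine Finset.card_le_card fun x hx => ?_
    rw [mem_ballF, sub_zero]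
    have := hδ.2 x hx
    linarith
  have h1' : (A.card : ℝ) ≤ (ballF (0 : EuclideanSpace ℝ (Fin d)) (r + D)).card := by
    exact_mod_cast h1
  have h2 := card_ballF_zero_le hd (ρ := r + D) (by linarith)
  have h3 := pow_sub_pow_le (a := r + D + √d) (b := r) hr (by linarith) d
  have h4 : (r + D + √d) ^ (d - 1) ≤ (2 * r) ^ (d - 1) :=
    pow_le_pow_left₀ (by positivity) (by linarith) _
  have h5 : (d : ℝ) * (r + D + √d - r) * (r + D + √d) ^ (d - 1)
      ≤ d * (D + √d) * (2 * r) ^ (d - 1) := by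
    have e : r + D + √d - r = D + √d := by ring
    rw [e]
    exact mul_le_mul_of_nonneg_left h4 (by positivity)
  have h6 := mul_le_mul_of_nonneg_left (h3.trans h5) hw.le
  linarith

end BIDLA
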