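import Mathlib
import Pool.Agent.Work.MP_1354f0_pr.Dev

/-!
The main theorem modulo the outer test function.
-/

namespace BIDLA

open MeasureTheory Filter

variable {d : ℕ} {ν : PMF ℕ} {Ω : Type*} [MeasurableSpace Ω] {P : Measure Ω} (X : Process d ν P)

namespace Process

/-- inner upper bound -/
theorem devIn_upper [IsProbabilityMeasure P] (H : HypH ν) (hd : 3 ≤ d) : ∃ K : ℝ, 0 < K ∧
    ∀ᵐ ω ∂P, ∀ᶠ t : ℕ in atTop, devIn (radius d t) (X.A t ω) ≤ K * gI d (radius d t) := by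
  have hd1 : 1 ≤ d := by omega
  obtain ⟨K, hK, h⟩ := X.inner_as (P := P) H hd
  refine ⟨K, hK, ?_⟩
  filter_upwards [h] with ω h1
  filter_upwards [h1, (tendsto_radius hd1).eventually_ge_atTop 1] with t h2 h3
  refine devIn_le ?_ h2
  have : 0 ≤ gI d (radius d t) := by
    unfold gI; split_ifs
    · exact Real.sqrt_nonneg _
    · exact Real.log_nonneg h3
  positivity

/-- outer upper bound -/
theorem devOut_upper [IsProbabilityMeasure P] (H : HypH ν) (hd : 3 ≤ d) (OF : OuterFun d)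
    {s : ℝ} (hs : 0 < s) : ∀ᵐ ω ∂P, ∀ᶠ t : ℕ in atTop,
      devOut (radius d t) (X.A t ω) ≤ radius d t ^ (a2 d / 2 + s) := by
  have h := X.outer_as (P := P) H hd OF hs
  unfold OB at h
  filter_upwards [h] with ω h1
  filter_upwards [h1] with t h2
  exact devOut_le (Real.rpow_nonneg (radius_nonneg d (Nat.cast_nonneg t)) _) h2

lemma sqrt_pow_five {r : ℝ} (hr : 0 ≤ r) : √(r ^ 5) = r ^ 2 * √r := by
  rw [show r ^ 5 = (r ^ 2) ^ 2 * r by ring, Real.sqrt_mul (by positivity),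
    Real.sqrt_sq (by positivity)]

/-- conversion: few sites, dimension three -/
lemma devIn_lower_of {X : Process 3 ν P} {t : ℕ} {ω : Ω} {K : ℝ} (hK : 0 ≤ K)
    (hr1 : 1 ≤ radius 3 t)
    (hr2 : K * √(radius 3 t) + √3 ≤ radius 3 t)
    (h : ((X.A t ω).card : ℝ) ≤ t - (unitVol 3 * 3 * (K + 2) + 1) * √(radius 3 t ^ (3 + 2))) :
    K * √(radius 3 t) ≤ devIn (radius 3 t) (X.A t ω) := by
  have hw := unitVol_pos (d := 3)
  have hrp : unitVol 3 * radius 3 (t : ℝ) ^ 3 = t := radius_pow (by norm_num) (Nat.cast_nonneg t)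
  set r := radius 3 t with hr
  have hr0 : 0 ≤ r := by linarith
  have hsr : 1 ≤ √r := by rw [Real.one_le_sqrt]; exact hr1
  refine le_devIn (by norm_num) (by exact_mod_cast hr2) ?_
  rw [hrp]
  refine lt_of_le_of_lt h ?_
  rw [show (3 : ℕ) + 2 = 5 by norm_num, sqrt_pow_five hr0]
  have h3 : √((3 : ℕ) : ℝ) ≤ 2 * √r := by
    have : √((3 : ℕ) : ℝ) ≤ 2 := by
      rw [Real.sqrt_le_left (by norm_num)]; norm_num
    linarith
  have h4 : unitVol 3 * ((3 : ℕ) : ℝ) * (K * √r + √((3 : ℕ) : ℝ)) * r ^ (3 - 1)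
      ≤ unitVol 3 * 3 * ((K + 2) * √r) * r ^ 2 := by
    push_cast at h3 ⊢
    have : K * √r + √3 ≤ (K + 2) * √r := by linarith
    gcongr
  have h5 : 0 < r ^ 2 * √r := by positivity
  nlinarith

/-- conversion: many sites, dimension three -/
lemma devOut_lower_of {X : Process 3 ν P} {t : ℕ} {ω : Ω} {K : ℝ} (hK : 0 ≤ K)
    (hr1 : 1 ≤ radius 3 t)
    (hr2 : K * √(radius 3 t) + √3 ≤ radius 3 t)
    (h : (t : ℝ) + (unitVol 3 * 12 * (K + 2) + 1) * √(radius 3 t ^ (3 + 2)) ≤ ((X.A t ω).card : ℝ)) :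
    K * √(radius 3 t) ≤ devOut (radius 3 t) (X.A t ω) := by
  have hw := unitVol_pos (d := 3)
  have hrp : unitVol 3 * radius 3 (t : ℝ) ^ 3 = t := radius_pow (by norm_num) (Nat.cast_nonneg t)
  set r := radius 3 t with hr
  have hr0 : 0 ≤ r := by linarith
  have hsr : 1 ≤ √r := by rw [Real.one_le_sqrt]; exact hr1
  refine le_devOut (by norm_num) hr0 (by positivity) (by exact_mod_cast hr2) ?_
  rw [hrp]
  refine lt_of_lt_of_le ?_ h
  rw [show (3 : ℕ) + 2 = 5 by norm_num, sqrt_pow_five hr0]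
  have h3 : √((3 : ℕ) : ℝ) ≤ 2 * √r := by
    have : √((3 : ℕ) : ℝ) ≤ 2 := by
      rw [Real.sqrt_le_left (by norm_num)]; norm_num
    linarith
  have h4 : unitVol 3 * ((3 : ℕ) : ℝ) * (K * √r + √((3 : ℕ) : ℝ)) * (2 * r) ^ (3 - 1)
      ≤ unitVol 3 * 3 * ((K + 2) * √r) * (2 * r) ^ 2 := by
    push_cast at h3 ⊢
    have : K * √r + √3 ≤ (K + 2) * √r := by linarith
    gcongr
  have h5 : 0 < r ^ 2 * √r := by positivity
  nlinarith

lemma ev_small (K : ℝ) : ∀ᶠ t : ℕ in atTop, K * √(radius 3 t) + √3 ≤ radius 3 t := by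
  have h1 := ev_pow (a := 1 / 2) (b := 1) (by norm_num) (2 * K)
  filter_upwards [(tendsto_radius (d := 3) (by norm_num)).eventually h1,
    (tendsto_radius (d := 3) (by norm_num)).eventually_ge_atTop (2 * √3)] with t h2 h3
  rw [← Real.sqrt_eq_rpow, Real.rpow_one] at h2
  linarith

theorem devIn_lower [IsProbabilityMeasure P] (X : Process 3 ν P) (H : HypH ν) (K : ℝ) :
    ∀ᵐ ω ∂P, ∃ᶠ t : ℕ in atTop, K * √(radius 3 t) ≤ devIn (radius 3 t) (X.A t ω) := by
  have h := X.card_low_io (P := P) H le_rfl (unitVol 3 * 3 * (|K| + 2) + 1)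
  filter_upwards [h] with ω h1
  refine (h1.and_eventually ((ev_small |K|).and
    ((tendsto_radius (d := 3) (by norm_num)).eventually_ge_atTop 1))).mono ?_
  rintro t ⟨h2, h3, h4⟩
  refine le_trans ?_ (devIn_lower_of (abs_nonneg K) h4 h3 h2)
  exact mul_le_mul_of_nonneg_right (le_abs_self K) (Real.sqrt_nonneg _)

theorem devOut_lower [IsProbabilityMeasure P] (X : Process 3 ν P) (H : HypH ν) {α : ℝ}
    (hα : α < 1) (hOB : X.OB P α) (K : ℝ) :
    ∀ᵐ ω ∂P, ∃ᶠ t : ℕ in atTop, K * √(radius 3 t) ≤ devOut (radius 3 t) (X.A t ω) := by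
  have h := X.card_high_io (P := P) H le_rfl hα hOB (unitVol 3 * 12 * (|K| + 2) + 1)
  filter_upwards [h] with ω h1
  refine (h1.and_eventually ((ev_small |K|).and
    ((tendsto_radius (d := 3) (by norm_num)).eventually_ge_atTop 1))).mono ?_
  rintro t ⟨h2, h3, h4⟩
  refine le_trans ?_ (devOut_lower_of (abs_nonneg K) h4 h3 h2)
  exact mul_le_mul_of_nonneg_right (le_abs_self K) (Real.sqrt_nonneg _)

end Process

end BIDLA
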