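import Mathlib
import Pool.Agent.Work.MP_1354f0_pr.MVGreen
import Pool.Agent.Work.MP_1354f0_pr.LocalC

/-!
Estimates for the outer test function.
-/

namespace BIDLA

open Real

variable {d : ℕ}

lemma gap_ge {b r m : ℝ} {v : EuclideanSpace ℝ (Fin d)} {x : Site d} (hr : 1 ≤ r) (hm : 2 ≤ m)
    (hv2 : ‖v‖ < r + m) (hx : ‖toE x‖ < r + m + 1) :
    gX b v x + m ^ 2 / 2 ≤ gY b (r + 2 * m) v x := by
  unfold gX gY
  set R := r + 2 * m with hR
  have hR0 : 0 < R := by linarith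
  have h1 : m * R ≤ R ^ 2 - ‖v‖ ^ 2 := by
    have : R ^ 2 - ‖v‖ ^ 2 = (R - ‖v‖) * (R + ‖v‖) := by ring
    rw [this]
    have h2 : m ≤ R - ‖v‖ := by linarith
    have h3 : R ≤ R + ‖v‖ := by linarith [norm_nonneg v]
    exact mul_le_mul h2 h3 hR0.le (by linarith)
  have h2 : (m - 1) * R ≤ R ^ 2 - ‖toE x‖ ^ 2 := by
    have : R ^ 2 - ‖toE x‖ ^ 2 = (R - ‖toE x‖) * (R + ‖toE x‖) := by ring
    rw [this]
    have h2 : m - 1 ≤ R - ‖toE x‖ := by linarith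
    have h3 : R ≤ R + ‖toE x‖ := by linarith [norm_nonneg (toE x)]
    exact mul_le_mul h2 h3 hR0.le (by linarith)
  have h3 : m ^ 2 / 2 ≤ (R ^ 2 - ‖v‖ ^ 2) * (R ^ 2 - ‖toE x‖ ^ 2) / R ^ 2 := by
    rw [le_div_iff₀ (by positivity)]
    have h4 : m * R * ((m - 1) * R) ≤ (R ^ 2 - ‖v‖ ^ 2) * (R ^ 2 - ‖toE x‖ ^ 2) :=
      mul_le_mul h1 h2 (by nlinarith) (by nlinarith)
    refine le_trans ?_ h4
    have h5 : m ^ 2 / 2 ≤ m * (m - 1) := by nlinarith
    have := mul_le_mul_of_nonneg_right h5 (by positivity : 0 ≤ R ^ 2)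
    linarith
  linarith

lemma rpow_sub_ge {γ X Y : ℝ} (hγ : 0 < γ) (hX : 0 < X) (hXY : X ≤ Y) :
    γ * (Y - X) * Y ^ (-γ - 1) ≤ X ^ (-γ) - Y ^ (-γ) := by
  have hY : 0 < Y := hX.trans_le hXY
  set z := X / Y with hz
  have hz0 : 0 < z := by positivity
  have h1 : z ^ (-γ) = Real.exp (-γ * Real.log z) := by
    rw [Real.rpow_def_of_pos hz0, mul_comm]
  have h2 := Real.add_one_le_exp (-γ * Real.log z)
  have h3 := Real.log_le_sub_one_of_pos hz0
  have h4 : 1 + γ * (1 - z) ≤ z ^ (-γ) := by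
    rw [h1]; nlinarith
  have h5 : X ^ (-γ) = Y ^ (-γ) * z ^ (-γ) := by
    rw [← Real.mul_rpow hY.le hz0.le]
    congr 1; rw [hz]; field_simp
  have h6 : Y ^ (-γ - 1) = Y ^ (-γ) / Y := by
    rw [Real.rpow_sub hY, Real.rpow_one]
  have hYp : 0 < Y ^ (-γ) := by positivity
  rw [h5, h6]
  have h7 := mul_le_mul_of_nonneg_left h4 hYp.le
  have h8 : γ * (Y - X) * (Y ^ (-γ) / Y) = Y ^ (-γ) * (γ * (1 - z)) := by
    rw [hz]; field_simp
  rw [h8]
  linarith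

/-- lower bound constant -/
noncomputable def cG (d : ℕ) : ℝ := gam d / 2 * (3 / 2) ^ (-gam d - 1)

lemma cG_pos (hd : 3 ≤ d) : 0 < cG d := by
  have := gam_pos hd
  unfold cG; positivity

lemma neg_gam (d : ℕ) : -((d : ℝ) - 2) / 2 = -gam d := by unfold gam; ring

/-- lower bound for the Green function near the pole -/
lemma green_ge_near {b r m : ℝ} {v : EuclideanSpace ℝ (Fin d)} {x : Site d} (hd : 3 ≤ d)
    (hb : 0 < b) (hr : 1 ≤ r) (hm : 2 ≤ m) (hv : r ≤ ‖v‖) (hv2 : ‖v‖ < r + m)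
    (hx : ‖toE x‖ < r + m + 1) (hX : gX b v x ≤ m ^ 2) :
    cG d * (gX b v x) ^ (-gam d) ≤ green b (r + 2 * m) v x := by
  have hγ := gam_pos hd
  have hR0 : 0 < r + 2 * m := by linarith
  have hX0 := gX_pos (v := v) hb x
  rw [green_eq hb (by linarith) hR0, neg_gam]
  have hgap := gap_ge (b := b) hr hm hv2 hx
  set Xx := gX b v x with hXx
  have h1 : 3 / 2 * Xx ≤ gY b (r + 2 * m) v x := by linarith
  have h2 : (gY b (r + 2 * m) v x) ^ (-gam d) ≤ (3 / 2 * Xx) ^ (-gam d) :=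
    Real.rpow_le_rpow_of_nonpos (by positivity) h1 (by linarith)
  have h3 := rpow_sub_ge hγ hX0 (by linarith : Xx ≤ 3 / 2 * Xx)
  have h4 : gam d * (3 / 2 * Xx - Xx) * (3 / 2 * Xx) ^ (-gam d - 1) = cG d * Xx ^ (-gam d) := by
    rw [Real.mul_rpow (by norm_num) hX0.le, Real.rpow_sub hX0, Real.rpow_one]
    unfold cG
    field_simp
    ring
  rw [h4] at h3
  linarith

/-- lower bound for the Green function far from the pole -/
lemma green_ge_far {b r m : ℝ} {v : EuclideanSpace ℝ (Fin d)} {x : Site d} (hd : 3 ≤ d)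
    (hb : 0 < b) (hr : 1 ≤ r) (hm : 2 ≤ m) (hv : r ≤ ‖v‖) (hv2 : ‖v‖ < r + m)
    (hx : ‖toE x‖ < r + m + 1) (hX : m ^ 2 ≤ gX b v x) :
    cG d * m ^ 2 * (gX b v x) ^ (-gam d - 1) ≤ green b (r + 2 * m) v x := by
  have hγ := gam_pos hd
  have hR0 : 0 < r + 2 * m := by linarith
  have hX0 := gX_pos (v := v) hb x
  rw [green_eq hb (by linarith) hR0, neg_gam]
  have hgap := gap_ge (b := b) hr hm hv2 hx
  set Xx := gX b v x with hXx
  have h2 : (gY b (r + 2 * m) v x) ^ (-gam d) ≤ (Xx + m ^ 2 / 2) ^ (-gam d) :=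
    Real.rpow_le_rpow_of_nonpos (by positivity) hgap (by linarith)
  have h3 := rpow_sub_ge hγ hX0 (by nlinarith : Xx ≤ Xx + m ^ 2 / 2)
  have h5 : (3 / 2 * Xx) ^ (-gam d - 1) ≤ (Xx + m ^ 2 / 2) ^ (-gam d - 1) :=
    Real.rpow_le_rpow_of_nonpos (by positivity) (by linarith) (by linarith)
  have h4 : cG d * m ^ 2 * Xx ^ (-gam d - 1)
      ≤ gam d * (Xx + m ^ 2 / 2 - Xx) * (Xx + m ^ 2 / 2) ^ (-gam d - 1) := by
    have h6 := mul_le_mul_of_nonneg_left h5 (by positivity : 0 ≤ gam d * (m ^ 2 / 2))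
    rw [Real.mul_rpow (by norm_num) hX0.le] at h6
    calc cG d * m ^ 2 * Xx ^ (-gam d - 1)
        = gam d * (m ^ 2 / 2) * ((3 / 2) ^ (-gam d - 1) * Xx ^ (-gam d - 1)) := by unfold cG; ring
      _ ≤ _ := h6
      _ = _ := by ring
  linarith

lemma gX_step {b : ℝ} (hb : 64 ≤ b) (v : EuclideanSpace ℝ (Fin d)) (x : Site d) (e : Dir d) :
    gX b v x ≤ 2 * gX b v (x + vec e) ∧ gX b v (x + vec e) ≤ 2 * gX b v x := by
  unfold gX
  have h1 := norm_step_le x e v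
  have h2 := norm_step_ge x e v
  have h3 := norm_nonneg (toE x - v)
  have h4 := norm_nonneg (toE (x + vec e) - v)
  constructor
  · nlinarith [sq_nonneg (‖toE (x + vec e) - v‖ - 1)]
  · nlinarith [sq_nonneg (‖toE x - v‖ - 1)]

/-- lower bound for the Laplacian of the correction -/
lemma lap_corr (d : ℕ) (hd : 3 ≤ d) {p : ℝ} (hp : (d : ℝ) - 2 < p) (b : ℝ) (hb : 64 ≤ b) :
    ∃ c8 Cb : ℝ, 0 < c8 ∧ 0 ≤ Cb ∧ ∀ (v : EuclideanSpace ℝ (Fin d)) (x : Site d),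
      c8 * (gX b v x) ^ (-p / 2 - 1) - Cb * (gX b v x) ^ (-p / 2 - 2) ≤ lap (ker b (-p / 2) v) x := by
  obtain ⟨C3, hC3, h3⟩ := lap_ker (-p / 2)
  have hd3 : (3 : ℝ) ≤ d := by exact_mod_cast hd
  have hd0 : (0 : ℝ) < d := by linarith
  have hp0 : 0 < p := by linarith
  have hcq : 0 < p * (p - d + 2) := by
    have : 0 < p - d + 2 := by linarith
    positivity
  refine ⟨p * (p - d + 2) / (2 * d), (p * (p - d + 2) * b + p * d * b + d * C3) / (2 * d),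
    by positivity, by positivity, ?_⟩
  intro v x
  have h := (abs_le.1 (h3 d b v x hb)).1
  have hX0 := gX_pos (b := b) (v := v) (by linarith) x
  have hs : ‖toE x - v‖ ^ 2 = gX b v x - b := by unfold gX; ring
  have hs' : ‖toE x - v‖ ^ 2 + b = gX b v x := rfl
  rw [hs', hs] at h
  set Xx := gX b v x with hXx
  have e1 : Xx ^ (-p / 2 - 1) = Xx ^ (-p / 2 - 2) * Xx := by
    rw [← Real.rpow_add_one hX0.ne']; congr 1; ring
  have hY : 0 < Xx ^ (-p / 2 - 2) := Real.rpow_pos_of_pos hX0 _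
  set W := Xx ^ (-p / 2 - 2) with hW
  have e2 : 2 * (-p / 2) * W * ((d - 2 + 2 * (-p / 2)) * (Xx - b) + d * b)
      = p * (p - d + 2) * (W * Xx) - (p * (p - d + 2) * b + p * d * b) * W := by ring
  rw [e2] at h
  rw [e1]
  have h4 : p * (p - d + 2) * (W * Xx) - (p * (p - d + 2) * b + p * d * b + d * C3) * W
      ≤ 2 * d * lap (ker b (-p / 2) v) x := by linarith
  have h5 : p * (p - d + 2) / (2 * d) * (W * Xx)
      - (p * (p - d + 2) * b + p * d * b + d * C3) / (2 * d) * W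
      = (p * (p - d + 2) * (W * Xx) - (p * (p - d + 2) * b + p * d * b + d * C3) * W) / (2 * d) := by
    ring
  rw [h5, div_le_iff₀ (by positivity)]
  linarith

/-- upper bound for the Laplacian of the Green function near the pole -/
lemma lap_green_near {b C1 r m : ℝ} {v : EuclideanSpace ℝ (Fin d)} {x : Site d} (hd : 3 ≤ d)
    (hb : 64 ≤ b) (hC1 : 0 ≤ C1) (hbC : 12 * C1 ≤ gam d * b) (hr : 1 ≤ r) (hm : 2 ≤ m)
    (hv : r ≤ ‖v‖) (hv2 : ‖v‖ < r + m) (hx : ‖toE x‖ < r + m + 1) (hX : gX b v x ≤ m ^ 2)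
    (h : |lap (green b (r + 2 * m) v) x + gam d * b * (gX b v x) ^ (-((d : ℝ) + 2) / 2)
      - gam d * b * (‖v‖ / (r + 2 * m)) ^ 2 * (gY b (r + 2 * m) v x) ^ (-((d : ℝ) + 2) / 2)|
      ≤ C1 * ((gX b v x) ^ (-((d : ℝ) + 2) / 2) + (gY b (r + 2 * m) v x) ^ (-((d : ℝ) + 2) / 2))) :
    lap (green b (r + 2 * m) v) x ≤ -(gam d * b / 6 * (gX b v x) ^ (-((d : ℝ) + 2) / 2)) := by
  have hγ := gam_pos hd
  have hd3 : (3 : ℝ) ≤ d := by exact_mod_cast hd
  have hX0 := gX_pos (b := b) (v := v) (by linarith) x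
  have hgap := gap_ge (b := b) hr hm hv2 hx
  set Xx := gX b v x with hXx
  set Yy := gY b (r + 2 * m) v x with hYy
  set A := Xx ^ (-((d : ℝ) + 2) / 2) with hA
  set B := Yy ^ (-((d : ℝ) + 2) / 2) with hB
  have hA0 : 0 < A := Real.rpow_pos_of_pos hX0 _
  have hY0 : 0 < Yy := by nlinarith
  have hB0 : 0 < B := Real.rpow_pos_of_pos hY0 _
  have hBA : B ≤ 2 / 3 * A := by
    have h1 : B ≤ (3 / 2 * Xx) ^ (-((d : ℝ) + 2) / 2) :=
      Real.rpow_le_rpow_of_nonpos (by positivity) (by linarith) (by linarith)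
    rw [Real.mul_rpow (by norm_num) hX0.le] at h1
    have h2 : (3 / 2 : ℝ) ^ (-((d : ℝ) + 2) / 2) ≤ (3 / 2) ^ (-1 : ℝ) :=
      Real.rpow_le_rpow_of_exponent_le (by norm_num) (by linarith)
    have h3 : (3 / 2 : ℝ) ^ (-1 : ℝ) = 2 / 3 := by
      rw [Real.rpow_neg_one]; norm_num
    rw [h3] at h2
    exact h1.trans (mul_le_mul_of_nonneg_right h2 hA0.le)
  have hκ : (‖v‖ / (r + 2 * m)) ^ 2 ≤ 1 := by
    apply pow_le_one₀ (by positivity)
    rw [div_le_one (by linarith)]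
    linarith
  have h1 := (abs_le.1 h).2
  have h2 : gam d * b * (‖v‖ / (r + 2 * m)) ^ 2 * B ≤ gam d * b * B := by
    have : gam d * b * (‖v‖ / (r + 2 * m)) ^ 2 ≤ gam d * b * 1 :=
      mul_le_mul_of_nonneg_left hκ (by positivity)
    have := mul_le_mul_of_nonneg_right this hB0.le
    linarith
  have h3 : gam d * b * B ≤ gam d * b * (2 / 3 * A) := mul_le_mul_of_nonneg_left hBA (by positivity)
  have h4 : C1 * (A + B) ≤ C1 * (2 * A) := mul_le_mul_of_nonneg_left (by linarith) hC1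
  have h5 := mul_le_mul_of_nonneg_right hbC hA0.le
  linarith

/-- upper bound for the Laplacian of the Green function -/
lemma lap_green_far {b C1 R : ℝ} {v : EuclideanSpace ℝ (Fin d)} {x : Site d} (hd : 3 ≤ d)
    (hb : 64 ≤ b) (hC1 : 0 ≤ C1) (hv : 0 < ‖v‖) (hvR : ‖v‖ ≤ R) (hx : ‖toE x‖ ≤ R)
    (h : |lap (green b R v) x + gam d * b * (gX b v x) ^ (-((d : ℝ) + 2) / 2)
      - gam d * b * (‖v‖ / R) ^ 2 * (gY b R v x) ^ (-((d : ℝ) + 2) / 2)|
      ≤ C1 * ((gX b v x) ^ (-((d : ℝ) + 2) / 2) + (gY b R v x) ^ (-((d : ℝ) + 2) / 2))) :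
    lap (green b R v) x ≤ 2 * C1 * (gX b v x) ^ (-((d : ℝ) + 2) / 2) := by
  have hγ := gam_pos hd
  have hd3 : (3 : ℝ) ≤ d := by exact_mod_cast hd
  have hR : 0 < R := hv.trans_le hvR
  have hX0 := gX_pos (b := b) (v := v) (by linarith) x
  have hXY := gX_le_gY (b := b) hR hvR hx
  set Xx := gX b v x with hXx
  set Yy := gY b R v x with hYy
  set A := Xx ^ (-((d : ℝ) + 2) / 2) with hA
  set B := Yy ^ (-((d : ℝ) + 2) / 2) with hB
  have hA0 : 0 < A := Real.rpow_pos_of_pos hX0 _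
  have hY0 : 0 < Yy := hX0.trans_le hXY
  have hB0 : 0 < B := Real.rpow_pos_of_pos hY0 _
  have hBA : B ≤ A := Real.rpow_le_rpow_of_nonpos hX0 hXY (by linarith)
  have hκ : (‖v‖ / R) ^ 2 ≤ 1 := by
    apply pow_le_one₀ (by positivity)
    rw [div_le_one hR]; exact hvR
  have h1 := (abs_le.1 h).2
  have h2 : gam d * b * (‖v‖ / R) ^ 2 * B ≤ gam d * b * A := by
    have : gam d * b * (‖v‖ / R) ^ 2 ≤ gam d * b * 1 :=
      mul_le_mul_of_nonneg_left hκ (by positivity)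
    have h3 := mul_le_mul_of_nonneg_right this hB0.le
    have h4 := mul_le_mul_of_nonneg_left hBA (by positivity : 0 ≤ gam d * b)
    linarith
  have h4 : C1 * (A + B) ≤ C1 * (2 * A) := mul_le_mul_of_nonneg_left (by linarith) hC1
  linarith

end BIDLA
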