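import Mathlib
import Pool.Agent.Work.MP_1354f0_pr.OuterA

/-!
Estimates for the outer test function, second part.
-/

namespace BIDLA

open Real

variable {d : ℕ}

/-- Laplacian of the corrected Green function -/
lemma lap_F {b C1 c2 c8 Cb ε r m p : ℝ} {v : EuclideanSpace ℝ (Fin d)} {x : Site d} (hd : 3 ≤ d)
    (hb : 64 ≤ b) (hC1 : 0 ≤ C1) (hbC : 12 * C1 ≤ gam d * b) (hc2 : 0 < c2) (hc8 : 0 < c8)
    (hCb : 0 ≤ Cb) (hε : 0 < ε) (hp1 : (d : ℝ) - 2 ≤ p) (hp2 : p ≤ d - ε)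
    (hc2b : c2 * Cb ≤ gam d * b / 12) (hmε : 2 * C1 + gam d * b / 12 ≤ c2 * c8 / 2 * m ^ ε)
    (hr : 1 ≤ r) (hm : 2 ≤ m)
    (hv : r ≤ ‖v‖) (hv2 : ‖v‖ < r + m) (hx : ‖toE x‖ < r + m + 1)
    (hG : |lap (green b (r + 2 * m) v) x + gam d * b * (gX b v x) ^ (-((d : ℝ) + 2) / 2)
      - gam d * b * (‖v‖ / (r + 2 * m)) ^ 2 * (gY b (r + 2 * m) v x) ^ (-((d : ℝ) + 2) / 2)|
      ≤ C1 * ((gX b v x) ^ (-((d : ℝ) + 2) / 2) + (gY b (r + 2 * m) v x) ^ (-((d : ℝ) + 2) / 2)))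
    (hK : c8 * (gX b v x) ^ (-p / 2 - 1) - Cb * (gX b v x) ^ (-p / 2 - 2)
      ≤ lap (ker b (-p / 2) v) x) :
    lap (green b (r + 2 * m) v) x - c2 * lap (ker b (-p / 2) v) x
      ≤ -(c2 * c8 / 2 * (gX b v x) ^ (-p / 2 - 1)) ∧
    (gX b v x ≤ m ^ 2 → lap (green b (r + 2 * m) v) x - c2 * lap (ker b (-p / 2) v) x
      ≤ -(c2 * c8 / 2 * (gX b v x) ^ (-p / 2 - 1))
        - gam d * b / 12 * (gX b v x) ^ (-((d : ℝ) + 2) / 2)) := by
  have hγ := gam_pos hd
  have hd3 : (3 : ℝ) ≤ d := by exact_mod_cast hd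
  have hX0 := gX_pos (b := b) (v := v) (by linarith) x
  have hX1 : 1 ≤ gX b v x := by
    unfold gX; nlinarith [sq_nonneg ‖toE x - v‖]
  have hXX : (gX b v x) ^ (-p / 2 - 2) ≤ (gX b v x) ^ (-((d : ℝ) + 2) / 2) :=
    Real.rpow_le_rpow_of_exponent_le hX1 (by linarith)
  have hmul := mul_le_mul_of_nonneg_left hK hc2.le
  have h1 := mul_le_mul_of_nonneg_left hXX (by positivity : 0 ≤ c2 * Cb)
  have hA0 : 0 < (gX b v x) ^ (-((d : ℝ) + 2) / 2) := Real.rpow_pos_of_pos hX0 _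
  have h2 := mul_le_mul_of_nonneg_right hc2b hA0.le
  have hQ0 : 0 < (gX b v x) ^ (-p / 2 - 1) := Real.rpow_pos_of_pos hX0 _
  have hnear : gX b v x ≤ m ^ 2 → lap (green b (r + 2 * m) v) x - c2 * lap (ker b (-p / 2) v) x
      ≤ -(c2 * c8 / 2 * (gX b v x) ^ (-p / 2 - 1))
        - gam d * b / 12 * (gX b v x) ^ (-((d : ℝ) + 2) / 2) := by
    intro hX
    have h3 := lap_green_near hd hb hC1 hbC hr hm hv hv2 hx hX hG
    have h4 : 0 ≤ c2 * c8 / 2 * (gX b v x) ^ (-p / 2 - 1) := by positivity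
    linarith
  refine ⟨?_, hnear⟩
  rcases le_total (gX b v x) (m ^ 2) with hX | hX
  · have h3 := hnear hX
    have h4 : 0 ≤ gam d * b / 12 * (gX b v x) ^ (-((d : ℝ) + 2) / 2) := by positivity
    linarith
  · have h3 := lap_green_far (R := r + 2 * m) hd hb hC1 (by linarith) (by linarith) (by linarith) hG
    -- A ≤ m^{-ε} X^{q-1}
    have hm0 : 0 < m := by linarith
    have h4 : (gX b v x) ^ (-((d : ℝ) + 2) / 2) ≤ m ^ (-ε) * (gX b v x) ^ (-p / 2 - 1) := by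
      have h5 : (gX b v x) ^ (-((d : ℝ) + 2) / 2)
          ≤ (gX b v x) ^ (-ε / 2) * (gX b v x) ^ (-p / 2 - 1) := by
        rw [← Real.rpow_add hX0]
        exact Real.rpow_le_rpow_of_exponent_le hX1 (by linarith)
      have h6 : (gX b v x) ^ (-ε / 2) ≤ m ^ (-ε) := by
        have h7 : (gX b v x) ^ (-ε / 2) ≤ (m ^ 2) ^ (-ε / 2) :=
          Real.rpow_le_rpow_of_nonpos (by positivity) hX (by linarith)
        refine h7.trans (le_of_eq ?_)
        rw [← Real.rpow_natCast, ← Real.rpow_mul hm0.le]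
        congr 1; push_cast; ring
      exact h5.trans (mul_le_mul_of_nonneg_right h6 hQ0.le)
    have h5 : (2 * C1 + gam d * b / 12) * (gX b v x) ^ (-((d : ℝ) + 2) / 2)
        ≤ c2 * c8 / 2 * (gX b v x) ^ (-p / 2 - 1) := by
      calc (2 * C1 + gam d * b / 12) * (gX b v x) ^ (-((d : ℝ) + 2) / 2)
          ≤ (c2 * c8 / 2 * m ^ ε) * (m ^ (-ε) * (gX b v x) ^ (-p / 2 - 1)) :=
            mul_le_mul hmε h4 hA0.le (by positivity)
        _ = c2 * c8 / 2 * (gX b v x) ^ (-p / 2 - 1) * (m ^ ε * m ^ (-ε)) := by ring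
        _ = _ := by rw [← Real.rpow_add hm0, add_neg_cancel, Real.rpow_zero, mul_one]
    linarith

/-- square of the Green function -/
lemma green_sq_le {b C2 ε r m p : ℝ} {v : EuclideanSpace ℝ (Fin d)} {y : Site d} (hd : 3 ≤ d)
    (hb : 64 ≤ b) (hC2 : 0 ≤ C2) (hε : 0 < ε) (hp2 : p ≤ 2 * (d : ℝ) - 4 - ε)
    (hr : 1 ≤ r) (hm : 2 ≤ m)
    (hv : r ≤ ‖v‖) (hv2 : ‖v‖ < r + m) (hy : ‖toE y‖ < r + m + 1)
    (hdip : green b (r + 2 * m) v y
      ≤ C2 * (r + 2 * m - ‖v‖ + 1) * (gX b v y) ^ (-((d : ℝ) - 1) / 2)) (hε1 : ε ≤ 1) :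
    (green b (r + 2 * m) v y) ^ 2 ≤ (1 + (3 * C2) ^ 2) * m ^ (2 - ε) * (gX b v y) ^ (-p / 2 - 1) := by
  have hd3 : (3 : ℝ) ≤ d := by exact_mod_cast hd
  have hX0 := gX_pos (b := b) (v := v) (by linarith) y
  have hX1 : 1 ≤ gX b v y := by
    unfold gX; nlinarith [sq_nonneg ‖toE y - v‖]
  have hm0 : 0 < m := by linarith
  have hG0 : 0 ≤ green b (r + 2 * m) v y :=
    green_nonneg hd (by linarith) (by linarith) (by linarith) (by linarith)
  have hQ0 : 0 < (gX b v y) ^ (-p / 2 - 1) := Real.rpow_pos_of_pos hX0 _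
  have hmp : 0 < m ^ (2 - ε) := Real.rpow_pos_of_pos hm0 _
  have hm1 : 1 ≤ m := by linarith
  rcases le_total (gX b v y) (m ^ 2) with hX | hX
  · -- near
    have h1 := green_le_X (b := b) (v := v) (R := r + 2 * m) (by linarith) (by linarith)
      (by linarith) y
    have h2 : (green b (r + 2 * m) v y) ^ 2 ≤ ((gX b v y) ^ (-((d : ℝ) - 2) / 2)) ^ 2 :=
      pow_le_pow_left₀ hG0 h1 2
    have h3 : ((gX b v y) ^ (-((d : ℝ) - 2) / 2)) ^ 2
        ≤ (gX b v y) ^ (1 - ε / 2) * (gX b v y) ^ (-p / 2 - 1) := by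
      rw [← Real.rpow_natCast, ← Real.rpow_mul hX0.le, ← Real.rpow_add hX0]
      apply Real.rpow_le_rpow_of_exponent_le hX1
      push_cast; linarith
    have h4 : (gX b v y) ^ (1 - ε / 2) ≤ m ^ (2 - ε) := by
      have h5 : (gX b v y) ^ (1 - ε / 2) ≤ (m ^ 2) ^ (1 - ε / 2) :=
        Real.rpow_le_rpow hX0.le hX (by linarith)
      refine h5.trans (le_of_eq ?_)
      rw [← Real.rpow_natCast, ← Real.rpow_mul hm0.le]
      congr 1; push_cast; ring
    calc (green b (r + 2 * m) v y) ^ 2 ≤ m ^ (2 - ε) * (gX b v y) ^ (-p / 2 - 1) :=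
          h2.trans (h3.trans (mul_le_mul_of_nonneg_right h4 hQ0.le))
      _ = 1 * (m ^ (2 - ε) * (gX b v y) ^ (-p / 2 - 1)) := by ring
      _ ≤ (1 + (3 * C2) ^ 2) * (m ^ (2 - ε) * (gX b v y) ^ (-p / 2 - 1)) :=
          mul_le_mul_of_nonneg_right (by nlinarith [sq_nonneg (3 * C2)]) (by positivity)
      _ = _ := by ring
  · -- far
    have hD0 : 0 < (gX b v y) ^ (-((d : ℝ) - 1) / 2) := Real.rpow_pos_of_pos hX0 _
    have h1 : green b (r + 2 * m) v y ≤ 3 * C2 * m * (gX b v y) ^ (-((d : ℝ) - 1) / 2) := by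
      refine hdip.trans ?_
      apply mul_le_mul_of_nonneg_right _ hD0.le
      have : r + 2 * m - ‖v‖ + 1 ≤ 3 * m := by linarith
      have := mul_le_mul_of_nonneg_left this hC2
      linarith
    have h2 : (green b (r + 2 * m) v y) ^ 2
        ≤ (3 * C2 * m * (gX b v y) ^ (-((d : ℝ) - 1) / 2)) ^ 2 := pow_le_pow_left₀ hG0 h1 2
    have h3 : ((gX b v y) ^ (-((d : ℝ) - 1) / 2)) ^ 2
        ≤ (gX b v y) ^ (-ε / 2) * (gX b v y) ^ (-p / 2 - 1) := by
      rw [← Real.rpow_natCast, ← Real.rpow_mul hX0.le, ← Real.rpow_add hX0]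
      apply Real.rpow_le_rpow_of_exponent_le hX1
      push_cast; linarith
    have h4 : (gX b v y) ^ (-ε / 2) ≤ m ^ (-ε) := by
      have h5 : (gX b v y) ^ (-ε / 2) ≤ (m ^ 2) ^ (-ε / 2) :=
        Real.rpow_le_rpow_of_nonpos (by positivity) hX (by linarith)
      refine h5.trans (le_of_eq ?_)
      rw [← Real.rpow_natCast, ← Real.rpow_mul hm0.le]
      congr 1; push_cast; ring
    have h5 : m ^ 2 * m ^ (-ε) = m ^ (2 - ε) := by
      rw [← Real.rpow_natCast, ← Real.rpow_add hm0]; congr 1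
    calc (green b (r + 2 * m) v y) ^ 2
        ≤ (3 * C2) ^ 2 * m ^ 2 * ((gX b v y) ^ (-((d : ℝ) - 1) / 2)) ^ 2 := by
          refine h2.trans (le_of_eq ?_); ring
      _ ≤ (3 * C2) ^ 2 * m ^ 2 * (m ^ (-ε) * (gX b v y) ^ (-p / 2 - 1)) := by
          apply mul_le_mul_of_nonneg_left _ (by positivity)
          exact h3.trans (mul_le_mul_of_nonneg_right h4 hQ0.le)
      _ = (3 * C2) ^ 2 * (m ^ (2 - ε) * (gX b v y) ^ (-p / 2 - 1)) := by rw [← h5]; ring
      _ ≤ (1 + (3 * C2) ^ 2) * (m ^ (2 - ε) * (gX b v y) ^ (-p / 2 - 1)) :=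
          mul_le_mul_of_nonneg_right (by linarith) (by positivity)
      _ = _ := by ring

/-- nonnegativity of the corrected Green function -/
lemma corr_le_green {b c2 C s r m : ℝ} {v : EuclideanSpace ℝ (Fin d)} {x : Site d} (hd : 3 ≤ d)
    (hb : 64 ≤ b) (hc2 : 0 < c2) (hs : 0 < s) (hs2 : s ≤ 2) (hC : 1 ≤ C)
    (hcG : c2 * (9 + b) ≤ cG d)
    (hr : 1 ≤ r) (hm : 2 ≤ m) (hmC : C * (r + m) ^ (s / 2) ≤ m)
    (hv : r ≤ ‖v‖) (hv2 : ‖v‖ < r + m) (hx : ‖toE x‖ < r + m + 1) :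
    c2 * (gX b v x) ^ (-((d : ℝ) - s) / 2) ≤ green b (r + 2 * m) v x := by
  have hγ := gam_pos hd
  have hcG0 := cG_pos hd
  have hd3 : (3 : ℝ) ≤ d := by exact_mod_cast hd
  have hX0 := gX_pos (b := b) (v := v) (by linarith) x
  have hX1 : 1 ≤ gX b v x := by
    unfold gX; nlinarith [sq_nonneg ‖toE x - v‖]
  have hm0 : 0 < m := by linarith
  have hrm : 1 ≤ r + m := by linarith
  have hc2G : c2 ≤ cG d := by nlinarith
  rcases le_total (gX b v x) (m ^ 2) with hX | hX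
  · have h1 := green_ge_near (b := b) hd (by linarith) hr hm hv hv2 hx hX
    refine le_trans ?_ h1
    have h2 : (gX b v x) ^ (-((d : ℝ) - s) / 2) ≤ (gX b v x) ^ (-gam d) := by
      apply Real.rpow_le_rpow_of_exponent_le hX1
      unfold gam; linarith
    exact mul_le_mul hc2G h2 (by positivity) hcG0.le
  · have h1 := green_ge_far (b := b) hd (by linarith) hr hm hv hv2 hx hX
    refine le_trans ?_ h1
    -- X^{s/2} ≤ (9+b) m^2
    have hXle : gX b v x ≤ (9 + b) * (r + m) ^ 2 := by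
      have h2 : ‖toE x - v‖ ≤ 3 * (r + m) := by
        have := norm_sub_le (toE x) v
        linarith
      have h3 := pow_le_pow_left₀ (norm_nonneg _) h2 2
      have h4 : 1 ≤ (r + m) ^ 2 := one_le_pow₀ hrm
      have h5 := mul_le_mul_of_nonneg_left h4 (by linarith : 0 ≤ b)
      unfold gX
      linarith
    have h2 : (gX b v x) ^ (s / 2) ≤ (9 + b) * m ^ 2 := by
      calc (gX b v x) ^ (s / 2) ≤ ((9 + b) * (r + m) ^ 2) ^ (s / 2) :=
            Real.rpow_le_rpow hX0.le hXle (by linarith)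
        _ = (9 + b) ^ (s / 2) * ((r + m) ^ (s / 2)) ^ 2 := by
            rw [Real.mul_rpow (by linarith) (by positivity)]
            congr 1
            rw [← Real.rpow_natCast, ← Real.rpow_natCast, ← Real.rpow_mul (by linarith),
              ← Real.rpow_mul (by linarith), mul_comm]
        _ ≤ (9 + b) * m ^ 2 := by
            apply mul_le_mul _ _ (by positivity) (by linarith)
            · calc (9 + b) ^ (s / 2) ≤ (9 + b) ^ (1 : ℝ) :=
                    Real.rpow_le_rpow_of_exponent_le (by linarith) (by linarith)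
                _ = 9 + b := Real.rpow_one _
            · apply pow_le_pow_left₀ (by positivity)
              refine le_trans ?_ hmC
              exact le_mul_of_one_le_left (by positivity) hC
    have h3 : (gX b v x) ^ (-((d : ℝ) - s) / 2) = (gX b v x) ^ (s / 2) * (gX b v x) ^ (-gam d - 1) := by
      rw [← Real.rpow_add hX0]; congr 1; unfold gam; ring
    have hZ0 : 0 < (gX b v x) ^ (-gam d - 1) := Real.rpow_pos_of_pos hX0 _
    rw [h3]
    calc c2 * ((gX b v x) ^ (s / 2) * (gX b v x) ^ (-gam d - 1))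
        ≤ c2 * (((9 + b) * m ^ 2) * (gX b v x) ^ (-gam d - 1)) :=
          mul_le_mul_of_nonneg_left (mul_le_mul_of_nonneg_right h2 hZ0.le) hc2.le
      _ = c2 * (9 + b) * (m ^ 2 * (gX b v x) ^ (-gam d - 1)) := by ring
      _ ≤ cG d * (m ^ 2 * (gX b v x) ^ (-gam d - 1)) :=
          mul_le_mul_of_nonneg_right hcG (by positivity)
      _ = _ := by ring

end BIDLA
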