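import Mathlib
import Pool.Agent.Work.MP_1354f0_pr.OuterB
import Pool.Agent.Work.MP_1354f0_pr.OuterParams

/-!
The outer test function.
-/

namespace BIDLA

open Real

theorem outer_fun (d : ℕ) (hd : 3 ≤ d) : OuterFun d := by
  intro Cν κ0 hCν hκ0 ε hε hε1
  have hγ := gam_pos hd
  have hcG0 := cG_pos hd
  have hd3 : (3 : ℝ) ≤ d := by exact_mod_cast hd
  have ha0 := a2_nonneg d
  have ha1 := a2_le d
  have ha2 : 4 - a2 d ≤ d := by
    unfold a2
    split_ifs with h
    · rw [h]; norm_num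
    · have : (4 : ℝ) ≤ d := by exact_mod_cast (by omega : 4 ≤ d)
      linarith
  -- constants
  obtain ⟨C1, hC1, hLG⟩ := lap_green d hd
  set b : ℝ := max 64 (12 * C1 / gam d) with hb
  have hb64 : 64 ≤ b := le_max_left _ _
  have hb0 : 0 < b := by linarith
  have hbC : 12 * C1 ≤ gam d * b := by
    have : 12 * C1 / gam d ≤ b := le_max_right _ _
    rw [div_le_iff₀ hγ] at this
    linarith
  obtain ⟨C2, hC2, hDip⟩ := green_le_dipole d hd b (by linarith)
  set s : ℝ := a2 d + ε with hs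
  have hs0 : 0 < s := by linarith
  have hs2 : s ≤ 2 := by linarith
  set p : ℝ := d - s with hp
  have hp1 : (d : ℝ) - 2 < p := by rw [hp]; linarith
  have hp2 : p ≤ d - ε := by rw [hp]; linarith
  have hp3 : p ≤ 2 * (d : ℝ) - 4 - ε := by rw [hp]; linarith
  have hp0 : 0 ≤ p := by linarith
  have hpd : p < d := by linarith
  obtain ⟨c8, Cb, hc8, hCb, hcorr⟩ := lap_corr d hd hp1 b hb64
  obtain ⟨C4, hC4, hMV⟩ := mv_green d hd b hb64
  obtain ⟨C5, hC5, hSum⟩ := sum_ball_pow d p hp0 hpd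
  set c2 : ℝ := min (gam d * b / (12 * (Cb + 1))) (cG d / (9 + b)) with hc2
  have hc20 : 0 < c2 := lt_min (by positivity) (by positivity)
  have hc2b : c2 * Cb ≤ gam d * b / 12 := by
    have h1 : c2 ≤ gam d * b / (12 * (Cb + 1)) := min_le_left _ _
    rw [le_div_iff₀ (by positivity)] at h1
    nlinarith
  have hc2G : c2 * (9 + b) ≤ cG d := by
    have h1 : c2 ≤ cG d / (9 + b) := min_le_right _ _
    rwa [le_div_iff₀ (by positivity)] at h1
  set C9 : ℝ := 1 + (3 * C2) ^ 2 with hC9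
  have hC90 : 0 < C9 := by positivity
  set c4 : ℝ := min (c2 * c8 / 2 * 2 ^ (-p / 2 - 1) / (Cν * C9 + 1)) κ0 with hc4
  have hc40 : 0 < c4 := lt_min (by positivity) hκ0
  have hc4a : Cν * c4 * C9 ≤ c2 * c8 / 2 * 2 ^ (-p / 2 - 1) := by
    have h1 : c4 ≤ c2 * c8 / 2 * 2 ^ (-p / 2 - 1) / (Cν * C9 + 1) := min_le_left _ _
    rw [le_div_iff₀ (by positivity)] at h1
    nlinarith
  have hc4b : c4 ≤ κ0 := min_le_right _ _
  set Q : ℝ := (2 * C1 + gam d * b / 12) / (c2 * c8 / 2) with hQ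
  have hQ0 : 0 < Q := by positivity
  set c : ℝ := c4 * (gam d * b / 12 * b ^ (-((d : ℝ) + 2) / 2)) with hc
  have hc0 : 0 < c := by positivity
  set C : ℝ := 2 + b + Q ^ (1 / ε) + c4 * (3 * C2 + 3 * C4 + c2 * C5) with hC
  have hQe : 0 < Q ^ (1 / ε) := by positivity
  have hCc : 0 ≤ c4 * (3 * C2 + 3 * C4 + c2 * C5) := by positivity
  have hC1' : 1 ≤ C := by linarith
  refine ⟨c, C, hc0, hC1', ?_⟩
  intro r m v hr hCm hmC hv hv2
  have hm2 : 2 ≤ m := by linarith
  have hm0 : 0 < m := by linarith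
  have hm1 : 1 ≤ m := by linarith
  have hbm : b ≤ m ^ 2 := by nlinarith
  have hmε : 2 * C1 + gam d * b / 12 ≤ c2 * c8 / 2 * m ^ ε := by
    have h1 : Q ^ (1 / ε) ≤ m := by linarith
    have h2 : Q ≤ m ^ ε := by
      have h3 := Real.rpow_le_rpow hQe.le h1 hε.le
      rw [← Real.rpow_mul hQ0.le, one_div, inv_mul_cancel₀ hε.ne', Real.rpow_one] at h3
      exact h3
    rw [hQ, div_le_iff₀ (by positivity)] at h2
    linarith
  have hvp : 0 < ‖toE v‖ := by linarith
  have hvR : ‖toE v‖ ≤ r + 2 * m := by linarith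
  set l : ℝ := c4 * m ^ (-(2 - ε)) with hl
  have hmp : 0 < m ^ (-(2 - ε)) := Real.rpow_pos_of_pos hm0 _
  have hl0 : 0 < l := by positivity
  have hlm : l * m ^ (2 - ε) = c4 := by
    rw [hl, mul_assoc, ← Real.rpow_add hm0, neg_add_cancel, Real.rpow_zero, mul_one]
  have hlc4 : l ≤ c4 := by
    rw [hl]
    apply mul_le_of_le_one_right hc40.le
    exact Real.rpow_le_one_of_one_le_of_nonpos hm1 (by linarith)
  set G : Site d → ℝ := green b (r + 2 * m) (toE v) with hG
  set Kq : Site d → ℝ := ker b (-p / 2) (toE v) with hKq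
  set f : Site d → ℝ := fun x => l * (G x - c2 * Kq x) with hf
  have hKX : ∀ x, Kq x = (gX b (toE v) x) ^ (-p / 2) := fun x => rfl
  have hX0 : ∀ x, 0 < gX b (toE v) x := fun x => gX_pos hb0 x
  have hX1 : ∀ x, 1 ≤ gX b (toE v) x := by
    intro x; unfold gX; nlinarith [sq_nonneg ‖toE x - toE v‖]
  have hK0 : ∀ x, 0 < Kq x := by intro x; rw [hKX]; exact Real.rpow_pos_of_pos (hX0 x) _
  -- nonnegativity in the larger ball
  have hnn : ∀ x, ‖toE x‖ < r + m + 1 → c2 * Kq x ≤ G x := by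
    intro x hx
    have := corr_le_green (b := b) (c2 := c2) (C := C) (s := s) hd hb64 hc20 hs0 hs2 hC1' hc2G hr hm2
      hmC hv hv2 hx
    rw [hKX]
    exact this
  have hf0 : ∀ x, ‖toE x‖ < r + m + 1 → 0 ≤ f x := by
    intro x hx
    have := hnn x hx
    rw [hf]
    exact mul_nonneg hl0.le (by linarith)
  have hfG : ∀ x, f x ≤ l * G x := by
    intro x
    rw [hf]
    apply mul_le_mul_of_nonneg_left _ hl0.le
    have := hK0 x
    nlinarith
  -- Laplacian
  have hlap : ∀ x, lap f x = l * (lap G x - c2 * lap Kq x) := by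
    intro x
    rw [hf, lap_const_mul, lap_sub, lap_const_mul]
  have hmain : ∀ x, ‖toE x‖ < r + m → ∀ e, Cν * f (x + vec e) ^ 2
      ≤ l * (c2 * c8 / 2 * (gX b (toE v) x) ^ (-p / 2 - 1)) := by
    intro x hx e
    have hy : ‖toE (x + vec e)‖ < r + m + 1 := by
      rw [toE_add]
      have := norm_add_le (toE x) (toE (vec e))
      rw [norm_toE_vec] at this
      linarith
    set y := x + vec e with hyd
    have h1 : f y ^ 2 ≤ l ^ 2 * (G y) ^ 2 := by
      have := pow_le_pow_left₀ (hf0 y hy) (hfG y) 2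
      linarith [mul_pow l (G y) 2]
    have h2 := green_sq_le (b := b) (C2 := C2) (ε := ε) (p := p) hd hb64 hC2 hε hp3 hr hm2 hv hv2 hy
      (hDip (r + 2 * m) (toE v) y hvp hvR (by linarith)) (by linarith)
    have h3 : (gX b (toE v) y) ^ (-p / 2 - 1) * 2 ^ (-p / 2 - 1)
        ≤ (gX b (toE v) x) ^ (-p / 2 - 1) := by
      rw [← Real.mul_rpow (hX0 y).le (by norm_num)]
      apply Real.rpow_le_rpow_of_nonpos (hX0 x) _ (by linarith)
      have := (gX_step hb64 (toE v) x e).1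
      linarith
    have hQy : 0 < (gX b (toE v) y) ^ (-p / 2 - 1) := Real.rpow_pos_of_pos (hX0 y) _
    calc Cν * f y ^ 2 ≤ Cν * (l ^ 2 * (G y) ^ 2) := mul_le_mul_of_nonneg_left h1 hCν
      _ ≤ Cν * (l ^ 2 * (C9 * m ^ (2 - ε) * (gX b (toE v) y) ^ (-p / 2 - 1))) := by
          apply mul_le_mul_of_nonneg_left _ hCν
          exact mul_le_mul_of_nonneg_left h2 (by positivity)
      _ = l * ((Cν * (l * m ^ (2 - ε)) * C9) * (gX b (toE v) y) ^ (-p / 2 - 1)) := by ring
      _ = l * ((Cν * c4 * C9) * (gX b (toE v) y) ^ (-p / 2 - 1)) := by rw [hlm]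
      _ ≤ l * ((c2 * c8 / 2 * 2 ^ (-p / 2 - 1)) * (gX b (toE v) y) ^ (-p / 2 - 1)) := by
          apply mul_le_mul_of_nonneg_left _ hl0.le
          exact mul_le_mul_of_nonneg_right hc4a hQy.le
      _ = l * (c2 * c8 / 2 * ((gX b (toE v) y) ^ (-p / 2 - 1) * 2 ^ (-p / 2 - 1))) := by ring
      _ ≤ _ := by
          apply mul_le_mul_of_nonneg_left _ hl0.le
          exact mul_le_mul_of_nonneg_left h3 (by positivity)
  refine ⟨f, ?_, ?_, ?_, ?_, ?_⟩
  · -- bound
    intro x hx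
    rw [abs_of_nonneg (hf0 x hx)]
    refine (hfG x).trans ?_
    have h1 : G x ≤ 1 := by
      have h2 := green_le_X (b := b) (v := toE v) (R := r + 2 * m) hb0 hvp (by linarith) x
      refine h2.trans ?_
      exact Real.rpow_le_one_of_one_le_of_nonpos (hX1 x) (by linarith)
    calc l * G x ≤ l * 1 := mul_le_mul_of_nonneg_left h1 hl0.le
      _ ≤ κ0 := by linarith
  · -- supersolution
    intro x hx e
    have h1 := (lap_F (b := b) (C1 := C1) (c2 := c2) (c8 := c8) (Cb := Cb) (ε := ε) (p := p) hd hb64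
      hC1 hbC hc20 hc8 hCb hε hp1.le hp2 hc2b hmε hr hm2 hv hv2 (by linarith)
      (hLG b (r + 2 * m) (toE v) x hb64 hvp hvR) (hcorr (toE v) x)).1
    have h2 := hmain x hx e
    have h3 := mul_le_mul_of_nonneg_left h1 hl0.le
    rw [hlap]
    linarith
  · -- strict at v
    intro e
    have hXv : gX b (toE v) v = b := by unfold gX; simp
    have h1 := (lap_F (b := b) (C1 := C1) (c2 := c2) (c8 := c8) (Cb := Cb) (ε := ε) (p := p) hd hb64
      hC1 hbC hc20 hc8 hCb hε hp1.le hp2 hc2b hmε hr hm2 hv hv2 (x := v) (by linarith)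
      (hLG b (r + 2 * m) (toE v) v hb64 hvp hvR) (hcorr (toE v) v)).2 (by rw [hXv]; exact hbm)
    have h2 := hmain v hv2 e
    have h3 := mul_le_mul_of_nonneg_left h1 hl0.le
    rw [hlap]
    rw [hXv] at h3 h2
    have h4 : c * m ^ (-(2 - ε)) = l * (gam d * b / 12 * b ^ (-((d : ℝ) + 2) / 2)) := by
      rw [hc, hl]; ring
    rw [h4]
    linarith
  · intro x hx
    exact hf0 x (by linarith)
  · -- mean value
    intro ρ t hρ hρr hcard
    set B := ballF (0 : EuclideanSpace ℝ (Fin d)) ρ with hB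
    have hr0 : 0 < r := by linarith
    have hG0 : G 0 ≤ 3 * C2 * m * r ^ (-((d : ℝ) - 1)) := by
      have h1 := hDip (r + 2 * m) (toE v) 0 hvp hvR (by rw [toE_zero, norm_zero]; linarith)
      have h2 : (gX b (toE v) 0) ^ (-((d : ℝ) - 1) / 2) ≤ r ^ (-((d : ℝ) - 1)) := by
        have h3 : r ^ 2 ≤ gX b (toE v) 0 := by
          unfold gX
          rw [toE_zero, zero_sub, norm_neg]
          nlinarith
        have h4 : (gX b (toE v) 0) ^ (-((d : ℝ) - 1) / 2) ≤ (r ^ 2) ^ (-((d : ℝ) - 1) / 2) :=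
          Real.rpow_le_rpow_of_nonpos (by positivity) h3 (by linarith)
        refine h4.trans (le_of_eq ?_)
        rw [← Real.rpow_natCast, ← Real.rpow_mul hr0.le]
        congr 1; push_cast; ring
      have h5 : C2 * (r + 2 * m - ‖toE v‖ + 1) ≤ 3 * C2 * m := by
        have : r + 2 * m - ‖toE v‖ + 1 ≤ 3 * m := by linarith
        have := mul_le_mul_of_nonneg_left this hC2
        linarith
      calc G 0 ≤ _ := h1
        _ ≤ 3 * C2 * m * r ^ (-((d : ℝ) - 1)) :=
          mul_le_mul h5 h2 (Real.rpow_nonneg (hX0 0).le _) (by positivity)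
    have hMV' : -(3 * C4 * m * (1 + Real.log r)) ≤ ∑ x ∈ B, (G x - G 0) := by
      have h1 := (abs_le.1 (hMV ρ (r + 2 * m) (toE v) hρ (by linarith) (by linarith) hvp hvR)).1
      have h2 : C4 * (r + 2 * m - ‖toE v‖ + 1) * (1 + Real.log ρ) ≤ 3 * C4 * m * (1 + Real.log r) := by
        have hl1 : Real.log ρ ≤ Real.log r := Real.log_le_log (by linarith) hρr
        have hl0 := Real.log_nonneg hρ
        have h3 : r + 2 * m - ‖toE v‖ + 1 ≤ 3 * m := by linarith
        have h4 : C4 * (r + 2 * m - ‖toE v‖ + 1) ≤ 3 * C4 * m := by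
          have := mul_le_mul_of_nonneg_left h3 hC4
          linarith
        exact mul_le_mul h4 (by linarith) (by linarith) (by positivity)
      linarith
    have hK : ∑ x ∈ B, Kq x ≤ C5 * r ^ (a2 d + ε) := by
      have h1 : ∑ x ∈ B, Kq x ≤ ∑ x ∈ B, wt p (toE v) x := by
        refine Finset.sum_le_sum fun x _ => ?_
        rw [hKX]
        unfold wt gX
        exact Real.rpow_le_rpow_of_nonpos (by positivity) (by linarith) (by linarith)
      have h2 := hSum ρ (toE v) hρ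
      have h3 : (d : ℝ) - p = a2 d + ε := by rw [hp, hs]; ring
      rw [h3] at h2
      have h4 : ρ ^ (a2 d + ε) ≤ r ^ (a2 d + ε) := Real.rpow_le_rpow (by linarith) hρr (by linarith)
      exact h1.trans (h2.trans (mul_le_mul_of_nonneg_left h4 hC5))
    have hsumf : ∑ x ∈ B, f x = l * (∑ x ∈ B, (G x - G 0) + B.card * G 0 - c2 * ∑ x ∈ B, Kq x) := by
      rw [hf, ← Finset.mul_sum, Finset.sum_sub_distrib, ← Finset.mul_sum, Finset.sum_sub_distrib,
        Finset.sum_const, nsmul_eq_mul]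
      ring
    have ht0 : 0 ≤ t - B.card := by linarith
    have hf00 : t * f 0 ≤ t * (l * G 0) := by
      have : (0 : ℝ) ≤ t := le_trans (Nat.cast_nonneg _) hcard
      exact mul_le_mul_of_nonneg_left (hfG 0) this
    have hmr : 0 < r ^ (-((d : ℝ) - 1)) := Real.rpow_pos_of_pos hr0 _
    have hlogr := Real.log_nonneg hr
    have hra : 0 < r ^ (a2 d + ε) := Real.rpow_pos_of_pos hr0 _
    have e1 := mul_le_mul_of_nonneg_left hG0 ht0
    have e2 := mul_le_mul_of_nonneg_left hK hc20.le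
    have e3 : t * f 0 - ∑ x ∈ B, f x ≤ l * ((t - B.card) * (3 * C2 * m * r ^ (-((d : ℝ) - 1)))
        + 3 * C4 * m * (1 + Real.log r) + c2 * (C5 * r ^ (a2 d + ε))) := by
      have h1 : t * (l * G 0) - ∑ x ∈ B, f x
          = l * ((t - B.card) * G 0 - ∑ x ∈ B, (G x - G 0) + c2 * ∑ x ∈ B, Kq x) := by
        rw [hsumf]; ring
      have h2 : (t - B.card) * G 0 - ∑ x ∈ B, (G x - G 0) + c2 * ∑ x ∈ B, Kq x
          ≤ (t - B.card) * (3 * C2 * m * r ^ (-((d : ℝ) - 1)))
            + 3 * C4 * m * (1 + Real.log r) + c2 * (C5 * r ^ (a2 d + ε)) := by linarith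
      have h3 := mul_le_mul_of_nonneg_left h2 hl0.le
      linarith
    refine e3.trans ?_
    set V1 := (t - (B.card : ℝ)) * m * r ^ (-((d : ℝ) - 1)) with hV1
    have hV10 : 0 ≤ V1 := by positivity
    have hV20 : 0 ≤ m * (1 + Real.log r) := by positivity
    have e4 : l * ((t - B.card) * (3 * C2 * m * r ^ (-((d : ℝ) - 1)))
        + 3 * C4 * m * (1 + Real.log r) + c2 * (C5 * r ^ (a2 d + ε)))
        = m ^ (-(2 - ε)) * (c4 * (3 * C2) * V1 + c4 * (3 * C4) * (m * (1 + Real.log r))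
          + c4 * (c2 * C5) * r ^ (a2 d + ε)) := by
      rw [hl, hV1]; ring
    have e5 : C * m ^ (-(2 - ε)) * (V1 + m * (1 + Real.log r) + r ^ (a2 d + ε))
        = m ^ (-(2 - ε)) * (C * V1 + C * (m * (1 + Real.log r)) + C * r ^ (a2 d + ε)) := by ring
    rw [e4, e5]
    apply mul_le_mul_of_nonneg_left _ hmp.le
    have k1 : c4 * (3 * C2) ≤ C := by
      have : 0 ≤ c4 * (3 * C4 + c2 * C5) := by positivity
      rw [hC]; linarith
    have k2 : c4 * (3 * C4) ≤ C := by
      have : 0 ≤ c4 * (3 * C2 + c2 * C5) := by positivity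
      rw [hC]; linarith
    have k3 : c4 * (c2 * C5) ≤ C := by
      have : 0 ≤ c4 * (3 * C2 + 3 * C4) := by positivity
      rw [hC]; linarith
    have := mul_le_mul_of_nonneg_right k1 hV10
    have := mul_le_mul_of_nonneg_right k2 hV20
    have := mul_le_mul_of_nonneg_right k3 hra.le
    linarith

end BIDLA
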