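import Mathlib
import Pool.Agent.Work.MP_1354f0_pr.LowerAS

/-!
Concentration of the number of rings.
-/

namespace BIDLA

open MeasureTheory Filter
open scoped ENNReal

variable {d : ℕ} {ν : PMF ℕ} {Ω : Type*} [MeasurableSpace Ω] {P : Measure Ω} (X : Process d ν P)

/-- second moment of the ball -/
noncomputable def qt (d : ℕ) (r : ℝ) : ℝ :=
  ∑ x ∈ ballF (0 : EuclideanSpace ℝ (Fin d)) r, ‖toE x‖ ^ 2

namespace Process

/-- one-sided comparison of the number of rings with the second moment of the aggregate -/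
theorem rings_moment [IsProbabilityMeasure P] (H : HypH ν) (hd : 3 ≤ d) {α : ℝ} (hα : α < 1)
    (hOB : X.OB P α) : ∃ C : ℝ, 0 < C ∧
    ∀ᵐ ω ∂P, ∀ᶠ t : ℕ in atTop, ∀ k, ω ∈ X.Done t k →
      |∑ x ∈ X.A t ω, ‖toE x‖ ^ 2 - k| ≤ C * radius d t ^ ((d : ℝ) + 2 - 1 / 4) := by
  classical
  have hd1 : 1 ≤ d := by omega
  have hd0 : (0 : ℝ) < d := by positivity
  have hd3 : (3 : ℝ) ≤ d := by exact_mod_cast hd
  obtain ⟨Cν, κ, hCν, hκ, hstep⟩ := stepLe_of_lap ν H
  obtain ⟨CN, hCN, hrings⟩ := X.rings_le (P := P) H hd hα hOB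
  set C1 : ℝ := 81 * Cν * CN + 1 with hC1
  have hC10 : 0 < C1 := by positivity
  refine ⟨C1, hC10, ?_⟩
  -- sign
  set E : ℝ → ℕ → Set Ω := fun s t => {ω | ∃ k, ω ∈ X.Done t k ∧
    (∀ x ∈ X.A t ω, ‖toE x‖ < 2 * radius d t) ∧ (k : ℝ) ≤ CN * radius d t ^ (d + 2) ∧
    C1 * radius d t ^ ((d : ℝ) + 2 - 1 / 4) < s * (∑ x ∈ X.A t ω, ‖toE x‖ ^ 2 - k)} with hE
  have hsum : Summable fun t : ℕ => 1 / (t : ℝ) ^ 2 :=
    Real.summable_one_div_nat_pow.2 (by norm_num)
  have hκr : ∀ᶠ r : ℝ in atTop, 9 * r ^ (-(9 / 4 : ℝ)) ≤ κ := by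
    have h1 : Tendsto (fun r : ℝ => 9 * r ^ (-(9 / 4 : ℝ))) atTop (nhds (9 * 0)) :=
      (tendsto_rpow_neg_atTop (by norm_num)).const_mul 9
    rw [mul_zero] at h1
    exact h1.eventually (ge_mem_nhds hκ)
  have hlogr : ∀ᶠ r : ℝ in atTop, 2 * (d + 1) * (r ^ (4 + 1 / 4 : ℝ) * Real.log r)
      ≤ r ^ ((d : ℝ) + 2 - 1 / 4) :=
    ev_pow_log (by linarith) _ (by positivity)
  have hevt := (((log_t_le (d := d) hd1).and ((tendsto_radius hd1).eventually_ge_atTop 1)).and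
    ((tendsto_radius hd1).eventually hκr)).and ((tendsto_radius hd1).eventually hlogr)
  obtain ⟨T, hT⟩ := eventually_atTop.1 hevt
  have hbc : ∀ s : ℝ, s = 1 ∨ s = -1 → ∀ᵐ ω ∂P, ∀ᶠ t in atTop, ω ∉ E s t := by
    intro s hs
    have hs2 : s ^ 2 = 1 := by rcases hs with h | h <;> rw [h] <;> norm_num
    have hsa : |s| = 1 := by rcases hs with h | h <;> rw [h] <;> simp
    refine bc hsum (max T 1) ?_
    intro t ht
    obtain ⟨⟨⟨hlog, hr1⟩, hkr⟩, hlr⟩ := hT t ((le_max_left _ _).trans ht)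
    have ht1 : 1 ≤ t := (le_max_right _ _).trans ht
    set r := radius d t with hrd
    have hr0 : 0 < r := by linarith
    set l : ℝ := r ^ (-(4 + 1 / 4 : ℝ)) with hl
    have hl0 : 0 < l := Real.rpow_pos_of_pos hr0 _
    have hlr2 : l * (9 * r ^ 2) = 9 * r ^ (-(9 / 4 : ℝ)) := by
      rw [hl, ← Real.rpow_natCast r 2]
      calc r ^ (-(4 + 1 / 4 : ℝ)) * (9 * r ^ ((2 : ℕ) : ℝ))
          = 9 * (r ^ (-(4 + 1 / 4 : ℝ)) * r ^ ((2 : ℕ) : ℝ)) := by ring
        _ = _ := by rw [← Real.rpow_add hr0]; congr 2; push_cast; norm_num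
    refine (X.prob_le (f := fun x => s * l * ‖toE x‖ ^ 2)
      (c := fun _ => -(s * l) - Cν * (l * (9 * r ^ 2)) ^ 2)
      (V := {x | ‖toE x‖ < 2 * r}) ?_ t (2 * Real.log t) (E s t) ?_).trans ?_
    · intro v hv
      have hv' : ‖toE v‖ < 2 * r := hv
      have hbd : ∀ e : Dir d, |s * l * ‖toE (v + vec e)‖ ^ 2| ≤ l * (9 * r ^ 2) := by
        intro e
        have h1 : ‖toE (v + vec e)‖ ≤ 3 * r := by
          rw [toE_add]
          have := norm_add_le (toE v) (toE (vec e))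
          rw [norm_toE_vec] at this
          linarith
        have h2 : ‖toE (v + vec e)‖ ^ 2 ≤ 9 * r ^ 2 := by
          have := pow_le_pow_left₀ (norm_nonneg _) h1 2
          linarith
        rw [abs_mul, abs_mul, hsa, one_mul, abs_of_pos hl0, abs_of_nonneg (by positivity)]
        exact mul_le_mul_of_nonneg_left h2 hl0.le
      refine hstep d hd1 _ _ v (fun e => (hbd e).trans ?_) (fun e => ?_)
      · rw [hlr2]; exact hkr
      · rw [lap_const_mul, lap_normsq hd1]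
        have h2 : (s * l * ‖toE (v + vec e)‖ ^ 2) ^ 2 ≤ (l * (9 * r ^ 2)) ^ 2 := by
          rw [← sq_abs]; exact pow_le_pow_left₀ (abs_nonneg _) (hbd e) 2
        have h3 := mul_le_mul_of_nonneg_left h2 hCν
        linarith
    · rintro ω ⟨k, hk, hout, hk2, hbig⟩
      refine ⟨k, hk, fun j hj => hout _ (X.site_mem_A hk j hj), ?_⟩
      have h0 : s * l * ‖toE (0 : Site d)‖ ^ 2 = 0 := by rw [toE_zero, norm_zero]; ring
      rw [h0, Finset.sum_const, Finset.card_range, nsmul_eq_mul, ← Finset.mul_sum]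
      -- main inequality
      have h1 := mul_lt_mul_of_pos_left hbig hl0
      have h2 : (k : ℝ) * (Cν * (l * (9 * r ^ 2)) ^ 2) ≤ l * (81 * Cν * CN * r ^ ((d : ℝ) + 2 - 1 / 4)) := by
        have h3 : Cν * (l * (9 * r ^ 2)) ^ 2 = 81 * Cν * l * (l * r ^ 4) := by ring
        have h4 : l * r ^ 4 = r ^ (-(1 / 4) : ℝ) := by
          rw [hl, ← Real.rpow_natCast r 4, ← Real.rpow_add hr0]; congr 1; push_cast; norm_num
        rw [h3, h4]
        have h5 : r ^ ((d : ℝ) + 2 - 1 / 4) = r ^ (d + 2) * r ^ (-(1 / 4) : ℝ) := by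
          rw [← Real.rpow_natCast r (d + 2), ← Real.rpow_add hr0]; congr 1; push_cast; ring
        rw [h5]
        have h6 : 0 < r ^ (-(1 / 4) : ℝ) := Real.rpow_pos_of_pos hr0 _
        have h7 := mul_le_mul_of_nonneg_right hk2 (by positivity : 0 ≤ 81 * Cν * l * r ^ (-(1 / 4) : ℝ))
        linarith
      have h3 : 2 * Real.log t ≤ l * r ^ ((d : ℝ) + 2 - 1 / 4) := by
        have h4 := mul_le_mul_of_nonneg_left hlr hl0.le
        have h5 : l * r ^ (4 + 1 / 4 : ℝ) = 1 := by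
          rw [hl, ← Real.rpow_add hr0, neg_add_cancel, Real.rpow_zero]
        have h6 : l * (2 * (d + 1) * (r ^ (4 + 1 / 4 : ℝ) * Real.log r))
            = 2 * (d + 1) * Real.log r * (l * r ^ (4 + 1 / 4 : ℝ)) := by ring
        rw [h6, h5, mul_one] at h4
        linarith
      have h4 : l * (C1 * r ^ ((d : ℝ) + 2 - 1 / 4)) = l * (81 * Cν * CN * r ^ ((d : ℝ) + 2 - 1 / 4))
          + l * r ^ ((d : ℝ) + 2 - 1 / 4) := by rw [hC1]; ring
      rw [h4] at h1
      linarith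
    · apply ENNReal.ofReal_le_ofReal
      exact exp_neg_two_log ht1 le_rfl
  have hm : ∀ᶠ t : ℕ in atTop, radius d t ^ α ≤ radius d t := by
    filter_upwards [(tendsto_radius hd1).eventually_ge_atTop 1] with t h
    calc radius d t ^ α ≤ radius d t ^ (1 : ℝ) := Real.rpow_le_rpow_of_exponent_le h hα.le
      _ = _ := Real.rpow_one _
  unfold OB at hOB
  filter_upwards [hbc 1 (Or.inl rfl), hbc (-1) (Or.inr rfl), hOB, hrings] with ω h1 h1' h2 h3
  filter_upwards [h1, h1', h2, hm, h3] with t g1 g1' g2 g3 g4 k hk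
  have hout : ∀ x ∈ X.A t ω, ‖toE x‖ < 2 * radius d t := fun x hx =>
    (g2 x hx).trans_le (by linarith)
  rw [abs_le]
  constructor
  · by_contra hcon
    push Not at hcon
    exact g1' ⟨k, hk, hout, g4 k hk, by linarith⟩
  · by_contra hcon
    push Not at hcon
    exact g1 ⟨k, hk, hout, g4 k hk, by linarith⟩

end Process

end BIDLA
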