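import Mathlib
import Pool.Agent.Work.MP_1354f0_pr.Conc

/-!
Concentration of the number of rings, second part.
-/

namespace BIDLA

open MeasureTheory Filter
open scoped ENNReal

variable {d : ℕ} {ν : PMF ℕ} {Ω : Type*} [MeasurableSpace Ω] {P : Measure Ω} (X : Process d ν P)

lemma sum_comp {A B B1 B2 : Finset (Site d)} (h1A : B1 ⊆ A) (hA2 : A ⊆ B2) (h1B : B1 ⊆ B)
    (hB2 : B ⊆ B2) {f : Site d → ℝ} (hf : ∀ x, 0 ≤ f x) {M : ℝ} (hM : ∀ x ∈ B2, f x ≤ M) :
    |∑ x ∈ A, f x - ∑ x ∈ B, f x| ≤ M * (B2.card - B1.card) := by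
  classical
  have h12 : B1 ⊆ B2 := h1A.trans hA2
  have e1 := Finset.sum_le_sum_of_subset_of_nonneg h1A (fun x _ _ => hf x)
  have e2 := Finset.sum_le_sum_of_subset_of_nonneg hA2 (fun x _ _ => hf x)
  have e3 := Finset.sum_le_sum_of_subset_of_nonneg h1B (fun x _ _ => hf x)
  have e4 := Finset.sum_le_sum_of_subset_of_nonneg hB2 (fun x _ _ => hf x)
  have e5 : ∑ x ∈ B2, f x - ∑ x ∈ B1, f x ≤ M * (B2.card - B1.card) := by
    rw [← Finset.sum_sdiff h12, add_sub_cancel_right]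
    have h2 : ((B2.card : ℝ) - B1.card) = ((B2 \ B1).card : ℝ) := by
      rw [Finset.card_sdiff_of_subset h12, Nat.cast_sub (Finset.card_le_card h12)]
    rw [h2, mul_comm, ← nsmul_eq_mul, ← Finset.sum_const]
    exact Finset.sum_le_sum fun x hx => hM x (Finset.mem_sdiff.1 hx).1
  rw [abs_le]
  constructor <;> linarith

/-- number of sites in a shell -/
lemma shell_card (hd : 1 ≤ d) {r l m : ℝ} (hl : 0 ≤ l) (hm : 0 ≤ m)
    (hlr : l + √d ≤ r) (hmr : m + √d ≤ r) :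
    ((ballF (0 : EuclideanSpace ℝ (Fin d)) (r + m)).card : ℝ)
      - (ballF (0 : EuclideanSpace ℝ (Fin d)) (r - l)).card
      ≤ unitVol d * d * (m + l + 2 * √d) * (2 * r) ^ (d - 1) := by
  have hw := unitVol_pos (d := d)
  have hs : 0 ≤ √(d : ℝ) := Real.sqrt_nonneg _
  have hr : 0 ≤ r := by linarith
  have h1 := card_ballF_zero_le hd (ρ := r + m) (by linarith)
  have h2 := le_card_ballF_zero hd (ρ := r - l) (by linarith)
  have h3 := pow_sub_pow_le (a := r + m + √d) (b := r - l - √d) (by linarith) (by linarith) d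
  have h4 : (r + m + √d) ^ (d - 1) ≤ (2 * r) ^ (d - 1) :=
    pow_le_pow_left₀ (by positivity) (by linarith) _
  have e : r + m + √d - (r - l - √d) = m + l + 2 * √d := by ring
  rw [e] at h3
  have h5 := mul_le_mul_of_nonneg_left h4 (by positivity : 0 ≤ (d : ℝ) * (m + l + 2 * √d))
  have h6 := mul_le_mul_of_nonneg_left (h3.trans h5) hw.le
  linarith

namespace Process

/-- **Concentration of the number of rings.** -/
theorem rings_conc [IsProbabilityMeasure P] (H : HypH ν) (hd : 3 ≤ d)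
    (hOB : X.OB P (a2 d / 2 + 1 / 8)) : ∃ C : ℝ, 0 < C ∧
    ∀ᵐ ω ∂P, ∀ᶠ t : ℕ in atTop, ∀ k, ω ∈ X.Done t k →
      |(k : ℝ) - qt d (radius d t)| ≤ C * radius d t ^ ((d : ℝ) + 2 - 1 / 4) := by
  have hd1 : 1 ≤ d := by omega
  have hd3 : (3 : ℝ) ≤ d := by exact_mod_cast hd
  have hw := unitVol_pos (d := d)
  have ha1 := a2_le d
  have hα : a2 d / 2 + 1 / 8 < 1 := by linarith
  obtain ⟨C1, hC1, hmom⟩ := X.rings_moment (P := P) H hd hα hOB
  obtain ⟨KI, hKI, hinner⟩ := X.inner_as (P := P) H hd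
  have hs0 : 0 ≤ √(d : ℝ) := Real.sqrt_nonneg _
  set C2 : ℝ := 4 * (unitVol d * d * 2 ^ (d - 1) * (1 + KI + 2 * √d)) with hC2
  have hC20 : 0 < C2 := by positivity
  refine ⟨C1 + C2, by positivity, ?_⟩
  have h1 := ev_gI d (s := 1 / 8) (by norm_num)
  have h2 := ev_pow (a := a2 d / 2 + 1 / 8) (b := 1) hα (2 * KI)
  have h3 := ev_pow (a := a2 d / 2 + 1 / 8) (b := 1) hα 2
  unfold OB at hOB
  filter_upwards [hmom, hinner, hOB] with ω g1 g2 g3
  filter_upwards [g1, g2, g3, (tendsto_radius hd1).eventually h1,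
    (tendsto_radius hd1).eventually h2, (tendsto_radius hd1).eventually h3,
    (tendsto_radius hd1).eventually_ge_atTop (max 1 (2 * √d))]
    with t k1 k2 k3 k4 k5 k6 k7 k hk
  have hr1 : 1 ≤ radius d t := (le_max_left _ _).trans k7
  have hr2 : 2 * √d ≤ radius d t := (le_max_right _ _).trans k7
  set r := radius d t with hrd
  have hr0 : 0 < r := by linarith
  rw [Real.rpow_one] at k5 k6
  have hgI : 0 ≤ gI d r := by
    unfold gI; split_ifs
    · exact Real.sqrt_nonneg _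
    · exact Real.log_nonneg hr1
  have hKg : KI * gI d r ≤ KI * r ^ (a2 d / 2 + 1 / 8) := mul_le_mul_of_nonneg_left k4 hKI.le
  set u := r ^ (a2 d / 2 + 1 / 8) with hu
  have hu1 : 1 ≤ u := by
    have := a2_nonneg d
    exact Real.one_le_rpow hr1 (by linarith)
  have hKg0 : 0 ≤ KI * gI d r := by positivity
  have hcomp := sum_comp (A := X.A t ω) (B := ballF 0 r) (B1 := ballF 0 (r - KI * gI d r))
    (B2 := ballF 0 (r + u)) (f := fun x => ‖toE x‖ ^ 2) (M := 4 * r ^ 2)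
    (fun x hx => by rw [mem_ballF, sub_zero] at hx; exact k2 x hx)
    (fun x hx => by rw [mem_ballF, sub_zero]; exact k3 x hx)
    (fun x hx => by rw [mem_ballF, sub_zero] at hx ⊢; linarith)
    (fun x hx => by rw [mem_ballF, sub_zero] at hx ⊢; linarith)
    (fun x => by positivity)
    (fun x hx => by
      rw [mem_ballF, sub_zero] at hx
      have := pow_le_pow_left₀ (norm_nonneg _) (by linarith : ‖toE x‖ ≤ 2 * r) 2
      linarith)
  have hshell := shell_card hd1 (r := r) (l := KI * gI d r) (m := u) hKg0 (by linarith)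
    (by linarith) (by linarith)
  have h5 : 4 * r ^ 2 * (unitVol d * d * (u + KI * gI d r + 2 * √d) * (2 * r) ^ (d - 1))
      ≤ C2 * r ^ ((d : ℝ) + 2 - 1 / 4) := by
    have h6 : u + KI * gI d r + 2 * √d ≤ (1 + KI + 2 * √d) * u := by
      have : 2 * √d ≤ 2 * √d * u := le_mul_of_one_le_right (by positivity) hu1
      linarith
    have h7 : r ^ 2 * (u * r ^ (d - 1)) ≤ r ^ ((d : ℝ) + 2 - 1 / 4) := by
      rw [hu, ← Real.rpow_natCast r 2, ← Real.rpow_natCast r (d - 1), ← Real.rpow_add hr0,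
        ← Real.rpow_add hr0]
      apply Real.rpow_le_rpow_of_exponent_le hr1
      rw [Nat.cast_sub hd1]; push_cast; linarith
    calc 4 * r ^ 2 * (unitVol d * d * (u + KI * gI d r + 2 * √d) * (2 * r) ^ (d - 1))
        ≤ 4 * r ^ 2 * (unitVol d * d * ((1 + KI + 2 * √d) * u) * (2 * r) ^ (d - 1)) := by gcongr
      _ = C2 * (r ^ 2 * (u * r ^ (d - 1))) := by rw [hC2, mul_pow]; ring
      _ ≤ _ := mul_le_mul_of_nonneg_left h7 hC20.le
  have h8 := mul_le_mul_of_nonneg_left hshell (by positivity : 0 ≤ 4 * r ^ 2)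
  have h9 := k1 k hk
  have h10 : |(k : ℝ) - qt d r| ≤ |∑ x ∈ X.A t ω, ‖toE x‖ ^ 2 - k|
      + |∑ x ∈ X.A t ω, ‖toE x‖ ^ 2
        - ∑ x ∈ ballF (0 : EuclideanSpace ℝ (Fin d)) r, ‖toE x‖ ^ 2| := by
    unfold qt
    have := abs_sub_le (k : ℝ) (∑ x ∈ X.A t ω, ‖toE x‖ ^ 2)
      (∑ x ∈ ballF (0 : EuclideanSpace ℝ (Fin d)) r, ‖toE x‖ ^ 2)
    rwa [abs_sub_comm (k : ℝ) (∑ x ∈ X.A t ω, ‖toE x‖ ^ 2)] at this
  linarith

end Process

end BIDLA
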