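import Mathlib
import Pool.Agent.Work.MP_1354f0_pr.ConcB

/-!
Anti-concentration of the random walk.
-/

namespace BIDLA

open MeasureTheory ProbabilityTheory Filter Topology
open scoped ENNReal NNReal

/-- CLT and portmanteau for closed sets -/
theorem walk_anti {Ω : Type*} [MeasurableSpace Ω] {P : Measure Ω} [IsProbabilityMeasure P]
    (X : ℕ → Ω → ℝ) (hindep : iIndepFun X P)
    (hident : ∀ n, IdentDistrib (X n) (X 0) P P) (hL2 : MemLp (X 0) 2 P)
    (hmean : ∫ ω, X 0 ω ∂P = 0) (hvar : 0 < ∫ ω, (X 0 ω) ^ 2 ∂P) {η : ℝ} (hη : 0 < η) :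
    ∃ κ : ℝ, 0 < κ ∧ ∀ᶠ n : ℕ in atTop,
      P {ω | |∑ k ∈ Finset.range n, X k ω| ≤ κ * √n} ≤ ENNReal.ofReal η := by
  have hX0 : AEMeasurable (X 0) P := (hident 0).aemeasurable_fst
  have hv : Var[X 0; P] ≠ 0 := by
    rw [variance_eq_sub hL2]
    have h1 : ∫ ω, (X 0 ^ 2) ω ∂P = ∫ ω, (X 0 ω) ^ 2 ∂P := rfl
    rw [h1, hmean]
    simp only [ne_eq, OfNat.ofNat_ne_zero, not_false_eq_true, zero_pow, sub_zero]
    exact hvar.ne'
  set v : ℝ≥0 := Var[X 0; P].toNNReal with hvd
  have hv0 : v ≠ 0 := by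
    rw [hvd, ne_eq, Real.toNNReal_eq_zero, not_le]
    exact lt_of_le_of_ne (variance_nonneg _ _) hv.symm
  have hY : HasLaw (id : ℝ → ℝ) (gaussianReal 0 v) (gaussianReal 0 v) :=
    ⟨aemeasurable_id, Measure.map_id⟩
  have hclt := tendstoInDistribution_inv_sqrt_mul_sum_sub hY hL2 hindep hident
  -- small ball for the gaussian
  have hzero : (gaussianReal 0 v) {0} = 0 := by
    apply gaussianReal_absolutelyContinuous 0 hv0
    exact Real.volume_singleton
  have hthick : Tendsto (fun r => (gaussianReal 0 v) (Metric.cthickening r {(0:ℝ)})) (𝓝 0)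
      (𝓝 ((gaussianReal 0 v) {0})) :=
    tendsto_measure_cthickening_of_isClosed ⟨1, one_pos, measure_ne_top _ _⟩ isClosed_singleton
  rw [hzero] at hthick
  have hη' : 0 < ENNReal.ofReal η := by simpa using hη
  have hev := hthick.eventually (gt_mem_nhds hη')
  obtain ⟨δ, hδ, hball⟩ := Metric.eventually_nhds_iff.1 hev
  set κ := δ / 2 with hκ
  have hκ0 : 0 < κ := by positivity
  have hκb : (gaussianReal 0 v) (Metric.closedBall (0:ℝ) κ) < ENNReal.ofReal η := by
    have := hball (y := κ) (by rw [Real.dist_eq, sub_zero, abs_of_pos hκ0]; linarith)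
    rwa [Metric.cthickening_singleton _ hκ0.le] at this
  refine ⟨κ, hκ0, ?_⟩
  have hlim := ProbabilityMeasure.limsup_measure_closed_le_of_tendsto hclt.tendsto
    (Metric.isClosed_closedBall (x := (0:ℝ)) (ε := κ))
  have hmapid : (gaussianReal 0 v).map (id : ℝ → ℝ) = gaussianReal 0 v := Measure.map_id
  have hlim' : limsup (fun n : ℕ =>
      P {ω | (√n)⁻¹ * ∑ k ∈ Finset.range n, X k ω ∈ Metric.closedBall (0:ℝ) κ}) atTop
        ≤ (gaussianReal 0 v) (Metric.closedBall (0:ℝ) κ) := by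
    have e1 : (gaussianReal 0 v) (Metric.closedBall (0:ℝ) κ)
      = ((gaussianReal 0 v).map (id : ℝ → ℝ)) (Metric.closedBall (0:ℝ) κ) := by rw [hmapid]
    rw [e1]
    refine (le_of_eq ?_).trans hlim
    congr 1
    funext n
    have hm := hclt.forall_aemeasurable n
    show _ = (P.map (fun ω ↦ (√n)⁻¹ * (∑ k ∈ Finset.range n, X k ω - n * P[X 0])))
      (Metric.closedBall (0:ℝ) κ)
    rw [Measure.map_apply_of_aemeasurable hm Metric.isClosed_closedBall.measurableSet]
    congr 1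
    ext ω
    simp only [Set.mem_preimage, Set.mem_ofPred_eq, hmean, mul_zero, sub_zero]
  have hev2 := eventually_lt_of_limsup_lt (hlim'.trans_lt hκb)
  filter_upwards [hev2, eventually_gt_atTop 0] with n hn hn0
  refine le_trans (measure_mono ?_) hn.le
  intro ω hω
  have hn' : (0 : ℝ) < n := by exact_mod_cast hn0
  have hsq : 0 < √(n : ℝ) := Real.sqrt_pos.2 hn'
  rw [Set.mem_ofPred_eq] at hω
  rw [Set.mem_ofPred_eq, Metric.mem_closedBall, Real.dist_eq, sub_zero, abs_mul,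
    abs_of_pos (inv_pos.2 hsq), inv_mul_le_iff₀ hsq]
  linarith

end BIDLA
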