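import Mathlib
import Pool.Agent.Work.MP_1354f0_pr.WalkAnti

/-!
Typical size of the fluctuation of the number of sites.
-/

namespace BIDLA

open MeasureTheory ProbabilityTheory Filter Topology
open scoped ENNReal

variable {d : ℕ} {ν : PMF ℕ} {Ω : Type*} [MeasurableSpace Ω] {P : Measure Ω} (X : Process d ν P)

/-- if a.s. eventually `ω ∈ G t`, then `P (G t)ᶜ → 0` -/
lemma tendsto_compl [IsProbabilityMeasure P] {G : ℕ → Set Ω} (hG : ∀ t, MeasurableSet (G t))
    (h : ∀ᵐ ω ∂P, ∀ᶠ t in atTop, ω ∈ G t) : Tendsto (fun t => P (G t)ᶜ) atTop (𝓝 0) := by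
  set F : ℕ → Set Ω := fun t => ⋃ s ∈ Set.Ici t, (G s)ᶜ with hF
  have hm : ∀ t, MeasurableSet (F t) := fun t =>
    MeasurableSet.biUnion (Set.to_countable _) fun s _ => (hG s).compl
  have hanti : Antitone F := by
    intro s t hst
    exact Set.biUnion_mono (Set.Ici_subset_Ici.2 hst) fun _ _ => le_rfl
  have h1 := tendsto_measure_iInter_atTop (μ := P) (s := F) (fun t => (hm t).nullMeasurableSet)
    hanti ⟨0, measure_ne_top _ _⟩
  have h2 : P (⋂ t, F t) = 0 := by
    have h3 : (⋂ t, F t) ⊆ {ω | ¬ ∀ᶠ t in atTop, ω ∈ G t} := by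
      intro ω hω
      rw [Set.mem_ofPred_eq, eventually_atTop]
      rintro ⟨T, hT⟩
      rw [Set.mem_iInter] at hω
      have := hω T
      simp only [hF, Set.mem_iUnion] at this
      obtain ⟨s, hs, hs2⟩ := this
      exact hs2 (hT s hs)
    exact measure_mono_null h3 h
  rw [h2] at h1
  refine tendsto_of_tendsto_of_tendsto_of_le_of_le tendsto_const_nhds h1 (fun _ => zero_le) ?_
  intro t
  refine measure_mono ?_
  intro ω hω
  simp only [hF, Set.mem_iUnion]
  exact ⟨t, Set.mem_Ici.2 le_rfl, hω⟩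

lemma qt_ge (hd : 3 ≤ d) : ∃ c : ℝ, 0 < c ∧ ∀ r : ℝ, 24 * √d ≤ r →
    c * r ^ (d + 2) ≤ qt d r := by
  classical
  have hd1 : 1 ≤ d := by omega
  have hw := unitVol_pos (d := d)
  set cd : ℝ := (11 / 24) ^ d - (7 / 24) ^ d with hcd
  have hcd0 : 0 < cd := by
    rw [hcd, sub_pos]
    exact pow_lt_pow_left₀ (by norm_num) (by norm_num) (by omega)
  refine ⟨unitVol d * cd / 16, by positivity, ?_⟩
  intro r hr
  have hs0 : 0 < √(d : ℝ) := Real.sqrt_pos.2 (by positivity)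
  have hr0 : 0 < r := by linarith
  set B0 := ballF (0 : EuclideanSpace ℝ (Fin d)) r with hB0
  set B1 := ballF (0 : EuclideanSpace ℝ (Fin d)) (r / 2) with hB1
  set B2 := ballF (0 : EuclideanSpace ℝ (Fin d)) (r / 4) with hB2
  have hsub : B2 ⊆ B1 := by
    intro x hx
    rw [hB2, mem_ballF] at hx
    rw [hB1, mem_ballF]; linarith
  have hcard : unitVol d * cd * r ^ d ≤ ((B1 \ B2).card : ℝ) := by
    have h2 : (((B1 \ B2).card : ℝ)) = B1.card - B2.card := by
      rw [Finset.card_sdiff_of_subset hsub, Nat.cast_sub (Finset.card_le_card hsub)]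
    rw [h2]
    have h3 := le_card_ballF_zero hd1 (ρ := r / 2) (by linarith)
    have h4 := card_ballF_zero_le hd1 (ρ := r / 4) (by positivity)
    have h5 : (11 / 24 * r) ^ d ≤ (r / 2 - √d) ^ d :=
      pow_le_pow_left₀ (by positivity) (by linarith) d
    have h6 : (r / 4 + √d) ^ d ≤ (7 / 24 * r) ^ d :=
      pow_le_pow_left₀ (by positivity) (by linarith) d
    have h7 := mul_le_mul_of_nonneg_left h5 hw.le
    have h8 := mul_le_mul_of_nonneg_left h6 hw.le
    rw [mul_pow] at h7 h8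
    rw [hcd]
    linarith
  have h1 : (((B1 \ B2).card : ℝ)) * (r ^ 2 / 16) ≤ qt d r := by
    rw [← nsmul_eq_mul, ← Finset.sum_const]
    unfold qt
    calc ∑ _x ∈ B1 \ B2, r ^ 2 / 16 ≤ ∑ x ∈ B1 \ B2, ‖toE x‖ ^ 2 := by
          refine Finset.sum_le_sum fun x hx => ?_
          rw [Finset.mem_sdiff, hB1, hB2, mem_ballF, mem_ballF, sub_zero, not_lt] at hx
          have := pow_le_pow_left₀ (by positivity) hx.2 2
          calc r ^ 2 / 16 = (r / 4) ^ 2 := by ring
            _ ≤ _ := this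
      _ ≤ _ := by
          refine Finset.sum_le_sum_of_subset_of_nonneg ?_ (fun x _ _ => by positivity)
          intro x hx
          rw [Finset.mem_sdiff, hB1, mem_ballF] at hx
          rw [mem_ballF]; linarith [hx.1]
  have h2 := mul_le_mul_of_nonneg_right hcard (by positivity : 0 ≤ r ^ 2 / 16)
  calc unitVol d * cd / 16 * r ^ (d + 2) = unitVol d * cd * r ^ d * (r ^ 2 / 16) := by
        rw [pow_add]; ring
    _ ≤ _ := h2.trans h1

namespace Process

/-- window bound -/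
lemma window_le [IsProbabilityMeasure P] (H : HypH ν) (hd : 1 ≤ d) (n0 W : ℕ) {a : ℝ} (ha : 0 < a) :
    P {ω | ∃ j ≤ W, a ≤ |X.S (n0 + j) ω - X.S n0 ω|} ≤
      ENNReal.ofReal (W * (∫ ω, (X.xi 0 ω) ^ 2 ∂P) / a ^ 2) := by
  set Y : ℕ → Ω → ℝ := fun k => X.xi (n0 + k) with hY
  have hid : ∀ n, IdentDistrib (Y n) (Y 0) P P := fun n =>
    (X.identDistrib_xi hd (n0 + n)).trans (X.identDistrib_xi hd (n0 + 0)).symm
  have hid0 : IdentDistrib (Y 0) (X.xi 0) P P := X.identDistrib_xi hd (n0 + 0)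
  have hind : iIndepFun Y P :=
    (X.iIndepFun_xi hd).precomp (g := fun k => n0 + k) (fun a b h => by simpa using h)
  have hL2 : MemLp (Y 0) 2 P := hid0.memLp_iff.2 (X.memLp_xi H hd)
  have hmean : ∫ ω, Y 0 ω ∂P = 0 := by
    rw [hid0.integral_eq]; exact X.integral_xi H hd
  have hvar : ∫ ω, (Y 0 ω) ^ 2 ∂P = ∫ ω, (X.xi 0 ω) ^ 2 ∂P :=
    (hid0.comp (u := fun x : ℝ => x ^ 2) (measurable_id.pow_const 2)).integral_eq
  have h := walk_max Y hind hid hL2 hmean a ha W
  rw [hvar] at h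
  have hS : ∀ j ω, X.S (n0 + j) ω - X.S n0 ω = ∑ k ∈ Finset.range j, Y k ω := by
    intro j ω
    unfold S
    rw [Finset.sum_range_add, add_sub_cancel_left]
  have hset : {ω | ∃ j ≤ W, a ≤ |X.S (n0 + j) ω - X.S n0 ω|}
      = {ω | ∃ m ≤ W, a ≤ |∑ k ∈ Finset.range m, Y k ω|} := by
    ext ω; simp only [Set.mem_ofPred_eq, hS]
  rw [hset, ← ENNReal.ofReal_toReal (measure_ne_top P _)]
  exact ENNReal.ofReal_le_ofReal h

end Process

end BIDLA
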