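import Mathlib
import Pool.Agent.Work.MP_1354f0_pr.Typical

/-!
Typical size of the fluctuation of the number of sites, second part.
-/

namespace BIDLA

open MeasureTheory ProbabilityTheory Filter Topology
open scoped ENNReal

variable {d : ℕ} {ν : PMF ℕ} {Ω : Type*} [MeasurableSpace Ω] {P : Measure Ω} (X : Process d ν P)

namespace Process

/-- replacing the random number of rings by a deterministic number -/
theorem det_time [IsProbabilityMeasure P] (H : HypH ν) (hd : 3 ≤ d)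
    (hOB : X.OB P (a2 d / 2 + 1 / 8)) : ∃ (n0 : ℕ → ℕ) (c : ℝ), 0 < c ∧
    (∀ᶠ t : ℕ in atTop, c * radius d t ^ (d + 2) ≤ n0 t) ∧
    ∀ a : ℝ, 0 < a → Tendsto (fun t : ℕ => P {ω | ¬ ∃ k, ω ∈ X.Done t k ∧
      |X.S k ω - X.S (n0 t) ω| < a * √(radius d t ^ (d + 2))}) atTop (𝓝 0) := by
  have hd1 : 1 ≤ d := by omega
  have hd3 : (3 : ℝ) ≤ d := by exact_mod_cast hd
  obtain ⟨C, hC, hconc⟩ := X.rings_conc (P := P) H hd hOB
  obtain ⟨c, hc, hq⟩ := qt_ge (d := d) hd
  set w : ℕ → ℝ := fun t => C * radius d t ^ ((d : ℝ) + 2 - 1 / 4) with hw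
  set n0 : ℕ → ℕ := fun t => ⌊qt d (radius d t) - w t⌋₊ with hn0
  set W : ℕ → ℕ := fun t => ⌈2 * w t⌉₊ + 2 with hW
  -- numeric facts
  have hwsmall : ∀ᶠ t : ℕ in atTop, w t + 1 ≤ c / 2 * radius d t ^ (d + 2) := by
    have h1 := ev_pow (a := (d : ℝ) + 2 - 1 / 4) (b := (d : ℝ) + 2) (by linarith) (4 * C / c)
    have h2 := (tendsto_rpow_atTop (by linarith : 0 < (d : ℝ) + 2)).eventually_ge_atTop (4 / c)
    filter_upwards [(tendsto_radius hd1).eventually h1, (tendsto_radius hd1).eventually h2,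
      (tendsto_radius hd1).eventually_ge_atTop 1] with t h3 h4 h5
    have hr0 : 0 < radius d t := by linarith
    have e : radius d (t : ℝ) ^ ((d : ℝ) + 2) = radius d t ^ (d + 2) := by
      rw [← Real.rpow_natCast]; push_cast; rfl
    rw [e] at h3 h4
    have h6 := mul_le_mul_of_nonneg_left h3 (by positivity : 0 ≤ c / 4)
    have h7 := mul_le_mul_of_nonneg_left h4 (by positivity : 0 ≤ c / 4)
    have e2 : c / 4 * (4 * C / c * radius d (t : ℝ) ^ ((d : ℝ) + 2 - 1 / 4)) = w t := by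
      rw [hw]; field_simp
    have e3 : c / 4 * (4 / c) = 1 := by field_simp
    rw [e2] at h6
    rw [e3] at h7
    linarith
  have hn0ge : ∀ᶠ t : ℕ in atTop, c / 2 * radius d t ^ (d + 2) ≤ n0 t := by
    filter_upwards [hwsmall, (tendsto_radius hd1).eventually_ge_atTop (24 * √d)] with t h1 h2
    have h3 := hq _ h2
    have h4 := Nat.lt_floor_add_one (qt d (radius d t) - w t)
    simp only [hn0]
    linarith
  refine ⟨n0, c / 2, by positivity, hn0ge, ?_⟩
  intro a ha
  -- good set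
  set G : ℕ → Set Ω := fun t => {ω | ∃ k, ω ∈ X.Done t k ∧ |(k : ℝ) - qt d (radius d t)| ≤ w t}
    with hG
  have hGm : ∀ t, MeasurableSet (G t) := by
    intro t
    have : G t = ⋃ k : ℕ, ⋃ _ : |(k : ℝ) - qt d (radius d t)| ≤ w t, X.Done t k := by
      ext ω
      simp only [hG, Set.mem_ofPred_eq, Set.mem_iUnion]
      constructor
      · rintro ⟨k, h1, h2⟩; exact ⟨k, h2, h1⟩
      · rintro ⟨k, h1, h2⟩; exact ⟨k, h2, h1⟩
    rw [this]
    exact MeasurableSet.iUnion fun k => MeasurableSet.iUnion fun _ =>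
      X.le k _ (X.measurableSet_done t le_rfl)
  have hGae : ∀ᵐ ω ∂P, ∀ᶠ t in atTop, ω ∈ G t := by
    filter_upwards [hconc, X.ae_done H hd1] with ω h1 h2
    filter_upwards [h1, eventually_ge_atTop 1] with t h3 h4
    obtain ⟨k, hk⟩ := h2 t h4
    exact ⟨k, hk, h3 k hk⟩
  have hG0 := tendsto_compl (P := P) hGm hGae
  set v : ℝ := ∫ ω, (X.xi 0 ω) ^ 2 ∂P with hv
  have hv0 : 0 < v := X.integral_xi_sq H hd1
  -- window
  have hwin : Tendsto (fun t : ℕ => ENNReal.ofReal ((W t : ℝ) * v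
      / (a * √(radius d t ^ (d + 2))) ^ 2)) atTop (𝓝 0) := by
    rw [← ENNReal.ofReal_zero]
    apply ENNReal.tendsto_ofReal
    have h1 : Tendsto (fun t : ℕ => (2 * C + 3) * v / a ^ 2 * radius d t ^ (-(1 / 4 : ℝ))) atTop
        (𝓝 ((2 * C + 3) * v / a ^ 2 * 0)) :=
      ((tendsto_rpow_neg_atTop (by norm_num)).comp (tendsto_radius hd1)).const_mul _
    rw [mul_zero] at h1
    refine tendsto_of_tendsto_of_tendsto_of_le_of_le' tendsto_const_nhds h1 ?_ ?_
    · exact Eventually.of_forall fun t => by positivity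
    · filter_upwards [(tendsto_radius hd1).eventually_ge_atTop 1] with t hr1
      have hr0 : 0 < radius d t := by linarith
      set r := radius d (t : ℝ) with hr
      have hrp1 : 1 ≤ r ^ ((d : ℝ) + 2 - 1 / 4) := Real.one_le_rpow hr1 (by linarith)
      have hWle : (W t : ℝ) ≤ (2 * C + 3) * r ^ ((d : ℝ) + 2 - 1 / 4) := by
        have hw0 : 0 ≤ 2 * w t := by
          simp only [hw]; positivity
        have h2 := (Nat.ceil_lt_add_one hw0).le
        have h3 : (W t : ℝ) = ⌈2 * w t⌉₊ + 2 := by simp only [hW]; push_cast; ring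
        rw [h3]
        have h4 : 2 * w t = 2 * C * r ^ ((d : ℝ) + 2 - 1 / 4) := by simp only [hw]; ring
        rw [h4] at h2 ⊢
        linarith
      have e1 : (a * √(r ^ (d + 2))) ^ 2 = a ^ 2 * r ^ (d + 2) := by
        rw [mul_pow, Real.sq_sqrt (by positivity)]
      rw [e1]
      have e2 : r ^ (-(1 / 4 : ℝ)) = r ^ ((d : ℝ) + 2 - 1 / 4) / r ^ (d + 2) := by
        rw [eq_div_iff (by positivity), ← Real.rpow_natCast r (d + 2), ← Real.rpow_add hr0]
        congr 1; push_cast; ring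
      rw [e2, div_le_iff₀ (by positivity)]
      calc (W t : ℝ) * v ≤ ((2 * C + 3) * r ^ ((d : ℝ) + 2 - 1 / 4)) * v :=
            mul_le_mul_of_nonneg_right hWle hv0.le
        _ = _ := by field_simp
  have hadd := hG0.add hwin
  rw [add_zero] at hadd
  refine tendsto_of_tendsto_of_tendsto_of_le_of_le' tendsto_const_nhds hadd
    (Eventually.of_forall fun _ => zero_le) ?_
  filter_upwards [hwsmall, (tendsto_radius hd1).eventually_ge_atTop (max 1 (24 * √d))]
    with t h1 h2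
  have hr1 : 1 ≤ radius d t := (le_max_left _ _).trans h2
  have hr2 : 24 * √d ≤ radius d t := (le_max_right _ _).trans h2
  have hr0 : 0 < radius d t := by linarith
  have hqq := hq _ hr2
  have hpow : 0 < radius d (t : ℝ) ^ (d + 2) := by positivity
  have hwq : 0 ≤ qt d (radius d t) - w t := by
    have : 0 ≤ c / 2 * radius d (t : ℝ) ^ (d + 2) := by positivity
    linarith
  set s := √(radius d (t : ℝ) ^ (d + 2)) with hs
  have hs0 : 0 < s := Real.sqrt_pos.2 hpow
  refine le_trans (measure_mono ?_) ((measure_union_le _ _).trans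
    (add_le_add le_rfl (X.window_le H hd1 (n0 t) (W t) (by positivity : 0 < a * s))))
  intro ω hω
  by_cases hωG : ω ∈ G t
  · right
    obtain ⟨k, hk, hk2⟩ := hωG
    rw [Set.mem_ofPred_eq] at hω
    push Not at hω
    have h3 := hω k hk
    rw [abs_le] at hk2
    have hfl : (n0 t : ℝ) ≤ qt d (radius d t) - w t := Nat.floor_le hwq
    have hn0k : n0 t ≤ k := by
      have : (n0 t : ℝ) ≤ k := by linarith [hk2.1]
      exact_mod_cast this
    refine ⟨k - n0 t, ?_, ?_⟩
    · have h4 := Nat.lt_floor_add_one (qt d (radius d t) - w t)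
      have h5 := Nat.le_ceil (2 * w t)
      have h6 : (k : ℝ) ≤ n0 t + W t := by
        simp only [hW, hn0]; push_cast; linarith [hk2.2]
      have h7 : k ≤ n0 t + W t := by exact_mod_cast h6
      omega
    · rw [Nat.add_sub_cancel' hn0k]
      exact h3
  · left; exact hωG

/-- positive probability of few, and of many, sites -/
theorem card_prob [IsProbabilityMeasure P] (H : HypH ν) (hd : 3 ≤ d)
    (hOB : X.OB P (a2 d / 2 + 1 / 8)) (K : ℝ) : ∃ c : ℝ, 0 < c ∧ ∀ᶠ t : ℕ in atTop,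
      ENNReal.ofReal c ≤ P {ω | ((X.A t ω).card : ℝ) ≤ t - K * √(radius d t ^ (d + 2))} ∧
      ENNReal.ofReal c ≤ P {ω | (t : ℝ) + K * √(radius d t ^ (d + 2)) ≤ ((X.A t ω).card : ℝ)} := by
  have hd1 : 1 ≤ d := by omega
  obtain ⟨n0, c1, hc1, hn0, hdet⟩ := X.det_time (P := P) H hd hOB
  set K' : ℝ := (|K| + 1) / √c1 with hK'
  have hsc : 0 < √c1 := Real.sqrt_pos.2 hc1
  have hK'0 : 0 < K' := by positivity
  obtain ⟨c, hc, hprob⟩ := X.S_prob (P := P) H hd1 K'
  refine ⟨c / 2, by positivity, ?_⟩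
  have hn0top : Tendsto n0 atTop atTop := by
    rw [← tendsto_natCast_atTop_iff (R := ℝ)]
    refine tendsto_atTop_mono' atTop hn0 ?_
    refine Tendsto.const_mul_atTop hc1 ?_
    exact (tendsto_pow_atTop (by omega)).comp (tendsto_radius hd1)
  have h1 := hdet 1 one_pos
  have hc2 : 0 < ENNReal.ofReal (c / 2) := by rw [ENNReal.ofReal_pos]; positivity
  filter_upwards [hn0, hn0top.eventually hprob, h1.eventually (gt_mem_nhds hc2)] with t g1 g2 g3
  set s := √(radius d (t : ℝ) ^ (d + 2)) with hs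
  have hs0 : 0 ≤ s := Real.sqrt_nonneg _
  have hKs : (|K| + 1) * s ≤ K' * √(n0 t : ℝ) := by
    have h10 : √c1 * s ≤ √(n0 t : ℝ) := by
      rw [hs, ← Real.sqrt_mul hc1.le]
      exact Real.sqrt_le_sqrt g1
    have := mul_le_mul_of_nonneg_left h10 hK'0.le
    calc (|K| + 1) * s = K' * (√c1 * s) := by rw [hK']; field_simp
      _ ≤ _ := this
  have hKs2 : K * s ≤ |K| * s := mul_le_mul_of_nonneg_right (le_abs_self K) hs0
  have conv : ∀ (E F : Set Ω), c ≤ (P E).toReal →
      E ⊆ F ∪ {ω | ¬ ∃ k, ω ∈ X.Done t k ∧ |X.S k ω - X.S (n0 t) ω| < 1 * s} →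
      ENNReal.ofReal (c / 2) ≤ P F := by
    intro E F hE hEF
    have h2 : ENNReal.ofReal c ≤ P E := by
      rw [← ENNReal.ofReal_toReal (measure_ne_top P E)]
      exact ENNReal.ofReal_le_ofReal hE
    have h3 : ENNReal.ofReal c ≤ P F + ENNReal.ofReal (c / 2) :=
      h2.trans ((measure_mono hEF).trans ((measure_union_le _ _).trans (add_le_add le_rfl g3.le)))
    have h4 : ENNReal.ofReal c = ENNReal.ofReal (c / 2) + ENNReal.ofReal (c / 2) := by
      rw [← ENNReal.ofReal_add (by positivity) (by positivity)]; congr 1; ring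
    rw [h4] at h3
    exact (ENNReal.add_le_add_iff_right ENNReal.ofReal_ne_top).1 h3
  constructor
  · refine conv _ _ g2.2 ?_
    intro ω hω
    by_cases hg : ∃ k, ω ∈ X.Done t k ∧ |X.S k ω - X.S (n0 t) ω| < 1 * s
    · left
      obtain ⟨k, hk, hk2⟩ := hg
      rw [Set.mem_ofPred_eq] at hω ⊢
      rw [X.card_A hk]
      have := (abs_lt.1 hk2).2
      linarith
    · right; exact hg
  · refine conv _ _ g2.1 ?_
    intro ω hω
    by_cases hg : ∃ k, ω ∈ X.Done t k ∧ |X.S k ω - X.S (n0 t) ω| < 1 * s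
    · left
      obtain ⟨k, hk, hk2⟩ := hg
      rw [Set.mem_ofPred_eq] at hω ⊢
      rw [X.card_A hk]
      have := (abs_lt.1 hk2).1
      linarith
    · right; exact hg

/-- anti-concentration of the number of sites -/
theorem card_anti [IsProbabilityMeasure P] (H : HypH ν) (hd : 3 ≤ d)
    (hOB : X.OB P (a2 d / 2 + 1 / 8)) {η : ℝ} (hη : 0 < η) : ∃ κ : ℝ, 0 < κ ∧
    ∀ᶠ t : ℕ in atTop,
      P {ω | |((X.A t ω).card : ℝ) - t| < κ * √(radius d t ^ (d + 2))} ≤ ENNReal.ofReal η := by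
  have hd1 : 1 ≤ d := by omega
  obtain ⟨n0, c1, hc1, hn0, hdet⟩ := X.det_time (P := P) H hd hOB
  have hsc : 0 < √c1 := Real.sqrt_pos.2 hc1
  obtain ⟨κ, hκ, hanti⟩ := walk_anti X.xi (X.iIndepFun_xi (P := P) hd1) (X.identDistrib_xi hd1)
    (X.memLp_xi H hd1) (X.integral_xi H hd1) (X.integral_xi_sq H hd1)
    (η := η / 2) (by positivity)
  have hn0top : Tendsto n0 atTop atTop := by
    rw [← tendsto_natCast_atTop_iff (R := ℝ)]
    refine tendsto_atTop_mono' atTop hn0 ?_
    refine Tendsto.const_mul_atTop hc1 ?_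
    exact (tendsto_pow_atTop (by omega)).comp (tendsto_radius hd1)
  refine ⟨κ * √c1 / 2, by positivity, ?_⟩
  have h1 := hdet (κ * √c1 / 2) (by positivity)
  have hη2 : 0 < ENNReal.ofReal (η / 2) := by rw [ENNReal.ofReal_pos]; positivity
  filter_upwards [hn0, hn0top.eventually hanti, h1.eventually (gt_mem_nhds hη2)] with t g1 g2 g3
  set s := √(radius d (t : ℝ) ^ (d + 2)) with hs
  have hs0 : 0 ≤ s := Real.sqrt_nonneg _
  have hKs : κ * √c1 * s ≤ κ * √(n0 t : ℝ) := by
    have h10 : √c1 * s ≤ √(n0 t : ℝ) := by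
      rw [hs, ← Real.sqrt_mul hc1.le]
      exact Real.sqrt_le_sqrt g1
    have := mul_le_mul_of_nonneg_left h10 hκ.le
    linarith
  have h4 : ENNReal.ofReal η = ENNReal.ofReal (η / 2) + ENNReal.ofReal (η / 2) := by
    rw [← ENNReal.ofReal_add (by positivity) (by positivity)]; congr 1; ring
  rw [h4]
  refine le_trans (measure_mono ?_) ((measure_union_le _ _).trans (add_le_add g2 g3.le))
  intro ω hω
  by_cases hg : ∃ k, ω ∈ X.Done t k ∧ |X.S k ω - X.S (n0 t) ω| < κ * √c1 / 2 * s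
  · left
    obtain ⟨k, hk, hk2⟩ := hg
    rw [Set.mem_ofPred_eq] at hω ⊢
    rw [X.card_A hk, add_sub_cancel_left] at hω
    have h5 : |X.S (n0 t) ω| ≤ |X.S k ω| + |X.S k ω - X.S (n0 t) ω| := by
      have := abs_sub_abs_le_abs_sub (X.S (n0 t) ω) (X.S k ω)
      rw [abs_sub_comm] at this
      linarith
    have h6 : |X.S (n0 t) ω| ≤ κ * √(n0 t : ℝ) := by linarith
    exact h6
  · right; exact hg

end Process

end BIDLA
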