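import Mathlib
import Pool.Agent.Work.MP_1354f0_pr.Main
import Pool.Agent.Work.MP_1354f0_pr.TypicalB
import Pool.Agent.Work.MP_1354f0_pr.OuterC

/-!
Deviations at typical times, dimension three.
-/

namespace BIDLA

open MeasureTheory Filter Topology
open scoped ENNReal

variable {ν : PMF ℕ} {Ω : Type*} [MeasurableSpace Ω] {P : Measure Ω}

namespace Process

theorem devs_prob [IsProbabilityMeasure P] (X : Process 3 ν P) (H : HypH ν)
    (hOB : X.OB P (a2 3 / 2 + 1 / 8)) (K : ℝ) : ∃ c : ℝ, 0 < c ∧ ∀ᶠ t : ℕ in atTop,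
      ENNReal.ofReal c ≤ P {ω | K * √(radius 3 t) ≤ devIn (radius 3 t) (X.A t ω)} ∧
      ENNReal.ofReal c ≤ P {ω | K * √(radius 3 t) ≤ devOut (radius 3 t) (X.A t ω)} := by
  have hw := unitVol_pos (d := 3)
  obtain ⟨c, hc, h⟩ := X.card_prob (P := P) H le_rfl hOB (unitVol 3 * 12 * (|K| + 2) + 1)
  refine ⟨c, hc, ?_⟩
  filter_upwards [h, ev_small |K|, (tendsto_radius (d := 3) (by norm_num)).eventually_ge_atTop 1]
    with t h1 h2 h3
  have hK : K * √(radius 3 t) ≤ |K| * √(radius 3 t) :=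
    mul_le_mul_of_nonneg_right (le_abs_self K) (Real.sqrt_nonneg _)
  have hs : 0 ≤ √(radius 3 (t : ℝ) ^ (3 + 2)) := Real.sqrt_nonneg _
  constructor
  · refine h1.1.trans (measure_mono ?_)
    intro ω hω
    rw [Set.mem_ofPred_eq] at hω ⊢
    refine hK.trans (devIn_lower_of (abs_nonneg K) h3 h2 ?_)
    have h4 : (unitVol 3 * 3 * (|K| + 2) + 1) * √(radius 3 (t : ℝ) ^ (3 + 2))
        ≤ (unitVol 3 * 12 * (|K| + 2) + 1) * √(radius 3 (t : ℝ) ^ (3 + 2)) := by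
      apply mul_le_mul_of_nonneg_right _ hs
      have : 0 ≤ unitVol 3 * (|K| + 2) := by positivity
      linarith
    linarith
  · refine h1.2.trans (measure_mono ?_)
    intro ω hω
    rw [Set.mem_ofPred_eq] at hω ⊢
    exact hK.trans (devOut_lower_of (abs_nonneg K) h3 h2 hω)

theorem devs_max [IsProbabilityMeasure P] (X : Process 3 ν P) (H : HypH ν)
    (hOB : X.OB P (a2 3 / 2 + 1 / 8)) {η : ℝ} (hη : 0 < η) : ∃ κ : ℝ, 0 < κ ∧
    ∀ᶠ t : ℕ in atTop,
      P {ω | max (devIn (radius 3 t) (X.A t ω)) (devOut (radius 3 t) (X.A t ω))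
        < κ * √(radius 3 t)} ≤ ENNReal.ofReal η := by
  have hw := unitVol_pos (d := 3)
  obtain ⟨κ0, hκ0, h⟩ := X.card_anti (P := P) H le_rfl hOB hη
  set κ : ℝ := κ0 / (48 * unitVol 3) with hκ
  have hκpos : 0 < κ := by positivity
  refine ⟨κ, hκpos, ?_⟩
  filter_upwards [h, ev_small κ, (tendsto_radius (d := 3) (by norm_num)).eventually_ge_atTop
    (max 1 ((96 * unitVol 3 / κ0) ^ 2))] with t h1 h2 h3
  have hr1 : 1 ≤ radius 3 t := (le_max_left _ _).trans h3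
  have hr2 : (96 * unitVol 3 / κ0) ^ 2 ≤ radius 3 t := (le_max_right _ _).trans h3
  refine le_trans (measure_mono ?_) h1
  intro ω hω
  rw [Set.mem_ofPred_eq, max_lt_iff] at hω
  rw [Set.mem_ofPred_eq]
  have hrp : unitVol 3 * radius 3 (t : ℝ) ^ 3 = t := radius_pow (by norm_num) (Nat.cast_nonneg t)
  set r := radius 3 (t : ℝ) with hr
  have hr0 : 0 < r := by linarith
  have hsr : 96 * unitVol 3 / κ0 ≤ √r := Real.le_sqrt_of_sq_le hr2
  have hsr0 : 0 < √r := Real.sqrt_pos.2 hr0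
  have hd3 : √((3 : ℕ) : ℝ) ≤ 2 := by rw [Real.sqrt_le_left (by norm_num)]; norm_num
  have hin : unitVol 3 * r ^ 3 - unitVol 3 * ((3 : ℕ) : ℝ) * (κ * √r + √((3 : ℕ) : ℝ)) * r ^ (3 - 1)
      ≤ ((X.A t ω).card : ℝ) := by
    by_contra hcon
    push Not at hcon
    exact absurd (le_devIn (D := κ * √r) (by norm_num) (by exact_mod_cast h2) hcon)
      (not_le.2 hω.1)
  have hout : ((X.A t ω).card : ℝ) ≤ unitVol 3 * r ^ 3
      + unitVol 3 * ((3 : ℕ) : ℝ) * (κ * √r + √((3 : ℕ) : ℝ)) * (2 * r) ^ (3 - 1) := by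
    by_contra hcon
    push Not at hcon
    exact absurd (le_devOut (D := κ * √r) (by norm_num) hr0.le (by positivity)
      (by exact_mod_cast h2) hcon) (not_le.2 hω.2)
  rw [show (3 : ℕ) + 2 = 5 by norm_num, sqrt_pow_five hr0.le]
  rw [hrp] at hin hout
  have e1 : unitVol 3 * ((3 : ℕ) : ℝ) * (κ * √r + √((3 : ℕ) : ℝ)) * (2 * r) ^ (3 - 1)
      ≤ 12 * unitVol 3 * (κ * √r + 2) * r ^ 2 := by
    calc unitVol 3 * ((3 : ℕ) : ℝ) * (κ * √r + √((3 : ℕ) : ℝ)) * (2 * r) ^ (3 - 1)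
        ≤ unitVol 3 * ((3 : ℕ) : ℝ) * (κ * √r + 2) * (2 * r) ^ (3 - 1) := by gcongr
      _ = _ := by push_cast; ring
  have e2 : unitVol 3 * ((3 : ℕ) : ℝ) * (κ * √r + √((3 : ℕ) : ℝ)) * r ^ (3 - 1)
      ≤ 12 * unitVol 3 * (κ * √r + 2) * r ^ 2 := by
    refine le_trans ?_ e1
    gcongr
    linarith
  have e3 : 12 * unitVol 3 * (κ * √r + 2) < κ0 * √r := by
    have h4 : 12 * unitVol 3 * (κ * √r) = κ0 / 4 * √r := by rw [hκ]; field_simp; ring
    have h5 : 96 * unitVol 3 ≤ κ0 * √r := by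
      rw [div_le_iff₀ hκ0] at hsr; linarith
    have h6 : 0 < κ0 * √r := by positivity
    have h7 : 12 * unitVol 3 * (κ * √r + 2) = κ0 / 4 * √r + 24 * unitVol 3 := by
      rw [mul_add, h4]; ring
    rw [h7]; linarith
  have e4 := mul_lt_mul_of_pos_right e3 (by positivity : 0 < r ^ 2)
  rw [abs_lt]
  constructor <;> linarith

end Process

end BIDLA
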